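import Pool.Agent.VCR.NHA

/-!
# VCR-NHB: the theorem of Nagata and Higman

Induction on the exponent: the products of `2 ^ n - 1` elements of `A` lie in the two-sided ideal
`U ∩ V`, where `U` consists of all `u` with `u * c * y ^ n ∈ I` and `V` of all `v` with `u * c * v ∈ I`
for `u ∈ U`.
-/

open Set

namespace VCR

universe v

theorem nagata_higman {R : Type v} [Ring R] (hQ : ∀ m : ℕ, m ≠ 0 → IsUnit (m : R)) {A : Set R}
    (hA : IsIdl A) (n : ℕ) (I : Set R) (hI : IsIdl I) (h : ∀ x ∈ A, x ^ n ∈ I) (l : List R)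
    (hl : ∀ a ∈ l, a ∈ A) (hlen : l.length = 2 ^ n - 1) : l.prod ∈ I := by
  induction n generalizing I l with
  | zero =>
    have h1 : l = [] := List.eq_nil_of_length_eq_zero (by simpa using hlen)
    subst h1
    have h2 := h 0 hA.zero
    rw [pow_zero] at h2
    rw [List.prod_nil]
    exact h2
  | succ n ih =>
    obtain ⟨U, hU⟩ : ∃ U : Set R, ∀ u, u ∈ U ↔ ∀ c ∈ A, ∀ y ∈ A, u * c * y ^ n ∈ I :=
      ⟨{u | ∀ c ∈ A, ∀ y ∈ A, u * c * y ^ n ∈ I}, fun u => Iff.rfl⟩
    obtain ⟨V, hV⟩ : ∃ V : Set R, ∀ v, v ∈ V ↔ ∀ c ∈ A, ∀ u ∈ U, u * c * v ∈ I :=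
      ⟨{v | ∀ c ∈ A, ∀ u ∈ U, u * c * v ∈ I}, fun u => Iff.rfl⟩
    have hUV : IsIdl (U ∩ V) := by
      refine ⟨⟨?_, ?_⟩, ?_, ?_, ?_⟩
      · rw [hU]
        intro c _ y _
        rw [zero_mul, zero_mul]
        exact hI.zero
      · rw [hV]
        intro c _ u _
        rw [mul_zero]
        exact hI.zero
      · rintro a ⟨ha1, ha2⟩ b ⟨hb1, hb2⟩
        rw [hU] at ha1 hb1
        rw [hV] at ha2 hb2
        constructor
        · rw [hU]
          intro c hc y hy
          rw [add_mul, add_mul]
          exact hI.add _ (ha1 c hc y hy) _ (hb1 c hc y hy)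
        · rw [hV]
          intro c hc u hu
          rw [mul_add]
          exact hI.add _ (ha2 c hc u hu) _ (hb2 c hc u hu)
      · rintro r a ⟨ha1, ha2⟩
        rw [hU] at ha1
        rw [hV] at ha2
        constructor
        · rw [hU]
          intro c hc y hy
          rw [mul_assoc r a c, mul_assoc r (a * c)]
          exact hI.left r _ (ha1 c hc y hy)
        · rw [hV]
          intro c hc u hu
          have h1 : u * c * (r * a) = u * (c * r) * a := by simp only [mul_assoc]
          rw [h1]
          exact ha2 _ (hA.right r c hc) u hu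
      · rintro r a ⟨ha1, ha2⟩
        rw [hU] at ha1
        rw [hV] at ha2
        constructor
        · rw [hU]
          intro c hc y hy
          rw [mul_assoc a r c]
          exact ha1 _ (hA.left r c hc) y hy
        · rw [hV]
          intro c hc u hu
          rw [← mul_assoc]
          exact hI.right r _ (ha2 c hc u hu)
    have hpow : ∀ x ∈ A, x ^ n ∈ U ∩ V := by
      intro x hx
      constructor
      · rw [hU]
        intro c hc y hy
        exact higman hQ hA hI n h x c y hx hc hy
      · rw [hV]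
        intro c hc u hu
        rw [hU] at hu
        exact hu c hc x hx
    have hp : 1 ≤ 2 ^ n := Nat.one_le_two_pow
    have hlen' : l.length = (2 ^ n - 1) + (1 + (2 ^ n - 1)) := by
      rw [hlen, pow_succ]
      omega
    have h1 : (l.drop (2 ^ n - 1)).length = 1 + (2 ^ n - 1) := by
      rw [List.length_drop, hlen']
      omega
    obtain ⟨c, l2, hcl⟩ : ∃ c l2, l.drop (2 ^ n - 1) = c :: l2 := by
      cases hd : l.drop (2 ^ n - 1) with
      | nil => rw [hd, List.length_nil] at h1; omega
      | cons c l2 => exact ⟨c, l2, rfl⟩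
    have hsplit : l = l.take (2 ^ n - 1) ++ c :: l2 := by
      rw [← hcl, List.take_append_drop]
    have hlen2 : l2.length = 2 ^ n - 1 := by
      rw [hcl, List.length_cons] at h1
      omega
    have hlen1 : (l.take (2 ^ n - 1)).length = 2 ^ n - 1 := by
      rw [List.length_take, hlen']
      omega
    have hl1 := ih (U ∩ V) hUV hpow (l.take (2 ^ n - 1))
      (fun a ha => hl a (List.mem_of_mem_take ha)) hlen1
    have hmem : ∀ a ∈ c :: l2, a ∈ A := by
      intro a ha
      apply hl
      rw [hsplit]
      exact List.mem_append_right _ ha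
    have hl2 := ih (U ∩ V) hUV hpow l2 (fun a ha => hmem a (List.mem_cons_of_mem _ ha)) hlen2
    rw [hsplit, List.prod_append, List.prod_cons, ← mul_assoc]
    exact (hV _).1 hl2.2 c (hmem c List.mem_cons_self) _ hl1.1

end VCR
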