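import Mathlib

/-!
# VCR-Defs: countable models as points of a Polish space, perfectly many models, interpretations
-/

open Set

namespace VCR

universe u v

/-- The space of `L`-structures on `ℕ` (functions `Fin n → ℕ` to `ℕ`, relations as `Bool`-valued
functions) with the product topology, `ℕ` and `Bool` being discrete. -/
abbrev Str (L : FirstOrder.Language.{0, 0}) : Type :=
  (∀ n, L.Functions n → (Fin n → ℕ) → ℕ) × (∀ n, L.Relations n → (Fin n → ℕ) → Bool)

/-- The `L`-structure on `ℕ` coded by `s`. -/
@[reducible] def toStructure {L : FirstOrder.Language.{0, 0}} (s : Str L) : L.Structure ℕ where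
  funMap {n} f x := s.1 n f x
  RelMap {n} r x := s.2 n r x = true

/-- `s ⊨ T` -/
def Models {L : FirstOrder.Language.{0, 0}} (s : Str L) (T : L.Theory) : Prop :=
  @FirstOrder.Language.Theory.Model L ℕ (toStructure s) T

/-- `s ⊨ φ(v)` -/
def Sat {L : FirstOrder.Language.{0, 0}} (s : Str L) {α : Type} (φ : L.Formula α) (v : α → ℕ) :
    Prop :=
  @FirstOrder.Language.Formula.Realize L ℕ (toStructure s) α φ v

/-- the set of (codes of) models of `T` with universe `ℕ` -/
def Mod {L : FirstOrder.Language.{0, 0}} (T : L.Theory) : Set (Str L) := {s | Models s T}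

/-- the coded structures are isomorphic -/
def Iso {L : FirstOrder.Language.{0, 0}} (s t : Str L) : Prop :=
  Nonempty (@FirstOrder.Language.Equiv L ℕ ℕ (toStructure s) (toStructure t))

/-- `T` has perfectly many countable models: `Mod T` contains a nonempty perfect set of pairwise
non-isomorphic models. -/
def PerfectMany {L : FirstOrder.Language.{0, 0}} (T : L.Theory) : Prop :=
  ∃ P : Set (Str L), P.Nonempty ∧ Perfect P ∧ P ⊆ Mod T ∧ P.Pairwise fun s t => ¬ Iso s t

/-- The perfect set form of Vaught's conjecture for `T` -/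
def VC2 {L : FirstOrder.Language.{0, 0}} (T : L.Theory) : Prop :=
  (∃ C : Set (Str L), C.Countable ∧ ∀ s ∈ Mod T, ∃ t ∈ C, Iso s t) ∨ PerfectMany T

/-- The ring `R` is interpretable, with parameters, in the `L`-structure `M`: it is the image of a
definable set `dom` of `k`-tuples such that equality, addition and multiplication of `R` become
definable relations between `k`-tuples. -/
def Interpretable (L : FirstOrder.Language.{0, 0}) (M : Type u) [L.Structure M] (R : Type v)
    [Ring R] : Prop :=
  ∃ (k : ℕ) (dom : Set (Fin k → M)) (val : (Fin k → M) → R),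
    (∀ r : R, ∃ u ∈ dom, val u = r) ∧
    (univ : Set M).Definable L dom ∧
    (univ : Set M).Definable L {w : Fin 2 × Fin k → M | (∀ i, (fun j => w (i, j)) ∈ dom) ∧
      val (fun j => w (0, j)) = val (fun j => w (1, j))} ∧
    (univ : Set M).Definable L {w : Fin 3 × Fin k → M | (∀ i, (fun j => w (i, j)) ∈ dom) ∧
      val (fun j => w (0, j)) + val (fun j => w (1, j)) = val (fun j => w (2, j))} ∧
    (univ : Set M).Definable L {w : Fin 3 × Fin k → M | (∀ i, (fun j => w (i, j)) ∈ dom) ∧
      val (fun j => w (0, j)) * val (fun j => w (1, j)) = val (fun j => w (2, j))}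

/-- A division ring of Cohn type: it is not commutative and every map `x ↦ a * x - x * b` which is
not identically zero is onto. -/
def CohnType (D : Type v) [DivisionRing D] : Prop :=
  (∃ a b : D, a * b ≠ b * a) ∧
    ∀ a b : D, (∃ z, a * z ≠ z * b) → ∀ c, ∃ x, a * x - x * b = c

/-- There is a homomorphism with nilpotent kernel from `R` onto a finite product of full matrix rings
over algebraically closed fields of characteristic `0` and over division rings of characteristic `0` of
Cohn type. -/
def IsCohnSemiprimary (R : Type v) [Ring R] : Prop :=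
  ∃ (n m : ℕ) (a : Fin n → ℕ) (K : Fin n → Type v) (_ : ∀ i, Field (K i)) (b : Fin m → ℕ)
    (E : Fin m → Type v) (_ : ∀ j, DivisionRing (E j))
    (f : R →+* (∀ i, Matrix (Fin (a i)) (Fin (a i)) (K i)) ×
      (∀ j, Matrix (Fin (b j)) (Fin (b j)) (E j))),
    (∀ i, 0 < a i ∧ CharZero (K i) ∧ IsAlgClosed (K i)) ∧
    (∀ j, 0 < b j ∧ CharZero (E j) ∧ CohnType (E j)) ∧ Function.Surjective f ∧
    ∃ N : ℕ, ∀ x : Fin N → R, (∀ i, f (x i) = 0) → (List.ofFn x).prod = 0

/-- The structure on `ℕ` coded by `s` is isomorphic to the ring `R`. -/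
def IsRingStr (s : Str FirstOrder.Language.ring) (R : Type) [Ring R] : Prop :=
  ∃ e : ℕ ≃ R,
    (∀ v : Fin 2 → ℕ, e (s.1 2 FirstOrder.ringFunc.add v) = e (v 0) + e (v 1)) ∧
    (∀ v : Fin 2 → ℕ, e (s.1 2 FirstOrder.ringFunc.mul v) = e (v 0) * e (v 1)) ∧
    (∀ v : Fin 1 → ℕ, e (s.1 1 FirstOrder.ringFunc.neg v) = - e (v 0)) ∧
    (∀ v : Fin 0 → ℕ, e (s.1 0 FirstOrder.ringFunc.zero v) = 0) ∧
    (∀ v : Fin 0 → ℕ, e (s.1 0 FirstOrder.ringFunc.one v) = 1)

end VCR
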