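import Mathlib

/-!
# VCR-Num: continuous numbering of the classes of a locally constant equivalence relation on `ℕ`

The classes are numbered by their least elements.
-/

open Set

namespace VCR

private def fst (E : ℕ → ℕ → Prop) (j : ℕ) : Prop := ∀ i < j, ¬ E i j

open scoped Classical in
private noncomputable def rep (E : ℕ → ℕ → Prop) (hE : Equivalence E) (a : ℕ) : ℕ :=
  Nat.find (⟨a, hE.refl a⟩ : ∃ i, E i a)

open scoped Classical in
private theorem rep_spec (E : ℕ → ℕ → Prop) (hE : Equivalence E) (a : ℕ) :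
    E (rep E hE a) a := by
  unfold rep
  exact Nat.find_spec (⟨a, hE.refl a⟩ : ∃ i, E i a)

open scoped Classical in
private theorem rep_min (E : ℕ → ℕ → Prop) (hE : Equivalence E) {a i : ℕ} (h : E i a) :
    rep E hE a ≤ i := by
  unfold rep
  exact Nat.find_min' _ h

private theorem rep_le (E : ℕ → ℕ → Prop) (hE : Equivalence E) (a : ℕ) : rep E hE a ≤ a :=
  rep_min E hE (hE.refl a)

private theorem rep_fst (E : ℕ → ℕ → Prop) (hE : Equivalence E) (a : ℕ) :
    fst E (rep E hE a) := by
  intro i hi h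
  have h1 := rep_min E hE (hE.trans h (rep_spec E hE a))
  omega

private theorem rep_iff (E : ℕ → ℕ → Prop) (hE : Equivalence E) (a b : ℕ) :
    E a b ↔ rep E hE a = rep E hE b := by
  constructor
  · intro h
    apply le_antisymm
    · exact rep_min E hE (hE.trans (rep_spec E hE b) (hE.symm h))
    · exact rep_min E hE (hE.trans (rep_spec E hE a) h)
  · intro h
    have h1 := rep_spec E hE a
    rw [h] at h1
    exact hE.trans (hE.symm h1) (rep_spec E hE b)

private theorem rep_self (E : ℕ → ℕ → Prop) (hE : Equivalence E) {j : ℕ} (h : fst E j) :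
    rep E hE j = j := by
  apply le_antisymm (rep_le E hE j)
  by_contra hc
  exact h _ (not_le.1 hc) (rep_spec E hE j)

private theorem fst_inf (E : ℕ → ℕ → Prop) (hE : Equivalence E)
    (hinf : ∀ n : ℕ, ∃ j, ∀ i < n, ¬ E i j) : (setOf (fst E)).Infinite := by
  apply Set.infinite_of_forall_exists_gt
  intro n
  classical
  have h1 := Nat.find_spec (hinf (n + 1))
  refine ⟨Nat.find (hinf (n + 1)), ?_, ?_⟩
  · intro i hi h
    apply Nat.find_min (hinf (n + 1)) hi
    intro i' hi' h'
    exact h1 i' hi' (hE.trans h' h)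
  · by_contra hc
    exact h1 _ (by omega) (hE.refl _)

private theorem loc_open {X : Type} [TopologicalSpace X] (E : X → ℕ → ℕ → Prop)
    (hloc : ∀ i j, IsClopen {x | E x i j}) (x : X) (N : ℕ) :
    ∃ U : Set X, IsOpen U ∧ x ∈ U ∧ ∀ x' ∈ U, ∀ i ≤ N, ∀ j ≤ N, (E x' i j ↔ E x i j) := by
  refine ⟨⋂ i ∈ Finset.range (N + 1), ⋂ j ∈ Finset.range (N + 1), {x' | E x' i j ↔ E x i j},
    ?_, ?_, ?_⟩
  · refine isOpen_biInter_finset fun i _ => isOpen_biInter_finset fun j _ => ?_
    by_cases h : E x i j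
    · have : {x' | E x' i j ↔ E x i j} = {x' | E x' i j} := by
        ext x'
        simp [h]
      rw [this]
      exact (hloc i j).isOpen
    · have : {x' | E x' i j ↔ E x i j} = {x' | E x' i j}ᶜ := by
        ext x'
        simp [h]
      rw [this]
      exact (hloc i j).compl.isOpen
  · simp
  · intro x' hx' i hi j hj
    simp only [mem_iInter, Finset.mem_range, mem_setOf_eq] at hx'
    exact hx' i (by omega) j (by omega)

private theorem agree_fst {E E' : ℕ → ℕ → Prop} {N : ℕ}
    (h : ∀ i ≤ N, ∀ j ≤ N, (E' i j ↔ E i j)) {j : ℕ} (hj : j ≤ N) : fst E' j ↔ fst E j := by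
  constructor
  · intro h1 i hi h2
    exact h1 i hi ((h i (by omega) j hj).2 h2)
  · intro h1 i hi h2
    exact h1 i hi ((h i (by omega) j hj).1 h2)

open scoped Classical in
private theorem agree_count {E E' : ℕ → ℕ → Prop} {N : ℕ}
    (h : ∀ i ≤ N, ∀ j ≤ N, (E' i j ↔ E i j)) {m : ℕ} (hm : m ≤ N) :
    Nat.count (fst E') m = Nat.count (fst E) m := by
  rw [Nat.count_eq_card_filter_range, Nat.count_eq_card_filter_range]
  congr 1
  apply Finset.filter_congr
  intro j hj
  exact agree_fst h (by have := Finset.mem_range.1 hj; omega)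

private theorem agree_rep {E E' : ℕ → ℕ → Prop} {N : ℕ} (hE : Equivalence E)
    (hE' : Equivalence E') (h : ∀ i ≤ N, ∀ j ≤ N, (E' i j ↔ E i j)) {a : ℕ} (ha : a ≤ N) :
    rep E' hE' a = rep E hE a := by
  have h1 := rep_le E hE a
  have h2 := rep_le E' hE' a
  apply le_antisymm
  · exact rep_min E' hE' ((h _ (by omega) _ ha).2 (rep_spec E hE a))
  · exact rep_min E hE ((h _ (by omega) _ ha).1 (rep_spec E' hE' a))

open scoped Classical in
theorem exists_numbering {X : Type} [TopologicalSpace X] (E : X → ℕ → ℕ → Prop)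
    (hE : ∀ x, Equivalence (E x)) (hinf : ∀ x (n : ℕ), ∃ j, ∀ i < n, ¬ E x i j)
    (hloc : ∀ i j, IsClopen {x | E x i j}) :
    ∃ ν κ : X → ℕ → ℕ, (∀ i, Continuous fun x => ν x i) ∧ (∀ a, Continuous fun x => κ x a) ∧
      (∀ x i, κ x (ν x i) = i) ∧ ∀ x a b, E x a b ↔ κ x a = κ x b := by
  refine ⟨fun x i => Nat.nth (fst (E x)) i,
    fun x a => Nat.count (fst (E x)) (rep (E x) (hE x) a), ?_, ?_, ?_, ?_⟩
  · intro i
    apply IsLocallyConstant.continuous
    rw [IsLocallyConstant.iff_exists_open]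
    intro x
    have hx := fst_inf (E x) (hE x) (hinf x)
    obtain ⟨U, hU, hxU, h⟩ := loc_open E hloc x (Nat.nth (fst (E x)) i)
    refine ⟨U, hU, hxU, fun x' hx' => ?_⟩
    have h1 : fst (E x') (Nat.nth (fst (E x)) i) :=
      (agree_fst (h x' hx') le_rfl).2 (Nat.nth_mem_of_infinite hx i)
    have h2 : Nat.count (fst (E x')) (Nat.nth (fst (E x)) i) = i := by
      rw [agree_count (h x' hx') le_rfl, Nat.count_nth_of_infinite hx]
    have h3 := Nat.nth_count h1
    rw [h2] at h3
    exact h3
  · intro a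
    apply IsLocallyConstant.continuous
    rw [IsLocallyConstant.iff_exists_open]
    intro x
    obtain ⟨U, hU, hxU, h⟩ := loc_open E hloc x a
    refine ⟨U, hU, hxU, fun x' hx' => ?_⟩
    show Nat.count (fst (E x')) (rep (E x') (hE x') a) = Nat.count (fst (E x)) (rep (E x) (hE x) a)
    rw [agree_rep (hE x) (hE x') (h x' hx') le_rfl,
      agree_count (h x' hx') (rep_le (E x) (hE x) a)]
  · intro x i
    have hx := fst_inf (E x) (hE x) (hinf x)
    show Nat.count (fst (E x)) (rep (E x) (hE x) (Nat.nth (fst (E x)) i)) = i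
    rw [rep_self (E x) (hE x) (Nat.nth_mem_of_infinite hx i), Nat.count_nth_of_infinite hx]
  · intro x a b
    show E x a b ↔ Nat.count (fst (E x)) (rep (E x) (hE x) a) =
      Nat.count (fst (E x)) (rep (E x) (hE x) b)
    rw [rep_iff (E x) (hE x) a b]
    constructor
    · intro h
      rw [h]
    · intro h
      exact Nat.count_injective (rep_fst (E x) (hE x) a) (rep_fst (E x) (hE x) b) h

end VCR
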