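import Pool.Agent.VCR.MycA

/-!
# VCR-MycB: a perfect set avoiding countably many closed relations with small sections
-/

open Set

namespace VCR

private theorem mb_getD {l l' : List Bool} (h : l <:+ l') {k : ℕ} (hk : k < l.length) :
    l'.reverse.getD k false = l.reverse.getD k false := by
  obtain ⟨u, rfl⟩ := h
  rw [List.reverse_append]
  have hk' : k < l.reverse.length := by rwa [List.length_reverse]
  exact List.getD_append _ _ _ _ hk'

private theorem mb_cyl {x : ℕ → Bool} (l : List Bool) :
    (∀ k < l.length, x k = l.reverse.getD k false) → x ∈ cyl l := by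
  induction l with
  | nil =>
    intro _
    rfl
  | cons i t ih =>
    intro h
    have h1 : x ∈ cyl t := by
      apply ih
      intro k hk
      rw [h k (by rw [List.length_cons]; omega)]
      exact mb_getD (List.suffix_cons i t) hk
    have h2 : x t.length = i := by
      rw [h t.length (by rw [List.length_cons]; omega), List.reverse_cons]
      have e : t.length = t.reverse.length + 0 := by rw [List.length_reverse, add_zero]
      rw [e, List.getD_append_right _ _ _ _ (by omega)]
      simp
    show PiNat.res x (i :: t).length = i :: t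
    have h3 : PiNat.res x t.length = t := h1
    rw [List.length_cons]
    show x t.length :: PiNat.res x t.length = i :: t
    rw [h2, h3]

private theorem mb_step (C : ℕ → Set ((ℕ → Bool) × (ℕ → Bool)))
    (hC : ∀ m, IsClosed (C m))
    (h1 : ∀ m x y y', (x, y) ∈ C m → (x, y') ∈ C m → y = y') (n : ℕ) (g : List Bool → List Bool) :
    ∃ g' : List Bool → List Bool, (∀ i t, t.length = n → i :: g t <:+ g' (i :: t)) ∧
      ∀ s t, s.length = n + 1 → t.length = n + 1 → s ≠ t → ∀ m ≤ n, ∀ x ∈ cyl (g' s),
        ∀ y ∈ cyl (g' t), (x, y) ∉ C m := by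
  classical
  have hfin : Finite {s : List Bool // s.length = n + 1} := List.finite_length_eq Bool (n + 1)
  obtain ⟨l', hl1, hl2⟩ := exists_avoid (ι := {s : List Bool // s.length = n + 1}) C hC h1
    (fun s => s.1.headD false :: g s.1.tail) n
  refine ⟨fun s => if h : s.length = n + 1 then l' ⟨s, h⟩ else [], ?_, ?_⟩
  · intro i t ht
    have h2 : (i :: t).length = n + 1 := by rw [List.length_cons, ht]
    have h3 := hl1 ⟨i :: t, h2⟩
    simp only [dif_pos h2]
    exact h3
  · intro s t hs ht hst m hm x hx y hy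
    simp only [dif_pos hs] at hx
    simp only [dif_pos ht] at hy
    refine hl2 ⟨s, hs⟩ ⟨t, ht⟩ ?_ m hm x hx y hy
    intro h
    exact hst (congrArg Subtype.val h)

private theorem mb_nat (C : ℕ → Set ((ℕ → Bool) × (ℕ → Bool)))
    (hC : ∀ m, IsClosed (C m))
    (h1 : ∀ m x y y', (x, y) ∈ C m → (x, y') ∈ C m → y = y') :
    ∃ h : (ℕ → Bool) → (ℕ → Bool), Continuous h ∧ ∀ a b, a ≠ b → ∀ m, (h a, h b) ∉ C m := by
  choose F hFa hFb using mb_step C hC h1
  obtain ⟨G, hG⟩ : ∃ G : ℕ → List Bool → List Bool, ∀ n, G (n + 1) = F n (G n) :=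
    ⟨fun n => Nat.rec (fun _ => []) F n, fun n => rfl⟩
  obtain ⟨L, hL⟩ : ∃ L : (ℕ → Bool) → ℕ → List Bool, ∀ a n, L a n = G n (PiNat.res a n) :=
    ⟨fun a n => G n (PiNat.res a n), fun _ _ => rfl⟩
  have hstep : ∀ a n, a n :: L a n <:+ L a (n + 1) := by
    intro a n
    rw [hL, hL, hG]
    exact hFa n (G n) (a n) (PiNat.res a n) (PiNat.res_length a n)
  have hlen : ∀ a n, n ≤ (L a n).length := by
    intro a n
    induction n with
    | zero => exact Nat.zero_le _
    | succ n ih =>
      have h2 := (hstep a n).length_le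
      rw [List.length_cons] at h2
      omega
  have hmono : ∀ a n d, L a n <:+ L a (n + d) := by
    intro a n d
    induction d with
    | zero => exact List.suffix_rfl
    | succ d ih => exact ih.trans ((List.suffix_cons _ _).trans (hstep a (n + d)))
  obtain ⟨h, hh⟩ : ∃ h : (ℕ → Bool) → (ℕ → Bool), ∀ a k, h a k = (L a (k + 1)).reverse.getD k false :=
    ⟨fun a k => (L a (k + 1)).reverse.getD k false, fun _ _ => rfl⟩
  have hmem : ∀ a n, h a ∈ cyl (L a n) := by
    intro a n
    apply mb_cyl
    intro k hk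
    rw [hh]
    rcases Nat.le_total (k + 1) n with hle | hle
    · obtain ⟨d, rfl⟩ := Nat.exists_eq_add_of_le hle
      have h2 := hlen a (k + 1)
      exact (mb_getD (hmono a (k + 1) d) (by omega)).symm
    · obtain ⟨d, hd⟩ := Nat.exists_eq_add_of_le hle
      have h2 := hmono a n d
      rw [← hd] at h2
      exact mb_getD h2 hk
  refine ⟨h, ?_, ?_⟩
  · apply continuous_pi
    intro k
    apply IsLocallyConstant.continuous
    rw [IsLocallyConstant.iff_exists_open]
    intro a
    refine ⟨PiNat.cylinder a (k + 1), PiNat.isOpen_cylinder _ _ _, PiNat.self_mem_cylinder _ _, ?_⟩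
    intro b hb
    rw [PiNat.cylinder_eq_res] at hb
    have hb' : PiNat.res b (k + 1) = PiNat.res a (k + 1) := hb
    rw [hh, hh, hL, hL, hb']
  · intro a b hab m
    obtain ⟨n, hn⟩ := Function.ne_iff.mp hab
    have hne : PiNat.res a (max n m + 1) ≠ PiNat.res b (max n m + 1) := by
      intro h2
      rw [PiNat.res_eq_res] at h2
      exact hn (h2 (Nat.lt_succ_of_le (le_max_left _ _)))
    have h3 := hFb (max n m) (G (max n m)) _ _ (PiNat.res_length a (max n m + 1))
      (PiNat.res_length b (max n m + 1)) hne m (le_max_right _ _)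
    rw [← hG, ← hL, ← hL] at h3
    exact h3 _ (hmem a _) _ (hmem b _)

theorem exists_mycielski {κ : Type} [Countable κ] (C : κ → Set ((ℕ → Bool) × (ℕ → Bool)))
    (hC : ∀ m, IsClosed (C m))
    (h1 : ∀ m x y y', (x, y) ∈ C m → (x, y') ∈ C m → y = y') :
    ∃ h : (ℕ → Bool) → (ℕ → Bool), Continuous h ∧ Function.Injective h ∧
      ∀ a b, a ≠ b → ∀ m, (h a, h b) ∉ C m := by
  obtain ⟨f, hf⟩ := exists_surjective_nat (Option κ)
  obtain ⟨D, hD0, hD1⟩ : ∃ D : Option κ → Set ((ℕ → Bool) × (ℕ → Bool)),
      D none = Set.diagonal (ℕ → Bool) ∧ ∀ m, D (some m) = C m :=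
    ⟨fun o => Option.casesOn o (Set.diagonal (ℕ → Bool)) C, rfl, fun _ => rfl⟩
  obtain ⟨h, hc, ha⟩ := mb_nat (fun n => D (f n)) (by
    intro n
    show IsClosed (D (f n))
    cases f n with
    | none =>
      rw [hD0]
      exact isClosed_diagonal
    | some m =>
      rw [hD1]
      exact hC m) (by
    intro n x y y' h2 h3
    have h2' : (x, y) ∈ D (f n) := h2
    have h3' : (x, y') ∈ D (f n) := h3
    cases hn : f n with
    | none =>
      rw [hn, hD0, Set.mem_diagonal_iff] at h2' h3'
      exact h2'.symm.trans h3'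
    | some m =>
      rw [hn, hD1] at h2' h3'
      exact h1 m x y y' h2' h3')
  refine ⟨h, hc, ?_, ?_⟩
  · intro a b hab
    by_contra hne
    obtain ⟨n, hn⟩ := hf none
    apply ha a b hne n
    show (h a, h b) ∈ D (f n)
    rw [hn, hD0, Set.mem_diagonal_iff]
    exact hab
  · intro a b hne m h2
    obtain ⟨n, hn⟩ := hf (some m)
    apply ha a b hne n
    show (h a, h b) ∈ D (f n)
    rw [hn, hD1]
    exact h2

end VCR
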