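import Pool.Agent.VCR.Defs

/-!
# VCR-Perf: a continuous family of pairwise non-isomorphic models over the Cantor space

The range of the family is the perfect set.
-/

open Set

namespace VCR

theorem perfectMany_of_cantor {L : FirstOrder.Language.{0, 0}} (T : L.Theory)
    (s : (ℕ → Bool) → Str L) (hs : Continuous s) (hmod : ∀ x, s x ∈ Mod T)
    (hiso : ∀ x y, x ≠ y → ¬ Iso (s x) (s y)) : PerfectMany T := by
  have hinj : ∀ x y, x ≠ y → s x ≠ s y := by
    intro x y hxy h
    apply hiso x y hxy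
    rw [h]
    exact ⟨@FirstOrder.Language.Equiv.refl L ℕ (toStructure (s y))⟩
  refine ⟨Set.range s, ⟨s (fun _ => false), ⟨_, rfl⟩⟩, ⟨?_, ?_⟩, ?_, ?_⟩
  · exact (isCompact_range hs).isClosed
  · rw [preperfect_iff_nhds]
    rintro _ ⟨x, rfl⟩ U hU
    have h1 : s ⁻¹' U ∈ nhds x := hs.continuousAt hU
    have h2 : Filter.Tendsto (fun n : ℕ => Function.update x n (!x n)) Filter.atTop (nhds x) := by
      rw [tendsto_pi_nhds]
      intro i
      apply tendsto_const_nhds.congr'
      filter_upwards [Filter.eventually_gt_atTop i] with n hn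
      rw [Function.update_of_ne hn.ne]
    obtain ⟨n, hn⟩ := (h2.eventually h1).exists
    refine ⟨s (Function.update x n (!x n)), ⟨hn, ⟨_, rfl⟩⟩, ?_⟩
    apply hinj
    intro h
    have h3 := congrFun h n
    rw [Function.update_self] at h3
    cases hx : x n <;> rw [hx] at h3 <;> cases h3
  · rintro _ ⟨x, rfl⟩
    exact hmod x
  · rintro _ ⟨x, rfl⟩ _ ⟨y, rfl⟩ hxy
    apply hiso x y
    rintro rfl
    exact hxy rfl

end VCR
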