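import Pool.Agent.VCR.MacB

/-!
# VCR-MacC: a field of characteristic `0` all of whose finite extensions have all prime roots is
algebraically closed
-/

open Set

namespace VCR

universe v

theorem isAlgClosed_of_roots {K : Type v} [Field K] [CharZero K]
    (h : ∀ (L : Type v) [Field L] [Algebra K L] [FiniteDimensional K L] (q : ℕ), q.Prime →
      ∀ x : L, ∃ y, y ^ q = x) : IsAlgClosed K := by
  apply IsAlgClosed.of_exists_root
  intro p _ hirr
  by_contra hno
  have hg : IsGalois K p.SplittingField :=
    IsGalois.of_separable_splitting_field (p := p) hirr.separable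
  have h1 : Module.finrank K p.SplittingField ≠ 1 := by
    intro h1
    have hbt : (⊥ : Subalgebra K p.SplittingField) = ⊤ :=
      Subalgebra.bot_eq_top_of_finrank_eq_one h1
    have hdeg : (p.map (algebraMap K p.SplittingField)).degree ≠ 0 := by
      rw [Polynomial.degree_map]
      exact (Polynomial.degree_pos_of_irreducible hirr).ne'
    obtain ⟨a, ha⟩ := (Polynomial.SplittingField.splits p).exists_eval_eq_zero hdeg
    have ha2 : a ∈ (⊥ : Subalgebra K p.SplittingField) := by
      rw [hbt]
      exact Algebra.mem_top
    obtain ⟨b, hb⟩ := Algebra.mem_bot.mp ha2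
    apply hno
    refine ⟨b, ?_⟩
    rw [← hb, Polynomial.eval_map_algebraMap, Polynomial.aeval_algebraMap_apply] at ha
    have h2 := (FaithfulSMul.algebraMap_injective K p.SplittingField) (ha.trans (map_zero _).symm)
    rw [Polynomial.coe_aeval_eq_eval] at h2
    exact h2
  obtain ⟨q, hq, hdvd⟩ := Nat.exists_prime_and_dvd h1
  exact not_bad h q hq (bad_of_galois (F := K) q hq hdvd)

end VCR
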