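import Pool.Agent.VCR.RootB

/-!
# VCR-RootC: if the `q`-th powers have finite index then every element is a `q`-th power

`pow_surj`: modulo the ideal of `exists_ideal` the set of the vectors whose second coordinate is in `g * (K^*)^q` does
not change if `g` is divided by `h ∈ G`, since it is equivalent to the set of vectors with `- f false ∈ g * (K^*)^q`. If
`h` is not a `q`-th power these sets are disjoint, so they belong to the ideal, and so does the whole plane.
-/

open Set

namespace VCR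

universe v

theorem pow_surj {K : Type v} [Field K] [CharZero K] (𝓓 : Calc K) [RC 𝓓] (q : ℕ) (hq : 0 < q)
    (G : Finset K) (hG0 : ∀ g ∈ G, g ≠ 0)
    (hG : ∀ x : K, x ≠ 0 → ∃ g ∈ G, ∃ y, x = g * y ^ q) (x : K) : ∃ y, y ^ q = x := by
  by_contra hx
  have hx' : ∀ y, y ^ q ≠ x := fun y hy => hx ⟨y, hy⟩
  have hx0 : x ≠ 0 := by
    rintro rfl
    exact hx' 0 (zero_pow hq.ne')
  obtain ⟨h, hhG, y0, hy0⟩ := hG x hx0
  have hh : ∀ y, y ^ q ≠ h := by
    intro y hy
    apply hx' (y * y0)
    rw [mul_pow, hy, ← hy0]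
  have hh0 : h ≠ 0 := hG0 h hhG
  obtain ⟨𝓔, J, hRC, hGE, hJB, hJdown, hJun, hJuniv, hJ0, hdg, ht1, ht2⟩ := exists_ideal 𝓓 G hG0
  have hBsd : ∀ S S' : Set (Bool → K), S ∈ 𝓔.D Bool → S' ∈ 𝓔.D Bool → symmDiff S S' ∈ 𝓔.D Bool := by
    intro S S' hS hS'
    have h1 : Dp 𝓔 (fun f : Bool → K => (f ∈ S ∧ ¬ f ∈ S') ∨ (f ∈ S' ∧ ¬ f ∈ S)) :=
      Dp.or (Dp.and hS (Dp.not hS')) (Dp.and hS' (Dp.not hS))
    have h2 : {f : Bool → K | (f ∈ S ∧ ¬ f ∈ S') ∨ (f ∈ S' ∧ ¬ f ∈ S)} = symmDiff S S' := by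
      ext f
      rw [Set.mem_symmDiff]
      rfl
    rw [← h2]
    exact h1
  have htr : ∀ S S' S'' : Set (Bool → K), S ∈ 𝓔.D Bool → S'' ∈ 𝓔.D Bool → symmDiff S S' ∈ J →
      symmDiff S' S'' ∈ J → symmDiff S S'' ∈ J := by
    intro S S' S'' hS hS'' h1 h2
    exact hJdown _ (hJun _ h1 _ h2) _ (hBsd _ _ hS hS'') (symmDiff_triangle S S' S'')
  have hl : ({f : Bool → K | f true = 0} : Set (Bool → K)) ∈ J := by
    have hB : ({f : Bool → K | f true = 0} : Set (Bool → K)) ∈ 𝓔.D Bool := by
      show Dp 𝓔 (fun f : Bool → K => f true = 0)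
      ((try unfold DS); (try unfold DF₁); (try unfold DF₂); (try unfold DR₂); repeat' first | assumption | exact Df.var _ | exact Df.zero | exact Df.one | exact Df.natCast _ | (refine DE.app ?_; first | assumption | exact DE.natCast _) | refine Df.add ?_ ?_ | refine Df.mul ?_ ?_ | refine Df.subt ?_ ?_ | refine Df.neg ?_ | refine Df.pow ?_ _ | refine Df.sum _ (fun _ _ => ?_) | (refine DF₁.app (by assumption) ?_) | (refine DF₂.app (by assumption) ?_ ?_) | refine Dp.const _ | refine Dp.not ?_ | refine Dp.eq ?_ ?_ | refine Dp.ne ?_ ?_ | refine Dp.and ?_ ?_ | refine Dp.or ?_ ?_ | refine Dp.iff ?_ ?_ | refine Dp.imp ?_ ?_ | (refine DS.app (by assumption) ?_) | (refine DR₂.app (by assumption) ?_ ?_) | refine Dp.isUnit ?_ | refine Dp.ball _ (fun _ _ => ?_) | refine Dp.ex ?_ | refine Dp.all ?_ | refine Dp.allfin (fun _ => ?_) | refine Dp.exfin (fun _ => ?_))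
    have h1 := ht2 1 _ hB
    refine hJdown _ (hJun _ h1 _ hJ0) _ hB ?_
    intro f hf
    have hf' : f true = 0 := hf
    by_cases h2 : f false = 0
    · right
      have h3 : f = 0 := by
        funext b
        cases b
        · exact h2
        · exact hf'
      exact h3
    · left
      rw [Set.mem_symmDiff]
      left
      refine ⟨hf, ?_⟩
      intro h3
      have h4 : f true + ((1 : ℚ) : K) * f false = 0 := h3
      rw [hf', zero_add, Rat.cast_one, one_mul] at h4
      exact h2 h4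
  obtain ⟨Y, hY⟩ : ∃ Y : K → Set (Bool → K), ∀ g f, f ∈ Y g ↔ ∃ t, t ≠ 0 ∧ f true = g * t ^ q :=
    ⟨fun g => {f | ∃ t, t ≠ 0 ∧ f true = g * t ^ q}, fun _ _ => Iff.rfl⟩
  obtain ⟨Z, hZ⟩ : ∃ Z : K → Set (Bool → K), ∀ g f, f ∈ Z g ↔ ∃ t, t ≠ 0 ∧ f true - f false = g * t ^ q :=
    ⟨fun g => {f | ∃ t, t ≠ 0 ∧ f true - f false = g * t ^ q}, fun _ _ => Iff.rfl⟩
  obtain ⟨X, hX⟩ : ∃ X : K → Set (Bool → K), ∀ g f, f ∈ X g ↔ ∃ t, t ≠ 0 ∧ - f false = g * t ^ q :=
    ⟨fun g => {f | ∃ t, t ≠ 0 ∧ - f false = g * t ^ q}, fun _ _ => Iff.rfl⟩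
  have hYB : ∀ g, DE 𝓔 g → Y g ∈ 𝓔.D Bool := by
    intro g hg
    have h1 : Dp 𝓔 (fun f : Bool → K => ∃ t, t ≠ 0 ∧ f true = g * t ^ q) := by ((try unfold DS); (try unfold DF₁); (try unfold DF₂); (try unfold DR₂); repeat' first | assumption | exact Df.var _ | exact Df.zero | exact Df.one | exact Df.natCast _ | (refine DE.app ?_; first | assumption | exact DE.natCast _) | refine Df.add ?_ ?_ | refine Df.mul ?_ ?_ | refine Df.subt ?_ ?_ | refine Df.neg ?_ | refine Df.pow ?_ _ | refine Df.sum _ (fun _ _ => ?_) | (refine DF₁.app (by assumption) ?_) | (refine DF₂.app (by assumption) ?_ ?_) | refine Dp.const _ | refine Dp.not ?_ | refine Dp.eq ?_ ?_ | refine Dp.ne ?_ ?_ | refine Dp.and ?_ ?_ | refine Dp.or ?_ ?_ | refine Dp.iff ?_ ?_ | refine Dp.imp ?_ ?_ | (refine DS.app (by assumption) ?_) | (refine DR₂.app (by assumption) ?_ ?_) | refine Dp.isUnit ?_ | refine Dp.ball _ (fun _ _ => ?_) | refine Dp.ex ?_ | refine Dp.all ?_ | refine Dp.allfin (fun _ => ?_) | refine Dp.exfin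 (fun _ => ?_))
    have h2 : {f : Bool → K | ∃ t, t ≠ 0 ∧ f true = g * t ^ q} = Y g := by
      ext f
      exact (hY g f).symm
    rw [← h2]
    exact h1
  have hZB : ∀ g, DE 𝓔 g → Z g ∈ 𝓔.D Bool := by
    intro g hg
    have h1 : Dp 𝓔 (fun f : Bool → K => ∃ t, t ≠ 0 ∧ f true - f false = g * t ^ q) := by ((try unfold DS); (try unfold DF₁); (try unfold DF₂); (try unfold DR₂); repeat' first | assumption | exact Df.var _ | exact Df.zero | exact Df.one | exact Df.natCast _ | (refine DE.app ?_; first | assumption | exact DE.natCast _) | refine Df.add ?_ ?_ | refine Df.mul ?_ ?_ | refine Df.subt ?_ ?_ | refine Df.neg ?_ | refine Df.pow ?_ _ | refine Df.sum _ (fun _ _ => ?_) | (refine DF₁.app (by assumption) ?_) | (refine DF₂.app (by assumption) ?_ ?_) | refine Dp.const _ | refine Dp.not ?_ | refine Dp.eq ?_ ?_ | refine Dp.ne ?_ ?_ | refine Dp.and ?_ ?_ | refine Dp.or ?_ ?_ | refine Dp.iff ?_ ?_ | refine Dp.imp ?_ ?_ | (refine DS.app (by assumption) ?_) | (refine DR₂.app (by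 assumption) ?_ ?_) | refine Dp.isUnit ?_ | refine Dp.ball _ (fun _ _ => ?_) | refine Dp.ex ?_ | refine Dp.all ?_ | refine Dp.allfin (fun _ => ?_) | refine Dp.exfin (fun _ => ?_))
    have h2 : {f : Bool → K | ∃ t, t ≠ 0 ∧ f true - f false = g * t ^ q} = Z g := by
      ext f
      exact (hZ g f).symm
    rw [← h2]
    exact h1
  have hXB : ∀ g, DE 𝓔 g → X g ∈ 𝓔.D Bool := by
    intro g hg
    have h1 : Dp 𝓔 (fun f : Bool → K => ∃ t, t ≠ 0 ∧ - f false = g * t ^ q) := by ((try unfold DS); (try unfold DF₁); (try unfold DF₂); (try unfold DR₂); repeat' first | assumption | exact Df.var _ | exact Df.zero | exact Df.one | exact Df.natCast _ | (refine DE.app ?_; first | assumption | exact DE.natCast _) | refine Df.add ?_ ?_ | refine Df.mul ?_ ?_ | refine Df.subt ?_ ?_ | refine Df.neg ?_ | refine Df.pow ?_ _ | refine Df.sum _ (fun _ _ => ?_) | (refine DF₁.app (by assumption) ?_) | (refine DF₂.app (by assumption) ?_ ?_) | refine Dp.const _ | refine Dp.not ?_ | refine Dp.eq ?_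 ?_ | refine Dp.ne ?_ ?_ | refine Dp.and ?_ ?_ | refine Dp.or ?_ ?_ | refine Dp.iff ?_ ?_ | refine Dp.imp ?_ ?_ | (refine DS.app (by assumption) ?_) | (refine DR₂.app (by assumption) ?_ ?_) | refine Dp.isUnit ?_ | refine Dp.ball _ (fun _ _ => ?_) | refine Dp.ex ?_ | refine Dp.all ?_ | refine Dp.allfin (fun _ => ?_) | refine Dp.exfin (fun _ => ?_))
    have h2 : {f : Bool → K | ∃ t, t ≠ 0 ∧ - f false = g * t ^ q} = X g := by
      ext f
      exact (hX g f).symm
    rw [← h2]
    exact h1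
  have hYZ : ∀ g, DE 𝓔 g → symmDiff (Y g) (Z g) ∈ J := by
    intro g hg
    have h1 := ht2 (-1) (Y g) (hYB g hg)
    have h2 : {f : Bool → K | (fun b => if b then f true + ((-1 : ℚ) : K) * f false else f false) ∈ Y g} = Z g := by
      ext f
      rw [hZ]
      refine (hY g _).trans ?_
      refine exists_congr fun t => and_congr Iff.rfl ?_
      show f true + ((-1 : ℚ) : K) * f false = g * t ^ q ↔ _
      rw [Rat.cast_neg, Rat.cast_one, neg_one_mul, ← sub_eq_add_neg]
    rw [h2] at h1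
    exact h1
  have hZX : ∀ g, DE 𝓔 g → symmDiff (Z g) (X g) ∈ J := by
    intro g hg
    have h1 := ht1 1 (Z g) (hZB g hg)
    have h2 : {f : Bool → K | (fun b => if b then f true else f false + ((1 : ℚ) : K) * f true) ∈ Z g} = X g := by
      ext f
      rw [hX]
      refine (hZ g _).trans ?_
      refine exists_congr fun t => and_congr Iff.rfl ?_
      show f true - (f false + ((1 : ℚ) : K) * f true) = g * t ^ q ↔ _
      rw [Rat.cast_one, one_mul, show f true - (f false + f true) = - f false by ring]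
    rw [h2] at h1
    exact h1
  have hYX : ∀ g, DE 𝓔 g → symmDiff (Y g) (X g) ∈ J := fun g hg =>
    htr _ _ _ (hYB g hg) (hXB g hg) (hYZ g hg) (hZX g hg)
  have hhE : DE 𝓔 h := hGE h hhG
  have hYX' : ∀ g, DE 𝓔 g → symmDiff (Y (g / h)) (X g) ∈ J := by
    intro g hg
    have h1 := hdg h hhG _ (hYX g hg)
    have h2 : {f : Bool → K | (fun b => if b then h * f true else f false) ∈ symmDiff (Y g) (X g)} =
        symmDiff (Y (g / h)) (X g) := by
      ext f
      have h3 : ((fun b => if b then h * f true else f false : Bool → K) ∈ Y g) ↔ f ∈ Y (g / h) := by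
        rw [hY (g / h)]
        refine (hY g _).trans ?_
        refine exists_congr fun t => and_congr Iff.rfl ?_
        show h * f true = g * t ^ q ↔ _
        constructor
        · intro h4
          field_simp
          rw [← h4]
          ring
        · intro h4
          rw [h4]
          field_simp
      have h5 : ((fun b => if b then h * f true else f false : Bool → K) ∈ X g) ↔ f ∈ X g := by
        rw [hX g f]
        exact hX g _
      show (fun b => if b then h * f true else f false : Bool → K) ∈ symmDiff (Y g) (X g) ↔ _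
      rw [Set.mem_symmDiff, Set.mem_symmDiff, h3, h5]
    rw [h2] at h1
    exact h1
  have hYJ : ∀ g, DE 𝓔 g → g ≠ 0 → Y g ∈ J := by
    intro g hg hg0
    have h1 : symmDiff (Y g) (Y (g / h)) ∈ J := by
      refine htr _ (X g) _ (hYB g hg) (hYB _ (DE.div hg hhE)) (hYX g hg) ?_
      rw [symmDiff_comm]
      exact hYX' g hg
    refine hJdown _ h1 _ (hYB g hg) ?_
    intro f hf
    rw [Set.mem_symmDiff]
    left
    refine ⟨hf, fun hf' => ?_⟩
    rw [hY] at hf hf'
    obtain ⟨t, ht0, ht⟩ := hf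
    obtain ⟨s, hs0, hs⟩ := hf'
    apply hh (s / t)
    rw [ht] at hs
    have htq : t ^ q ≠ 0 := pow_ne_zero _ ht0
    rw [div_pow, div_eq_iff htq]
    field_simp at hs
    rw [← hs]
    ring
  have hfin : ∀ s : Finset K, (∀ g ∈ s, g ∈ G) → {f : Bool → K | ∃ g ∈ s, f ∈ Y g} ∈ J := by
    classical
    intro s
    induction s using Finset.induction_on with
    | empty =>
      intro _
      refine hJdown _ hJ0 _ ?_ ?_
      · have h1 : Dp 𝓔 (fun f : Bool → K => False) := Dp.const _
        have h2 : {f : Bool → K | ∃ g ∈ (∅ : Finset K), f ∈ Y g} = {f : Bool → K | False} := by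
          ext f
          simp
        rw [h2]
        exact h1
      · rintro f ⟨g, hg, -⟩
        exact absurd hg (Finset.notMem_empty g)
    | insert a s ha ih =>
      intro hs
      have h1 := ih fun g hg => hs g (Finset.mem_insert_of_mem hg)
      have haG := hs a (Finset.mem_insert_self a s)
      have h2 := hJun _ (hYJ a (hGE a haG) (hG0 a haG)) _ h1
      have h3 : {f : Bool → K | ∃ g ∈ insert a s, f ∈ Y g} = Y a ∪ {f : Bool → K | ∃ g ∈ s, f ∈ Y g} := by
        ext f
        constructor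
        · rintro ⟨g, hg, hf⟩
          rcases Finset.mem_insert.1 hg with rfl | hg
          · exact Or.inl hf
          · exact Or.inr ⟨g, hg, hf⟩
        · rintro (hf | ⟨g, hg, hf⟩)
          · exact ⟨a, Finset.mem_insert_self a s, hf⟩
          · exact ⟨g, Finset.mem_insert_of_mem hg, hf⟩
      rw [h3]
      exact h2
  apply hJuniv
  have h1 := hJun _ hl _ (hfin G fun g hg => hg)
  have h2 : ({f : Bool → K | f true = 0} : Set (Bool → K)) ∪ {f : Bool → K | ∃ g ∈ G, f ∈ Y g} = univ := by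
    rw [Set.eq_univ_iff_forall]
    intro f
    by_cases hf : f true = 0
    · exact Or.inl hf
    · right
      obtain ⟨g, hg, y, hy⟩ := hG (f true) hf
      refine ⟨g, hg, ?_⟩
      rw [hY]
      refine ⟨y, ?_, hy⟩
      rintro rfl
      rw [zero_pow hq.ne', mul_zero] at hy
      exact hf hy
  rw [h2] at h1
  exact h1

end VCR
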