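import Pool.Agent.VCR.Fo

/-!
# VCR-Adj: adjoining finitely many parameters to a calculus

PLAN. `𝓔.D α := {S | ∃ S' ∈ 𝓓.D (ι ⊕ α), S = {f : α → X | Sum.elim a f ∈ S'}}`.
* `univ`, `inter`, `compl`: with the same operation on `S'`. `preim σ`: `S' ↦ {h | h ∘ Sum.map id σ ∈
  S'}`. `im σ`: `S' ↦ {h | ∃ g ∈ S', g ∘ Sum.map id σ = h}`: if `g ∘ Sum.map id σ = Sum.elim a f` then
  `g = Sum.elim a (g ∘ inr)` and `(g ∘ inr) ∘ σ = f`. `eq`: `Dp.eqv (inr false) (inr true)`.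
* `𝓓 ≤ 𝓔` (finite types `α`): for `S ∈ 𝓓.D α` take `S' := {h | h ∘ Sum.inr ∈ S}` (`𝓓.preim`).
* `DE 𝓔 (a i)`: the set `{f : Option Empty → X | f none = a i}` comes from
  `{h : ι ⊕ Option Empty → X | h (inr none) = h (inl i)}`, `Dp.eqv`.
* `small`. Let `T : List Bool → Set (α → X)` be a tree, `T s = {f | Sum.elim a f ∈ T' s}` with
  `T' s ∈ 𝓓.D (ι ⊕ α)` (choose). For `c : ι → X` put `Tc c s := {f | Sum.elim c f ∈ T' s}` and
  `Loc c s := (Tc c s).Nonempty ∧ (∀ i, Tc c (i :: s) ⊆ Tc c s) ∧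
   Disjoint (Tc c (false :: s)) (Tc c (true :: s))`. So `Loc a s` for all `s`. Put
  `G s := {h : ι ⊕ α → X | h ∈ T' s ∧ ∀ r : List Bool, r.length ≤ s.length → Loc (h ∘ inl) r}`.
  `G` is a tree: nonempty (`Sum.elim a f`, `f ∈ T s`); `G (i :: s) ⊆ G s` by `Loc (h ∘ inl) s`;
  disjoint by `Loc (h ∘ inl) s`. Definable over `𝓓`: `Dp.ball` over the finite set of lists of
  length `≤ s.length` (`List.finite_length_le`), and `Loc (h ∘ inl) r` is definable in
  `h : ι ⊕ α → X`: use one block of quantifiers over `f : α → X`, i.e. the set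
  `{h | ∃ f : α → X, Sum.elim (h ∘ inl) f ∈ Q}` (`Q ∈ 𝓓.D (ι ⊕ α)`) is definable: it is the
  preimage under `inl : ι → ι ⊕ α` of the image of `Q` under `inl` (`𝓓.im inl`, `𝓓.preim inl`);
  the inclusion and the disjointness are `¬ ∃` of Boolean combinations.
-/

open Set

namespace VCR

universe v

theorem exists_adj {X : Type v} (𝓓 : Calc X) {ι : Type} [Finite ι] (a : ι → X) :
    ∃ 𝓔 : Calc X, 𝓓 ≤ 𝓔 ∧ ∀ i, DE 𝓔 (a i) := by
  classical
  let D' : ∀ α : Type, Set (Set (α → X)) :=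
    fun α => {S | ∃ S' ∈ 𝓓.D (ι ⊕ α), S = {f : α → X | Sum.elim a f ∈ S'}}
  have hex : ∀ (α : Type) [Finite α] (Q : Set (ι ⊕ α → X)), Q ∈ 𝓓.D (ι ⊕ α) →
      {h : ι ⊕ α → X | ∃ f : α → X, Sum.elim (h ∘ Sum.inl) f ∈ Q} ∈ 𝓓.D (ι ⊕ α) := by
    intro α _ Q hQ
    have h1 := 𝓓.preim (Sum.inl : ι → ι ⊕ α) (𝓓.im (Sum.inl : ι → ι ⊕ α) hQ)
    refine Dp.congr (𝓓 := 𝓓) (fun h => ?_) h1
    constructor
    · rintro ⟨g, hg, hgh⟩
      refine ⟨g ∘ Sum.inr, ?_⟩
      have : Sum.elim (h ∘ Sum.inl) (g ∘ Sum.inr) = g := by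
        ext x
        cases x with
        | inl i => exact (congrFun hgh i).symm
        | inr j => rfl
      rw [this]
      exact hg
    · rintro ⟨f, hf⟩
      exact ⟨_, hf, by ext i; rfl⟩
  let 𝓔 : Calc X :=
    { D := D'
      univ := fun {α} _ => ⟨Set.univ, 𝓓.univ, by simp⟩
      inter := by
        rintro α _ _ _ ⟨S', h, rfl⟩ ⟨S'', h', rfl⟩
        exact ⟨S' ∩ S'', 𝓓.inter h h', rfl⟩
      compl := by
        rintro α _ _ ⟨S', h, rfl⟩
        exact ⟨S'ᶜ, 𝓓.compl h, rfl⟩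
      preim := by
        rintro α β _ _ σ _ ⟨S', h, rfl⟩
        refine ⟨_, 𝓓.preim (Sum.map id σ) h, ?_⟩
        ext f
        have : Sum.elim a f ∘ Sum.map id σ = Sum.elim a (f ∘ σ) := by
          ext x; cases x <;> rfl
        simp only [Set.mem_setOf_eq, this]
      im := by
        rintro α β _ _ σ _ ⟨S', h, rfl⟩
        refine ⟨_, 𝓓.im (Sum.map id σ) h, ?_⟩
        ext f
        constructor
        · rintro ⟨g, hg, rfl⟩
          exact ⟨Sum.elim a g, hg, by ext x; cases x <;> rfl⟩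
        · rintro ⟨g, hg, hgf⟩
          have h1 : Sum.elim a (g ∘ Sum.inr) = g := by
            ext x
            cases x with
            | inl i => exact (congrFun hgf (Sum.inl i)).symm
            | inr b => rfl
          refine ⟨g ∘ Sum.inr, ?_, ?_⟩
          · show Sum.elim a (g ∘ Sum.inr) ∈ S'
            rw [h1]; exact hg
          · ext x
            exact congrFun hgf (Sum.inr x)
      eq := ⟨{h | h (Sum.inr false) = h (Sum.inr true)}, Dp.eqv (𝓓 := 𝓓) _ _, rfl⟩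
      small := by
        intro α _ T hT hdef
        choose T' hT' hTT' using hdef
        let Loc : (ι → X) → List Bool → Prop := fun c s =>
          (∃ f : α → X, Sum.elim c f ∈ T' s) ∧
          (∀ i, ¬ ∃ f : α → X, Sum.elim c f ∈ T' (i :: s) ∩ (T' s)ᶜ) ∧
          ¬ ∃ f : α → X, Sum.elim c f ∈ T' (false :: s) ∩ T' (true :: s)
        have hLa : ∀ s, Loc a s := by
          intro s
          refine ⟨?_, ?_, ?_⟩
          · obtain ⟨f, hf⟩ := hT.ne s
            rw [hTT' s] at hf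
            exact ⟨f, hf⟩
          · rintro i ⟨f, hf1, hf2⟩
            have := hT.sub i s
            rw [hTT' s, hTT' (i :: s)] at this
            exact hf2 (this hf1)
          · rintro ⟨f, hf1, hf2⟩
            have := hT.disj s
            rw [hTT' (false :: s), hTT' (true :: s)] at this
            exact Set.disjoint_left.1 this hf1 hf2
        have hLd : ∀ s, Dp 𝓓 (fun h : ι ⊕ α → X => Loc (h ∘ Sum.inl) s) := by
          intro s
          refine Dp.and (hex α _ (hT' s)) (Dp.and (Dp.allfin fun i => Dp.not ?_) (Dp.not ?_))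
          · exact hex α _ (𝓓.inter (hT' _) (𝓓.compl (hT' _)))
          · exact hex α _ (𝓓.inter (hT' _) (hT' _))
        let G : List Bool → Set (ι ⊕ α → X) := fun s =>
          {h | h ∈ T' s ∧ ∀ r : List Bool, r.length ≤ s.length → Loc (h ∘ Sum.inl) r}
        have hG : IsTree G := by
          refine ⟨fun s => ?_, fun i s h hh => ?_, fun s => ?_⟩
          · obtain ⟨f, hf⟩ := hT.ne s
            rw [hTT' s] at hf
            exact ⟨Sum.elim a f, hf, fun r _ => hLa r⟩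
          · refine ⟨?_, fun r hr => hh.2 r (by simp; omega)⟩
            by_contra hcon
            refine (hh.2 s (by simp)).2.1 i ⟨h ∘ Sum.inr, ?_⟩
            have : Sum.elim (h ∘ Sum.inl) (h ∘ Sum.inr) = h := by
              ext x; cases x <;> rfl
            rw [this]
            exact ⟨hh.1, hcon⟩
          · refine Set.disjoint_left.2 fun h hh1 hh2 => ?_
            refine (hh1.2 s (by simp)).2.2 ⟨h ∘ Sum.inr, ?_⟩
            have : Sum.elim (h ∘ Sum.inl) (h ∘ Sum.inr) = h := by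
              ext x; cases x <;> rfl
            rw [this]
            exact ⟨hh1.1, hh2.1⟩
        refine 𝓓.small G hG fun s => ?_
        have hfin : {r : List Bool | r.length ≤ s.length}.Finite := List.finite_length_le Bool _
        have h2 : Dp 𝓓 (fun h : ι ⊕ α → X => ∀ r ∈ hfin.toFinset, Loc (h ∘ Sum.inl) r) :=
          Dp.ball _ fun r _ => hLd r
        refine Dp.and (hT' s) (Dp.congr (fun h => ?_) h2)
        simp }
  refine ⟨𝓔, fun α _ S hS => ⟨{h | h ∘ Sum.inr ∈ S}, 𝓓.preim Sum.inr hS, ?_⟩, fun i => ?_⟩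
  · ext f; rfl
  · exact ⟨{h | h (Sum.inr none) = h (Sum.inl i)}, Dp.eqv (𝓓 := 𝓓) _ _, rfl⟩

/-- adjoining a finite set of parameters -/
theorem exists_adj_finset {X : Type v} (𝓓 : Calc X) (A : Finset X) :
    ∃ 𝓔 : Calc X, 𝓓 ≤ 𝓔 ∧ ∀ x ∈ A, DE 𝓔 x := by
  classical
  obtain ⟨𝓔, h, h'⟩ := exists_adj 𝓓 (ι := Fin A.card) (fun i => (A.equivFin.symm i : X))
  refine ⟨𝓔, h, fun x hx => ?_⟩
  have := h' (A.equivFin ⟨x, hx⟩)
  simpa using this

theorem exists_adj_one {X : Type v} (𝓓 : Calc X) (x : X) : ∃ 𝓔 : Calc X, 𝓓 ≤ 𝓔 ∧ DE 𝓔 x := by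
  obtain ⟨𝓔, h, h'⟩ := exists_adj_finset 𝓓 {x}
  exact ⟨𝓔, h, h' x (by simp)⟩

theorem exists_adj_two {X : Type v} (𝓓 : Calc X) (x y : X) :
    ∃ 𝓔 : Calc X, 𝓓 ≤ 𝓔 ∧ DE 𝓔 x ∧ DE 𝓔 y := by
  classical
  obtain ⟨𝓔, h, h'⟩ := exists_adj_finset 𝓓 {x, y}
  exact ⟨𝓔, h, h' x (by simp), h' y (by simp)⟩

end VCR
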