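import Pool.Agent.VCR.Itp
import Pool.Agent.VCR.Adj

/-!
# VCR-TraA: calculi on subrings and quotients

PLAN.
* `exists_calc_inj`: `exists_calc_one 𝓓 (dom := range ι) (val := Function.invFun ι)` (classical;
  `invFun ι (ι s) = s` by `Function.leftInverse_invFun hι`). `surj`: `u := ι s`. `hdom := hd`.
  `heq`: on the range, `val a = val b ↔ a = b`: `(hd.app (Df.var _)).and ..` with `Dp.eq`
  (`Dp.congr`). `RC 𝓔`: the graph of addition of `S`: `Dp 𝓔 (fun f : Option Bool → S => f none =
  f (some false) + f (some true))` is by the equivalence `Dp 𝓓 (fun f : Option Bool → R =>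
  (∀ a, f a ∈ range ι) ∧ val (f none) = val (f (some false)) + val (f (some true)))` which is
  `(∀ a, f a ∈ range ι) ∧ f none = f (some false) + f (some true)`. Same for `*`.
  Sets: `DS 𝓔 V` is `Dp 𝓓 (fun f : Unit → R => (∀ a, f a ∈ range ι) ∧ val (f ()) ∈ V)`, i.e.
  `f () ∈ ι '' V`. Elements: `DE 𝓔 s` is `Dp 𝓓 (fun f : Option Empty → R => (∀ a, f a ∈ range ι)
  ∧ val (f none) = s)`, i.e. `f none = ι s`.
* `exists_calc_surj`: `exists_calc_one 𝓓 univ π`; `heq` is `π a = π b ↔ a - b ∈ {x | π x = 0}`. The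
  graph of `+` pulls back to `f none - (f (some false) + f (some true)) ∈ {x | π x = 0}`.
-/

open Set

namespace VCR

universe v w

theorem exists_calc_inj {R : Type v} {S : Type w} [Ring R] [Ring S] (𝓓 : Calc R) [RC 𝓓]
    (ι : S →+* R) (hι : Function.Injective ι) (hd : DS 𝓓 (range ι)) :
    ∃ 𝓔 : Calc S, RC 𝓔 ∧ (∀ V : Set S, DS 𝓓 (ι '' V) → DS 𝓔 V) ∧
      ∀ x : S, DE 𝓓 (ι x) → DE 𝓔 x := by
  classical
  have hinv : ∀ s, Function.invFun ι (ι s) = s := Function.leftInverse_invFun hι
  have hr : ∀ x ∈ range ι, ι (Function.invFun ι x) = x := by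
    rintro _ ⟨s, rfl⟩
    rw [hinv]
  obtain ⟨𝓔, h𝓔⟩ := exists_calc_one 𝓓 (range ι) (Function.invFun ι)
    (fun s => ⟨ι s, mem_range_self s, hinv s⟩) hd (by
      have h1 : Dp 𝓓 (fun f : Bool → R => f false ∈ range ι ∧ f true ∈ range ι ∧
          f false = f true) := by ((try unfold DS); (try unfold DF₁); (try unfold DF₂); (try unfold DR₂); repeat' first | assumption | exact Df.var _ | exact Df.zero | exact Df.one | exact Df.natCast _ | (refine DE.app ?_; first | assumption | exact DE.natCast _) | refine Df.add ?_ ?_ | refine Df.mul ?_ ?_ | refine Df.subt ?_ ?_ | refine Df.neg ?_ | refine Df.pow ?_ _ | refine Df.sum _ (fun _ _ => ?_) | (refine DF₁.app (by assumption) ?_) | (refine DF₂.app (by assumption) ?_ ?_) | refine Dp.const _ | refine Dp.not ?_ | refine Dp.eq ?_ ?_ | refine Dp.ne ?_ ?_ | refine Dp.and ?_ ?_ | refine Dp.or ?_ ?_ | refine Dp.iff ?_ ?_ | refine Dp.imp ?_ ?_ | (refine DS.app (by assumption) ?_) | (refine DR₂.app (by assumption) ?_ ?_) | refine Dp.isUnit ?_ | refine Dp.ball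 _ (fun _ _ => ?_) | refine Dp.ex ?_ | refine Dp.all ?_ | refine Dp.allfin (fun _ => ?_) | refine Dp.exfin (fun _ => ?_))
      refine Dp.congr (fun f => ?_) h1
      constructor
      · rintro ⟨h, h', h''⟩
        exact ⟨h, h', by rw [h'']⟩
      · rintro ⟨h, h', h''⟩
        exact ⟨h, h', by rw [← hr _ h, ← hr _ h', h'']⟩)
  refine ⟨𝓔, ⟨(h𝓔 (Option Bool) _).2 ?_, (h𝓔 (Option Bool) _).2 ?_⟩,
    fun V hV => (h𝓔 Unit _).2 ?_, fun x hx => (h𝓔 (Option Empty) _).2 ?_⟩
  · have h1 : Dp 𝓓 (fun f : Option Bool → R => (∀ a, f a ∈ range ι) ∧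
        f none = f (some false) + f (some true)) := by ((try unfold DS); (try unfold DF₁); (try unfold DF₂); (try unfold DR₂); repeat' first | assumption | exact Df.var _ | exact Df.zero | exact Df.one | exact Df.natCast _ | (refine DE.app ?_; first | assumption | exact DE.natCast _) | refine Df.add ?_ ?_ | refine Df.mul ?_ ?_ | refine Df.subt ?_ ?_ | refine Df.neg ?_ | refine Df.pow ?_ _ | refine Df.sum _ (fun _ _ => ?_) | (refine DF₁.app (by assumption) ?_) | (refine DF₂.app (by assumption) ?_ ?_) | refine Dp.const _ | refine Dp.not ?_ | refine Dp.eq ?_ ?_ | refine Dp.ne ?_ ?_ | refine Dp.and ?_ ?_ | refine Dp.or ?_ ?_ | refine Dp.iff ?_ ?_ | refine Dp.imp ?_ ?_ | (refine DS.app (by assumption) ?_) | (refine DR₂.app (by assumption) ?_ ?_) | refine Dp.isUnit ?_ | refine Dp.ball _ (fun _ _ => ?_) | refine Dp.ex ?_ | refine Dp.all ?_ | refine Dp.allfin (fun _ => ?_) | refine Dp.exfin (fun _ => ?_))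
    refine Dp.congr (fun f => ?_) h1
    constructor
    · rintro ⟨h, h'⟩
      refine ⟨h, hι ?_⟩
      show ι (Function.invFun ι (f none)) =
        ι (Function.invFun ι (f (some false)) + Function.invFun ι (f (some true)))
      rw [map_add, hr _ (h _), hr _ (h _), hr _ (h _)]
      exact h'
    · rintro ⟨h, h'⟩
      refine ⟨h, ?_⟩
      have h2 : ι (Function.invFun ι (f none)) =
        ι (Function.invFun ι (f (some false)) + Function.invFun ι (f (some true))) :=
        congrArg ι h'
      rwa [map_add, hr _ (h _), hr _ (h _), hr _ (h _)] at h2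
  · have h1 : Dp 𝓓 (fun f : Option Bool → R => (∀ a, f a ∈ range ι) ∧
        f none = f (some false) * f (some true)) := by ((try unfold DS); (try unfold DF₁); (try unfold DF₂); (try unfold DR₂); repeat' first | assumption | exact Df.var _ | exact Df.zero | exact Df.one | exact Df.natCast _ | (refine DE.app ?_; first | assumption | exact DE.natCast _) | refine Df.add ?_ ?_ | refine Df.mul ?_ ?_ | refine Df.subt ?_ ?_ | refine Df.neg ?_ | refine Df.pow ?_ _ | refine Df.sum _ (fun _ _ => ?_) | (refine DF₁.app (by assumption) ?_) | (refine DF₂.app (by assumption) ?_ ?_) | refine Dp.const _ | refine Dp.not ?_ | refine Dp.eq ?_ ?_ | refine Dp.ne ?_ ?_ | refine Dp.and ?_ ?_ | refine Dp.or ?_ ?_ | refine Dp.iff ?_ ?_ | refine Dp.imp ?_ ?_ | (refine DS.app (by assumption) ?_) | (refine DR₂.app (by assumption) ?_ ?_) | refine Dp.isUnit ?_ | refine Dp.ball _ (fun _ _ => ?_) | refine Dp.ex ?_ | refine Dp.all ?_ | refine Dp.allfin (fun _ => ?_) | refine Dp.exfin (fun _ => ?_))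
    refine Dp.congr (fun f => ?_) h1
    constructor
    · rintro ⟨h, h'⟩
      refine ⟨h, hι ?_⟩
      show ι (Function.invFun ι (f none)) =
        ι (Function.invFun ι (f (some false)) * Function.invFun ι (f (some true)))
      rw [map_mul, hr _ (h _), hr _ (h _), hr _ (h _)]
      exact h'
    · rintro ⟨h, h'⟩
      refine ⟨h, ?_⟩
      have h2 : ι (Function.invFun ι (f none)) =
        ι (Function.invFun ι (f (some false)) * Function.invFun ι (f (some true))) :=
        congrArg ι h'
      rwa [map_mul, hr _ (h _), hr _ (h _), hr _ (h _)] at h2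
  · refine Dp.congr (fun f => ?_) (hV : Dp 𝓓 (fun f : Unit → R => f () ∈ ι '' V))
    constructor
    · rintro ⟨s, hs, hs'⟩
      refine ⟨fun a => ⟨s, hs'⟩, ?_⟩
      show Function.invFun ι (f ()) ∈ V
      rw [← hs', hinv]
      exact hs
    · rintro ⟨h, h'⟩
      exact ⟨Function.invFun ι (f ()), h', hr _ (h ())⟩
  · refine Dp.congr (fun f => ?_) (hx : Dp 𝓓 (fun f : Option Empty → R => f none = ι x))
    constructor
    · intro h
      refine ⟨?_, ?_⟩
      · rintro (_ | a)
        · exact ⟨x, h.symm⟩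
        · exact a.elim
      · show Function.invFun ι (f none) = x
        rw [h, hinv]
    · rintro ⟨h, h'⟩
      rw [← hr _ (h none)]
      exact congrArg ι h'

theorem exists_calc_surj {R : Type v} {S : Type w} [Ring R] [Ring S] (𝓓 : Calc R) [RC 𝓓]
    (π : R →+* S) (hπ : Function.Surjective π) (hd : DS 𝓓 {x | π x = 0}) :
    ∃ 𝓔 : Calc S, RC 𝓔 := by
  obtain ⟨𝓔, h𝓔⟩ := exists_calc_one 𝓓 univ π (fun y => by
      obtain ⟨x, hx⟩ := hπ y
      exact ⟨x, trivial, hx⟩) (Dp.congr (fun _ => by simp) (Dp.true (𝓓 := 𝓓) (α := Unit))) (by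
      have h1 : Dp 𝓓 (fun f : Bool → R => f false - f true ∈ {x | π x = 0}) := by ((try unfold DS); (try unfold DF₁); (try unfold DF₂); (try unfold DR₂); repeat' first | assumption | exact Df.var _ | exact Df.zero | exact Df.one | exact Df.natCast _ | (refine DE.app ?_; first | assumption | exact DE.natCast _) | refine Df.add ?_ ?_ | refine Df.mul ?_ ?_ | refine Df.subt ?_ ?_ | refine Df.neg ?_ | refine Df.pow ?_ _ | refine Df.sum _ (fun _ _ => ?_) | (refine DF₁.app (by assumption) ?_) | (refine DF₂.app (by assumption) ?_ ?_) | refine Dp.const _ | refine Dp.not ?_ | refine Dp.eq ?_ ?_ | refine Dp.ne ?_ ?_ | refine Dp.and ?_ ?_ | refine Dp.or ?_ ?_ | refine Dp.iff ?_ ?_ | refine Dp.imp ?_ ?_ | (refine DS.app (by assumption) ?_) | (refine DR₂.app (by assumption) ?_ ?_) | refine Dp.isUnit ?_ | refine Dp.ball _ (fun _ _ => ?_) | refine Dp.ex ?_ | refine Dp.all ?_ | refine Dp.allfin (fun _ => ?_) | refine Dp.exfin (fun _ => ?_))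
      refine Dp.congr (fun f => ?_) h1
      constructor
      · intro h
        exact ⟨trivial, trivial, sub_eq_zero.1 ((map_sub π _ _).symm.trans h)⟩
      · rintro ⟨-, -, h⟩
        exact (map_sub π _ _).trans (sub_eq_zero.2 h))
  refine ⟨𝓔, ⟨(h𝓔 (Option Bool) _).2 ?_, (h𝓔 (Option Bool) _).2 ?_⟩⟩
  · have h1 : Dp 𝓓 (fun f : Option Bool → R =>
        f none - (f (some false) + f (some true)) ∈ {x | π x = 0}) := by ((try unfold DS); (try unfold DF₁); (try unfold DF₂); (try unfold DR₂); repeat' first | assumption | exact Df.var _ | exact Df.zero | exact Df.one | exact Df.natCast _ | (refine DE.app ?_; first | assumption | exact DE.natCast _) | refine Df.add ?_ ?_ | refine Df.mul ?_ ?_ | refine Df.subt ?_ ?_ | refine Df.neg ?_ | refine Df.pow ?_ _ | refine Df.sum _ (fun _ _ => ?_) | (refine DF₁.app (by assumption) ?_) | (refine DF₂.app (by assumption) ?_ ?_) | refine Dp.const _ | refine Dp.not ?_ | refine Dp.eq ?_ ?_ | refine Dp.ne ?_ ?_ | refine Dp.and ?_ ?_ | refine Dp.or ?_ ?_ | refine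 Dp.iff ?_ ?_ | refine Dp.imp ?_ ?_ | (refine DS.app (by assumption) ?_) | (refine DR₂.app (by assumption) ?_ ?_) | refine Dp.isUnit ?_ | refine Dp.ball _ (fun _ _ => ?_) | refine Dp.ex ?_ | refine Dp.all ?_ | refine Dp.allfin (fun _ => ?_) | refine Dp.exfin (fun _ => ?_))
    refine Dp.congr (fun f => ?_) h1
    constructor
    · intro h
      refine ⟨fun _ => trivial, ?_⟩
      show π (f none) = π (f (some false)) + π (f (some true))
      rw [← map_add]
      exact sub_eq_zero.1 ((map_sub π _ _).symm.trans h)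
    · rintro ⟨-, h⟩
      have h2 : π (f none) = π (f (some false)) + π (f (some true)) := h
      rw [← map_add] at h2
      exact (map_sub π _ _).trans (sub_eq_zero.2 h2)
  · have h1 : Dp 𝓓 (fun f : Option Bool → R =>
        f none - (f (some false) * f (some true)) ∈ {x | π x = 0}) := by ((try unfold DS); (try unfold DF₁); (try unfold DF₂); (try unfold DR₂); repeat' first | assumption | exact Df.var _ | exact Df.zero | exact Df.one | exact Df.natCast _ | (refine DE.app ?_; first | assumption | exact DE.natCast _) | refine Df.add ?_ ?_ | refine Df.mul ?_ ?_ | refine Df.subt ?_ ?_ | refine Df.neg ?_ | refine Df.pow ?_ _ | refine Df.sum _ (fun _ _ => ?_) | (refine DF₁.app (by assumption) ?_) | (refine DF₂.app (by assumption) ?_ ?_) | refine Dp.const _ | refine Dp.not ?_ | refine Dp.eq ?_ ?_ | refine Dp.ne ?_ ?_ | refine Dp.and ?_ ?_ | refine Dp.or ?_ ?_ | refine Dp.iff ?_ ?_ | refine Dp.imp ?_ ?_ | (refine DS.app (by assumption) ?_) | (refine DR₂.app (by assumption) ?_ ?_) | refine Dp.isUnit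 ?_ | refine Dp.ball _ (fun _ _ => ?_) | refine Dp.ex ?_ | refine Dp.all ?_ | refine Dp.allfin (fun _ => ?_) | refine Dp.exfin (fun _ => ?_))
    refine Dp.congr (fun f => ?_) h1
    constructor
    · intro h
      refine ⟨fun _ => trivial, ?_⟩
      show π (f none) = π (f (some false)) * π (f (some true))
      rw [← map_mul]
      exact sub_eq_zero.1 ((map_sub π _ _).symm.trans h)
    · rintro ⟨-, h⟩
      have h2 : π (f none) = π (f (some false)) * π (f (some true)) := h
      rw [← map_mul] at h2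
      exact (map_sub π _ _).trans (sub_eq_zero.2 h2)

end VCR
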