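import Pool.Agent.VCR.Itp
import Pool.Agent.VCR.Adj

/-!
# VCR-TraB: calculi on finite extensions of fields

The extension is interpreted in the tuples of coordinates, after adjoining the structure constants of a basis.
-/

open Set

namespace VCR

universe v w

private theorem fin_mul {K : Type v} {L : Type w} [Field K] [Field L] [Algebra K L] {n : ℕ}
    (b : Module.Basis (Fin n) K L) (x y : Fin n → K) (l : Fin n) :
    b.repr ((∑ i, x i • b i) * ∑ j, y j • b j) l =
      ∑ i, ∑ j, x i * y j * b.repr (b i * b j) l := by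
  rw [Finset.sum_mul_sum, map_sum, Finsupp.finsetSum_apply]
  refine Finset.sum_congr rfl fun i _ => ?_
  rw [map_sum, Finsupp.finsetSum_apply]
  refine Finset.sum_congr rfl fun j _ => ?_
  rw [smul_mul_smul_comm, map_smul, Finsupp.smul_apply, smul_eq_mul]

theorem exists_calc_fin {K : Type v} {L : Type w} [Field K] [Field L] [Algebra K L]
    [FiniteDimensional K L] (𝓓 : Calc K) [RC 𝓓] : ∃ 𝓔 : Calc L, RC 𝓔 := by
  classical
  obtain ⟨n, b, -⟩ : ∃ (n : ℕ) (b : Module.Basis (Fin n) K L), n = n :=
    ⟨_, Module.finBasis K L, rfl⟩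
  obtain ⟨𝓓', hle, hc⟩ := exists_adj 𝓓
    (fun p : Fin n × Fin n × Fin n => b.repr (b p.1 * b p.2.1) p.2.2)
  have : RC 𝓓' := RC.mono hle
  obtain ⟨val, hval⟩ : ∃ val : (Fin n → K) → L, ∀ v, val v = ∑ i, v i • b i := ⟨_, fun _ => rfl⟩
  have hrepr : ∀ v l, b.repr (val v) l = v l := by
    intro v l
    rw [hval, b.repr_sum_self]
  have hiff : ∀ v y, val v = y ↔ ∀ l, v l = b.repr y l := by
    intro v y
    constructor
    · rintro rfl l
      exact (hrepr v l).symm
    · intro h
      apply b.repr.injective
      ext l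
      rw [hrepr, h l]
  have surj : ∀ y, ∃ u ∈ (univ : Set (Fin n → K)), val u = y :=
    fun y => ⟨fun l => b.repr y l, mem_univ _, (hiff _ _).2 fun _ => rfl⟩
  obtain ⟨𝓔, hE⟩ := exists_interp 𝓓' univ val surj 𝓓'.univ (by
    refine Dp.congr (𝓓 := 𝓓') (Q := fun x : Bool × Fin n → K => ∀ i, x (false, i) = x (true, i))
      (fun x => ?_) (Dp.allfin fun i => Dp.eqv _ _)
    constructor
    · intro h
      refine ⟨fun _ => mem_univ _, ?_⟩
      show val (fun i => x (false, i)) = val (fun i => x (true, i))
      exact congrArg val (funext h)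
    · rintro ⟨-, h⟩ i
      have h1 : val (fun i => x (false, i)) = val (fun i => x (true, i)) := h
      have h2 := (hiff _ _).1 h1 i
      rw [hrepr] at h2
      exact h2)
  refine ⟨𝓔, ⟨?_, ?_⟩⟩
  · show {f : Option Bool → L | f none = f (some false) + f (some true)} ∈ 𝓔.D (Option Bool)
    rw [hE]
    refine Dp.congr (𝓓 := 𝓓') (Q := fun x : Option Bool × Fin n → K =>
      ∀ i, x (none, i) = x (some false, i) + x (some true, i))
      (fun x => ?_) (Dp.allfin fun i => Dp.eq (Df.var _) (Df.add (Df.var _) (Df.var _)))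
    have h1 : val (fun i => x (none, i)) =
        val (fun i => x (some false, i)) + val (fun i => x (some true, i)) ↔
        ∀ i, x (none, i) = x (some false, i) + x (some true, i) := by
      rw [hiff]
      refine forall_congr' fun l => ?_
      rw [map_add, Finsupp.add_apply, hrepr, hrepr]
    exact ⟨fun h => ⟨fun _ => mem_univ _, h1.2 h⟩, fun h => h1.1 h.2⟩
  · show {f : Option Bool → L | f none = f (some false) * f (some true)} ∈ 𝓔.D (Option Bool)
    rw [hE]
    refine Dp.congr (𝓓 := 𝓓') (Q := fun x : Option Bool × Fin n → K =>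
      ∀ l, x (none, l) = ∑ i, ∑ j, x (some false, i) * x (some true, j) *
        b.repr (b i * b j) l)
      (fun x => ?_) (Dp.allfin fun l => Dp.eq (Df.var _) (Df.sum _ fun i _ => Df.sum _ fun j _ =>
        Df.mul (Df.mul (Df.var _) (Df.var _)) (DE.app (hc (i, j, l)))))
    have h1 : val (fun i => x (none, i)) =
        val (fun i => x (some false, i)) * val (fun i => x (some true, i)) ↔
        ∀ l, x (none, l) = ∑ i, ∑ j, x (some false, i) * x (some true, j) *
          b.repr (b i * b j) l := by
      rw [hiff]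
      refine forall_congr' fun l => ?_
      rw [hval, hval, fin_mul]
    exact ⟨fun h => ⟨fun _ => mem_univ _, h1.2 h⟩, fun h => h1.1 h.2⟩

end VCR
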