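import Pool.Agent.VCR.RootA
import Pool.Agent.VCR.RootC
import Pool.Agent.VCR.TraA
import Pool.Agent.VCR.TraB
import Pool.Agent.VCR.MacC

/-!
# VCR-Acf: a field of characteristic `0` with a calculus is algebraically closed
-/

open Set

namespace VCR

universe v

theorem isAlgClosed_of_calc {K : Type v} [Field K] [CharZero K] (𝓓 : Calc K) [RC 𝓓] :
    IsAlgClosed K := by
  refine isAlgClosed_of_roots fun L _ _ _ q hq x => ?_
  obtain ⟨𝓔, h𝓔⟩ := exists_calc_fin (K := K) (L := L) 𝓓
  haveI : CharZero L := charZero_of_injective_algebraMap (algebraMap K L).injective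
  obtain ⟨G, hG0, hG⟩ := exists_reps 𝓔 q hq
  exact pow_surj 𝓔 q hq.pos G hG0 hG x

end VCR
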