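import Mathlib

/-!
# VCR-AlgX: vectors of minimal support
-/

open Set

namespace VCR

universe v

theorem min_support {D : Type v} [DivisionRing D] {n : ℕ} (E : Subfield D) (S : Set D)
    (W : Set (Fin n → D)) (hWE : ∀ e ∈ W, ∀ i, e i ∈ E)
    (hW1 : ∀ e ∈ W, ∀ c ∈ E, (fun i => e i * c) ∈ W)
    (hW2 : ∀ e ∈ W, ∀ a ∈ S, (fun i => a * e i - e i * a) ∈ W)
    (e₀ : Fin n → D) (h₀ : e₀ ∈ W) (hne : e₀ ≠ 0) :
    ∃ e ∈ W, e ≠ 0 ∧ ∀ i, ∀ a ∈ S, a * e i = e i * a := by
  classical
  have key : ∀ (N : ℕ) (e : Fin n → D), e ∈ W → e ≠ 0 →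
      (Finset.univ.filter (fun i => e i ≠ 0)).card ≤ N →
      ∃ e ∈ W, e ≠ 0 ∧ ∀ i, ∀ a ∈ S, a * e i = e i * a := by
    intro N
    induction N with
    | zero =>
      intro e _ hne hc
      exfalso
      apply hne
      funext i
      by_contra hi
      have h1 : i ∈ Finset.univ.filter (fun i => e i ≠ 0) := by
        rw [Finset.mem_filter]
        exact ⟨Finset.mem_univ _, hi⟩
      rw [Finset.card_eq_zero.mp (Nat.le_zero.mp hc)] at h1
      exact absurd h1 (Finset.notMem_empty _)
    | succ N ih =>
      intro e he hne hc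
      obtain ⟨m, hm⟩ : ∃ m, e m ≠ 0 := by
        by_contra h
        push Not at h
        exact hne (funext h)
      have hmE : (e m)⁻¹ ∈ E := E.inv_mem (hWE e he m)
      by_cases hall : ∀ i, ∀ a ∈ S, a * (e i * (e m)⁻¹) = e i * (e m)⁻¹ * a
      · refine ⟨fun i => e i * (e m)⁻¹, hW1 e he _ hmE, ?_, hall⟩
        intro h
        have h1 := congrFun h m
        simp only [mul_inv_cancel₀ hm, Pi.zero_apply] at h1
        exact one_ne_zero h1
      · push Not at hall
        obtain ⟨i, a, ha, hia⟩ := hall
        have hmem := hW2 _ (hW1 e he _ hmE) a ha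
        refine ih _ hmem ?_ ?_
        · intro h
          apply hia
          have h1 := congrFun h i
          simp only [Pi.zero_apply] at h1
          exact sub_eq_zero.mp h1
        · have hsub : Finset.univ.filter (fun i => a * (e i * (e m)⁻¹) - e i * (e m)⁻¹ * a ≠ 0) ⊆
              (Finset.univ.filter (fun i => e i ≠ 0)).erase m := by
            intro l hl
            rw [Finset.mem_filter] at hl
            rw [Finset.mem_erase, Finset.mem_filter]
            refine ⟨?_, Finset.mem_univ _, ?_⟩
            · rintro rfl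
              apply hl.2
              rw [mul_inv_cancel₀ hm, mul_one, one_mul, sub_self]
            · intro h0
              apply hl.2
              rw [h0, zero_mul, mul_zero, zero_mul, sub_zero]
          have h1 := Finset.card_le_card hsub
          have h2 : m ∈ Finset.univ.filter (fun i => e i ≠ 0) := by
            rw [Finset.mem_filter]
            exact ⟨Finset.mem_univ _, hm⟩
          rw [Finset.card_erase_of_mem h2] at h1
          omega
  exact key _ e₀ h₀ hne le_rfl

end VCR
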