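import Pool.Agent.VCR.Cen
import Pool.Agent.VCR.AlgX

/-!
# VCR-AlgY: a relation forces commutativity when the centre of the centralizer is algebraically closed

PLAN of `comm_of_rel`. Put `S := Subring.closure {x, y}`, `E := cen {x, y}`.
* (1) `min_support` with `E := ⊤`, `S`, `W := {e | ∀ v ∈ S, ∑ i, y ^ i * v * e i = 0}`
  (`hW2`: `∑ y^i * v * (a * e i) = ∑ y^i * (v * a) * e i = 0` and
  `∑ y^i * v * (e i * a) = (∑ y^i * v * e i) * a = 0`) gives `e₁ ≠ 0` with all entries commuting with
  `S`, so in `E` (as `x y ∈ S`), and with `v = 1`: `∑ y^i * e₁ i = 0`.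
* (2) `min_support` with `E`, `S := E`, `W := {e | (∀ i, e i ∈ E) ∧ ∑ i, y ^ i * e i = 0}`
  (`hW2`: for `a ∈ E`, `a` commutes with `y`, so `∑ y^i * (a * e i) = a * ∑ y^i * e i = 0`) gives
  `e₂ ≠ 0` with entries in `E` commuting with all elements of `E`, so in the centre `F` of `E`.
* (3) the ring homomorphism `ι : F →+* D` (composition of the two inclusions) has values commuting
  with `y`; `φ := Polynomial.eval₂RingHom' ι y _ : F[X] →+* D`. The polynomial
  `p := ∑ i, C (e₂ i) * X ^ i` is nonzero (its coefficients are the `e₂ i`) and `φ p = 0`. Let `F` be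
  algebraically closed: `p` splits (`IsAlgClosed.splits p`), `p = C a * ∏ (X - C r)`
  (`Polynomial.Splits.eq_prod_roots` or `Polynomial.C_leadingCoeff_mul_prod_multiset_X_sub_C`),
  apply `φ` (`map_multiset_prod`): `D` has no zero divisors, so `y = ι r` for a root `r`
  (`Multiset.prod_eq_zero_iff`). Since `ι r ∈ E` commutes with `x`: `x * y = y * x`.
-/

open Set

namespace VCR

universe v

/-- an element which is a root of a nonzero polynomial over an algebraically closed field commuting
with it lies in this field -/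
theorem mem_of_root {F : Type v} {D : Type v} [Field F] [IsAlgClosed F] [DivisionRing D]
    (ι : F →+* D) (y : D) (hc : ∀ a, Commute (ι a) y) (d : ℕ) :
    ∀ p : Polynomial F, p.natDegree ≤ d → p ≠ 0 → Polynomial.eval₂RingHom' ι y hc p = 0 →
      ∃ r, y = ι r := by
  induction d with
  | zero =>
    intro p hp h0 hφ
    rw [Polynomial.eq_C_of_natDegree_le_zero hp] at hφ h0
    have h1 : ι (p.coeff 0) = 0 := by
      have h2 : Polynomial.eval₂RingHom' ι y hc (Polynomial.C (p.coeff 0)) = ι (p.coeff 0) :=
        Polynomial.eval₂_C ι y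
      rw [← h2]; exact hφ
    rw [map_eq_zero] at h1
    rw [h1] at h0
    simp at h0
  | succ d ih =>
    intro p hp h0 hφ
    by_cases hd : p.degree = 0
    · exact ih p (by rw [Polynomial.natDegree_eq_of_degree_eq_some hd]; exact Nat.zero_le _) h0 hφ
    · obtain ⟨r, hr⟩ := IsAlgClosed.exists_root p hd
      obtain ⟨q, hq⟩ := Polynomial.dvd_iff_isRoot.2 hr
      have hq0 : q ≠ 0 := by
        rintro rfl
        exact h0 (by rw [hq, mul_zero])
      rw [hq, map_mul, mul_eq_zero] at hφ
      rcases hφ with h | h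
      · refine ⟨r, ?_⟩
        rw [map_sub] at h
        have h1 : Polynomial.eval₂RingHom' ι y hc Polynomial.X = y := Polynomial.eval₂_X ι y
        have h2 : Polynomial.eval₂RingHom' ι y hc (Polynomial.C r) = ι r :=
          Polynomial.eval₂_C ι y
        rw [h1, h2] at h
        exact sub_eq_zero.1 h
      · refine ih q ?_ hq0 h
        have h3 : p.natDegree = q.natDegree + 1 := by
          rw [hq, Polynomial.natDegree_mul (Polynomial.X_sub_C_ne_zero r) hq0,
            Polynomial.natDegree_X_sub_C, add_comm]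
        omega

theorem comm_of_rel {D : Type v} [DivisionRing D] (x y : D)
    (hF : IsAlgClosed (Subring.center (cen ({x, y} : Set D)))) (n : ℕ) (e : Fin n → D)
    (he : e ≠ 0)
    (hrel : ∀ v ∈ Subring.closure ({x, y} : Set D), ∑ i : Fin n, y ^ (i : ℕ) * v * e i = 0) :
    x * y = y * x := by
  classical
  have hxS : x ∈ Subring.closure ({x, y} : Set D) := Subring.subset_closure (by simp)
  have hyS : y ∈ Subring.closure ({x, y} : Set D) := Subring.subset_closure (by simp)
  obtain ⟨e₁, he₁W, he₁0, he₁c⟩ := min_support (⊤ : Subfield D)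
    (Subring.closure ({x, y} : Set D) : Set D)
    {e | ∀ v ∈ Subring.closure ({x, y} : Set D), ∑ i : Fin n, y ^ (i : ℕ) * v * e i = 0}
    (fun e _ i => Subfield.mem_top _)
    (fun e he c _ v hv => by
      have := congrArg (· * c) (he v hv)
      simp only [Finset.sum_mul, zero_mul, mul_assoc] at this
      simpa only [mul_assoc] using this)
    (fun e he a ha v hv => by
      have h1 := he (v * a) (Subring.mul_mem _ hv ha)
      have h2 := congrArg (· * a) (he v hv)
      simp only [Finset.sum_mul, zero_mul] at h2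
      have h3 : ∀ i : Fin n, y ^ (i : ℕ) * v * (a * e i - e i * a) =
          y ^ (i : ℕ) * (v * a) * e i - y ^ (i : ℕ) * v * e i * a := fun i => by
        simp only [mul_sub, mul_assoc]
      rw [Finset.sum_congr rfl fun i _ => h3 i, Finset.sum_sub_distrib, h1, h2, sub_zero])
    e hrel he
  have he₁E : ∀ i, e₁ i ∈ cen ({x, y} : Set D) := by
    intro i a ha
    rcases ha with rfl | rfl
    · exact he₁c i _ hxS
    · exact he₁c i _ hyS
  have he₁s : ∑ i : Fin n, y ^ (i : ℕ) * e₁ i = 0 := by
    have := he₁W 1 (Subring.one_mem _)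
    simpa using this
  have hyE : ∀ a ∈ cen ({x, y} : Set D), Commute a y := fun a ha => (ha y (by simp)).symm
  obtain ⟨e₂, he₂W, he₂0, he₂c⟩ := min_support (cen ({x, y} : Set D))
    (cen ({x, y} : Set D) : Set D)
    {e | (∀ i, e i ∈ cen ({x, y} : Set D)) ∧ ∑ i : Fin n, y ^ (i : ℕ) * e i = 0}
    (fun e he i => he.1 i)
    (fun e he c hc => ⟨fun i => mul_mem (he.1 i) hc, by
      have := congrArg (· * c) he.2
      simp only [Finset.sum_mul, zero_mul, mul_assoc] at this
      exact this⟩)
    (fun e he a ha => ⟨fun i => sub_mem (mul_mem ha (he.1 i)) (mul_mem (he.1 i) ha), by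
      have h1 := congrArg (a * ·) he.2
      simp only [Finset.mul_sum, mul_zero] at h1
      have h2 := congrArg (· * a) he.2
      simp only [Finset.sum_mul, zero_mul] at h2
      have h3 : ∀ i : Fin n, y ^ (i : ℕ) * (a * e i - e i * a) =
          a * (y ^ (i : ℕ) * e i) - y ^ (i : ℕ) * e i * a := fun i => by
        have hay : a * y ^ (i : ℕ) = y ^ (i : ℕ) * a := ((hyE a ha).pow_right _).eq
        rw [mul_sub, ← mul_assoc, ← mul_assoc, ← mul_assoc, hay]
      rw [Finset.sum_congr rfl fun i _ => h3 i, Finset.sum_sub_distrib, h1, h2, sub_zero]⟩)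
    e₁ ⟨he₁E, he₁s⟩ he₁0
  let F := Subring.center (cen ({x, y} : Set D))
  let ι : F →+* D := ((cen ({x, y} : Set D)).subtype).comp F.subtype
  have hιmem : ∀ a : F, ι a ∈ cen ({x, y} : Set D) := fun a => (a : cen ({x, y} : Set D)).2
  have hc : ∀ a, Commute (ι a) y := fun a => hyE _ (hιmem a)
  have hcen : ∀ i, (⟨e₂ i, he₂W.1 i⟩ : cen ({x, y} : Set D)) ∈ F := by
    intro i
    rw [Subring.mem_center_iff]
    intro g
    exact Subtype.ext (he₂c i g g.2)
  let c : Fin n → F := fun i => ⟨⟨e₂ i, he₂W.1 i⟩, hcen i⟩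
  have hιc : ∀ i, ι (c i) = e₂ i := fun i => rfl
  let p : Polynomial F := ∑ i : Fin n, Polynomial.monomial (i : ℕ) (c i)
  have hp0 : p ≠ 0 := by
    intro hp
    obtain ⟨m, hm⟩ : ∃ m, e₂ m ≠ 0 := by
      by_contra hcon
      push Not at hcon
      exact he₂0 (funext hcon)
    have h1 : p.coeff (m : ℕ) = c m := by
      simp only [p, Polynomial.finset_sum_coeff, Polynomial.coeff_monomial]
      rw [Finset.sum_eq_single m]
      · simp
      · intro b _ hb
        rw [if_neg]
        intro h
        exact hb (Fin.ext h)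
      · intro h
        exact absurd (Finset.mem_univ _) h
    rw [hp, Polynomial.coeff_zero] at h1
    apply hm
    rw [← hιc m, ← h1, map_zero]
  have hφ : Polynomial.eval₂RingHom' ι y hc p = 0 := by
    have h1 : ∀ i : Fin n, Polynomial.eval₂RingHom' ι y hc (Polynomial.monomial (i : ℕ) (c i)) =
        y ^ (i : ℕ) * e₂ i := fun i => by
      have h2 : Polynomial.eval₂RingHom' ι y hc (Polynomial.monomial (i : ℕ) (c i)) =
          ι (c i) * y ^ (i : ℕ) := Polynomial.eval₂_monomial ι y
      rw [h2, ((hc (c i)).pow_right _).eq, hιc]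
    rw [map_sum, Finset.sum_congr rfl fun i _ => h1 i]
    exact he₂W.2
  haveI : IsAlgClosed F := hF
  obtain ⟨r, hr⟩ := mem_of_root ι y hc p.natDegree p le_rfl hp0 hφ
  rw [hr]
  exact hιmem r x (by simp)

end VCR
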