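import Mathlib

/-!
# VCR-Calc: abstract calculus of definable sets without trees

A `Calc X` is a family of subsets of the powers `α → X` (`α` a finite type) closed under the first
order operations (no parameters), such that there is no binary tree of nonempty definable sets.
-/

namespace VCR

universe u v w

/-- A binary tree of nonempty sets: sons are disjoint subsets of their father.
The list is read with the LAST step at the head. -/
structure IsTree {Z : Type u} (T : List Bool → Set Z) : Prop where
  ne : ∀ s, (T s).Nonempty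
  sub : ∀ i s, T (i :: s) ⊆ T s
  disj : ∀ s, Disjoint (T (false :: s)) (T (true :: s))

/-- A calculus of definable sets. -/
structure Calc (X : Type v) where
  D : ∀ α : Type, Set (Set (α → X))
  univ : ∀ {α : Type} [Finite α], (Set.univ : Set (α → X)) ∈ D α
  inter : ∀ {α : Type} [Finite α] {S S' : Set (α → X)}, S ∈ D α → S' ∈ D α → S ∩ S' ∈ D α
  compl : ∀ {α : Type} [Finite α] {S : Set (α → X)}, S ∈ D α → Sᶜ ∈ D α
  preim : ∀ {α β : Type} [Finite α] [Finite β] (σ : α → β) {S : Set (α → X)}, S ∈ D α →
    {f : β → X | f ∘ σ ∈ S} ∈ D β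
  im : ∀ {α β : Type} [Finite α] [Finite β] (σ : α → β) {S : Set (β → X)}, S ∈ D β →
    {f : α → X | ∃ g ∈ S, g ∘ σ = f} ∈ D α
  eq : {f : Bool → X | f false = f true} ∈ D Bool
  small : ∀ {α : Type} [Finite α] (T : List Bool → Set (α → X)), IsTree T →
    ¬ ∀ s, T s ∈ D α

instance (X : Type v) : LE (Calc X) := ⟨fun 𝓓 𝓔 => ∀ (α : Type) [Finite α], 𝓓.D α ⊆ 𝓔.D α⟩

/-- definable predicate in the variables `α` -/
def Dp {X : Type v} (𝓓 : Calc X) {α : Type} (Q : (α → X) → Prop) : Prop := {f | Q f} ∈ 𝓓.D α

/-- definable function of the variables `α` -/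
def Df {X : Type v} (𝓓 : Calc X) {α : Type} (t : (α → X) → X) : Prop :=
  Dp 𝓓 (fun f : Option α → X => f none = t (f ∘ some))

/-- definable subset of `X` -/
def DS {X : Type v} (𝓓 : Calc X) (V : Set X) : Prop := Dp 𝓓 (fun f : Unit → X => f () ∈ V)

/-- definable element -/
def DE {X : Type v} (𝓓 : Calc X) (x : X) : Prop := Df 𝓓 (fun _ : Empty → X => x)

/-- definable map `X → X` -/
def DF₁ {X : Type v} (𝓓 : Calc X) (T : X → X) : Prop := Df 𝓓 (fun f : Unit → X => T (f ()))

/-- definable map `X → X → X` -/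
def DF₂ {X : Type v} (𝓓 : Calc X) (T : X → X → X) : Prop :=
  Df 𝓓 (fun f : Bool → X => T (f false) (f true))

/-- definable binary relation -/
def DR₂ {X : Type v} (𝓓 : Calc X) (Q : X → X → Prop) : Prop :=
  Dp 𝓓 (fun f : Bool → X => Q (f false) (f true))

/-- the ring operations are definable -/
class RC {R : Type v} [Ring R] (𝓓 : Calc R) : Prop where
  add : DF₂ 𝓓 (fun a b : R => a + b)
  mul : DF₂ 𝓓 (fun a b : R => a * b)

end VCR
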