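import Pool.Agent.VCR.Acf

/-!
# VCR-Cen: centralizers in division rings; the centre of a centralizer is algebraically closed

PLAN of `isAlgClosed_center_cen`. By `exists_adj_two` pass to `𝓔 ≥ 𝓓` with `x`, `y` definable
(`RC.mono`). The set `(cen {x, y} : Set D)` is `{z | x * z = z * x ∧ y * z = z * y}`, definable (`dp`).
`exists_calc_inj 𝓔 (cen {x, y}).subtype` gives `𝓔₁ : Calc (cen {x, y})` with `RC 𝓔₁`. The set
`(Subring.center (cen {x, y}) : Set _)` is `{z | ∀ w, w * z = z * w}` (`Subring.mem_center_iff`),
definable over `𝓔₁` (`dp`); `exists_calc_inj 𝓔₁ (Subring.center _).subtype` gives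
`𝓔₂ : Calc (Subring.center (cen {x, y}))` with `RC 𝓔₂` (the `Ring` structure used by `RC` and the one
coming from the `Field` instance of the centre must agree; if `isAlgClosed_of_calc` complains use
`inferInstanceAs`/`convert`/`show`). `CharZero` of the centre: `charZero_of_injective_ringHom`-like
lemma (`RingHom.charZero_iff`, the inclusion in `D` is injective and `D` has characteristic `0`).
Apply `isAlgClosed_of_calc 𝓔₂`.
-/

open Set

namespace VCR

universe v

/-- the centralizer of `A` in a division ring, a sub division ring -/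
def cen {D : Type v} [DivisionRing D] (A : Set D) : Subfield D where
  carrier := {z | ∀ a ∈ A, a * z = z * a}
  mul_mem' := fun {z w} hz hw a ha => by
    rw [← mul_assoc, hz a ha, mul_assoc, hw a ha, mul_assoc]
  one_mem' := fun a _ => by simp
  add_mem' := fun {z w} hz hw a ha => by rw [mul_add, add_mul, hz a ha, hw a ha]
  zero_mem' := fun a _ => by simp
  neg_mem' := fun {z} hz a ha => by rw [mul_neg, neg_mul, hz a ha]
  inv_mem' := fun z hz a ha => by
    have h : Commute a z := hz a ha
    exact h.inv_right₀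

theorem mem_cen {D : Type v} [DivisionRing D] {A : Set D} {z : D} :
    z ∈ cen A ↔ ∀ a ∈ A, a * z = z * a := Iff.rfl

theorem isAlgClosed_center_cen {D : Type v} [DivisionRing D] [CharZero D] (𝓓 : Calc D) [RC 𝓓]
    (x y : D) : IsAlgClosed (Subring.center (cen ({x, y} : Set D))) := by
  obtain ⟨𝓔, hle, hx, hy⟩ := exists_adj_two 𝓓 x y
  haveI : RC 𝓔 := RC.mono hle
  obtain ⟨𝓔₁, hRC₁, -, -⟩ := exists_calc_inj 𝓔 (cen ({x, y} : Set D)).subtype
    Subtype.val_injective (by
      have : Set.range (cen ({x, y} : Set D)).subtype = {z | x * z = z * x ∧ y * z = z * y} := by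
        ext z
        constructor
        · rintro ⟨w, rfl⟩
          exact ⟨w.2 x (by simp), w.2 y (by simp)⟩
        · rintro ⟨h1, h2⟩
          refine ⟨⟨z, fun a ha => ?_⟩, rfl⟩
          rcases ha with rfl | rfl
          · exact h1
          · exact h2
      rw [this]
      ((try unfold DS); (try unfold DF₁); (try unfold DF₂); (try unfold DR₂); repeat' first | assumption | exact Df.var _ | exact Df.zero | exact Df.one | exact Df.natCast _ | (refine DE.app ?_; first | assumption | exact DE.natCast _) | refine Df.add ?_ ?_ | refine Df.mul ?_ ?_ | refine Df.subt ?_ ?_ | refine Df.neg ?_ | refine Df.pow ?_ _ | refine Df.sum _ (fun _ _ => ?_) | (refine DF₁.app (by assumption) ?_) | (refine DF₂.app (by assumption) ?_ ?_) | refine Dp.const _ | refine Dp.not ?_ | refine Dp.eq ?_ ?_ | refine Dp.ne ?_ ?_ | refine Dp.and ?_ ?_ | refine Dp.or ?_ ?_ | refine Dp.iff ?_ ?_ | refine Dp.imp ?_ ?_ | (refine DS.app (by assumption) ?_) | (refine DR₂.app (by assumption) ?_ ?_) | refine Dp.isUnit ?_ | refine Dp.ball _ (fun _ _ => ?_) | refine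 Dp.ex ?_ | refine Dp.all ?_ | refine Dp.allfin (fun _ => ?_) | refine Dp.exfin (fun _ => ?_)))
  haveI := hRC₁
  obtain ⟨𝓔₂, hRC₂, -, -⟩ := exists_calc_inj 𝓔₁ (Subring.center (cen ({x, y} : Set D))).subtype
    Subtype.val_injective (by
      have : Set.range (Subring.center (cen ({x, y} : Set D))).subtype =
          {z | ∀ w, w * z = z * w} := by
        ext z
        constructor
        · rintro ⟨w, rfl⟩
          exact Subring.mem_center_iff.1 w.2
        · intro h
          exact ⟨⟨z, Subring.mem_center_iff.2 h⟩, rfl⟩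
      rw [this]
      ((try unfold DS); (try unfold DF₁); (try unfold DF₂); (try unfold DR₂); repeat' first | assumption | exact Df.var _ | exact Df.zero | exact Df.one | exact Df.natCast _ | (refine DE.app ?_; first | assumption | exact DE.natCast _) | refine Df.add ?_ ?_ | refine Df.mul ?_ ?_ | refine Df.subt ?_ ?_ | refine Df.neg ?_ | refine Df.pow ?_ _ | refine Df.sum _ (fun _ _ => ?_) | (refine DF₁.app (by assumption) ?_) | (refine DF₂.app (by assumption) ?_ ?_) | refine Dp.const _ | refine Dp.not ?_ | refine Dp.eq ?_ ?_ | refine Dp.ne ?_ ?_ | refine Dp.and ?_ ?_ | refine Dp.or ?_ ?_ | refine Dp.iff ?_ ?_ | refine Dp.imp ?_ ?_ | (refine DS.app (by assumption) ?_) | (refine DR₂.app (by assumption) ?_ ?_) | refine Dp.isUnit ?_ | refine Dp.ball _ (fun _ _ => ?_) | refine Dp.ex ?_ | refine Dp.all ?_ | refine Dp.allfin (fun _ => ?_) | refine Dp.exfin (fun _ => ?_)))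
  haveI := hRC₂
  haveI : CharZero (Subring.center (cen ({x, y} : Set D))) := by
    refine charZero_of_inj_zero fun n hn => ?_
    have h1 : ((n : Subring.center (cen ({x, y} : Set D))) : cen ({x, y} : Set D)) = 0 := by
      rw [hn]; rfl
    have h2 : (((n : Subring.center (cen ({x, y} : Set D))) : cen ({x, y} : Set D)) : D) = 0 := by
      rw [h1]; rfl
    have h3 : (n : D) = 0 := by simpa using h2
    exact_mod_cast h3
  exact isAlgClosed_of_calc 𝓔₂

end VCR
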