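import Mathlib

/-!
# VCR-ClsA: countable algebraically closed fields of characteristic `0` and their transcendence degree

Transcendence bases of the same cardinality and `IsAlgClosed.equivOfTranscendenceBasis`.
-/

namespace VCR

theorem ringEquiv_of_trdeg {K K' : Type} [Field K] [Field K'] [IsAlgClosed K] [IsAlgClosed K']
    [CharZero K] [CharZero K'] [Countable K] [Countable K']
    (h : Cardinal.toENat (Algebra.trdeg ℚ K) = Cardinal.toENat (Algebra.trdeg ℚ K')) :
    Nonempty (K ≃+* K') := by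
  obtain ⟨s, hs⟩ := exists_isTranscendenceBasis ℚ K
  obtain ⟨t, ht⟩ := exists_isTranscendenceBasis ℚ K'
  have h1 : Cardinal.mk s = Algebra.trdeg ℚ K := hs.cardinalMk_eq_trdeg
  have h2 : Cardinal.mk t = Algebra.trdeg ℚ K' := ht.cardinalMk_eq_trdeg
  have h3 : Cardinal.mk s ≤ Cardinal.aleph0 := Cardinal.mk_le_aleph0
  have h4 : Cardinal.mk t ≤ Cardinal.aleph0 := Cardinal.mk_le_aleph0
  rw [← h1, ← h2] at h
  have h5 : Cardinal.mk s = Cardinal.mk t := Cardinal.toENat_injOn h3 h4 h
  obtain ⟨e⟩ := Cardinal.eq.1 h5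
  exact ⟨IsAlgClosed.equivOfTranscendenceBasis _ _ e hs ht⟩

end VCR
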