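import Pool.Agent.VCR.Defs

/-!
# VCR-ClsB: ring isomorphisms give isomorphisms of the coded structures, countable classification
-/

open Set

namespace VCR

theorem iso_of_ringEquiv {s t : Str FirstOrder.Language.ring} {R R' : Type} [Ring R] [Ring R']
    (hs : IsRingStr s R) (ht : IsRingStr t R') (φ : R ≃+* R') : Iso s t := by
  obtain ⟨e, e1, e2, e3, e4, e5⟩ := hs
  obtain ⟨e', f1, f2, f3, f4, f5⟩ := ht
  obtain ⟨g, hg⟩ : ∃ g : ℕ ≃ ℕ, ∀ y, e' (g y) = φ (e y) :=
    ⟨(e.trans φ.toEquiv).trans e'.symm, fun y => e'.apply_symm_apply _⟩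
  refine ⟨@FirstOrder.Language.Equiv.mk FirstOrder.Language.ring ℕ ℕ (toStructure s) (toStructure t)
    g ?_ ?_⟩
  · intro n f v
    apply e'.injective
    show e' (g (s.1 n f v)) = e' (t.1 n f (g ∘ v))
    rw [hg]
    change FirstOrder.ringFunc n at f
    cases f with
    | add =>
      rw [e1 v, f1 (g ∘ v), map_add, Function.comp_apply, Function.comp_apply, hg, hg]
    | mul =>
      rw [e2 v, f2 (g ∘ v), map_mul, Function.comp_apply, Function.comp_apply, hg, hg]
    | neg =>
      rw [e3 v, f3 (g ∘ v), map_neg, Function.comp_apply, hg]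
    | zero =>
      rw [e4 v, f4 (g ∘ v), map_zero]
    | one =>
      rw [e5 v, f5 (g ∘ v), map_one]
  · intro n r
    exact Empty.elim r

theorem countable_classes {L : FirstOrder.Language.{0, 0}} (A : Set (Str L)) {κ : Type}
    [Countable κ] (c : Str L → κ) (hc : ∀ s ∈ A, ∀ t ∈ A, c s = c t → Iso s t) :
    ∃ C : Set (Str L), C.Countable ∧ ∀ s ∈ A, ∃ t ∈ C, Iso s t := by
  classical
  obtain ⟨f, hf⟩ : ∃ f : κ → Str L, ∀ s ∈ A, f (c s) ∈ A ∧ c (f (c s)) = c s := by
    rcases A.eq_empty_or_nonempty with h | ⟨s₀, _⟩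
    · subst h
      by_cases hκ : Nonempty (Str L)
      · exact ⟨fun _ => hκ.some, fun s hs => absurd hs (Set.notMem_empty s)⟩
      · refine ⟨fun _ => ?_, fun s hs => absurd hs (Set.notMem_empty s)⟩
        exact ⟨fun _ _ _ => 0, fun _ _ _ => true⟩
    · refine ⟨fun k => if h : ∃ s ∈ A, c s = k then h.choose else s₀, ?_⟩
      intro s hs
      have h : ∃ s' ∈ A, c s' = c s := ⟨s, hs, rfl⟩
      simp only [dif_pos h]
      exact h.choose_spec
  refine ⟨Set.range f, Set.countable_range f, ?_⟩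
  intro s hs
  obtain ⟨h1, h2⟩ := hf s hs
  exact ⟨f (c s), Set.mem_range_self _, hc s hs _ h1 h2.symm⟩

end VCR
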