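import Pool.Agent.VCR.TreeL

/-!
# VCR-Cmod: the calculus of definable sets of a model

`D α` are the sets which are definable without parameters; a tree of definable sets in a finite power is transported to
`Fin k → M` and excluded by `tree_lemma`.
-/

open Set FirstOrder

namespace VCR

universe u

private theorem no_tree {L : FirstOrder.Language.{0, 0}} [Countable L.Symbols] (T : L.Theory)
    {M : Type u} [L.Structure M] [Infinite M] (hM : M ⊨ T) (hP : ¬ PerfectMany T)
    {α : Type} [Finite α] (S : List Bool → Set (α → M)) (hS : IsTree S) :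
    ¬ ∀ s, (∅ : Set M).Definable L (S s) := by
  intro hdef
  obtain ⟨k, ⟨e⟩⟩ := Finite.exists_equiv_fin α
  apply hP
  refine tree_lemma T hM k (fun t => (fun g : Fin k → M => g ∘ e) ⁻¹' S t) ?_ fun t =>
    (hdef t).preimage_comp e
  refine ⟨fun s => ?_, fun i s => ?_, fun s => ?_⟩
  · obtain ⟨f, hf⟩ := hS.ne s
    refine ⟨f ∘ e.symm, ?_⟩
    show (f ∘ e.symm) ∘ e ∈ S s
    have h1 : (f ∘ e.symm) ∘ e = f := by
      funext x
      exact congrArg f (e.symm_apply_apply x)
    rw [h1]
    exact hf
  · exact Set.preimage_mono (hS.sub i s)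
  · exact (hS.disj s).preimage _

theorem exists_calc_model {L : FirstOrder.Language.{0, 0}} [Countable L.Symbols] (T : L.Theory)
    {M : Type u} [L.Structure M] [Infinite M] (hM : M ⊨ T) (hP : ¬ PerfectMany T) :
    ∃ 𝓓 : Calc M, ∀ (α : Type) [Finite α] (S : Set (α → M)),
      (∅ : Set M).Definable L S → S ∈ 𝓓.D α := by
  refine ⟨{
    D := fun α => {S | (∅ : Set M).Definable L S}
    univ := Set.definable_univ
    inter := fun h1 h2 => Set.Definable.inter h1 h2
    compl := fun h => Set.Definable.compl h
    preim := fun σ _ h => Set.Definable.preimage_comp σ h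
    im := fun σ _ h => Set.Definable.image_comp h σ
    eq := ?_
    small := fun S hS h => no_tree T hM hP S hS h }, fun α _ S h => h⟩
  show (∅ : Set M).Definable L {f : Bool → M | f false = f true}
  rw [Set.empty_definable_iff]
  refine ⟨(FirstOrder.Language.Term.var false).equal (FirstOrder.Language.Term.var true), ?_⟩
  ext f
  show f false = f true ↔ _
  rw [Set.mem_ofPred, FirstOrder.Language.Formula.realize_equal]
  rfl

end VCR
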