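import Pool.Agent.VCR.TraA

/-! VCR-Cnr: the coefficient ring of a matrix ring with a calculus has a calculus. -/

open Set

namespace VCR

universe v

theorem exists_calc_entry {D : Type v} [Ring D] {k : ℕ} (hk : 0 < k)
    (𝓓 : Calc (Matrix (Fin k) (Fin k) D)) [RC 𝓓] : ∃ 𝓔 : Calc D, RC 𝓔 := by
  classical
  obtain ⟨z, hz⟩ : ∃ z : Fin k, z = ⟨0, hk⟩ := ⟨_, rfl⟩
  obtain ⟨ε, hε⟩ : ∃ ε : Matrix (Fin k) (Fin k) D, ε = Matrix.single z z (1 : D) := ⟨_, rfl⟩
  obtain ⟨𝓕, hle, hF⟩ := exists_adj_one 𝓓 ε
  have hRC : RC 𝓕 := RC.mono hle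
  have hs : ∀ x : Matrix (Fin k) (Fin k) D, ε * x * ε = Matrix.single z z (x z z) := by
    intro x
    rw [hε, Matrix.single_mul_mul_single, one_mul, mul_one]
  have hmul : ∀ a b : D, (Matrix.single z z (a * b) : Matrix (Fin k) (Fin k) D) =
      Matrix.single z z a * Matrix.single z z b := by
    intro a b
    rw [Matrix.single_mul_single_same]
  have hdv : ∀ x : Matrix (Fin k) (Fin k) D, ε * x * ε = x → x = Matrix.single z z (x z z) := by
    intro x hx
    rw [← hs x]
    exact hx.symm
  have hsd : ∀ y : D, ε * Matrix.single z z y * ε = Matrix.single z z y := by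
    intro y
    rw [hs, Matrix.single_apply_same]
  have hd : DS 𝓕 {x : Matrix (Fin k) (Fin k) D | ε * x * ε = x} := by
    have h1 : Dp 𝓕 (fun f : Unit → Matrix (Fin k) (Fin k) D => ε * f () * ε = f ()) := by ((try unfold DS); (try unfold DF₁); (try unfold DF₂); (try unfold DR₂); repeat' first | assumption | exact Df.var _ | exact Df.zero | exact Df.one | exact Df.natCast _ | (refine DE.app ?_; first | assumption | exact DE.natCast _) | refine Df.add ?_ ?_ | refine Df.mul ?_ ?_ | refine Df.subt ?_ ?_ | refine Df.neg ?_ | refine Df.pow ?_ _ | refine Df.sum _ (fun _ _ => ?_) | (refine DF₁.app (by assumption) ?_) | (refine DF₂.app (by assumption) ?_ ?_) | refine Dp.const _ | refine Dp.not ?_ | refine Dp.eq ?_ ?_ | refine Dp.ne ?_ ?_ | refine Dp.and ?_ ?_ | refine Dp.or ?_ ?_ | refine Dp.iff ?_ ?_ | refine Dp.imp ?_ ?_ | (refine DS.app (by assumption) ?_) | (refine DR₂.app (by assumption) ?_ ?_) | refine Dp.isUnit ?_ | refine Dp.ball _ (fun _ _ => ?_) | refine Dp.ex ?_ | refine Dp.all ?_ | refine Dp.allfin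 (fun _ => ?_) | refine Dp.exfin (fun _ => ?_))
    exact h1
  obtain ⟨𝓔, h𝓔⟩ := exists_calc_one 𝓕 {x : Matrix (Fin k) (Fin k) D | ε * x * ε = x}
    (fun x => x z z) (fun y => ⟨Matrix.single z z y, hsd y, Matrix.single_apply_same _ _ _⟩) hd (by
      have h1 : Dp 𝓕 (fun f : Bool → Matrix (Fin k) (Fin k) D => ε * f false * ε = f false ∧
          ε * f true * ε = f true ∧ f false = f true) := by ((try unfold DS); (try unfold DF₁); (try unfold DF₂); (try unfold DR₂); repeat' first | assumption | exact Df.var _ | exact Df.zero | exact Df.one | exact Df.natCast _ | (refine DE.app ?_; first | assumption | exact DE.natCast _) | refine Df.add ?_ ?_ | refine Df.mul ?_ ?_ | refine Df.subt ?_ ?_ | refine Df.neg ?_ | refine Df.pow ?_ _ | refine Df.sum _ (fun _ _ => ?_) | (refine DF₁.app (by assumption) ?_) | (refine DF₂.app (by assumption) ?_ ?_) | refine Dp.const _ | refine Dp.not ?_ | refine Dp.eq ?_ ?_ | refine Dp.ne ?_ ?_ | refine Dp.and ?_ ?_ | refine Dp.or ?_ ?_ | refine Dp.iff ?_ ?_ | refine Dp.imp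 ?_ ?_ | (refine DS.app (by assumption) ?_) | (refine DR₂.app (by assumption) ?_ ?_) | refine Dp.isUnit ?_ | refine Dp.ball _ (fun _ _ => ?_) | refine Dp.ex ?_ | refine Dp.all ?_ | refine Dp.allfin (fun _ => ?_) | refine Dp.exfin (fun _ => ?_))
      refine Dp.congr (fun f => ?_) h1
      constructor
      · rintro ⟨h, h', h''⟩
        exact ⟨h, h', by rw [h'']⟩
      · rintro ⟨h, h', h''⟩
        refine ⟨h, h', ?_⟩
        rw [hdv _ h, hdv _ h']
        exact congrArg (Matrix.single z z) h'')
  refine ⟨𝓔, ⟨(h𝓔 (Option Bool) _).2 ?_, (h𝓔 (Option Bool) _).2 ?_⟩⟩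
  · have h1 : Dp 𝓕 (fun f : Option Bool → Matrix (Fin k) (Fin k) D =>
        (∀ a, ε * f a * ε = f a) ∧ f none = f (some false) + f (some true)) := by ((try unfold DS); (try unfold DF₁); (try unfold DF₂); (try unfold DR₂); repeat' first | assumption | exact Df.var _ | exact Df.zero | exact Df.one | exact Df.natCast _ | (refine DE.app ?_; first | assumption | exact DE.natCast _) | refine Df.add ?_ ?_ | refine Df.mul ?_ ?_ | refine Df.subt ?_ ?_ | refine Df.neg ?_ | refine Df.pow ?_ _ | refine Df.sum _ (fun _ _ => ?_) | (refine DF₁.app (by assumption) ?_) | (refine DF₂.app (by assumption) ?_ ?_) | refine Dp.const _ | refine Dp.not ?_ | refine Dp.eq ?_ ?_ | refine Dp.ne ?_ ?_ | refine Dp.and ?_ ?_ | refine Dp.or ?_ ?_ | refine Dp.iff ?_ ?_ | refine Dp.imp ?_ ?_ | (refine DS.app (by assumption) ?_) | (refine DR₂.app (by assumption) ?_ ?_) | refine Dp.isUnit ?_ | refine Dp.ball _ (fun _ _ => ?_) | refine Dp.ex ?_ | refine Dp.all ?_ | refine Dp.allfin (fun _ => ?_) | refine Dp.exfin (fun _ => ?_))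
    refine Dp.congr (fun f => ?_) h1
    constructor
    · rintro ⟨h, h'⟩
      refine ⟨h, ?_⟩
      show f none z z = f (some false) z z + f (some true) z z
      rw [h']
      rfl
    · rintro ⟨h, h'⟩
      refine ⟨h, ?_⟩
      have h2 : f none z z = f (some false) z z + f (some true) z z := h'
      have h3 := hdv _ (h none)
      have h4 := hdv _ (h (some false))
      have h5 := hdv _ (h (some true))
      rw [h3, h2, Matrix.single_add, ← h4, ← h5]
  · have h1 : Dp 𝓕 (fun f : Option Bool → Matrix (Fin k) (Fin k) D =>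
        (∀ a, ε * f a * ε = f a) ∧ f none = f (some false) * f (some true)) := by ((try unfold DS); (try unfold DF₁); (try unfold DF₂); (try unfold DR₂); repeat' first | assumption | exact Df.var _ | exact Df.zero | exact Df.one | exact Df.natCast _ | (refine DE.app ?_; first | assumption | exact DE.natCast _) | refine Df.add ?_ ?_ | refine Df.mul ?_ ?_ | refine Df.subt ?_ ?_ | refine Df.neg ?_ | refine Df.pow ?_ _ | refine Df.sum _ (fun _ _ => ?_) | (refine DF₁.app (by assumption) ?_) | (refine DF₂.app (by assumption) ?_ ?_) | refine Dp.const _ | refine Dp.not ?_ | refine Dp.eq ?_ ?_ | refine Dp.ne ?_ ?_ | refine Dp.and ?_ ?_ | refine Dp.or ?_ ?_ | refine Dp.iff ?_ ?_ | refine Dp.imp ?_ ?_ | (refine DS.app (by assumption) ?_) | (refine DR₂.app (by assumption) ?_ ?_) | refine Dp.isUnit ?_ | refine Dp.ball _ (fun _ _ => ?_) | refine Dp.ex ?_ | refine Dp.all ?_ | refine Dp.allfin (fun _ => ?_) | refine Dp.exfin (fun _ => ?_))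
    refine Dp.congr (fun f => ?_) h1
    constructor
    · rintro ⟨h, h'⟩
      refine ⟨h, ?_⟩
      show f none z z = f (some false) z z * f (some true) z z
      have h4 := hdv _ (h (some false))
      have h5 := hdv _ (h (some true))
      have h6 : f none = Matrix.single z z (f (some false) z z * f (some true) z z) := by
        rw [h', hmul, ← h4, ← h5]
      rw [h6, Matrix.single_apply_same]
    · rintro ⟨h, h'⟩
      refine ⟨h, ?_⟩
      have h2 : f none z z = f (some false) z z * f (some true) z z := h'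
      have h3 := hdv _ (h none)
      have h4 := hdv _ (h (some false))
      have h5 := hdv _ (h (some true))
      rw [h3, h2, hmul, ← h4, ← h5]

end VCR
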