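import Pool.Agent.VCR.Fit

/-!
# VCR-CohnA: if `1` is a value of an inner derivation then it is onto
-/

open Set

namespace VCR

universe v

private theorem leib {D : Type v} [DivisionRing D] (y : D) (δ : D →+ D)
    (hδ : ∀ z, δ z = y * z - z * y) (a b : D) : δ (a * b) = δ a * b + a * δ b := by
  simp only [hδ]
  noncomm_ring

private theorem dpow {D : Type v} [DivisionRing D] (y t : D) (δ : D →+ D)
    (hδ : ∀ z, δ z = y * z - z * y) (ht : δ t = 1) (n : ℕ) :
    δ (t ^ (n + 1)) = ((n + 1 : ℕ) : D) * t ^ n := by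
  induction n with
  | zero => simp [ht]
  | succ n ih =>
    rw [pow_succ, leib y δ hδ, ih, ht, mul_assoc, ← pow_succ, mul_one, Nat.cast_succ (n + 1), add_mul,
      one_mul]

private theorem diter {D : Type v} [DivisionRing D] (y t : D) (δ : D →+ D)
    (hδ : ∀ z, δ z = y * z - z * y) (ht : δ t = 1) (n : ℕ) :
    ∀ c : D, δ c = 0 → δ^[n] (c * t ^ n) = ((Nat.factorial n : ℕ) : D) * c := by
  induction n with
  | zero => intro c _; simp
  | succ n ih =>
    intro c hc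
    have h0 : δ (((n + 1 : ℕ) : D) * c) = 0 := by
      rw [← nsmul_eq_mul, map_nsmul, hc, smul_zero]
    rw [Function.iterate_succ_apply, leib y δ hδ, hc, zero_mul, zero_add, dpow y t δ hδ ht,
      ← mul_assoc, (Nat.cast_commute (n + 1) c).symm.eq, ih _ h0, ← mul_assoc, Nat.factorial_succ]
    rw [← Nat.cast_mul, mul_comm]

private theorem dsolve {D : Type v} [DivisionRing D] [CharZero D] (y t : D) (δ : D →+ D)
    (hδ : ∀ z, δ z = y * z - z * y) (ht : δ t = 1) (n : ℕ) :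
    ∀ u : D, δ^[n] u = 0 → ∃ w, δ w = u := by
  have hq : ∀ (m : ℕ) (c : D), δ c = 0 → δ ((m : D)⁻¹ * c) = 0 := by
    intro m c hc
    have h1 : δ ((m : D)⁻¹) = 0 := by
      rw [hδ, sub_eq_zero]
      exact ((Nat.cast_commute m y).inv_left₀).symm.eq
    rw [leib y δ hδ, h1, hc, zero_mul, mul_zero, add_zero]
  induction n with
  | zero =>
    intro u hu
    exact ⟨0, by rw [map_zero]; exact hu.symm⟩
  | succ n ih =>
    intro u hu
    rw [Function.iterate_succ_apply'] at hu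
    have hf : ((Nat.factorial n : ℕ) : D) ≠ 0 := Nat.cast_ne_zero.2 (Nat.factorial_ne_zero n)
    have hn : ((n + 1 : ℕ) : D) ≠ 0 := Nat.cast_ne_zero.2 (Nat.succ_ne_zero n)
    have hc' : δ (((Nat.factorial n : ℕ) : D)⁻¹ * δ^[n] u) = 0 := hq _ _ hu
    obtain ⟨w', hw'⟩ := ih (u - (((Nat.factorial n : ℕ) : D)⁻¹ * δ^[n] u) * t ^ n) (by
      rw [iterate_map_sub, diter y t δ hδ ht n _ hc', mul_inv_cancel_left₀ hf, sub_self])
    refine ⟨w' + ((((n + 1 : ℕ) : D)⁻¹ * (((Nat.factorial n : ℕ) : D)⁻¹ * δ^[n] u)) *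
      t ^ (n + 1)), ?_⟩
    rw [map_add, hw', leib y δ hδ, hq _ _ hc', zero_mul, zero_add, dpow y t δ hδ ht]
    have h2 : (((n + 1 : ℕ) : D)⁻¹ * (((Nat.factorial n : ℕ) : D)⁻¹ * δ^[n] u)) *
        (((n + 1 : ℕ) : D) * t ^ n) = (((Nat.factorial n : ℕ) : D)⁻¹ * δ^[n] u) * t ^ n := by
      rw [← mul_assoc, (Nat.cast_commute (n + 1) _).symm.eq, mul_inv_cancel_left₀ hn]
    rw [h2, sub_add_cancel]

theorem ad_surj {D : Type v} [DivisionRing D] [CharZero D] (𝓓 : Calc D) [RC 𝓓] (y t : D)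
    (ht : y * t - t * y = 1) (c : D) : ∃ x, y * x - x * y = c := by
  obtain ⟨𝓔, hle, hy⟩ := exists_adj_one 𝓓 y
  have : RC 𝓔 := RC.mono hle
  let δ : D →+ D := AddMonoidHom.mulLeft y - AddMonoidHom.mulRight y
  have hδ : ∀ z, δ z = y * z - z * y := fun z => rfl
  have hdf : DF₁ 𝓔 δ := by
    show DF₁ 𝓔 (fun z => y * z - z * y)
    ((try unfold DS); (try unfold DF₁); (try unfold DF₂); (try unfold DR₂); repeat' first | assumption | exact Df.var _ | exact Df.zero | exact Df.one | exact Df.natCast _ | (refine DE.app ?_; first | assumption | exact DE.natCast _) | refine Df.add ?_ ?_ | refine Df.mul ?_ ?_ | refine Df.subt ?_ ?_ | refine Df.neg ?_ | refine Df.pow ?_ _ | refine Df.sum _ (fun _ _ => ?_) | (refine DF₁.app (by assumption) ?_) | (refine DF₂.app (by assumption) ?_ ?_) | refine Dp.const _ | refine Dp.not ?_ | refine Dp.eq ?_ ?_ | refine Dp.ne ?_ ?_ | refine Dp.and ?_ ?_ | refine Dp.or ?_ ?_ | refine Dp.iff ?_ ?_ | refine Dp.imp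 ?_ ?_ | (refine DS.app (by assumption) ?_) | (refine DR₂.app (by assumption) ?_ ?_) | refine Dp.isUnit ?_ | refine Dp.ball _ (fun _ _ => ?_) | refine Dp.ex ?_ | refine Dp.all ?_ | refine Dp.allfin (fun _ => ?_) | refine Dp.exfin (fun _ => ?_))
  obtain ⟨w, u, n, h1, h2⟩ := exists_fit 𝓔 δ hdf c
  obtain ⟨w', hw'⟩ := dsolve y t δ hδ ht n u h2
  refine ⟨w + w', ?_⟩
  rw [← hδ, map_add, hw', h1]

end VCR
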