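import Pool.Agent.VCR.CohnA

/-!
# VCR-CohnB: the maps `x ↦ a x - x b` are zero or onto
-/

open Set

namespace VCR

universe v

theorem cohn_onto {D : Type v} [DivisionRing D] [CharZero D] (𝓓 : Calc D) [RC 𝓓]
    (h1 : ∀ x y : D, x * y ≠ y * x → ∃ t, y * t - t * y = 1) (a b : D)
    (hab : ∃ z, a * z ≠ z * b) (c : D) : ∃ x, a * x - x * b = c := by
  by_cases hz : ∃ z₀ : D, z₀ ≠ 0 ∧ a * z₀ = z₀ * b
  · obtain ⟨z₀, hz0, hz1⟩ := hz
    have hx : ∃ x : D, x * a ≠ a * x := by
      by_contra hcon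
      push Not at hcon
      obtain ⟨z, hz2⟩ := hab
      apply hz2
      have h2 : a = b := by
        apply mul_left_cancel₀ hz0
        rw [hcon z₀, hz1]
      rw [← h2, hcon z]
    obtain ⟨x, hx⟩ := hx
    obtain ⟨t, ht⟩ := h1 x a hx
    obtain ⟨v, hv⟩ := ad_surj 𝓓 a t ht (c * z₀⁻¹)
    refine ⟨v * z₀, ?_⟩
    calc a * (v * z₀) - v * z₀ * b = a * v * z₀ - v * (z₀ * b) := by simp only [mul_assoc]
      _ = a * v * z₀ - v * (a * z₀) := by rw [hz1]
      _ = (a * v - v * a) * z₀ := by rw [sub_mul, mul_assoc v a z₀]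
      _ = c := by rw [hv, mul_assoc, inv_mul_cancel₀ hz0, mul_one]
  · push Not at hz
    obtain ⟨𝓔, hle, ha, hb⟩ := exists_adj_two 𝓓 a b
    have : RC 𝓔 := RC.mono hle
    let T : D →+ D :=
      { toFun := fun z => a * z - z * b
        map_zero' := by simp
        map_add' := fun x y => by rw [mul_add, add_mul]; abel }
    have hT : DF₁ 𝓔 T := by
      show DF₁ 𝓔 (fun z => a * z - z * b)
      ((try unfold DS); (try unfold DF₁); (try unfold DF₂); (try unfold DR₂); repeat' first | assumption | exact Df.var _ | exact Df.zero | exact Df.one | exact Df.natCast _ | (refine DE.app ?_; first | assumption | exact DE.natCast _) | refine Df.add ?_ ?_ | refine Df.mul ?_ ?_ | refine Df.subt ?_ ?_ | refine Df.neg ?_ | refine Df.pow ?_ _ | refine Df.sum _ (fun _ _ => ?_) | (refine DF₁.app (by assumption) ?_) | (refine DF₂.app (by assumption) ?_ ?_) | refine Dp.const _ | refine Dp.not ?_ | refine Dp.eq ?_ ?_ | refine Dp.ne ?_ ?_ | refine Dp.and ?_ ?_ | refine Dp.or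 ?_ ?_ | refine Dp.iff ?_ ?_ | refine Dp.imp ?_ ?_ | (refine DS.app (by assumption) ?_) | (refine DR₂.app (by assumption) ?_ ?_) | refine Dp.isUnit ?_ | refine Dp.ball _ (fun _ _ => ?_) | refine Dp.ex ?_ | refine Dp.all ?_ | refine Dp.allfin (fun _ => ?_) | refine Dp.exfin (fun _ => ?_))
    have hi : Function.Injective T := by
      rw [injective_iff_map_eq_zero]
      intro z hz2
      by_contra hz0
      exact hz z hz0 (sub_eq_zero.1 hz2)
    obtain ⟨x, hx⟩ := surj_of_inj 𝓔 T hT hi c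
    exact ⟨x, hx⟩

end VCR
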