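import Mathlib

/-!
# VCR-Dec: strongly regular rings with finitely many idempotents are products of division rings

A complete orthogonal family of nonzero (central) idempotents of maximal length consists of
primitive idempotents, and the corners of primitive idempotents are division rings.
-/

open Set

namespace VCR

universe v

theorem exists_max {R : Type v} [Ring R] (N : ℕ)
    (hN : ∀ (n : ℕ) (e : Fin n → R), CompleteOrthogonalIdempotents e → (∀ i, e i ≠ 0) → n ≤ N) :
    ∃ n : ℕ, (∃ e : Fin n → R, CompleteOrthogonalIdempotents e ∧ ∀ i, e i ≠ 0) ∧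
      ¬ ∃ e : Fin (n + 1) → R, CompleteOrthogonalIdempotents e ∧ ∀ i, e i ≠ 0 := by
  by_contra hcon
  push Not at hcon
  have key : ∀ n : ℕ, (∃ e : Fin n → R, CompleteOrthogonalIdempotents e ∧ ∀ i, e i ≠ 0) →
      ∃ e : Fin (n + 1) → R, CompleteOrthogonalIdempotents e ∧ ∀ i, e i ≠ 0 := fun n hn => hcon n hn
  have start : ∃ n : ℕ, ∃ e : Fin n → R, CompleteOrthogonalIdempotents e ∧ ∀ i, e i ≠ 0 := by
    rcases subsingleton_or_nontrivial R with h | h
    · exact ⟨0, fun i => i.elim0, CompleteOrthogonalIdempotents.of_subsingleton,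
        fun i => i.elim0⟩
    · exact ⟨1, fun _ => 1, CompleteOrthogonalIdempotents.unique_iff.mpr rfl,
        fun _ => one_ne_zero⟩
  obtain ⟨n₀, h₀⟩ := start
  have all : ∀ k : ℕ, ∃ e : Fin (n₀ + k) → R,
      CompleteOrthogonalIdempotents e ∧ ∀ i, e i ≠ 0 := by
    intro k
    induction k with
    | zero => exact h₀
    | succ k ih => exact key _ ih
  obtain ⟨e, he, hne⟩ := all (N + 1)
  have := hN _ e he hne
  omega

/-- splitting one member of a complete orthogonal family -/
theorem split_family {R : Type v} [Ring R] (hcen : ∀ e : R, e * e = e → ∀ r, e * r = r * e)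
    {n : ℕ} {e : Fin n → R} (he : CompleteOrthogonalIdempotents e) (hne : ∀ i, e i ≠ 0)
    (i : Fin n) (f : R) (hf : f * f = f) (hfe : f * e i = f) (hf0 : f ≠ 0) (hfi : f ≠ e i) :
    ∃ e' : Fin (n + 1) → R, CompleteOrthogonalIdempotents e' ∧ ∀ j, e' j ≠ 0 := by
  classical
  have hef : e i * f = f := by rw [← hcen f hf, hfe]
  have h1 : ∀ j, j ≠ i → f * e j = 0 := by
    intro j hj
    rw [← hfe, mul_assoc, he.ortho (Ne.symm hj), mul_zero]
  have h2 : ∀ j, j ≠ i → e j * f = 0 := by
    intro j hj
    rw [← hef, ← mul_assoc, he.ortho hj, zero_mul]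
  refine ⟨Fin.cons f (fun j => if j = i then e i - f else e j), ?_, ?_⟩
  · rw [CompleteOrthogonalIdempotents.iff_ortho_complete]
    constructor
    · intro a b hab
      induction a using Fin.cases with
      | zero =>
        induction b using Fin.cases with
        | zero => exact absurd rfl hab
        | succ b =>
          simp only [Fin.cons_zero, Fin.cons_succ]
          split_ifs with hb
          · rw [mul_sub, hfe, hf, sub_self]
          · exact h1 b hb
      | succ a =>
        induction b using Fin.cases with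
        | zero =>
          simp only [Fin.cons_zero, Fin.cons_succ]
          split_ifs with ha
          · rw [sub_mul, hef, hf, sub_self]
          · exact h2 a ha
        | succ b =>
          have hab' : a ≠ b := fun h => hab (by rw [h])
          simp only [Fin.cons_succ]
          split_ifs with ha hb hb
          · exact absurd (ha.trans hb.symm) hab'
          · have hib : i ≠ b := Ne.symm hb
            rw [sub_mul, he.ortho hib, h1 b hb, sub_self]
          · rw [mul_sub, he.ortho ha, h2 a ha, sub_self]
          · exact he.ortho hab'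
    · rw [Fin.sum_univ_succ]
      simp only [Fin.cons_zero, Fin.cons_succ]
      have : ∀ j, (if j = i then e i - f else e j) = e j - (if j = i then f else 0) := by
        intro j
        split_ifs with hj
        · rw [hj]
        · rw [sub_zero]
      simp only [this, Finset.sum_sub_distrib, Finset.sum_ite_eq', Finset.mem_univ, if_true,
        he.complete]
      abel
  · intro j
    induction j using Fin.cases with
    | zero => simpa using hf0
    | succ j =>
      simp only [Fin.cons_succ]
      split_ifs with hj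
      · exact fun h => hfi (sub_eq_zero.mp h).symm
      · exact hne j

theorem corner_div {R : Type v} [Ring R] (hcen : ∀ e : R, e * e = e → ∀ r, e * r = r * e)
    (hreg : ∀ r : R, ∃ x, r * x * r = r ∧ r * x = x * r) (e : R) (he : IsIdempotentElem e)
    (hprim : ∀ f : R, f * f = f → f * e = f → f ≠ 0 → f = e) (a : he.Corner) :
    IsUnit a ∨ a = 0 := by
  by_cases ha : a = 0
  · exact Or.inr ha
  left
  obtain ⟨r, hr⟩ := a
  have hr' := (Subsemigroup.mem_corner_iff he).mp hr
  have hr0 : r ≠ 0 := fun h => ha (Subtype.ext h)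
  obtain ⟨x, hx1, hx2⟩ := hreg r
  have hf : (r * x) * (r * x) = r * x := by rw [← mul_assoc, hx1]
  have hfe : (r * x) * e = r * x := by
    rw [← hcen e he, ← mul_assoc, hr'.1]
  have hf0 : r * x ≠ 0 := fun h => hr0 (by rw [← hx1, h, zero_mul])
  have hfe' := hprim _ hf hfe hf0
  have hxe : x * r = e := by rw [← hx2, hfe']
  have hmem : e * x * e ∈ Subsemigroup.corner e := ⟨x, rfl⟩
  refine ⟨⟨⟨r, hr⟩, ⟨e * x * e, hmem⟩, ?_, ?_⟩, rfl⟩
  · apply Subtype.ext
    change r * (e * x * e) = e
    rw [← mul_assoc, ← mul_assoc, hr'.2, hfe']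
    exact he
  · apply Subtype.ext
    change e * x * e * r = e
    rw [mul_assoc, hr'.1, mul_assoc, hxe]
    exact he

theorem exists_decomp {R : Type v} [Ring R] (hcen : ∀ e : R, e * e = e → ∀ r, e * r = r * e)
    (hreg : ∀ r : R, ∃ x, r * x * r = r ∧ r * x = x * r) (N : ℕ)
    (hN : ∀ (n : ℕ) (e : Fin n → R), CompleteOrthogonalIdempotents e → (∀ i, e i ≠ 0) → n ≤ N) :
    ∃ (n : ℕ) (D : Fin n → Type v) (_ : ∀ i, DivisionRing (D i)), Nonempty (R ≃+* ∀ i, D i) := by
  obtain ⟨n, ⟨e, he, hne⟩, hmax⟩ := exists_max N hN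
  have hprim : ∀ (i : Fin n) (f : R), f * f = f → f * e i = f → f ≠ 0 → f = e i := by
    intro i f hf hfe hf0
    by_contra hfi
    exact hmax (split_family hcen he hne i f hf hfe hf0 hfi)
  have hc : ∀ i, IsMulCentral (e i) := fun i =>
    ⟨fun a => hcen _ (he.idem i) a, fun b c => (mul_assoc _ _ _).symm, fun a b => mul_assoc _ _ _⟩
  have hnt : ∀ i, Nontrivial (he.idem i).Corner := by
    intro i
    refine ⟨⟨0, 1, fun h => hne i ?_⟩⟩
    have := congrArg Subtype.val h
    exact this.symm
  refine ⟨n, fun i => (he.idem i).Corner, fun i =>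
    @DivisionRing.ofIsUnitOrEqZero _ (hnt i) _
      (corner_div hcen hreg (e i) (he.idem i) (hprim i)), ?_⟩
  exact ⟨he.ringEquivOfIsMulCentral hc⟩

end VCR
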