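import Mathlib

/-!
# VCR-DefsB: small theories; semiprimary rings with algebraically closed coefficient fields
-/

open Set FirstOrder

namespace VCR

universe u v

/-- The theory of the structure `M` is small: for each `k` it has only countably many complete `k`-types without
parameters. -/
def SmallTheory (L : FirstOrder.Language.{0, 0}) (M : Type u) [L.Structure M] : Prop :=
  ∀ k : ℕ, Countable ((L.completeTheory M).CompleteType (Fin k))

/-- There is a homomorphism with nilpotent kernel from `R` onto a finite product of full matrix rings
over algebraically closed fields of characteristic `0`. -/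
def IsAcfSemiprimary (R : Type v) [Ring R] : Prop :=
  ∃ (n : ℕ) (a : Fin n → ℕ) (K : Fin n → Type v) (_ : ∀ i, Field (K i))
    (f : R →+* ∀ i, Matrix (Fin (a i)) (Fin (a i)) (K i)),
    (∀ i, 0 < a i ∧ CharZero (K i) ∧ IsAlgClosed (K i)) ∧ Function.Surjective f ∧
    ∃ N : ℕ, ∀ x : Fin N → R, (∀ i, f (x i) = 0) → (List.ofFn x).prod = 0

end VCR
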