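import Pool.Agent.VCR.Fo

/-!
# VCR-TreeA: forbidden configurations in a calculus (1)

Each configuration gives a binary tree of definable sets.
-/

open Set

namespace VCR

universe v

private theorem tra_small {X : Type v} (𝓓 : Calc X) (T : List Bool → Set X) (hT : IsTree T)
    (hD : ∀ s, DS 𝓓 (T s)) : False := by
  refine 𝓓.small (fun s => {f : Unit → X | f () ∈ T s}) ⟨?_, ?_, ?_⟩ hD
  · intro s
    obtain ⟨x, hx⟩ := hT.ne s
    exact ⟨fun _ => x, hx⟩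
  · intro i s f hf
    exact hT.sub i s hf
  · intro s
    rw [Set.disjoint_left]
    intro f hf hf'
    exact (Set.disjoint_left.1 (hT.disj s)) hf hf'

private def tra_g {X : Type v} (f₀ f₁ : X → X) : List Bool → X → X
  | [] => fun x => x
  | i :: s => fun x => tra_g f₀ f₁ s (cond i (f₁ x) (f₀ x))

private theorem tra_maps {X : Type v} {V : Set X} {f₀ f₁ : X → X} (m₀ : MapsTo f₀ V V)
    (m₁ : MapsTo f₁ V V) (s : List Bool) : MapsTo (tra_g f₀ f₁ s) V V := by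
  induction s with
  | nil => exact fun x hx => hx
  | cons i s ih =>
    intro x hx
    cases i
    · exact ih (m₀ hx)
    · exact ih (m₁ hx)

private theorem tra_inj {X : Type v} {V : Set X} {f₀ f₁ : X → X} (m₀ : MapsTo f₀ V V)
    (m₁ : MapsTo f₁ V V) (i₀ : InjOn f₀ V) (i₁ : InjOn f₁ V) (s : List Bool) :
    InjOn (tra_g f₀ f₁ s) V := by
  induction s with
  | nil => exact fun x _ y _ h => h
  | cons i s ih =>
    intro x hx y hy h
    cases i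
    · exact i₀ hx hy (ih (m₀ hx) (m₀ hy) h)
    · exact i₁ hx hy (ih (m₁ hx) (m₁ hy) h)

private theorem tra_df {X : Type v} (𝓓 : Calc X) {f₀ f₁ : X → X} (h₀ : DF₁ 𝓓 f₀)
    (h₁ : DF₁ 𝓓 f₁) (s : List Bool) : DF₁ 𝓓 (tra_g f₀ f₁ s) := by
  induction s with
  | nil => exact Df.var ()
  | cons i s ih =>
    cases i
    · exact DF₁.app ih h₀
    · exact DF₁.app ih h₁

theorem no_two_maps {X : Type v} (𝓓 : Calc X) (V : Set X) (hne : V.Nonempty) (hV : DS 𝓓 V)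
    (f₀ f₁ : X → X) (h₀ : DF₁ 𝓓 f₀) (h₁ : DF₁ 𝓓 f₁) (i₀ : InjOn f₀ V) (i₁ : InjOn f₁ V)
    (m₀ : MapsTo f₀ V V) (m₁ : MapsTo f₁ V V) (hd : ∀ x ∈ V, ∀ y ∈ V, f₀ x ≠ f₁ y) : False := by
  refine tra_small 𝓓 (fun s => tra_g f₀ f₁ s '' V) ⟨?_, ?_, ?_⟩ ?_
  · intro s
    exact hne.image _
  · rintro i s _ ⟨x, hx, rfl⟩
    cases i
    · exact ⟨f₀ x, m₀ hx, rfl⟩
    · exact ⟨f₁ x, m₁ hx, rfl⟩
  · intro s
    rw [Set.disjoint_left]
    rintro _ ⟨x, hx, rfl⟩ ⟨y, hy, hxy⟩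
    have h1 : f₁ y = f₀ x := tra_inj m₀ m₁ i₀ i₁ s (m₁ hy) (m₀ hx) hxy
    exact hd x hx y hy h1.symm
  · intro s
    refine Dp.congr (fun f => ?_) (DS.exs hV (Q := fun x (f : Unit → X) => f () = tra_g f₀ f₁ s x)
      (Dp.eq (Df.var (some ())) (DF₁.app (tra_df 𝓓 h₀ h₁ s) (Df.var none))))
    constructor
    · rintro ⟨x, hx, h⟩
      exact ⟨x, hx, h.symm⟩
    · rintro ⟨x, hx, h⟩
      exact ⟨x, hx, h.symm⟩

private def tra_T {X : Type v} (A : ℕ → Set X) : List Bool → Set X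
  | [] => univ
  | i :: s => {x | x ∈ tra_T A s ∧ (x ∈ A s.length ↔ i = true)}

private theorem tra_Tmem {X : Type v} (A : ℕ → Set X) (s : List Bool) :
    ∃ ε : ℕ → Bool, ∀ x, (∀ j < s.length, (x ∈ A j ↔ ε j = true)) → x ∈ tra_T A s := by
  induction s with
  | nil => exact ⟨fun _ => true, fun x _ => mem_univ x⟩
  | cons i s ih =>
    obtain ⟨ε, hε⟩ := ih
    refine ⟨Function.update ε s.length i, fun x hx => ⟨hε x fun j hj => ?_, ?_⟩⟩
    · have h1 := hx j (by rw [List.length_cons]; omega)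
      rwa [Function.update_of_ne hj.ne] at h1
    · have h1 := hx s.length (by rw [List.length_cons]; omega)
      rwa [Function.update_self] at h1

private theorem tra_Tdef {X : Type v} (𝓓 : Calc X) (A : ℕ → Set X) (hA : ∀ n, DS 𝓓 (A n))
    (s : List Bool) : DS 𝓓 (tra_T A s) := by
  induction s with
  | nil => exact Dp.congr (fun _ => ⟨fun _ => mem_univ _, fun _ => trivial⟩) Dp.true
  | cons i s ih =>
    exact Dp.and ih (Dp.iff (hA s.length) (Dp.const (i = true)))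

theorem no_indep {X : Type v} (𝓓 : Calc X) (A : ℕ → Set X) (hA : ∀ n, DS 𝓓 (A n))
    (h : ∀ (n : ℕ) (ε : ℕ → Bool), ∃ x, ∀ i < n, (x ∈ A i ↔ ε i = true)) : False := by
  refine tra_small 𝓓 (tra_T A) ⟨?_, ?_, ?_⟩ (tra_Tdef 𝓓 A hA)
  · intro s
    obtain ⟨ε, hε⟩ := tra_Tmem A s
    obtain ⟨x, hx⟩ := h s.length ε
    exact ⟨x, hε x hx⟩
  · intro i s x hx
    exact hx.1
  · intro s
    rw [Set.disjoint_left]
    intro x hx hx'
    have h1 := hx'.2.2 rfl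
    have h2 := hx.2.1 h1
    cases h2

/-- there is no property of definable sets which implies nonempty and always splits -/
theorem no_split {X : Type v} (𝓓 : Calc X) {α : Type} [Finite α] (P : Set (α → X) → Prop)
    (hne : ∀ V ∈ 𝓓.D α, P V → V.Nonempty) (V : Set (α → X)) (hV : V ∈ 𝓓.D α) (hPV : P V)
    (h : ∀ V ∈ 𝓓.D α, P V → ∃ V₀ ∈ 𝓓.D α, ∃ V₁ ∈ 𝓓.D α, P V₀ ∧ P V₁ ∧ V₀ ⊆ V ∧ V₁ ⊆ V ∧
      Disjoint V₀ V₁) : False := by
  have h' : ∀ W : {W : Set (α → X) // W ∈ 𝓓.D α ∧ P W}, ∃ W₀ W₁ : {W : Set (α → X) // W ∈ 𝓓.D α ∧ P W},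
      W₀.1 ⊆ W.1 ∧ W₁.1 ⊆ W.1 ∧ Disjoint W₀.1 W₁.1 := by
    rintro ⟨W, hW, hPW⟩
    obtain ⟨V₀, h0, V₁, h1, p0, p1, s0, s1, hd⟩ := h W hW hPW
    exact ⟨⟨V₀, h0, p0⟩, ⟨V₁, h1, p1⟩, s0, s1, hd⟩
  choose a b hab using h'
  refine 𝓓.small (fun s => (s.foldr (fun i W => cond i (b W) (a W)) ⟨V, hV, hPV⟩ :
    {W : Set (α → X) // W ∈ 𝓓.D α ∧ P W}).1) ⟨?_, ?_, ?_⟩ ?_
  · intro s
    exact hne _ (s.foldr (fun i W => cond i (b W) (a W)) ⟨V, hV, hPV⟩ :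
      {W : Set (α → X) // W ∈ 𝓓.D α ∧ P W}).2.1 (s.foldr (fun i W => cond i (b W) (a W)) ⟨V, hV, hPV⟩ :
      {W : Set (α → X) // W ∈ 𝓓.D α ∧ P W}).2.2
  · intro i s
    cases i
    · exact (hab _).1
    · exact (hab _).2.1
  · intro s
    exact (hab _).2.2
  · intro s
    exact (s.foldr (fun i W => cond i (b W) (a W)) ⟨V, hV, hPV⟩ :
      {W : Set (α → X) // W ∈ 𝓓.D α ∧ P W}).2.1

end VCR
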