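import Pool.Agent.VCR.Cen
import Pool.Agent.VCR.TreeA

/-!
# VCR-Ind: no infinite definable sequence of left `C(y)`-independent elements

The maps `z ↦ π (d j * z)`, `j < n`, are onto together, so the sets `{z | π (d j * z) = 0}` are independent.
-/

open Set

namespace VCR

universe v

private theorem ind_ne {D : Type v} [DivisionRing D] (y : D) (d : ℕ → D)
    (hind : LinearIndependent (cen ({y} : Set D)) d) (n : ℕ) (c : ℕ → D)
    (hc : ∀ j, y * c j = c j * y) : d n - ∑ j ∈ Finset.range n, c j * d j ≠ 0 := by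
  intro h0
  have hmem : ∀ j, c j ∈ cen ({y} : Set D) := by
    intro j
    rw [mem_cen]
    rintro a rfl
    exact hc j
  have h1 := linearIndependent_iff'.1 hind (Finset.range (n + 1))
    (fun j => if j = n then 1 else -⟨c j, hmem j⟩) (by
      rw [Finset.sum_range_succ, if_pos rfl, one_smul, ← h0, sub_eq_add_neg, add_comm]
      congr 1
      rw [← Finset.sum_neg_distrib]
      refine Finset.sum_congr rfl fun j hj => ?_
      rw [if_neg (Finset.mem_range.1 hj).ne, neg_smul]
      rfl) n (Finset.mem_range.2 n.lt_succ_self)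
  rw [if_pos rfl] at h1
  exact one_ne_zero h1

private theorem ind_onto {D : Type v} [DivisionRing D] (y : D)
    (π : D →+ D) (hC : ∀ z, y * π z = π z * y)
    (hl : ∀ c z, y * c = c * y → π (c * z) = c * π z)
    (hr : ∀ c z, y * c = c * y → π (z * c) = π z * c) (h1 : π 1 = 1)
    (d : ℕ → D) (hind : LinearIndependent (cen ({y} : Set D)) d) (n : ℕ) :
    ∃ z : ℕ → D, ∀ i < n, ∀ j < n, π (d i * z j) = if i = j then 1 else 0 := by
  induction n with
  | zero => exact ⟨fun _ => 0, fun i hi => absurd hi (Nat.not_lt_zero i)⟩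
  | succ n ih =>
    obtain ⟨z, hz⟩ := ih
    obtain ⟨c, hc⟩ : ∃ c : ℕ → D, ∀ j, c j = π (d n * z j) := ⟨_, fun _ => rfl⟩
    have hcC : ∀ j, y * c j = c j * y := fun j => by rw [hc]; exact hC _
    have hne := ind_ne y d hind n c hcC
    obtain ⟨u, hu⟩ : ∃ u, (d n - ∑ j ∈ Finset.range n, c j * d j) * u = 1 :=
      ⟨_, mul_inv_cancel₀ hne⟩
    have hu1 : π (d n * u) - ∑ j ∈ Finset.range n, c j * π (d j * u) = 1 := by
      rw [← h1, ← hu, sub_mul, map_sub, Finset.sum_mul, map_sum]
      congr 1
      refine Finset.sum_congr rfl fun j _ => ?_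
      rw [mul_assoc, hl _ _ (hcC j)]
    obtain ⟨w, hw⟩ : ∃ w, w = u - ∑ j ∈ Finset.range n, z j * π (d j * u) := ⟨_, rfl⟩
    have hwe : ∀ a, π (a * w) = π (a * u) - ∑ j ∈ Finset.range n, π (a * z j) * π (d j * u) := by
      intro a
      rw [hw, mul_sub, map_sub, Finset.mul_sum, map_sum]
      congr 1
      refine Finset.sum_congr rfl fun j _ => ?_
      rw [← mul_assoc, hr _ _ (hC _)]
    have hwi : ∀ i < n, π (d i * w) = 0 := by
      intro i hi
      rw [hwe, sub_eq_zero]
      have h2 : ∀ j ∈ Finset.range n, π (d i * z j) * π (d j * u) =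
          if i = j then π (d j * u) else 0 := by
        intro j hj
        rw [hz i hi j (Finset.mem_range.1 hj), ite_mul, one_mul, zero_mul]
      rw [Finset.sum_congr rfl h2, Finset.sum_ite_eq, if_pos (Finset.mem_range.2 hi)]
    have hwn : π (d n * w) = 1 := by
      rw [hwe, ← hu1]
      congr 1
      refine Finset.sum_congr rfl fun j _ => ?_
      rw [hc]
    refine ⟨fun j => if j = n then w else z j - w * c j, fun i hi j hj => ?_⟩
    show π (d i * if j = n then w else z j - w * c j) = _
    by_cases hjn : j = n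
    · subst hjn
      rw [if_pos rfl]
      by_cases hin : i = j
      · subst hin
        rw [hwn, if_pos rfl]
      · rw [hwi i (by omega), if_neg hin]
    · rw [if_neg hjn, mul_sub, map_sub, ← mul_assoc, hr _ _ (hcC j)]
      by_cases hin : i = n
      · subst hin
        rw [hwn, one_mul, ← hc, sub_self, if_neg (fun h => hjn h.symm)]
      · rw [hwi i (by omega), zero_mul, sub_zero, hz i (by omega) j (by omega)]

theorem no_indep_of_proj {D : Type v} [DivisionRing D] (𝓓 : Calc D) [RC 𝓓] (y : D)
    (π : D →+ D) (hπ : DF₁ 𝓓 π) (hC : ∀ z, y * π z = π z * y)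
    (hl : ∀ c z, y * c = c * y → π (c * z) = c * π z)
    (hr : ∀ c z, y * c = c * y → π (z * c) = π z * c) (h1 : π 1 = 1)
    (d : ℕ → D) (hd : ∀ n, DE 𝓓 (d n)) (hind : LinearIndependent (cen ({y} : Set D)) d) :
    False := by
  refine no_indep 𝓓 (fun j => {z | π (d j * z) = 0}) (fun j => ?_) fun n ε => ?_
  · exact Dp.eq (DF₁.app hπ (Df.mul (DE.app (hd j)) (Df.var ()))) Df.zero
  · obtain ⟨z, hz⟩ := ind_onto y π hC hl hr h1 d hind n
    refine ⟨∑ j ∈ Finset.range n, if ε j = true then 0 else z j, fun i hi => ?_⟩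
    have h2 : π (d i * ∑ j ∈ Finset.range n, if ε j = true then 0 else z j) =
        if ε i = true then 0 else 1 := by
      rw [Finset.mul_sum, map_sum, Finset.sum_eq_single i]
      · split_ifs
        · rw [mul_zero, map_zero]
        · rw [hz i hi i hi, if_pos rfl]
      · intro j hj hji
        split_ifs
        · rw [mul_zero, map_zero]
        · rw [hz i hi j (Finset.mem_range.1 hj), if_neg (fun h => hji h.symm)]
      · intro h
        exact absurd (Finset.mem_range.2 hi) h
    show π (d i * ∑ j ∈ Finset.range n, if ε j = true then 0 else z j) = 0 ↔ _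
    rw [h2]
    split_ifs with h3
    · exact ⟨fun _ => h3, fun _ => rfl⟩
    · exact ⟨fun h => absurd h one_ne_zero, fun h => absurd h h3⟩

end VCR
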