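import Pool.Agent.VCR.Cen

/-!
# VCR-Rel: from finite left dimension over `C(y)` to a polynomial relation of `y`
-/

open Set

namespace VCR

universe v

theorem exists_rel {D : Type v} [DivisionRing D] (y : D) (S : Subring D)
    (hfin : ∀ d : ℕ → D, (∀ n, d n ∈ S) → ¬ LinearIndependent (cen ({y} : Set D)) d) :
    ∃ (n : ℕ) (e : Fin n → D), e ≠ 0 ∧ ∀ v ∈ S, ∑ i : Fin n, y ^ (i : ℕ) * v * e i = 0 := by
  obtain ⟨b, hbS, hspan, hli⟩ := exists_linearIndependent (cen ({y} : Set D)) (S : Set D)
  have hbfin : b.Finite := by
    by_contra hinf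
    haveI : Infinite b := Set.infinite_coe_iff.mpr hinf
    have h1 := hli.comp (Infinite.natEmbedding b) (Infinite.natEmbedding b).injective
    exact hfin _ (fun n => hbS (Infinite.natEmbedding b n).2) h1
  haveI : Fintype b := hbfin.fintype
  let n := Fintype.card b
  let v : Fin n → D := fun j => ((Fintype.equivFin b).symm j : b)
  have hv : ∀ w ∈ b, ∃ j, v j = w := by
    intro w hw
    refine ⟨Fintype.equivFin b ⟨w, hw⟩, ?_⟩
    show (((Fintype.equivFin b).symm (Fintype.equivFin b ⟨w, hw⟩) : b) : D) = w
    rw [Equiv.symm_apply_apply]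
  let f : Fin (n + 1) → (Fin n → Dᵐᵒᵖ) := fun i j => MulOpposite.op (y ^ (i : ℕ) * v j)
  have hdep : ¬ LinearIndependent Dᵐᵒᵖ f := by
    intro h
    have h1 := h.fintype_card_le_finrank
    rw [Module.finrank_fin_fun, Fintype.card_fin] at h1
    omega
  obtain ⟨g, hg, i0, hi0⟩ := Fintype.not_linearIndependent_iff.mp hdep
  refine ⟨n + 1, fun i => MulOpposite.unop (g i), ?_, ?_⟩
  · intro h
    have h1 := congrFun h i0
    apply hi0
    exact MulOpposite.unop_injective h1
  · have hj : ∀ j, ∑ i : Fin (n + 1), y ^ (i : ℕ) * v j * MulOpposite.unop (g i) = 0 := by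
      intro j
      have h1 := congrFun hg j
      rw [Finset.sum_apply] at h1
      have h2 := congrArg MulOpposite.unop h1
      rw [Finset.unop_sum] at h2
      exact h2
    let W : Submodule (cen ({y} : Set D)) D :=
      { carrier := {w | ∑ i : Fin (n + 1), y ^ (i : ℕ) * w * MulOpposite.unop (g i) = 0}
        add_mem' := by
          intro a c ha hc
          simp only [Set.mem_setOf_eq] at ha hc ⊢
          have : ∀ i : Fin (n + 1), y ^ (i : ℕ) * (a + c) * MulOpposite.unop (g i) =
              y ^ (i : ℕ) * a * MulOpposite.unop (g i) +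
                y ^ (i : ℕ) * c * MulOpposite.unop (g i) := fun i => by
            rw [mul_add, add_mul]
          rw [Finset.sum_congr rfl (fun i _ => this i), Finset.sum_add_distrib, ha, hc, add_zero]
        zero_mem' := by
          simp
        smul_mem' := by
          intro c a ha
          simp only [Set.mem_setOf_eq] at ha ⊢
          have hc : Commute y (c : D) := c.2 y (Set.mem_singleton y)
          have : ∀ i : Fin (n + 1), y ^ (i : ℕ) * (c • a) * MulOpposite.unop (g i) =
              (c : D) * (y ^ (i : ℕ) * a * MulOpposite.unop (g i)) := fun i => by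
            have h2 : y ^ (i : ℕ) * (c : D) = (c : D) * y ^ (i : ℕ) := (hc.pow_left i).eq
            show y ^ (i : ℕ) * ((c : D) * a) * MulOpposite.unop (g i) = _
            rw [← mul_assoc, h2]
            simp only [mul_assoc]
          rw [Finset.sum_congr rfl (fun i _ => this i), ← Finset.mul_sum, ha, mul_zero] }
    intro w hw
    have h1 : w ∈ Submodule.span (cen ({y} : Set D)) b := by
      rw [hspan]
      exact Submodule.subset_span hw
    have h2 : Submodule.span (cen ({y} : Set D)) b ≤ W := by
      rw [Submodule.span_le]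
      intro w hw
      obtain ⟨j, rfl⟩ := hv w hw
      exact hj j
    exact h2 h1

end VCR
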