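import Pool.Agent.VCR.Proj
import Pool.Agent.VCR.Ind
import Pool.Agent.VCR.Rel
import Pool.Agent.VCR.AlgY
import Pool.Agent.VCR.CohnB
import Pool.Agent.VCR.Defs

/-!
# VCR-DivB: a noncommutative division ring of characteristic `0` with a calculus is of Cohn type
-/

open Set

namespace VCR

universe v

theorem DE_closure {D : Type v} [Ring D] {𝓓 : Calc D} [RC 𝓓] {x y : D} (hx : DE 𝓓 x)
    (hy : DE 𝓓 y) {d : D} (hd : d ∈ Subring.closure ({x, y} : Set D)) : DE 𝓓 d := by
  induction hd using Subring.closure_induction with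
  | mem z hz =>
    rcases hz with rfl | rfl
    · exact hx
    · exact hy
  | zero => exact DE.zero
  | one => exact DE.one
  | add _ _ _ _ h1 h2 => exact DE.add h1 h2
  | neg _ _ h => exact DE.neg h
  | mul _ _ _ _ h1 h2 => exact DE.mul h1 h2

theorem one_mem_ad {D : Type v} [DivisionRing D] [CharZero D] (𝓓 : Calc D) [RC 𝓓] (x y : D)
    (hxy : x * y ≠ y * x) : ∃ t, y * t - t * y = 1 := by
  by_contra hcon
  push Not at hcon
  obtain ⟨𝓔, hle, hx, hy⟩ := exists_adj_two 𝓓 x y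
  haveI : RC 𝓔 := RC.mono hle
  obtain ⟨π, hπ, hC, hl, hr, h1⟩ := exists_proj 𝓔 y hy hcon
  obtain ⟨n, e, he, hrel⟩ := exists_rel y (Subring.closure ({x, y} : Set D))
    (fun d hd hind => no_indep_of_proj 𝓔 y π hπ hC hl hr h1 d
      (fun n => DE_closure hx hy (hd n)) hind)
  exact hxy (comm_of_rel x y (isAlgClosed_center_cen 𝓓 x y) n e he hrel)

theorem cohnType_of_calc {D : Type v} [DivisionRing D] [CharZero D] (𝓓 : Calc D) [RC 𝓓]
    (hnc : ∃ a b : D, a * b ≠ b * a) : CohnType D :=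
  ⟨hnc, fun a b hab c => cohn_onto 𝓓 (fun x y hxy => one_mem_ad 𝓓 x y hxy) a b hab c⟩

end VCR
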