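import Pool.Agent.VCR.Defs

/-!
# VCR-Skol: countable family of functions closed under the functions of `L` and Skolem functions

`F` enumerates the terms of the language with Skolem functions.
-/

open Set FirstOrder

namespace VCR

universe u

theorem exists_hull {L : FirstOrder.Language.{0, 0}} [Countable L.Symbols] {M : Type u}
    [L.Structure M] [Nonempty M] (k : ℕ) :
    ∃ F : ℕ → (Fin k → M) → M,
      (∀ l : Fin k, ∃ j, ∀ u, F j u = u l) ∧
      (∀ (n : ℕ) (f : L.Functions n) (i : Fin n → ℕ), ∃ j, ∀ u,
        F j u = FirstOrder.Language.Structure.funMap f (fun l => F (i l) u)) ∧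
      (∀ (n : ℕ) (φ : L.BoundedFormula Empty (n + 1)) (i : Fin n → ℕ), ∃ j, ∀ u,
        (∃ w : M, φ.Realize default (Fin.snoc (fun l => F (i l) u) w : Fin (n + 1) → M)) →
          φ.Realize default (Fin.snoc (fun l => F (i l) u) (F j u) : Fin (n + 1) → M)) := by
  have hc : Countable (Σ n, (L.sum L.skolem₁).Functions n) := by
    refine Cardinal.mk_le_aleph0_iff.1
      (FirstOrder.Language.card_functions_sum_skolem₁_le.trans (max_le_iff.2 ⟨le_rfl, ?_⟩))
    exact Cardinal.mk_le_aleph0_iff.2 ‹Countable L.Symbols›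
  have hne : Nonempty ((L.sum L.skolem₁).Term (Fin k)) :=
    ⟨FirstOrder.Language.Term.func (l := 0)
      (Sum.inr (⊥ : L.BoundedFormula Empty (0 + 1)) : (L.sum L.skolem₁).Functions 0) Fin.elim0⟩
  obtain ⟨e, he⟩ := exists_surjective_nat ((L.sum L.skolem₁).Term (Fin k))
  refine ⟨fun j u => (e j).realize u, fun l => ?_, fun n f i => ?_, fun n φ i => ?_⟩
  · obtain ⟨j, hj⟩ := he (FirstOrder.Language.Term.var l)
    refine ⟨j, fun u => ?_⟩
    show (e j).realize u = u l
    rw [hj]
    rfl
  · obtain ⟨j, hj⟩ := he (FirstOrder.Language.Term.func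
      (Sum.inl f : (L.sum L.skolem₁).Functions n) fun l => e (i l))
    refine ⟨j, fun u => ?_⟩
    show (e j).realize u = _
    rw [hj]
    rfl
  · obtain ⟨j, hj⟩ := he (FirstOrder.Language.Term.func
      (Sum.inr φ : (L.sum L.skolem₁).Functions n) fun l => e (i l))
    refine ⟨j, fun u hu => ?_⟩
    have h1 : (e j).realize u = Classical.epsilon fun a =>
        φ.Realize default (Fin.snoc (fun l => (e (i l)).realize u) a : Fin (n + 1) → M) := by
      rw [hj]
      rfl
    show φ.Realize default (Fin.snoc (fun l => (e (i l)).realize u) ((e j).realize u) : Fin (n + 1) → M)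
    rw [h1]
    exact Classical.epsilon_spec (p := fun a => φ.Realize default
      (Fin.snoc (fun l => (e (i l)).realize u) a : Fin (n + 1) → M)) hu

end VCR
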