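import Pool.Agent.VCR.Fus
import Pool.Agent.VCR.Skol

/-!
# VCR-FamA: a continuous family of ultrafilters along a tree

PLAN. `Z := Fin k → M`. Take `F` from `exists_hull k`. The type
`Σ n, L.Formula (Fin n) × (Fin n → ℕ)` is countable (instances in Mathlib/ModelTheory/Encoding.lean)
and nonempty; enumerate it (`exists_surjective_nat`) and let
`B m := {u | φ.Realize (fun l => F (i l) u)}` for the `m`-th
element `(n, φ, i)`. Take `r`, `W` from `exists_fusion S hS B`.
* For `x : ℕ → Bool` the sets `W (PiNat.res x n)` decrease and are nonempty; let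
  `fl x := ⨅ n, Filter.principal (W (res x n))` (`NeBot`: `Filter.iInf_neBot_of_directed`;
  `Filter.principal_neBot_iff`), `U x := Ultrafilter.of (fl x)`, `W (res x n) ∈ U x`
  (`Ultrafilter.of_le`, `Filter.mem_iInf_of_mem`).
* `S (r (res x n)) ∈ U x` since it contains `W (res x n)`.
* (dec) for every `m`: `B m ∈ U x ↔ W (res x (m+1)) ⊆ B m`: `res x (m+1) = x m :: res x m` and
  `(res x m).length = m`; if `W (res x (m+1))` is disjoint from `B m` then `B m ∉ U x`. So the set of
  the `x` with `B m ∈ U x` depends only on `res x (m+1)`: it is the preimage of a set under the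
  continuous map `x ↦ res x (m+1)` to the discrete space `List Bool` (continuity: induction on `n`,
  or it is constant on the cylinders; give `List Bool` the topology `⊥` locally), hence clopen.
-/

open Set FirstOrder

namespace VCR

universe u

theorem exists_typed {L : FirstOrder.Language.{0, 0}} [Countable L.Symbols] {M : Type u}
    [L.Structure M] [Nonempty M] (k : ℕ) (S : List Bool → Set (Fin k → M)) (hS : IsTree S) :
    ∃ (r : List Bool → List Bool) (U : (ℕ → Bool) → Ultrafilter (Fin k → M))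
      (F : ℕ → (Fin k → M) → M),
      (∀ x n, S (r (PiNat.res x n)) ∈ U x) ∧
      (∀ t, Disjoint (S (r (false :: t))) (S (r (true :: t)))) ∧
      (∀ i t, S (r (i :: t)) ⊆ S (r t)) ∧
      (∀ l : Fin k, ∃ j, ∀ u, F j u = u l) ∧
      (∀ (n : ℕ) (f : L.Functions n) (i : Fin n → ℕ), ∃ j, ∀ u,
        F j u = FirstOrder.Language.Structure.funMap f (fun l => F (i l) u)) ∧
      (∀ (n : ℕ) (φ : L.BoundedFormula Empty (n + 1)) (i : Fin n → ℕ), ∃ j, ∀ u,
        (∃ w : M, φ.Realize default (Fin.snoc (fun l => F (i l) u) w : Fin (n + 1) → M)) →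
          φ.Realize default (Fin.snoc (fun l => F (i l) u) (F j u) : Fin (n + 1) → M)) ∧
      (∀ (n : ℕ) (φ : L.Formula (Fin n)) (i : Fin n → ℕ),
        IsClopen {x | ∀ᶠ u in (U x : Filter (Fin k → M)), φ.Realize (fun l => F (i l) u)}) := by
  obtain ⟨F, hF1, hF2, hF3⟩ := exists_hull (L := L) (M := M) k
  haveI : Nonempty (Σ n, L.Formula (Fin n) × (Fin n → ℕ)) := ⟨⟨0, ⊥, Fin.elim0⟩⟩
  haveI : Countable (Σ n, L.Formula (Fin n) × (Fin n → ℕ)) := inferInstance
  obtain ⟨e, he⟩ := exists_surjective_nat (Σ n, L.Formula (Fin n) × (Fin n → ℕ))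
  obtain ⟨r, W, hW, hWS, hdisj, hsub, hdec⟩ := exists_fusion S hS
    (fun m => {u | (e m).2.1.Realize (fun l => F ((e m).2.2 l) u)})
  have hanti : ∀ (x : ℕ → Bool), Antitone (fun n => W (PiNat.res x n)) := fun x =>
    antitone_nat_of_succ_le fun n => by
      show W (PiNat.res x (n + 1)) ⊆ W (PiNat.res x n)
      rw [PiNat.res_succ]
      exact hW.sub _ _
  have hne : ∀ x : ℕ → Bool, (⨅ n, Filter.principal (W (PiNat.res x n))).NeBot := by
    intro x
    refine Filter.iInf_neBot_of_directed ?_ ?_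
    · intro a b
      refine ⟨max a b, ?_, ?_⟩
      · exact Filter.principal_mono.2 (hanti x (le_max_left a b))
      · exact Filter.principal_mono.2 (hanti x (le_max_right a b))
    · intro n
      exact Filter.principal_neBot_iff.2 (hW.ne _)
  obtain ⟨U, hU⟩ : ∃ U : (ℕ → Bool) → Ultrafilter (Fin k → M),
      ∀ x n, W (PiNat.res x n) ∈ U x := by
    refine ⟨fun x => @Ultrafilter.of _ _ (hne x), fun x n => ?_⟩
    haveI := hne x
    exact Ultrafilter.of_le _ (Filter.mem_iInf_of_mem n (Filter.mem_principal_self _))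
  have hkey : ∀ (m : ℕ) (x : ℕ → Bool),
      ({u | (e m).2.1.Realize (fun l => F ((e m).2.2 l) u)} ∈ U x ↔
        W (PiNat.res x (m + 1)) ⊆ {u | (e m).2.1.Realize (fun l => F ((e m).2.2 l) u)}) := by
    intro m x
    have h1 := hdec (x m) (PiNat.res x m)
    rw [PiNat.res_length] at h1
    constructor
    · intro h2
      rcases h1 with h1 | h1
      · exact h1
      · exfalso
        have h3 := Filter.inter_mem (hU x (m + 1)) h2
        rw [PiNat.res_succ, h1.inter_eq] at h3
        exact (U x).neBot.ne (Filter.empty_mem_iff_bot.1 h3)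
    · intro h2
      exact Filter.mem_of_superset (hU x (m + 1)) h2
  refine ⟨r, U, F, fun x n => Filter.mem_of_superset (hU x n) (hWS _), hdisj, hsub, hF1, hF2, hF3,
    ?_⟩
  intro n φ i
  obtain ⟨m, hm⟩ := he ⟨n, φ, i⟩
  have hA : {x | ∀ᶠ u in (U x : Filter (Fin k → M)), φ.Realize (fun l => F (i l) u)} =
      {x | W (PiNat.res x (m + 1)) ⊆ {u | (e m).2.1.Realize (fun l => F ((e m).2.2 l) u)}} := by
    ext x
    rw [mem_setOf_eq, mem_setOf_eq, ← hkey m x, hm]
    rfl
  rw [hA]
  constructor
  · rw [← isOpen_compl_iff, isOpen_iff_forall_mem_open]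
    intro x hx
    refine ⟨PiNat.cylinder x (m + 1), ?_, PiNat.isOpen_cylinder _ x (m + 1),
      PiNat.self_mem_cylinder x (m + 1)⟩
    intro y hy
    rw [PiNat.cylinder_eq_res, mem_setOf_eq] at hy
    rw [mem_compl_iff, mem_setOf_eq] at hx ⊢
    rwa [hy]
  · rw [isOpen_iff_forall_mem_open]
    intro x hx
    refine ⟨PiNat.cylinder x (m + 1), ?_, PiNat.isOpen_cylinder _ x (m + 1),
      PiNat.self_mem_cylinder x (m + 1)⟩
    intro y hy
    rw [PiNat.cylinder_eq_res, mem_setOf_eq] at hy
    rw [mem_setOf_eq] at hx ⊢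
    rwa [hy]

end VCR
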