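import Pool.Agent.VCR.Defs

/-!
# VCR-Los: the structure on `ℕ` of classes of a closed family of functions modulo an ultrafilter
-/

open Set FirstOrder

namespace VCR

universe u w

section

variable {L : FirstOrder.Language.{0, 0}} {M : Type u} [L.Structure M] {Z : Type w} (U : Ultrafilter Z)

/-- the class of a function -/
private def lmk (x : Z → M) : (U : Filter Z).Product (fun _ => M) :=
  @Quotient.mk' _ ((U : Filter Z).productSetoid fun _ => M) x

private theorem lmk_eq (x y : Z → M) : lmk U x = lmk U y ↔ ∀ᶠ u in (U : Filter Z), x u = y u :=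
  Quotient.eq''

private theorem lmk_surj (a : (U : Filter Z).Product (fun _ => M)) : ∃ A : Z → M, a = lmk U A :=
  Quotient.inductionOn' a fun A => ⟨A, rfl⟩

private theorem lmk_fun {n : ℕ} (f : L.Functions n) (x : Fin n → Z → M) :
    (FirstOrder.Language.Structure.funMap f fun i => lmk U (x i)) =
      lmk U (fun u => FirstOrder.Language.Structure.funMap f fun i => x i u) :=
  FirstOrder.Language.Ultraproduct.funMap_cast f x

private theorem lmk_rel {n : ℕ} (r : L.Relations n) (x : Fin n → Z → M) :
    (FirstOrder.Language.Structure.RelMap r fun i => lmk U (x i)) ↔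
      ∀ᶠ u in (U : Filter Z), FirstOrder.Language.Structure.RelMap r fun i => x i u :=
  FirstOrder.Language.relMap_quotient_mk' ((U : Filter Z).productSetoid fun _ => M) r x

private theorem lmk_bd [Nonempty M] {β : Type} {n : ℕ} (φ : L.BoundedFormula β n) (x : β → Z → M)
    (v : Fin n → Z → M) : (φ.Realize (fun i => lmk U (x i)) (fun i => lmk U (v i))) ↔
      ∀ᶠ u in (U : Filter Z), φ.Realize (fun i => x i u) fun i => v i u :=
  FirstOrder.Language.Ultraproduct.boundedFormula_realize_cast φ x v

private theorem lmk_fo [Nonempty M] {β : Type} (φ : L.Formula β) (x : β → Z → M) :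
    (φ.Realize (fun i => lmk U (x i))) ↔ ∀ᶠ u in (U : Filter Z), φ.Realize (fun i => x i u) :=
  FirstOrder.Language.Ultraproduct.realize_formula_cast φ x

private theorem los_snoc [Nonempty M] {n : ℕ} (φ : L.BoundedFormula Empty (n + 1))
    (y : Fin n → Z → M) (A : Z → M) :
    φ.Realize (default : Empty → (U : Filter Z).Product (fun _ => M))
      (Fin.snoc (fun l => lmk U (y l)) (lmk U A) : Fin (n + 1) → (U : Filter Z).Product (fun _ => M)) ↔
      ∀ᶠ u in (U : Filter Z), φ.Realize default (Fin.snoc (fun l => y l u) (A u) : Fin (n + 1) → M) := by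
  have h1 : (Fin.snoc (fun l => lmk U (y l)) (lmk U A) : Fin (n + 1) → (U : Filter Z).Product (fun _ => M)) =
      fun i => lmk U ((Fin.snoc y A : Fin (n + 1) → Z → M) i) := by
    funext i
    refine Fin.lastCases ?_ (fun i => ?_) i
    · rw [Fin.snoc_last, Fin.snoc_last]
    · rw [Fin.snoc_castSucc, Fin.snoc_castSucc]
  have h2 : ∀ u, (Fin.snoc (fun l => y l u) (A u) : Fin (n + 1) → M) =
      fun i => (Fin.snoc y A : Fin (n + 1) → Z → M) i u := by
    intro u
    funext i
    refine Fin.lastCases ?_ (fun i => ?_) i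
    · rw [Fin.snoc_last, Fin.snoc_last]
    · rw [Fin.snoc_castSucc, Fin.snoc_castSucc]
  have h3 := lmk_bd U φ (fun i : Empty => (i.elim : Z → M)) (Fin.snoc y A : Fin (n + 1) → Z → M)
  rw [h1, show (default : Empty → (U : Filter Z).Product (fun _ => M)) =
    fun i : Empty => lmk U (i.elim : Z → M) from Subsingleton.elim _ _, h3]
  refine Filter.eventually_congr (Filter.Eventually.of_forall fun u => ?_)
  rw [h2 u, show (default : Empty → M) = fun i : Empty => (i.elim : Z → M) u from Subsingleton.elim _ _]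

end

theorem los_hull {L : FirstOrder.Language.{0, 0}} {M : Type u} [L.Structure M] [Nonempty M]
    {Z : Type w} (U : Ultrafilter Z) (F : ℕ → Z → M)
    (hfun : ∀ (n : ℕ) (f : L.Functions n) (i : Fin n → ℕ), ∃ j, ∀ u,
        F j u = FirstOrder.Language.Structure.funMap f (fun l => F (i l) u))
    (hsk : ∀ (n : ℕ) (φ : L.BoundedFormula Empty (n + 1)) (i : Fin n → ℕ), ∃ j, ∀ u,
        (∃ w : M, φ.Realize default (Fin.snoc (fun l => F (i l) u) w : Fin (n + 1) → M)) →
          φ.Realize default (Fin.snoc (fun l => F (i l) u) (F j u) : Fin (n + 1) → M))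
    (κ ν : ℕ → ℕ) (hκν : ∀ i, κ (ν i) = i)
    (hE : ∀ a b, (∀ᶠ u in (U : Filter Z), F a u = F b u) ↔ κ a = κ b)
    (s : Str L)
    (hsf : ∀ (n : ℕ) (f : L.Functions n) (v : Fin n → ℕ) (j : ℕ),
      (∀ u, F j u = FirstOrder.Language.Structure.funMap f (fun l => F (ν (v l)) u)) →
        s.1 n f v = κ j)
    (hsr : ∀ (n : ℕ) (r : L.Relations n) (v : Fin n → ℕ), s.2 n r v = true ↔
      ∀ᶠ u in (U : Filter Z), FirstOrder.Language.Structure.RelMap r (fun l => F (ν (v l)) u))
    {α : Type} (φ : L.Formula α) (v : α → ℕ) :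
    Sat s φ v ↔ ∀ᶠ u in (U : Filter Z), φ.Realize (fun a => F (ν (v a)) u) := by
  let _ := toStructure s
  have hcls : ∀ a, lmk U (F a) = lmk U (F (ν (κ a))) := by
    intro a
    rw [lmk_eq, hE, hκν]
  let e : ℕ ↪[L] (U : Filter Z).Product (fun _ => M) :=
    { toFun := fun i => lmk U (F (ν i))
      inj' := by
        intro i j hij
        have h1 := (hE _ _).1 ((lmk_eq U _ _).1 hij)
        rw [hκν, hκν] at h1
        exact h1
      map_fun' := by
        intro n f x
        obtain ⟨j, hj⟩ := hfun n f (fun l => ν (x l))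
        have h1 : s.1 n f x = κ j := hsf n f x j hj
        show lmk U (F (ν (s.1 n f x))) =
          FirstOrder.Language.Structure.funMap f (fun l => lmk U (F (ν (x l))))
        rw [h1, ← hcls, lmk_fun]
        exact congrArg (lmk U) (funext hj)
      map_rel' := by
        intro n r x
        show FirstOrder.Language.Structure.RelMap r (fun l => lmk U (F (ν (x l)))) ↔ s.2 n r x = true
        rw [hsr, lmk_rel] }
  have hev : ∀ i, e i = lmk U (F (ν i)) := fun _ => rfl
  have htv : ∀ (n : ℕ) (φ : L.BoundedFormula Empty (n + 1)) (x : Fin n → ℕ)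
      (a : (U : Filter Z).Product (fun _ => M)),
        φ.Realize default (Fin.snoc (e ∘ x) a : _ → (U : Filter Z).Product (fun _ => M)) →
          ∃ b : ℕ, φ.Realize default (Fin.snoc (e ∘ x) (e b) : _ → (U : Filter Z).Product (fun _ => M)) := by
    intro n φ x a ha
    obtain ⟨A, rfl⟩ := lmk_surj U a
    have h1 : e ∘ x = fun l => lmk U (F (ν (x l))) := rfl
    rw [h1] at ha
    have h2 := (los_snoc U φ (fun l => F (ν (x l))) A).1 ha
    obtain ⟨j, hj⟩ := hsk n φ (fun l => ν (x l))
    refine ⟨κ j, ?_⟩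
    rw [h1, hev, ← hcls]
    exact (los_snoc U φ (fun l => F (ν (x l))) (F j)).2 (h2.mono fun u hu => hj u ⟨_, hu⟩)
  have h3 := (e.toElementaryEmbedding htv).map_formula φ v
  have h4 := lmk_fo U φ (fun a => F (ν (v a)))
  rw [← h4]
  exact h3.symm

end VCR
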