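import Pool.Agent.VCR.Defs

/-!
# VCR-New: a Skolem closed family of functions has infinitely many everywhere different members
-/

open Set FirstOrder

namespace VCR

universe u w

private theorem nw_form {L : FirstOrder.Language.{0, 0}} (M : Type u) [L.Structure M] (n : ℕ) :
    ∃ φ : L.BoundedFormula Empty (n + 1), ∀ (x : Fin n → M) (w : M),
      φ.Realize default (Fin.snoc x w : Fin (n + 1) → M) ↔ ∀ l, w ≠ x l := by
  refine ⟨((List.finRange n).map fun l : Fin n =>
    (Language.BoundedFormula.not (Language.Term.bdEqual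
      (Language.Term.var (Sum.inr (Fin.last n))) (Language.Term.var (Sum.inr l.castSucc))) :
      L.BoundedFormula Empty (n + 1))).foldr (· ⊓ ·) ⊤, fun x w => ?_⟩
  rw [Language.BoundedFormula.realize_foldr_inf]
  constructor
  · intro h l
    have h1 := h _ (List.mem_map.2 ⟨l, List.mem_finRange l, rfl⟩)
    rw [Language.BoundedFormula.realize_not, Language.BoundedFormula.realize_bdEqual,
      Language.Term.realize_var, Language.Term.realize_var, Sum.elim_inr, Sum.elim_inr,
      Fin.snoc_last, Fin.snoc_castSucc] at h1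
    exact h1
  · intro h φ hφ
    obtain ⟨l, -, rfl⟩ := List.mem_map.1 hφ
    rw [Language.BoundedFormula.realize_not, Language.BoundedFormula.realize_bdEqual,
      Language.Term.realize_var, Language.Term.realize_var, Sum.elim_inr, Sum.elim_inr,
      Fin.snoc_last, Fin.snoc_castSucc]
    exact h l

theorem exists_new {L : FirstOrder.Language.{0, 0}} {M : Type u} [L.Structure M] [Infinite M]
    {Z : Type w} (F : ℕ → Z → M)
    (hsk : ∀ (n : ℕ) (φ : L.BoundedFormula Empty (n + 1)) (i : Fin n → ℕ), ∃ j, ∀ u,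
        (∃ w : M, φ.Realize default (Fin.snoc (fun l => F (i l) u) w : Fin (n + 1) → M)) →
          φ.Realize default (Fin.snoc (fun l => F (i l) u) (F j u) : Fin (n + 1) → M))
    (n : ℕ) : ∃ j, ∀ i < n, ∀ u, F i u ≠ F j u := by
  obtain ⟨φ, hφ⟩ := nw_form (L := L) M n
  obtain ⟨j, hj⟩ := hsk n φ fun l => (l : ℕ)
  refine ⟨j, fun i hi u => ?_⟩
  have h1 := hj u
  have h2 : ∃ w : M, ∀ l : Fin n, w ≠ F l u := by
    classical
    obtain ⟨w, hw⟩ := Infinite.exists_notMem_finset
      ((Finset.univ : Finset (Fin n)).image fun l : Fin n => F (l : ℕ) u)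
    exact ⟨w, fun l hl => hw (Finset.mem_image.2 ⟨l, Finset.mem_univ _, hl.symm⟩)⟩
  obtain ⟨w, hw⟩ := h2
  have h3 := (hφ _ _).1 (h1 ⟨w, (hφ _ _).2 hw⟩) ⟨i, hi⟩
  exact fun h4 => h3 h4.symm

end VCR
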