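import Pool.Agent.VCR.FamA
import Pool.Agent.VCR.New
import Pool.Agent.VCR.Num
import Pool.Agent.VCR.Los

/-!
# VCR-FamB: a continuous family of elementary extensions realizing the branches of a tree
-/

open Set FirstOrder

namespace VCR

universe u

private theorem clopen_local {X : Type} [TopologicalSpace X] {A : Set X}
    (h : ∀ x₀, ∃ C : Set X, IsClopen C ∧ ∀ᶠ x in nhds x₀, (x ∈ A ↔ x ∈ C)) : IsClopen A := by
  constructor
  · rw [← isOpen_compl_iff, isOpen_iff_mem_nhds]
    intro x₀ hx₀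
    obtain ⟨C, hC, hn⟩ := h x₀
    have h1 : x₀ ∈ Cᶜ := fun hc => hx₀ (hn.self_of_nhds.2 hc)
    have h2 : Cᶜ ∈ nhds x₀ := hC.1.isOpen_compl.mem_nhds h1
    filter_upwards [h2, hn] with x hx1 hx2
    exact fun hc => hx1 (hx2.1 hc)
  · rw [isOpen_iff_mem_nhds]
    intro x₀ hx₀
    obtain ⟨C, hC, hn⟩ := h x₀
    have h2 : C ∈ nhds x₀ := hC.2.mem_nhds (hn.self_of_nhds.1 hx₀)
    filter_upwards [h2, hn] with x hx1 hx2
    exact hx2.2 hx1

open Classical in
theorem exists_family {L : FirstOrder.Language.{0, 0}} [Countable L.Symbols] {M : Type u}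
    [L.Structure M] [Infinite M] (k : ℕ) (S : List Bool → Set (Fin k → M)) (hS : IsTree S) :
    ∃ (r : List Bool → List Bool) (s : (ℕ → Bool) → Str L)
      (U : (ℕ → Bool) → Ultrafilter (Fin k → M)) (G : (ℕ → Bool) → ℕ → (Fin k → M) → M),
      Continuous s ∧
      (∀ x n, S (r (PiNat.res x n)) ∈ U x) ∧
      (∀ t, Disjoint (S (r (false :: t))) (S (r (true :: t)))) ∧
      (∀ i t, S (r (i :: t)) ⊆ S (r t)) ∧
      (∀ (x : ℕ → Bool) (α : Type) (φ : L.Formula α) (v : α → ℕ),
        Sat (s x) φ v ↔ ∀ᶠ u in (U x : Filter (Fin k → M)), φ.Realize (fun a => G x (v a) u)) ∧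
      (∀ (n : ℕ) (φ : L.Formula (Fin n)) (v : Fin n → ℕ), IsClopen {x | Sat (s x) φ v}) ∧
      (∀ x (l : Fin k), ∃ j, ∀ᶠ u in (U x : Filter (Fin k → M)), G x j u = u l) := by
  obtain ⟨r, U, F, hU, hdisj, hmono, hcoord, hfun, hsk, hclop⟩ := exists_typed (L := L) k S hS
  obtain ⟨E, hEdef⟩ : ∃ E : (ℕ → Bool) → ℕ → ℕ → Prop,
      E = fun x a b => ∀ᶠ u in (U x : Filter (Fin k → M)), F a u = F b u := ⟨_, rfl⟩
  have hEiff : ∀ x a b, E x a b ↔ ∀ᶠ u in (U x : Filter (Fin k → M)), F a u = F b u := by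
    intro x a b
    rw [hEdef]
  have hE : ∀ x, Equivalence (E x) := by
    intro x
    refine ⟨fun a => ?_, fun {a b} h => ?_, fun {a b c} h1 h2 => ?_⟩
    · rw [hEiff]
      exact Filter.Eventually.of_forall fun u => rfl
    · rw [hEiff] at h ⊢
      exact h.mono fun u hu => hu.symm
    · rw [hEiff] at h1 h2 ⊢
      filter_upwards [h1, h2] with u hu1 hu2
      exact hu1.trans hu2
  have hinf : ∀ x (n : ℕ), ∃ j, ∀ i < n, ¬ E x i j := by
    intro x n
    obtain ⟨j, hj⟩ := exists_new (L := L) F hsk n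
    refine ⟨j, fun i hi h => ?_⟩
    rw [hEiff] at h
    obtain ⟨u, hu⟩ := h.exists
    exact hj i hi u hu
  have hloc : ∀ i j, IsClopen {x | E x i j} := by
    intro i j
    have h1 := hclop 2 ((FirstOrder.Language.Term.var 0).equal (FirstOrder.Language.Term.var 1)) ![i, j]
    have h2 : {x | E x i j} = {x | ∀ᶠ u in (U x : Filter (Fin k → M)),
        ((FirstOrder.Language.Term.var (0 : Fin 2) : L.Term (Fin 2)).equal
          (FirstOrder.Language.Term.var 1)).Realize (fun l => F (![i, j] l) u)} := by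
      ext x
      rw [Set.mem_ofPred_eq, Set.mem_ofPred_eq, hEiff]
      simp only [FirstOrder.Language.Formula.realize_equal, FirstOrder.Language.Term.realize_var]
      exact Iff.rfl
    rw [h2]
    exact h1
  obtain ⟨ν, κ, hν, hκ, hκν, hEκ⟩ := exists_numbering E hE hinf hloc
  have hfun' := hfun
  choose J hJ using hfun
  have nb : ∀ (n : ℕ) (v : Fin n → ℕ) (x₀ : ℕ → Bool), ∀ᶠ x in nhds x₀,
      (fun l => ν x (v l)) = fun l => ν x₀ (v l) := by
    intro n v x₀
    have h1 : ∀ᶠ x in nhds x₀, ∀ l, ν x (v l) = ν x₀ (v l) := by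
      rw [Filter.eventually_all]
      intro l
      exact (hν (v l)).continuousAt.eventually ((isOpen_discrete {ν x₀ (v l)}).mem_nhds rfl)
    exact h1.mono fun x hx => funext hx
  have hclo : ∀ (n : ℕ) (φ : L.Formula (Fin n)) (v : Fin n → ℕ),
      IsClopen {x | ∀ᶠ u in (U x : Filter (Fin k → M)), φ.Realize (fun a => F (ν x (v a)) u)} := by
    intro n φ v
    refine clopen_local fun x₀ => ⟨_, hclop n φ (fun l => ν x₀ (v l)), ?_⟩
    filter_upwards [nb n v x₀] with x hx
    have h1 : ∀ u, (fun a => F (ν x (v a)) u) = fun a => F (ν x₀ (v a)) u := by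
      intro u
      funext a
      rw [show ν x (v a) = ν x₀ (v a) from congrFun hx a]
    simp only [h1]
  obtain ⟨s, hs⟩ : ∃ s : (ℕ → Bool) → Str L, s = fun x =>
      (fun n f v => κ x (J n f (fun l => ν x (v l))),
        fun n r v => decide (∀ᶠ u in (U x : Filter (Fin k → M)),
          FirstOrder.Language.Structure.RelMap r (fun l => F (ν x (v l)) u))) := ⟨_, rfl⟩
  have hlos : ∀ (x : ℕ → Bool) (α : Type) (φ : L.Formula α) (v : α → ℕ),
      Sat (s x) φ v ↔ ∀ᶠ u in (U x : Filter (Fin k → M)), φ.Realize (fun a => F (ν x (v a)) u) := by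
    intro x α φ v
    refine los_hull (U x) F hfun' hsk (κ x) (ν x) (hκν x) (fun a b => ?_) (s x) ?_ ?_ φ v
    · rw [← hEiff]
      exact hEκ x a b
    · intro n f v j h
      rw [hs]
      show κ x (J n f (fun l => ν x (v l))) = κ x j
      rw [← hEκ, hEiff]
      exact Filter.Eventually.of_forall fun u => (hJ n f _ u).trans (h u).symm
    · intro n r v
      rw [hs]
      exact decide_eq_true_iff
  refine ⟨r, s, U, fun x a => F (ν x a), ?_, hU, hdisj, hmono, hlos, ?_, ?_⟩
  · rw [hs]
    refine Continuous.prodMk ?_ ?_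
    · refine continuous_pi fun n => continuous_pi fun f => continuous_pi fun v => ?_
      rw [continuous_iff_continuousAt]
      intro x₀
      refine (hκ (J n f (fun l => ν x₀ (v l)))).continuousAt.congr ?_
      filter_upwards [nb n v x₀] with x hx
      rw [hx]
    · refine continuous_pi fun n => continuous_pi fun f => continuous_pi fun v => ?_
      rw [continuous_bool_rng true]
      have h1 := hclo n (f.formula fun l => FirstOrder.Language.Term.var l) v
      simp only [FirstOrder.Language.Formula.realize_rel, FirstOrder.Language.Term.realize_var] at h1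
      convert h1 using 1
      ext x
      exact decide_eq_true_iff
  · intro n φ v
    have h1 : {x | Sat (s x) φ v} = {x | ∀ᶠ u in (U x : Filter (Fin k → M)),
        φ.Realize (fun a => F (ν x (v a)) u)} := by
      ext x
      exact hlos x _ φ v
    rw [h1]
    exact hclo n φ v
  · intro x l
    obtain ⟨j, hj⟩ := hcoord l
    refine ⟨κ x j, ?_⟩
    have h1 : E x (ν x (κ x j)) j := (hEκ x _ _).2 (hκν x _)
    rw [hEiff] at h1
    exact h1.mono fun u hu => hu.trans (hj u)

end VCR
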