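import Pool.Agent.VCR.IntC
import Pool.Agent.VCR.DefsB

/-!
# VCR-Few: structures with small theory

`SmallTheory L M`: for each `k` there are only countably many complete `k`-types of the theory of `M`. If so, then there is a
calculus for `M`: a tree of definable sets gives `2 ^ ℵ₀` types (realized in ultrapowers of `M`).
-/

open Set FirstOrder

namespace VCR

universe u v

private theorem few_type {L : FirstOrder.Language.{0, 0}} {M : Type u} [L.Structure M] [Nonempty M]
    {k : ℕ} (U : Ultrafilter (Fin k → M)) :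
    ∃ p : (L.completeTheory M).CompleteType (Fin k), ∀ φ : L.Formula (Fin k),
      (FirstOrder.Language.Formula.equivSentence φ ∈ p ↔ {v : Fin k → M | φ.Realize v} ∈ U) := by
  have hN : (U : Filter (Fin k → M)).Product (fun _ => M) ⊨ L.completeTheory M := by
    rw [FirstOrder.Language.Theory.model_iff]
    intro φ hφ
    rw [FirstOrder.Language.Ultraproduct.sentence_realize]
    rw [FirstOrder.Language.mem_completeTheory] at hφ
    exact Filter.Eventually.of_forall fun _ => hφ
  have hne : Nonempty ((U : Filter (Fin k → M)).Product (fun _ => M)) := inferInstance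
  let w : Fin k → (U : Filter (Fin k → M)).Product (fun _ => M) :=
    fun l => ((fun u : Fin k → M => u l : (Fin k → M) → M) :
      (U : Filter (Fin k → M)).Product (fun _ => M))
  refine ⟨(L.completeTheory M).typeOf w, fun φ => ?_⟩
  rw [FirstOrder.Language.Theory.CompleteType.formula_mem_typeOf]
  exact FirstOrder.Language.Ultraproduct.realize_formula_cast φ (fun l (u : Fin k → M) => u l)

/-- a tree of definable sets gives uncountably many types -/
theorem no_tree_few {L : FirstOrder.Language.{0, 0}} {M : Type u} [L.Structure M] [Nonempty M]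
    (hF : SmallTheory L M) {α : Type} [Finite α] (S : List Bool → Set (α → M)) (hS : IsTree S) :
    ¬ ∀ s, (∅ : Set M).Definable L (S s) := by
  classical
  intro hdef
  obtain ⟨k, ⟨e⟩⟩ := Finite.exists_equiv_fin α
  obtain ⟨S', hS'⟩ : ∃ S' : List Bool → Set (Fin k → M), ∀ t, S' t = (fun g : Fin k → M => g ∘ e) ⁻¹' S t :=
    ⟨_, fun _ => rfl⟩
  have hT : IsTree S' := by
    refine ⟨fun s => ?_, fun i s => ?_, fun s => ?_⟩
    · obtain ⟨f, hf⟩ := hS.ne s
      refine ⟨f ∘ e.symm, ?_⟩
      rw [hS']
      show (f ∘ e.symm) ∘ e ∈ S s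
      have h1 : (f ∘ e.symm) ∘ e = f := by
        funext x
        exact congrArg f (e.symm_apply_apply x)
      rw [h1]
      exact hf
    · rw [hS', hS']
      exact Set.preimage_mono (hS.sub i s)
    · rw [hS', hS']
      exact (hS.disj s).preimage _
  have hφ : ∀ t, ∃ φ : L.Formula (Fin k), {v : Fin k → M | φ.Realize v} = S' t := by
    intro t
    have h1 : (∅ : Set M).Definable L (S' t) := by
      rw [hS']
      exact (hdef t).preimage_comp e
    rw [Set.empty_definable_iff] at h1
    obtain ⟨φ, h2⟩ := h1
    exact ⟨φ, h2.symm⟩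
  choose φ hφ using hφ
  -- the branch of `x`
  let br : (ℕ → Bool) → ℕ → List Bool := fun x n => PiNat.res x n
  have hmono : ∀ x n m, n ≤ m → S' (br x m) ⊆ S' (br x n) := by
    intro x n m hnm
    induction m, hnm using Nat.le_induction with
    | base => exact subset_rfl
    | succ m _ ih =>
      have h1 : br x (m + 1) = x m :: br x m := PiNat.res_succ x m
      rw [h1]
      exact (hT.sub _ _).trans ih
  have hU : ∀ x : ℕ → Bool, ∃ U : Ultrafilter (Fin k → M), ∀ n, S' (br x n) ∈ U := by
    intro x
    have hne : (⨅ n, Filter.principal (S' (br x n))).NeBot := by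
      refine Filter.iInf_neBot_of_directed ?_ fun n => Filter.principal_neBot_iff.2 (hT.ne _)
      intro a b
      refine ⟨max a b, ?_, ?_⟩
      · exact Filter.principal_mono.2 (hmono x _ _ (le_max_left _ _))
      · exact Filter.principal_mono.2 (hmono x _ _ (le_max_right _ _))
    obtain ⟨U, hU⟩ := Ultrafilter.exists_le (⨅ n, Filter.principal (S' (br x n)))
    exact ⟨U, fun n => hU (Filter.mem_iInf_of_mem n (Filter.mem_principal_self _))⟩
  choose U hU using hU
  choose p hp using fun x => few_type (L := L) (U x)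
  have hinj : Function.Injective p := by
    intro x y hxy
    by_contra hne
    have h1 : ∃ n, x n ≠ y n := by
      by_contra hcon
      push Not at hcon
      exact hne (funext hcon)
    obtain ⟨n, hn, hmin⟩ : ∃ n, x n ≠ y n ∧ ∀ m < n, x m = y m := by
      refine ⟨Nat.find h1, Nat.find_spec h1, fun m hm => ?_⟩
      by_contra hcon
      exact Nat.find_min h1 hm hcon
    have h2 : br x n = br y n := PiNat.res_eq_res.2 fun m hm => hmin m hm
    have h3 : S' (br x (n + 1)) ∈ U y := by
      rw [← hφ]
      rw [← hp y, ← hxy, hp x, hφ]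
      exact hU x (n + 1)
    have h4 := hU y (n + 1)
    have h5 : br x (n + 1) = x n :: br x n := PiNat.res_succ x n
    have h6 : br y (n + 1) = y n :: br x n := by
      rw [h2]
      exact PiNat.res_succ y n
    rw [h5] at h3
    rw [h6] at h4
    have h7 : Disjoint (S' (x n :: br x n)) (S' (y n :: br x n)) := by
      have h8 := hT.disj (br x n)
      cases hx : x n <;> cases hy : y n
      · exact absurd (hx.trans hy.symm) hn
      · exact h8
      · exact h8.symm
      · exact absurd (hx.trans hy.symm) hn
    have h9 := Filter.inter_mem h3 h4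
    rw [h7.inter_eq] at h9
    exact (U y).empty_notMem h9
  have hc := hF k
  have hc' : Countable (ℕ → Bool) := hinj.countable
  obtain ⟨f, hf⟩ := hc'.exists_injective_nat
  refine Function.cantor_injective (fun s : Set ℕ => f fun n => decide (n ∈ s)) fun s t hst => ?_
  have h1 := hf hst
  ext n
  have h2 := congrFun h1 n
  exact decide_eq_decide.1 h2

theorem exists_calc_few {L : FirstOrder.Language.{0, 0}} {M : Type u} [L.Structure M] [Nonempty M]
    (hF : SmallTheory L M) : ∃ 𝓓 : Calc M, ∀ (α : Type) [Finite α] (S : Set (α → M)),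
      (∅ : Set M).Definable L S → S ∈ 𝓓.D α := by
  refine ⟨{
    D := fun α => {S | (∅ : Set M).Definable L S}
    univ := Set.definable_univ
    inter := fun h1 h2 => Set.Definable.inter h1 h2
    compl := fun h => Set.Definable.compl h
    preim := fun σ _ h => Set.Definable.preimage_comp σ h
    im := fun σ _ h => Set.Definable.image_comp h σ
    eq := ?_
    small := fun S hS h => no_tree_few hF S hS h }, fun α _ S h => h⟩
  show (∅ : Set M).Definable L {f : Bool → M | f false = f true}
  rw [Set.empty_definable_iff]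
  refine ⟨(FirstOrder.Language.Term.var false).equal (FirstOrder.Language.Term.var true), ?_⟩
  ext f
  show f false = f true ↔ _
  rw [Set.mem_ofPred, FirstOrder.Language.Formula.realize_equal]
  rfl

theorem exists_calc_of_few {L : FirstOrder.Language.{0, 0}}
    {M : Type u} [L.Structure M] [Nonempty M] (hF : SmallTheory L M)
    {R : Type v} [Ring R] [Infinite R] (hI : Interpretable L M R) :
    ∃ 𝓓 : Calc R, RC 𝓓 := by
  classical
  obtain ⟨k, dom, val, surj, hdom, heq, hadd, hmul⟩ := hI
  rw [Set.definable_iff_finitely_definable] at hdom heq hadd hmul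
  obtain ⟨A₁, -, h₁⟩ := hdom
  obtain ⟨A₂, -, h₂⟩ := heq
  obtain ⟨A₃, -, h₃⟩ := hadd
  obtain ⟨A₄, -, h₄⟩ := hmul
  obtain ⟨𝓓, h𝓓⟩ := exists_calc_few hF
  obtain ⟨𝓔, hle, hA⟩ := exists_adj_finset 𝓓 (A₁ ∪ A₂ ∪ A₃ ∪ A₄)
  have key : ∀ (α : Type) [Finite α] (S : Set (α → M)) (B : Finset M),
      B ⊆ A₁ ∪ A₂ ∪ A₃ ∪ A₄ → (B : Set M).Definable L S → S ∈ 𝓔.D α := by
    intro α _ S B hB hS
    exact mem_of_definable 𝓓 𝓔 h𝓓 hle _ hA α S (hS.mono (by exact_mod_cast hB))
  have k₁ := key _ _ A₁ (fun x hx => by simp [hx]) h₁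
  have k₂ := key _ _ A₂ (fun x hx => by simp [hx]) h₂
  have k₃ := key _ _ A₃ (fun x hx => by simp [hx]) h₃
  have k₄ := key _ _ A₄ (fun x hx => by simp [hx]) h₄
  obtain ⟨𝓕, h𝓕⟩ := exists_interp 𝓔 dom val surj k₁ (by
    have := 𝓔.preim (fun p : Fin 2 × Fin k => (decide (p.1 = 1), p.2)) k₂
    convert this using 1
    ext w
    simp only [Pull, Set.mem_ofPred_eq, Function.comp_def, Fin.forall_fin_two, Bool.forall_bool]
    simp)
  refine ⟨𝓕, ⟨?_, ?_⟩⟩
  · show _ ∈ 𝓕.D _
    rw [h𝓕]
    have := 𝓔.preim (fun p : Fin 3 × Fin k =>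
      ((![some false, some true, none] p.1 : Option Bool), p.2)) k₃
    convert this using 1
    ext w
    simp only [Pull, Set.mem_ofPred_eq, Function.comp_def, Fin.forall_fin_succ, Option.forall,
      Bool.forall_bool]
    simp
    rw [eq_comm (a := val fun i => w (none, i))]
    tauto
  · show _ ∈ 𝓕.D _
    rw [h𝓕]
    have := 𝓔.preim (fun p : Fin 3 × Fin k =>
      ((![some false, some true, none] p.1 : Option Bool), p.2)) k₄
    convert this using 1
    ext w
    simp only [Pull, Set.mem_ofPred_eq, Function.comp_def, Fin.forall_fin_succ, Option.forall,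
      Bool.forall_bool]
    simp
    rw [eq_comm (a := val fun i => w (none, i))]
    tauto

end VCR
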