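import Pool.Agent.VCR.TreeA

/-!
# VCR-Idn: bounded number of orthogonal idempotents, not necessarily central

As VCR-Idm; the coefficients are differences of natural numbers and their inverses, which commute with everything.
-/

open Set

namespace VCR

universe v

private theorem idn_unit {R : Type v} [Ring R] (hQ : ∀ n : ℕ, n ≠ 0 → IsUnit (n : R)) {a b : ℕ}
    (h : a ≠ b) : IsUnit ((a : R) - (b : R)) := by
  rcases Nat.lt_or_gt_of_ne h with h1 | h1
  · have h2 : (a : R) - (b : R) = -((b - a : ℕ) : R) := by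
      rw [Nat.cast_sub h1.le]
      abel
    rw [h2]
    exact (hQ _ (by omega)).neg
  · rw [← Nat.cast_sub (le_of_lt h1)]
    exact hQ _ (by omega)

private theorem idn_mul {R : Type v} [Ring R] {n : ℕ} {e : Fin n → R}
    (he : OrthogonalIdempotents e) (a b : Fin n → R) (hcen : ∀ j k, e j * b k = b k * e j) :
    (∑ j, a j * e j) * (∑ j, b j * e j) = ∑ j, a j * b j * e j := by
  rw [Finset.sum_mul_sum]
  refine Finset.sum_congr rfl fun j _ => ?_
  have h1 : ∀ k, a j * e j * (b k * e k) = a j * b k * (e j * e k) := by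
    intro k
    calc a j * e j * (b k * e k) = a j * (e j * b k) * e k := by simp only [mul_assoc]
      _ = a j * (b k * e j) * e k := by rw [hcen]
      _ = a j * b k * (e j * e k) := by simp only [mul_assoc]
  rw [Finset.sum_eq_single j]
  · rw [h1, (he.idem j).eq]
  · intro k _ hk
    rw [h1, he.ortho (Ne.symm hk), mul_zero]
  · intro h
    exact absurd (Finset.mem_univ _) h

theorem exists_bound' {R : Type v} [Ring R] (𝓓 : Calc R) [RC 𝓓]
    (hQ : ∀ n : ℕ, n ≠ 0 → IsUnit (n : R)) :
    ∃ N : ℕ, ∀ (n : ℕ) (e : Fin n → R), CompleteOrthogonalIdempotents e → (∀ i, e i ≠ 0) →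
      n ≤ N := by
  by_contra hN
  push Not at hN
  refine no_indep 𝓓 (fun i : ℕ => {z : R | ¬ IsUnit (z - (i : R))}) (fun n => by ((try unfold DS); (try unfold DF₁); (try unfold DF₂); (try unfold DR₂); repeat' first | assumption | exact Df.var _ | exact Df.zero | exact Df.one | exact Df.natCast _ | (refine DE.app ?_; first | assumption | exact DE.natCast _) | refine Df.add ?_ ?_ | refine Df.mul ?_ ?_ | refine Df.subt ?_ ?_ | refine Df.neg ?_ | refine Df.pow ?_ _ | refine Df.sum _ (fun _ _ => ?_) | (refine DF₁.app (by assumption) ?_) | (refine DF₂.app (by assumption) ?_ ?_) | refine Dp.const _ | refine Dp.not ?_ | refine Dp.eq ?_ ?_ | refine Dp.ne ?_ ?_ | refine Dp.and ?_ ?_ | refine Dp.or ?_ ?_ | refine Dp.iff ?_ ?_ | refine Dp.imp ?_ ?_ | (refine DS.app (by assumption) ?_) | (refine DR₂.app (by assumption) ?_ ?_) | refine Dp.isUnit ?_ | refine Dp.ball _ (fun _ _ => ?_) | refine Dp.ex ?_ | refine Dp.all ?_ | refine Dp.allfin (fun _ => ?_) | refine Dp.exfin (fun _ => ?_))) ?_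
  intro N ε
  obtain ⟨n, e, he, hne, hn⟩ := hN N
  obtain ⟨c, hcd⟩ : ∃ c : Fin n → ℕ, ∀ j, c j = if (j : ℕ) < N ∧ ε j = true then (j : ℕ) else N :=
    ⟨_, fun _ => rfl⟩
  have key : ∀ i : ℕ, ∑ j, (c j : R) * e j - (i : R) = ∑ j, ((c j : R) - (i : R)) * e j := by
    intro i
    have h1 : (i : R) = ∑ j, (i : R) * e j := by
      rw [← Finset.mul_sum, he.complete, mul_one]
    conv_lhs => rw [h1]
    rw [← Finset.sum_sub_distrib]
    refine Finset.sum_congr rfl fun j _ => ?_
    rw [sub_mul]
  refine ⟨∑ j, (c j : R) * e j, fun i hi => ?_⟩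
  show ¬ IsUnit (∑ j, (c j : R) * e j - (i : R)) ↔ ε i = true
  rw [key]
  constructor
  · intro h
    by_contra hε
    apply h
    have hci : ∀ j, c j ≠ i := by
      intro j hj
      rw [hcd] at hj
      split_ifs at hj with h1
      · rw [hj] at h1
        exact hε h1.2
      · omega
    choose v hv using fun j => (idn_unit hQ (hci j))
    have hv1 : ∀ j, ((c j : R) - (i : R)) * ((v j)⁻¹ : Rˣ) = 1 := by
      intro j
      rw [← hv j, Units.mul_inv]
    have hv2 : ∀ j, (((v j)⁻¹ : Rˣ) : R) * ((c j : R) - (i : R)) = 1 := by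
      intro j
      rw [← hv j, Units.inv_mul]
    have hc1 : ∀ j k, e j * ((c k : R) - (i : R)) = ((c k : R) - (i : R)) * e j := fun j k =>
      ((Nat.commute_cast (e j) (c k)).sub_right (Nat.commute_cast (e j) i)).eq
    have hc2 : ∀ j k, e j * (((v k)⁻¹ : Rˣ) : R) = (((v k)⁻¹ : Rˣ) : R) * e j := fun j k => by
      have h1 : Commute (e j) (v k : R) := by
        rw [hv k]
        exact hc1 j k
      exact h1.units_inv_right.eq
    refine ⟨⟨∑ j, ((c j : R) - (i : R)) * e j, ∑ j, (((v j)⁻¹ : Rˣ) : R) * e j, ?_, ?_⟩, rfl⟩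
    · rw [idn_mul he.toOrthogonalIdempotents _ _ hc2]
      simp only [hv1, one_mul]
      exact he.complete
    · rw [idn_mul he.toOrthogonalIdempotents _ _ hc1]
      simp only [hv2, one_mul]
      exact he.complete
  · intro hε hu
    have hin : i < n := by omega
    have hci : c ⟨i, hin⟩ = i := by
      rw [hcd, if_pos ⟨hi, hε⟩]
    have h1 : (∑ j, ((c j : R) - (i : R)) * e j) * e ⟨i, hin⟩ = 0 := by
      rw [Finset.sum_mul]
      refine Finset.sum_eq_zero fun j _ => ?_
      by_cases hj : j = ⟨i, hin⟩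
      · rw [hj, hci, sub_self, zero_mul, zero_mul]
      · rw [mul_assoc, he.ortho hj, mul_zero]
    exact hne ⟨i, hin⟩ ((hu.mul_right_eq_zero).1 h1)

end VCR
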