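import Pool.Agent.VCR.TraA

/-!
# VCR-Jac: the Jacobson radical of a ring with a calculus
-/

open Set

namespace VCR

universe v

theorem mem_jac {R : Type v} [Ring R] (x : R) :
    x ∈ Ring.jacobson R ↔ ∀ y, ∃ z, z * y * x + z = 1 := by
  rw [← Ideal.jacobson_bot, Ideal.mem_jacobson_iff]
  refine forall_congr' fun y => exists_congr fun z => ?_
  rw [Ideal.mem_bot, sub_eq_zero]

theorem exists_calc_jac {R : Type v} [Ring R] (𝓓 : Calc R) [RC 𝓓] :
    ∃ 𝓔 : Calc (R ⧸ Ring.jacobson R), RC 𝓔 := by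
  refine exists_calc_surj 𝓓 (Ideal.Quotient.mk (Ring.jacobson R)) Ideal.Quotient.mk_surjective ?_
  have h : {x : R | Ideal.Quotient.mk (Ring.jacobson R) x = 0} =
      {x | ∀ y, ∃ z, z * y * x + z = 1} := by
    ext x
    rw [mem_ofPred_eq, mem_ofPred_eq, Ideal.Quotient.eq_zero_iff_mem, mem_jac]
  rw [h]
  have h1 : Dp 𝓓 (fun f : Unit → R => ∀ y, ∃ z, z * y * f () + z = 1) := by ((try unfold DS); (try unfold DF₁); (try unfold DF₂); (try unfold DR₂); repeat' first | assumption | exact Df.var _ | exact Df.zero | exact Df.one | exact Df.natCast _ | (refine DE.app ?_; first | assumption | exact DE.natCast _) | refine Df.add ?_ ?_ | refine Df.mul ?_ ?_ | refine Df.subt ?_ ?_ | refine Df.neg ?_ | refine Df.pow ?_ _ | refine Df.sum _ (fun _ _ => ?_) | (refine DF₁.app (by assumption) ?_) | (refine DF₂.app (by assumption) ?_ ?_) | refine Dp.const _ | refine Dp.not ?_ | refine Dp.eq ?_ ?_ | refine Dp.ne ?_ ?_ | refine Dp.and ?_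 ?_ | refine Dp.or ?_ ?_ | refine Dp.iff ?_ ?_ | refine Dp.imp ?_ ?_ | (refine DS.app (by assumption) ?_) | (refine DR₂.app (by assumption) ?_ ?_) | refine Dp.isUnit ?_ | refine Dp.ball _ (fun _ _ => ?_) | refine Dp.ex ?_ | refine Dp.all ?_ | refine Dp.allfin (fun _ => ?_) | refine Dp.exfin (fun _ => ?_))
  exact h1

theorem jac_nil {R : Type v} [Ring R] (n : ℕ) (h : ∀ r : R, ∃ y, r ^ n = y * r ^ (n + 1)) (r : R)
    (hr : r ∈ Ring.jacobson R) : r ^ n = 0 := by
  obtain ⟨y, hy⟩ := h r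
  obtain ⟨z, hz⟩ := (mem_jac r).1 hr (-y)
  have h1 : z * (1 - y * r) = 1 :=
    calc z * (1 - y * r) = z * -y * r + z := by noncomm_ring
      _ = 1 := hz
  have h2 : (1 - y * r) * r ^ n = 0 := by
    rw [sub_mul, one_mul, mul_assoc, ← pow_succ', ← hy, sub_self]
  calc r ^ n = z * (1 - y * r) * r ^ n := by rw [h1, one_mul]
    _ = 0 := by rw [mul_assoc, h2, mul_zero]

theorem eq_zero_of_nil {S : Type v} [Ring S] (hJ : Ring.jacobson S = ⊥) (r : S)
    (h : ∀ y, IsNilpotent (y * r)) : r = 0 := by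
  have h1 : r ∈ Ring.jacobson S := by
    rw [mem_jac]
    intro y
    obtain ⟨u, hu⟩ := (h y).isUnit_one_add
    refine ⟨((u⁻¹ : Sˣ) : S), ?_⟩
    have h2 : ((u⁻¹ : Sˣ) : S) * (1 + y * r) = 1 := by rw [← hu, Units.inv_mul]
    calc ((u⁻¹ : Sˣ) : S) * y * r + ((u⁻¹ : Sˣ) : S) = ((u⁻¹ : Sˣ) : S) * (1 + y * r) := by
          noncomm_ring
      _ = 1 := h2
  rw [hJ] at h1
  exact h1

end VCR
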