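import Pool.Agent.VCR.Fo

/-!
# VCR-PRA: rings with a calculus are uniformly strongly pi-regular
-/

open Set

namespace VCR

universe v

private def bt {R : Type v} [Ring R] : List Bool → R → R
  | [], _ => 0
  | i :: s, r => bt s r + (if i then r ^ s.length else 0)

private theorem bt_df {R : Type v} [Ring R] (𝓓 : Calc R) [RC 𝓓] {α : Type} [Finite α]
    {t : (α → R) → R} (ht : Df 𝓓 t) : ∀ s : List Bool, Df 𝓓 (fun f : α → R => bt s (t f)) := by
  intro s
  induction s with
  | nil => exact Df.zero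
  | cons i s ih =>
    cases i
    · exact Df.add ih Df.zero
    · exact Df.add ih (Df.pow ht s.length)

theorem exists_pireg_right {R : Type v} [Ring R] (𝓓 : Calc R) [RC 𝓓] :
    ∃ n : ℕ, ∀ r : R, ∃ x, r ^ n = r ^ (n + 1) * x := by
  by_contra hN
  push Not at hN
  have up : ∀ (n : ℕ) (r : R), (∀ x, r ^ (n + 1) ≠ r ^ (n + 1 + 1) * x) → ∀ x, r ^ n ≠ r ^ (n + 1) * x := by
    intro n r h x hx
    apply h x
    calc r ^ (n + 1) = r * r ^ n := pow_succ' r n
      _ = r * (r ^ (n + 1) * x) := by rw [← hx]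
      _ = r ^ (n + 1 + 1) * x := by rw [← mul_assoc, ← pow_succ']
  refine 𝓓.small (fun s => {f : Bool → R | (∀ x, (f false) ^ s.length ≠ (f false) ^ (s.length + 1) * x) ∧
    ∃ w, f true = bt s (f false) + (f false) ^ s.length * w}) ⟨?_, ?_, ?_⟩ ?_
  · intro s
    obtain ⟨r, hr⟩ := hN s.length
    exact ⟨fun b => cond b (bt s r) r, hr, 0, by simp⟩
  · rintro i s f ⟨h1, w, hw⟩
    refine ⟨up _ _ h1, (if i then 1 else 0) + f false * w, ?_⟩
    rw [hw]
    show bt s (f false) + (if i then (f false) ^ s.length else 0) + (f false) ^ (s.length + 1) * w = _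
    rw [mul_add, ← mul_assoc, ← pow_succ, add_assoc]
    cases i <;> simp
  · intro s
    rw [Set.disjoint_left]
    rintro f ⟨h1, w, hw⟩ ⟨_, w', hw'⟩
    have h2 : bt s (f false) + 0 + (f false) ^ (s.length + 1) * w =
        bt s (f false) + (f false) ^ s.length + (f false) ^ (s.length + 1) * w' := hw.symm.trans hw'
    apply up _ _ h1 (w - w')
    rw [mul_sub]
    rw [add_zero, add_assoc] at h2
    have h3 := add_left_cancel h2
    rw [h3]
    exact (add_sub_cancel_right _ _).symm
  · intro s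
    exact Dp.and (Dp.all (Q := fun x (f : Bool → R) => (f false) ^ s.length ≠ (f false) ^ (s.length + 1) * x)
      (Dp.ne (Df.pow (Df.var (some false)) _) (Df.mul (Df.pow (Df.var (some false)) _) (Df.var none))))
      (Dp.ex (Q := fun w (f : Bool → R) => f true = bt s (f false) + (f false) ^ s.length * w)
      (Dp.eq (Df.var (some true)) (Df.add (bt_df 𝓓 (Df.var (some false)) s)
        (Df.mul (Df.pow (Df.var (some false)) _) (Df.var none)))))

theorem exists_pireg_left {R : Type v} [Ring R] (𝓓 : Calc R) [RC 𝓓] :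
    ∃ n : ℕ, ∀ r : R, ∃ y, r ^ n = y * r ^ (n + 1) := by
  by_contra hN
  push Not at hN
  have up : ∀ (n : ℕ) (r : R), (∀ x, r ^ (n + 1) ≠ x * r ^ (n + 1 + 1)) → ∀ x, r ^ n ≠ x * r ^ (n + 1) := by
    intro n r h x hx
    apply h x
    calc r ^ (n + 1) = r ^ n * r := pow_succ r n
      _ = x * r ^ (n + 1) * r := by rw [← hx]
      _ = x * r ^ (n + 1 + 1) := by rw [mul_assoc, ← pow_succ]
  refine 𝓓.small (fun s => {f : Bool → R | (∀ x, (f false) ^ s.length ≠ x * (f false) ^ (s.length + 1)) ∧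
    ∃ w, f true = bt s (f false) + w * (f false) ^ s.length}) ⟨?_, ?_, ?_⟩ ?_
  · intro s
    obtain ⟨r, hr⟩ := hN s.length
    exact ⟨fun b => cond b (bt s r) r, hr, 0, by simp⟩
  · rintro i s f ⟨h1, w, hw⟩
    refine ⟨up _ _ h1, (if i then 1 else 0) + w * f false, ?_⟩
    rw [hw]
    show bt s (f false) + (if i then (f false) ^ s.length else 0) + w * (f false) ^ (s.length + 1) = _
    rw [add_mul, mul_assoc, ← pow_succ', add_assoc]
    cases i <;> simp
  · intro s
    rw [Set.disjoint_left]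
    rintro f ⟨h1, w, hw⟩ ⟨_, w', hw'⟩
    have h2 : bt s (f false) + 0 + w * (f false) ^ (s.length + 1) =
        bt s (f false) + (f false) ^ s.length + w' * (f false) ^ (s.length + 1) := hw.symm.trans hw'
    apply up _ _ h1 (w - w')
    rw [sub_mul]
    rw [add_zero, add_assoc] at h2
    have h3 := add_left_cancel h2
    rw [h3]
    exact (add_sub_cancel_right _ _).symm
  · intro s
    exact Dp.and (Dp.all (Q := fun x (f : Bool → R) => (f false) ^ s.length ≠ x * (f false) ^ (s.length + 1))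
      (Dp.ne (Df.pow (Df.var (some false)) _) (Df.mul (Df.var none) (Df.pow (Df.var (some false)) _))))
      (Dp.ex (Q := fun w (f : Bool → R) => f true = bt s (f false) + w * (f false) ^ s.length)
      (Dp.eq (Df.var (some true)) (Df.add (bt_df 𝓓 (Df.var (some false)) s)
        (Df.mul (Df.var none) (Df.pow (Df.var (some false)) _)))))

theorem exists_pireg {R : Type v} [Ring R] (𝓓 : Calc R) [RC 𝓓] :
    ∃ n : ℕ, ∀ r : R, ∃ x y, r ^ n = r ^ (n + 1) * x ∧ r ^ n = y * r ^ (n + 1) := by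
  obtain ⟨a, ha⟩ := exists_pireg_right 𝓓
  obtain ⟨b, hb⟩ := exists_pireg_left 𝓓
  refine ⟨a + b, fun r => ?_⟩
  obtain ⟨x, hx⟩ := ha r
  obtain ⟨y, hy⟩ := hb r
  refine ⟨x, y, ?_, ?_⟩
  · calc r ^ (a + b) = r ^ b * r ^ a := by rw [← pow_add, add_comm]
      _ = r ^ b * (r ^ (a + 1) * x) := by rw [← hx]
      _ = r ^ (a + b + 1) * x := by rw [← mul_assoc, ← pow_add]; congr 2; omega
  · calc r ^ (a + b) = r ^ b * r ^ a := by rw [← pow_add, add_comm]
      _ = y * r ^ (b + 1) * r ^ a := by rw [← hy]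
      _ = y * r ^ (a + b + 1) := by rw [mul_assoc, ← pow_add]; congr 2; omega

end VCR
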