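import Mathlib

/-!
# VCR-PRB: strongly pi-regular elements

A strongly pi-regular element which is not nilpotent has a left multiple which is a nonzero
idempotent.
-/

open Set

namespace VCR

universe v

theorem unit_of_pireg {R : Type v} [Ring R] (n : ℕ) (h : ∀ r : R, ∃ x, r ^ n = r ^ (n + 1) * x)
    (htf : ∀ (m : ℕ) (x : R), m ≠ 0 → m • x = 0 → x = 0) (m : ℕ) (hm : m ≠ 0) :
    IsUnit (m : R) := by
  obtain ⟨x, hx⟩ := h (m : R)
  have h1 : (1 : R) - (m : R) * x = 0 := by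
    refine htf (m ^ n) _ (pow_ne_zero n hm) ?_
    rw [nsmul_eq_mul, Nat.cast_pow, mul_sub, mul_one, ← mul_assoc, ← pow_succ, ← hx, sub_self]
  have h2 : (m : R) * x = 1 := (sub_eq_zero.1 h1).symm
  have h3 : x * (m : R) = 1 := by rw [← Nat.cast_comm, h2]
  exact ⟨⟨(m : R), x, h2, h3⟩, rfl⟩

theorem exists_idem {R : Type v} [Ring R] (n : ℕ) (r x y : R) (hr : ¬ IsNilpotent r)
    (h1 : r ^ n = r ^ (n + 1) * x) (h2 : r ^ n = y * r ^ (n + 1)) :
    ∃ e b : R, e * e = e ∧ e ≠ 0 ∧ e = b * r := by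
  have h1' : ∀ m, n ≤ m → r ^ m = r ^ (m + 1) * x := by
    intro m hm
    obtain ⟨d, rfl⟩ := Nat.exists_eq_add_of_le' hm
    rw [pow_add, h1, ← mul_assoc, ← pow_add]
    rfl
  have h2' : ∀ m, n ≤ m → r ^ m = y * r ^ (m + 1) := by
    intro m hm
    obtain ⟨d, rfl⟩ := Nat.exists_eq_add_of_le hm
    rw [pow_add, h2, mul_assoc, ← pow_add]
    congr 2
    omega
  have h3 : ∀ j m, n ≤ m → r ^ m = r ^ (m + j) * x ^ j := by
    intro j
    induction j with
    | zero =>
      intro m _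
      simp
    | succ j ih =>
      intro m hm
      rw [ih m hm, h1' (m + j) (by omega), mul_assoc, ← pow_succ']
      rfl
  have h4 : ∀ j m, n ≤ m → r ^ m = y ^ j * r ^ (m + j) := by
    intro j
    induction j with
    | zero =>
      intro m _
      simp
    | succ j ih =>
      intro m hm
      rw [ih m hm, h2' (m + j) (by omega), ← mul_assoc, ← pow_succ]
      rfl
  have ha1 : r ^ (n + 1) = r ^ (n + 1) * r ^ (n + 1) * x ^ (n + 1) := by
    conv_lhs => rw [h3 (n + 1) (n + 1) (by omega), pow_add r (n + 1) (n + 1)]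
  have ha2 : r ^ (n + 1) = y ^ (n + 1) * (r ^ (n + 1) * r ^ (n + 1)) := by
    conv_lhs => rw [h4 (n + 1) (n + 1) (by omega), pow_add r (n + 1) (n + 1)]
  generalize hb : y ^ (n + 1) = b at ha2
  generalize hc : x ^ (n + 1) = c at ha1
  generalize ha : r ^ (n + 1) = a at ha1 ha2
  have h5 : b * a = a * c := by
    calc b * a = b * (a * a * c) := by rw [← ha1]
      _ = b * (a * a) * c := by simp only [mul_assoc]
      _ = a * c := by rw [← ha2]
  have h6 : a * (b * a) = a := by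
    rw [h5, ← mul_assoc, ← ha1]
  refine ⟨b * a, b * r ^ n, ?_, ?_, ?_⟩
  · rw [mul_assoc, h6]
  · intro h0
    rw [h0, mul_zero] at h6
    exact hr ⟨n + 1, by rw [ha, ← h6]⟩
  · rw [mul_assoc, ← pow_succ, ha]

end VCR
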