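import Mathlib

/-!
# VCR-SSA: left ideals generated by idempotents

If complete families of orthogonal nonzero idempotents have bounded size and every nonzero principal left ideal contains a
nonzero idempotent, then every left ideal is generated by an idempotent: the sum of a maximal orthogonal family with sum in
the ideal.
-/

open Set

namespace VCR

universe v

private theorem ssa_mul {S : Type v} [Ring S] {n : ℕ} {f : Fin n → S}
    (hf : OrthogonalIdempotents f) (i : Fin n) : f i * ∑ j, f j = f i := by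
  rw [Finset.mul_sum, Finset.sum_eq_single i]
  · exact hf.idem i
  · intro j _ hj
    exact hf.ortho hj.symm
  · intro h
    exact absurd (Finset.mem_univ i) h

private theorem ssa_mul' {S : Type v} [Ring S] {n : ℕ} {f : Fin n → S}
    (hf : OrthogonalIdempotents f) (i : Fin n) : (∑ j, f j) * f i = f i := by
  rw [Finset.sum_mul, Finset.sum_eq_single i]
  · exact hf.idem i
  · intro j _ hj
    exact hf.ortho hj
  · intro h
    exact absurd (Finset.mem_univ i) h

private theorem ssa_idem {S : Type v} [Ring S] {n : ℕ} {f : Fin n → S}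
    (hf : OrthogonalIdempotents f) : (∑ j, f j) * ∑ j, f j = ∑ j, f j := by
  rw [Finset.sum_mul]
  exact Finset.sum_congr rfl fun i _ => ssa_mul hf i

private theorem ssa_cons {S : Type v} [Ring S] {n : ℕ} {f : Fin n → S}
    (hf : OrthogonalIdempotents f) (g : S) (hg : g * g = g) (h1 : ∀ i, g * f i = 0)
    (h2 : ∀ i, f i * g = 0) : OrthogonalIdempotents (Fin.cons g f : Fin (n + 1) → S) := by
  refine ⟨?_, ?_⟩
  · intro i
    refine Fin.cases ?_ (fun j => ?_) i
    · exact hg
    · exact hf.idem j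
  · intro i j hij
    revert hij
    refine Fin.cases ?_ (fun i' => ?_) i <;> refine Fin.cases ?_ (fun j' => ?_) j
    · intro h
      exact absurd rfl h
    · intro _
      exact h1 j'
    · intro _
      exact h2 i'
    · intro h
      exact hf.ortho fun h' => h (congrArg Fin.succ h')

theorem exists_gen {S : Type v} [Ring S]
    (h0 : ∀ r : S, r ≠ 0 → ∃ e y : S, e * e = e ∧ e ≠ 0 ∧ e = y * r) (N : ℕ)
    (hN : ∀ (n : ℕ) (e : Fin n → S), CompleteOrthogonalIdempotents e → (∀ i, e i ≠ 0) → n ≤ N)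
    (L : Ideal S) : ∃ e ∈ L, e * e = e ∧ ∀ x ∈ L, x * e = x := by
  classical
  set P : ℕ → Prop := fun n => ∃ f : Fin n → S, OrthogonalIdempotents f ∧ (∀ i, f i ≠ 0) ∧
    ∑ i, f i ∈ L with hP
  have hbd : ∀ n, P n → n ≤ N := by
    rintro n ⟨f, hf, hf0, -⟩
    by_cases h1 : ∑ i, f i = 1
    · exact hN n f ⟨hf, h1⟩ hf0
    · have hc : OrthogonalIdempotents (Fin.cons (1 - ∑ i, f i) f : Fin (n + 1) → S) := by
        refine ssa_cons hf _ ?_ ?_ ?_
        · rw [mul_sub, mul_one, sub_mul, one_mul, ssa_idem hf, sub_self, sub_zero]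
        · intro i
          rw [sub_mul, one_mul, ssa_mul' hf, sub_self]
        · intro i
          rw [mul_sub, mul_one, ssa_mul hf, sub_self]
      have h2 : n + 1 ≤ N := by
        refine hN (n + 1) _ ⟨hc, ?_⟩ ?_
        · rw [Fin.sum_cons, sub_add_cancel]
        · intro i
          refine Fin.cases ?_ (fun j => ?_) i
          · rw [Fin.cons_zero, sub_ne_zero]
            exact fun h => h1 h.symm
          · rw [Fin.cons_succ]
            exact hf0 j
      omega
  have hP0 : P 0 := by
    refine ⟨fun i => i.elim0, ⟨fun i => i.elim0, fun i => i.elim0⟩, fun i => i.elim0, ?_⟩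
    rw [Finset.univ_eq_empty, Finset.sum_empty]
    exact L.zero_mem
  obtain ⟨n, hn, f, hf, hf0, hfL⟩ : ∃ n, n = Nat.findGreatest P N ∧ P n :=
    ⟨_, rfl, Nat.findGreatest_spec (Nat.zero_le N) hP0⟩
  set e := ∑ i, f i with he
  have hee : e * e = e := ssa_idem hf
  refine ⟨e, hfL, hee, ?_⟩
  by_contra hcon
  push Not at hcon
  obtain ⟨x, hx, hxe⟩ := hcon
  obtain ⟨g₀, y, hg, hg0, hy⟩ := h0 (x - x * e) (sub_ne_zero.2 (Ne.symm hxe))
  have hre : (x - x * e) * e = 0 := by
    rw [sub_mul, mul_assoc, hee, sub_self]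
  have hrL : x - x * e ∈ L := L.sub_mem hx (L.mul_mem_left x hfL)
  have hgL : g₀ ∈ L := by
    rw [hy]
    exact L.mul_mem_left y hrL
  have hge : g₀ * e = 0 := by
    rw [hy, mul_assoc, hre, mul_zero]
  have h1 : g₀ * (g₀ - e * g₀) = g₀ := by
    rw [mul_sub, hg, ← mul_assoc, hge, zero_mul, sub_zero]
  have h2 : e * (g₀ - e * g₀) = 0 := by
    rw [mul_sub, ← mul_assoc, hee, sub_self]
  have h3 : (g₀ - e * g₀) * e = 0 := by
    rw [sub_mul, mul_assoc, hge, mul_zero, sub_zero]
  have h4 : (g₀ - e * g₀) * (g₀ - e * g₀) = g₀ - e * g₀ := by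
    rw [sub_mul, h1, mul_assoc, h1]
  have h5 : g₀ - e * g₀ ≠ 0 := by
    intro h
    rw [h, mul_zero] at h1
    exact hg0 h1.symm
  have h6 : P (n + 1) := by
    refine ⟨Fin.cons (g₀ - e * g₀) f, ssa_cons hf _ h4 ?_ ?_, ?_, ?_⟩
    · intro i
      rw [← ssa_mul' hf i, ← he, ← mul_assoc, h3, zero_mul]
    · intro i
      rw [← ssa_mul hf i, ← he, mul_assoc, h2, mul_zero]
    · intro i
      refine Fin.cases ?_ (fun j => ?_) i
      · rw [Fin.cons_zero]
        exact h5
      · rw [Fin.cons_succ]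
        exact hf0 j
    · rw [Fin.sum_cons]
      exact L.add_mem (L.sub_mem hgL (L.mul_mem_left e hgL)) hfL
  have h7 := Nat.le_findGreatest (hbd _ h6) h6
  omega

end VCR
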