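import Mathlib

/-!
# VCR-SSB: semisimplicity from idempotent generators of left ideals

The complement of a left ideal `L` with generator `e` is the left ideal `{x | x * e = 0}`.
-/

open Set

namespace VCR

universe v

theorem isSemisimpleRing_of_gen {S : Type v} [Ring S]
    (h : ∀ L : Ideal S, ∃ e ∈ L, e * e = e ∧ ∀ x ∈ L, x * e = x) : IsSemisimpleRing S := by
  have hc : ComplementedLattice (Submodule S S) := by
    refine ⟨fun L => ?_⟩
    obtain ⟨e, heL, hee, he⟩ := h L
    refine ⟨LinearMap.ker (LinearMap.toSpanSingleton S S e), ?_⟩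
    rw [isCompl_iff, disjoint_iff, codisjoint_iff]
    constructor
    · refine (Submodule.eq_bot_iff _).2 ?_
      rintro x ⟨hxL, hx⟩
      have h1 : x * e = 0 := by
        have := LinearMap.mem_ker.1 hx
        rwa [LinearMap.toSpanSingleton_apply, smul_eq_mul] at this
      rw [← he x hxL, h1]
    · refine (Submodule.eq_top_iff').2 fun x => ?_
      have h1 : x = x * e + (x - x * e) := by abel
      rw [h1]
      refine Submodule.add_mem_sup (L.smul_mem x heL) ?_
      rw [LinearMap.mem_ker, LinearMap.toSpanSingleton_apply, smul_eq_mul, sub_mul, mul_assoc, hee,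
        sub_self]
  exact (isSemisimpleModule_iff S S).2 hc

end VCR
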