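import Mathlib

/-!
# VCR-Spm: separating the factors with commutative coefficients in a product of matrix rings
-/

open Set

namespace VCR

universe v

theorem exists_split_matrix {N : ℕ} (D : Fin N → Type v) (d : Fin N → ℕ)
    [∀ i, DivisionRing (D i)] (hd : ∀ i, 0 < d i) :
    ∃ (n m : ℕ) (a : Fin n → ℕ) (K : Fin n → Type v) (_ : ∀ i, Field (K i)) (b : Fin m → ℕ)
      (E : Fin m → Type v) (_ : ∀ j, DivisionRing (E j)), (∀ i, 0 < a i) ∧ (∀ j, 0 < b j) ∧
      (∀ j, ∃ x y : E j, x * y ≠ y * x) ∧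
      Nonempty ((∀ i, Matrix (Fin (d i)) (Fin (d i)) (D i)) ≃+*
        (∀ i, Matrix (Fin (a i)) (Fin (a i)) (K i)) ×
          (∀ j, Matrix (Fin (b j)) (Fin (b j)) (E j))) := by
  classical
  let P : Fin N → Prop := fun i => ∀ x y : D i, x * y = y * x
  let eA : Fin (Fintype.card {i // P i}) ≃ {i // P i} := (Fintype.equivFin _).symm
  let eB : Fin (Fintype.card {i // ¬ P i}) ≃ {i // ¬ P i} := (Fintype.equivFin _).symm
  refine ⟨Fintype.card {i // P i}, Fintype.card {i // ¬ P i}, fun i => d (eA i).1,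
    fun i => D (eA i).1,
    fun i => { (inferInstance : DivisionRing (D (eA i).1)) with mul_comm := (eA i).2 },
    fun j => d (eB j).1, fun j => D (eB j).1, fun j => inferInstance,
    fun i => hd _, fun j => hd _, ?_, ?_⟩
  · intro j
    have h := (eB j).2
    by_contra hcon
    apply h
    intro x y
    by_contra hxy
    exact hcon ⟨x, y, hxy⟩
  · let M : Fin N → Type v := fun i => Matrix (Fin (d i)) (Fin (d i)) (D i)
    let F : (∀ i, M i) ≃ (∀ i, M (eA i).1) × (∀ j, M (eB j).1) :=
      (Equiv.piEquivPiSubtypeProd P M).trans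
        (Equiv.prodCongr (Equiv.piCongrLeft (fun a : {i // P i} => M a.1) eA).symm
          (Equiv.piCongrLeft (fun a : {i // ¬ P i} => M a.1) eB).symm)
    exact ⟨{ F with
      map_mul' := fun _ _ => rfl
      map_add' := fun _ _ => rfl }⟩

end VCR
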