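import Pool.Agent.VCR.Fin
import Pool.Agent.VCR.PRA
import Pool.Agent.VCR.PRB
import Pool.Agent.VCR.Idn
import Pool.Agent.VCR.SSA
import Pool.Agent.VCR.SSB
import Pool.Agent.VCR.Jac
import Pool.Agent.VCR.NHB
import Pool.Agent.VCR.Cnr
import Pool.Agent.VCR.Spm

/-!
# VCR-Fim: torsion-free rings with a calculus are semiprimary
-/

open Set

namespace VCR

universe v w

theorem factor_facts {S : Type v} [Ring S] (𝓔 : Calc S) [RC 𝓔]
    (hQ : ∀ m : ℕ, m ≠ 0 → IsUnit (m : S)) {D : Type w} [DivisionRing D] {k : ℕ} (hk : 0 < k)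
    (f : S →+* Matrix (Fin k) (Fin k) D) (hf : Function.Surjective f) (c : S)
    (hc : ∀ x, f x = 0 ↔ x * c = 0) : CharZero D ∧ ∃ 𝓕 : Calc D, RC 𝓕 := by
  haveI : Nonempty (Fin k) := ⟨⟨0, hk⟩⟩
  constructor
  · refine charZero_of_inj_zero fun m hm => ?_
    by_contra h0
    have h1 : IsUnit ((m : Matrix (Fin k) (Fin k) D)) := by
      have := (hQ m h0).map f
      rwa [map_natCast] at this
    have h2 : (m : Matrix (Fin k) (Fin k) D) = 0 := by
      ext i j
      rw [← nsmul_one, Matrix.smul_apply, nsmul_eq_mul, hm, zero_mul, Matrix.zero_apply]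
    rw [h2] at h1
    exact not_isUnit_zero h1
  · obtain ⟨𝓖, h𝓖⟩ := exists_calc_factor 𝓔 f hf c hc
    exact exists_calc_entry hk 𝓖

theorem decomp_semiprimary {R : Type v} [Ring R] (𝓓 : Calc R) [RC 𝓓]
    (htf : ∀ (n : ℕ) (x : R), n ≠ 0 → n • x = 0 → x = 0) : IsCohnSemiprimary R := by
  classical
  obtain ⟨n, hn⟩ := exists_pireg 𝓓
  have hQ := unit_of_pireg n (fun r => (hn r).imp fun x hx => hx.choose_spec.1) htf
  obtain ⟨𝓔, h𝓔⟩ := exists_calc_jac 𝓓
  have hQS : ∀ m : ℕ, m ≠ 0 → IsUnit (m : R ⧸ Ring.jacobson R) := fun m hm => by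
    have := (hQ m hm).map (Ideal.Quotient.mk (Ring.jacobson R))
    rwa [map_natCast] at this
  obtain ⟨N, hN⟩ := exists_bound' 𝓔 hQS
  obtain ⟨n', hn'⟩ := exists_pireg 𝓔
  have h0 : ∀ r : R ⧸ Ring.jacobson R, r ≠ 0 → ∃ e y, e * e = e ∧ e ≠ 0 ∧ e = y * r := by
    intro r hr
    have h1 : ∃ y, ¬ IsNilpotent (y * r) := by
      by_contra h
      push Not at h
      exact hr (eq_zero_of_nil (Ring.jacobson_quotient_jacobson R) r h)
    obtain ⟨y, hy⟩ := h1
    obtain ⟨x, z, h1, h2⟩ := hn' (y * r)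
    obtain ⟨e, b, he, he0, heb⟩ := exists_idem n' (y * r) x z hy h1 h2
    exact ⟨e, b * y, he, he0, by rw [heb, mul_assoc]⟩
  haveI : IsSemisimpleRing (R ⧸ Ring.jacobson R) := isSemisimpleRing_of_gen (exists_gen h0 N hN)
  obtain ⟨k, D, d, _, hd, ⟨e⟩⟩ :=
    IsSemisimpleRing.exists_ringEquiv_pi_matrix_divisionRing (R ⧸ Ring.jacobson R)
  obtain ⟨n₁, m₁, a, K, hK, b, E, hE, ha, hb, hnc, ⟨g⟩⟩ :=
    exists_split_matrix D d (fun i => haveI := hd i; Nat.pos_of_neZero (d i))
  let e' : (R ⧸ Ring.jacobson R) ≃+* (∀ i, Matrix (Fin (a i)) (Fin (a i)) (K i)) ×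
      (∀ j, Matrix (Fin (b j)) (Fin (b j)) (E j)) := e.trans g
  have hfK : ∀ i, CharZero (K i) ∧ ∃ 𝓕 : Calc (K i), RC 𝓕 := fun i => by
    refine factor_facts 𝓔 hQS (ha i)
      (((Pi.evalRingHom (fun i => Matrix (Fin (a i)) (Fin (a i)) (K i)) i).comp
        (RingHom.fst (∀ i, Matrix (Fin (a i)) (Fin (a i)) (K i))
          (∀ j, Matrix (Fin (b j)) (Fin (b j)) (E j)))).comp e'.toRingHom)
      (fun x => ⟨e'.symm (Pi.single i x, 0), by simp⟩) (e'.symm (Pi.single i 1, 0)) (fun x => ?_)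
    constructor
    · intro h
      apply e'.injective
      rw [map_mul, RingEquiv.apply_symm_apply, map_zero]
      have h' : (e' x).1 i = 0 := h
      refine Prod.ext (funext fun l => ?_) ?_
      · by_cases hli : l = i
        · subst hli; simp [h']
        · simp [Pi.single_eq_of_ne hli]
      · simp
    · intro h
      have h' := congrArg e' h
      rw [map_mul, RingEquiv.apply_symm_apply, map_zero] at h'
      have h'' := congrFun (congrArg Prod.fst h') i
      simpa using h''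
  have hfE : ∀ j, CharZero (E j) ∧ ∃ 𝓕 : Calc (E j), RC 𝓕 := fun j => by
    refine factor_facts 𝓔 hQS (hb j)
      (((Pi.evalRingHom (fun j => Matrix (Fin (b j)) (Fin (b j)) (E j)) j).comp
        (RingHom.snd (∀ i, Matrix (Fin (a i)) (Fin (a i)) (K i))
          (∀ j, Matrix (Fin (b j)) (Fin (b j)) (E j)))).comp e'.toRingHom)
      (fun x => ⟨e'.symm (0, Pi.single j x), by simp⟩) (e'.symm (0, Pi.single j 1)) (fun x => ?_)
    constructor
    · intro h
      apply e'.injective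
      rw [map_mul, RingEquiv.apply_symm_apply, map_zero]
      have h' : (e' x).2 j = 0 := h
      refine Prod.ext ?_ (funext fun l => ?_)
      · simp
      · by_cases hlj : l = j
        · subst hlj; simp [h']
        · simp [Pi.single_eq_of_ne hlj]
    · intro h
      have h' := congrArg e' h
      rw [map_mul, RingEquiv.apply_symm_apply, map_zero] at h'
      have h'' := congrFun (congrArg Prod.snd h') j
      simpa using h''
  refine ⟨n₁, m₁, a, K, hK, b, E, hE, e'.toRingHom.comp (Ideal.Quotient.mk (Ring.jacobson R)),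
    fun i => ⟨ha i, (hfK i).1, ?_⟩, fun j => ⟨hb j, (hfE j).1, ?_⟩, ?_, 2 ^ n - 1, ?_⟩
  · obtain ⟨h0K, 𝓕, h𝓕⟩ := hfK i
    exact isAlgClosed_of_calc 𝓕
  · obtain ⟨h0E, 𝓕, h𝓕⟩ := hfE j
    exact cohnType_of_calc 𝓕 (hnc j)
  · exact e'.surjective.comp Ideal.Quotient.mk_surjective
  · intro x hx
    have hJ : ∀ i, x i ∈ Ring.jacobson R := fun i => by
      have h1 : e' (Ideal.Quotient.mk (Ring.jacobson R) (x i)) = 0 := hx i
      rw [map_eq_zero_iff _ e'.injective] at h1
      exact Ideal.Quotient.eq_zero_iff_mem.1 h1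
    have hid : IsIdl (Ring.jacobson R : Set R) :=
      ⟨(Ring.jacobson R).zero_mem, fun a ha b hb => (Ring.jacobson R).add_mem ha hb,
        fun r a ha => (Ring.jacobson R).mul_mem_left r ha,
        fun r a ha => (Ring.jacobson R).mul_mem_right r ha⟩
    have h0id : IsIdl ({0} : Set R) :=
      ⟨rfl, by rintro _ rfl _ rfl; simp, by rintro r _ rfl; simp, by rintro r _ rfl; simp⟩
    refine nagata_higman hQ hid n {0} h0id (fun r hr => ?_) (List.ofFn x) ?_ (by simp)
    · exact jac_nil n (fun r => ⟨_, (hn r).choose_spec.choose_spec.2⟩) r hr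
    · intro r hr
      obtain ⟨i, rfl⟩ := List.mem_ofFn.1 hr
      exact hJ i

end VCR
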