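import Pool.Agent.VCR.WeylB

/-!
# VCR-WeylC: a division ring of characteristic `0` with a calculus is commutative
-/

open Set

namespace VCR

universe v

/-- if `a * x - x * a = 1` then some `u` commutes with `a` and conjugates `x` to `x + a` -/
theorem weyl_conj {D : Type v} [DivisionRing D] [CharZero D] (𝓓 : Calc D) [RC 𝓓] (a x : D)
    (hax : a * x - x * a = 1) : ∃ u, u ≠ 0 ∧ u * a = a * u ∧ u * x = (x + a) * u := by
  obtain ⟨𝓔, hle, haE, hxE⟩ := exists_adj_two 𝓓 a x
  have : RC 𝓔 := RC.mono hle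
  obtain ⟨ι, hι⟩ : ∃ ι : Subring.center (cen ({a} : Set D)) →+* D,
      ι = (cen ({a} : Set D)).subtype.comp (Subring.center (cen ({a} : Set D))).subtype := ⟨_, rfl⟩
  have hinj : Function.Injective ι := ι.injective
  have hcoe : ∀ z, ι z = ((z : cen ({a} : Set D)) : D) := fun z => by rw [hι]; rfl
  have hr : ∀ z, z ∈ range ι ↔ a * z = z * a ∧ ∀ w, a * w = w * a → w * z = z * w := by
    intro z
    constructor
    · rintro ⟨z, rfl⟩
      rw [hcoe]
      refine ⟨(z : cen ({a} : Set D)).2 a rfl, fun w hw => ?_⟩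
      have h1 := Subring.mem_center_iff.1 z.2 ⟨w, fun b hb => by rw [mem_singleton_iff.1 hb]; exact hw⟩
      exact congrArg Subtype.val h1
    · rintro ⟨h1, h2⟩
      refine ⟨⟨⟨z, fun b hb => by rw [mem_singleton_iff.1 hb]; exact h1⟩,
        Subring.mem_center_iff.2 fun w => Subtype.ext (h2 w (w.2 a rfl))⟩, ?_⟩
      rw [hcoe]
  have hcomm : ∀ z z', z ∈ range ι → z' ∈ range ι → z * z' = z' * z := fun z z' h h' =>
    ((hr z').1 h').2 z ((hr z).1 h).1
  have hrd : DS 𝓔 (range ι) := by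
    have h1 : Dp 𝓔 (fun f : Unit → D => a * f () = f () * a ∧
        ∀ w, a * w = w * a → w * f () = f () * w) := by
      ((try unfold DS); (try unfold DF₁); (try unfold DF₂); (try unfold DR₂); repeat' first | assumption | exact Df.var _ | exact Df.zero | exact Df.one | exact Df.natCast _ | (refine DE.app ?_; first | assumption | exact DE.natCast _) | refine Df.add ?_ ?_ | refine Df.mul ?_ ?_ | refine Df.subt ?_ ?_ | refine Df.neg ?_ | refine Df.pow ?_ _ | refine Dp.const _ | refine Dp.not ?_ | refine Dp.eq ?_ ?_ | refine Dp.ne ?_ ?_ | refine Dp.and ?_ ?_ | refine Dp.or ?_ ?_ | refine Dp.iff ?_ ?_ | refine Dp.imp ?_ ?_ | (refine DS.app (by assumption) ?_) | refine Dp.ex ?_ | refine Dp.all ?_)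
    exact Dp.congr (fun f => (hr (f ())).symm) h1
  obtain ⟨𝓔₁, hRC₁, hDS, hDE⟩ := exists_calc_inj 𝓔 ι hinj hrd
  have := hRC₁
  have : CharZero (Subring.center (cen ({a} : Set D))) := by
    refine charZero_of_inj_zero fun n hn => ?_
    have h1 : ι (n : Subring.center (cen ({a} : Set D))) = 0 := by
      rw [hn, map_zero]
    rw [map_natCast] at h1
    exact_mod_cast h1
  have hax' : a * x = x * a + 1 := by
    rw [← hax]
    abel
  have har : a ∈ range ι := (hr a).2 ⟨rfl, fun w hw => hw.symm⟩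
  obtain ⟨α, hα⟩ := har
  have haz : ∀ n : ℕ, a ≠ n := by
    rintro n rfl
    rw [(Nat.cast_commute n x).eq, sub_self] at hax
    exact zero_ne_one hax
  let L : AddSubgroup (Subring.center (cen ({a} : Set D))) :=
    { carrier := {v | ∃ u, u ≠ 0 ∧ u ∈ range ι ∧ u * x = (x + ι v) * u}
      add_mem' := by
        rintro v v' ⟨u, hu0, hu, h1⟩ ⟨u', hu0', hu', h2⟩
        refine ⟨u * u', mul_ne_zero hu0 hu0', ?_, ?_⟩
        · obtain ⟨z, rfl⟩ := hu
          obtain ⟨z', rfl⟩ := hu'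
          exact ⟨z * z', map_mul _ _ _⟩
        · have h3 : u * ι v' = ι v' * u := hcomm _ _ hu ⟨v', rfl⟩
          calc u * u' * x = u * ((x + ι v') * u') := by rw [mul_assoc, h2]
            _ = (u * x + u * ι v') * u' := by rw [← mul_assoc, mul_add]
            _ = (x + ι (v + v')) * (u * u') := by
              rw [h1, h3, map_add]
              noncomm_ring
      zero_mem' := ⟨1, one_ne_zero, ⟨1, map_one _⟩, by rw [map_zero, add_zero, one_mul, mul_one]⟩
      neg_mem' := by
        rintro v ⟨u, hu0, hu, h1⟩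
        refine ⟨u⁻¹, inv_ne_zero hu0, ?_, ?_⟩
        · obtain ⟨z, rfl⟩ := hu
          exact ⟨z⁻¹, map_inv₀ _ _⟩
        · have h3 : u * ι v = ι v * u := hcomm _ _ hu ⟨v, rfl⟩
          have h4 : u * (u⁻¹ * x) = u * ((x + ι (-v)) * u⁻¹) := by
            rw [← mul_assoc, mul_inv_cancel₀ hu0, one_mul, ← mul_assoc, mul_add, h1, map_neg, mul_neg, h3]
            rw [show (x + ι v) * u + -(ι v * u) = x * u by noncomm_ring, mul_assoc,
              mul_inv_cancel₀ hu0, mul_one]
          exact mul_left_cancel₀ hu0 h4 }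
  have hLd : DS 𝓔₁ (L : Set (Subring.center (cen ({a} : Set D)))) := by
    refine hDS _ ?_
    have h1 : Dp 𝓔 (fun f : Unit → D => f () ∈ range ι ∧ ∃ u, u ≠ 0 ∧ u ∈ range ι ∧
        u * x = (x + f ()) * u) := by
      ((try unfold DS); (try unfold DF₁); (try unfold DF₂); (try unfold DR₂); repeat' first | assumption | exact Df.var _ | exact Df.zero | exact Df.one | exact Df.natCast _ | (refine DE.app ?_; first | assumption | exact DE.natCast _) | refine Df.add ?_ ?_ | refine Df.mul ?_ ?_ | refine Df.subt ?_ ?_ | refine Df.neg ?_ | refine Df.pow ?_ _ | refine Dp.const _ | refine Dp.not ?_ | refine Dp.eq ?_ ?_ | refine Dp.ne ?_ ?_ | refine Dp.and ?_ ?_ | refine Dp.or ?_ ?_ | refine Dp.iff ?_ ?_ | refine Dp.imp ?_ ?_ | (refine DS.app (by assumption) ?_) | refine Dp.ex ?_ | refine Dp.all ?_)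
    refine Dp.congr (fun f => ?_) h1
    constructor
    · rintro ⟨⟨v, hv⟩, u, hu0, hu, h2⟩
      exact ⟨v, ⟨u, hu0, hu, by rw [hv]; exact h2⟩, hv⟩
    · rintro ⟨v, ⟨u, hu0, hu, h2⟩, hv⟩
      exact ⟨⟨v, hv⟩, u, hu0, hu, by rw [← hv]; exact h2⟩
  have hmem := lam_mem 𝓔₁ L hLd α (fun n hn => haz n (by rw [← hα, hn, map_natCast])) fun n => by
    refine ⟨a - n, sub_ne_zero.2 (haz n), ⟨α - n, by rw [map_sub, hα, map_natCast]⟩, ?_⟩
    rw [map_inv₀, map_sub, hα, map_natCast, add_mul, inv_mul_cancel₀ (sub_ne_zero.2 (haz n)), sub_mul,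
      mul_sub, hax', (Nat.cast_commute n x).eq]
    abel
  obtain ⟨u, hu0, hu, h1⟩ := hmem
  rw [hα] at h1
  exact ⟨u, hu0, ((hr u).1 hu).1.symm, h1⟩

/-- `a` and `-a` are not conjugate -/
theorem not_conj_neg {D : Type v} [DivisionRing D] [CharZero D] (𝓓 : Calc D) [RC 𝓓] (a y : D)
    (ha : a ≠ 0) (hy : y ≠ 0) : y * a ≠ -a * y := by
  intro h
  have hs : (y * y) * a = a * (y * y) := by
    rw [mul_assoc, h, ← mul_assoc, mul_neg, h]
    noncomm_ring
  have hac := isAlgClosed_center_cen 𝓓 (y * y) (y * y)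
  have hmy : y ∈ cen ({y * y, y * y} : Set D) := by
    intro b hb
    simp only [mem_insert_iff, mem_singleton_iff, or_self] at hb
    rw [hb, mul_assoc]
  have hma : a ∈ cen ({y * y, y * y} : Set D) := by
    intro b hb
    simp only [mem_insert_iff, mem_singleton_iff, or_self] at hb
    rw [hb, hs]
  have hms : y * y ∈ cen ({y * y, y * y} : Set D) := mul_mem hmy hmy
  obtain ⟨r, hr⟩ := IsAlgClosed.exists_eq_mul_self
    (⟨⟨y * y, hms⟩, Subring.mem_center_iff.2 fun w => Subtype.ext (w.2 (y * y) (by simp)).symm⟩ :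
      Subring.center (cen ({y * y, y * y} : Set D)))
  have hr1 : y * y = ((r : cen ({y * y, y * y} : Set D)) : D) * ((r : cen ({y * y, y * y} : Set D)) : D) := by
    have h1 := congrArg (fun z : Subring.center (cen ({y * y, y * y} : Set D)) =>
      ((z : cen ({y * y, y * y} : Set D)) : D)) hr
    exact h1
  have hry : y * ((r : cen ({y * y, y * y} : Set D)) : D) = ((r : cen ({y * y, y * y} : Set D)) : D) * y :=
    congrArg Subtype.val (Subring.mem_center_iff.1 r.2 ⟨y, hmy⟩)
  have hra : a * ((r : cen ({y * y, y * y} : Set D)) : D) = ((r : cen ({y * y, y * y} : Set D)) : D) * a :=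
    congrArg Subtype.val (Subring.mem_center_iff.1 r.2 ⟨a, hma⟩)
  obtain ⟨ρ, hρ⟩ : ∃ ρ : D, ρ = ((r : cen ({y * y, y * y} : Set D)) : D) := ⟨_, rfl⟩
  rw [← hρ] at hr1 hry hra
  have h2 : (y - ρ) * (y + ρ) = 0 := by
    rw [sub_mul, mul_add, mul_add, hr1, hry]
    abel
  have hya : y * a = a * y := by
    rcases mul_eq_zero.1 h2 with h3 | h3
    · rw [sub_eq_zero.1 h3, hra]
    · rw [eq_neg_of_add_eq_zero_left h3, neg_mul, mul_neg, hra]
  rw [hya] at h
  have h4 : (2 : D) * (a * y) = 0 := by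
    rw [two_mul]
    nth_rewrite 1 [h]
    rw [neg_mul, neg_add_cancel]
  rcases mul_eq_zero.1 h4 with h5 | h5
  · exact two_ne_zero h5
  · rcases mul_eq_zero.1 h5 with h6 | h6
    · exact ha h6
    · exact hy h6

/-- Wagner's question: a division ring of characteristic `0` with a calculus is commutative -/
theorem comm_of_calc {D : Type v} [DivisionRing D] [CharZero D] (𝓓 : Calc D) [RC 𝓓] (x y : D) :
    x * y = y * x := by
  by_contra hxy
  obtain ⟨t, ht⟩ := one_mem_ad 𝓓 x y hxy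
  obtain ⟨u, hu0, hua, hux⟩ := weyl_conj 𝓓 y t ht
  obtain ⟨w, hw0, hwx, hwa⟩ := weyl_conj 𝓓 t (-y) (by rw [mul_neg, neg_mul, ← ht]; abel)
  have hy0 : y ≠ 0 := by
    rintro rfl
    rw [zero_mul, mul_zero, sub_self] at ht
    exact zero_ne_one ht
  have hwa' : w * y = (y - t) * w := by
    have h1 : w * y = -(w * -y) := by rw [mul_neg, neg_neg]
    rw [h1, hwa]
    noncomm_ring
  have h1 : SemiconjBy (u * w) y (-t) := by
    show u * w * y = -t * (u * w)
    rw [mul_assoc, hwa', ← mul_assoc, mul_sub, hua, hux]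
    noncomm_ring
  have h2 : SemiconjBy (u * w) t (t + y) := by
    show u * w * t = (t + y) * (u * w)
    rw [mul_assoc, hwx, ← mul_assoc, hux, mul_assoc]
  have h3 : SemiconjBy (u * w * (u * w)) y (-(t + y)) := h2.neg_right.mul_left h1
  have h4 : SemiconjBy (u * w * (u * w * (u * w))) y (-(t + y + -t)) :=
    ((h2.add_right h1).neg_right).mul_left h3
  rw [add_neg_cancel_comm] at h4
  exact not_conj_neg 𝓓 y _ hy0
    (mul_ne_zero (mul_ne_zero hu0 hw0) (mul_ne_zero (mul_ne_zero hu0 hw0) (mul_ne_zero hu0 hw0))) h4.eq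

end VCR
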