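import Pool.Agent.VCR.Fim
import Pool.Agent.VCR.WeylC
import Pool.Agent.VCR.DefsB

/-!
# VCR-FimB: torsion-free rings with a calculus are semiprimary, with algebraically closed coefficient fields
-/

open Set

namespace VCR

universe v w

theorem decomp_acf {R : Type v} [Ring R] (𝓓 : Calc R) [RC 𝓓]
    (htf : ∀ (n : ℕ) (x : R), n ≠ 0 → n • x = 0 → x = 0) : IsAcfSemiprimary R := by
  classical
  obtain ⟨n, hn⟩ := exists_pireg 𝓓
  have hQ := unit_of_pireg n (fun r => (hn r).imp fun x hx => hx.choose_spec.1) htf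
  obtain ⟨𝓔, h𝓔⟩ := exists_calc_jac 𝓓
  have hQS : ∀ m : ℕ, m ≠ 0 → IsUnit (m : R ⧸ Ring.jacobson R) := fun m hm => by
    have := (hQ m hm).map (Ideal.Quotient.mk (Ring.jacobson R))
    rwa [map_natCast] at this
  obtain ⟨N, hN⟩ := exists_bound' 𝓔 hQS
  obtain ⟨n', hn'⟩ := exists_pireg 𝓔
  have h0 : ∀ r : R ⧸ Ring.jacobson R, r ≠ 0 → ∃ e y, e * e = e ∧ e ≠ 0 ∧ e = y * r := by
    intro r hr
    have h1 : ∃ y, ¬ IsNilpotent (y * r) := by
      by_contra h
      push Not at h
      exact hr (eq_zero_of_nil (Ring.jacobson_quotient_jacobson R) r h)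
    obtain ⟨y, hy⟩ := h1
    obtain ⟨x, z, h1, h2⟩ := hn' (y * r)
    obtain ⟨e, b, he, he0, heb⟩ := exists_idem n' (y * r) x z hy h1 h2
    exact ⟨e, b * y, he, he0, by rw [heb, mul_assoc]⟩
  have : IsSemisimpleRing (R ⧸ Ring.jacobson R) := isSemisimpleRing_of_gen (exists_gen h0 N hN)
  obtain ⟨k, D, d, _, hd, ⟨e⟩⟩ :=
    IsSemisimpleRing.exists_ringEquiv_pi_matrix_divisionRing (R ⧸ Ring.jacobson R)
  have hd0 : ∀ i, 0 < d i := fun i => by
    have := hd i
    exact Nat.pos_of_neZero (d i)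
  have hfD : ∀ i, CharZero (D i) ∧ ∃ 𝓕 : Calc (D i), RC 𝓕 := fun i => by
    refine factor_facts 𝓔 hQS (hd0 i)
      ((Pi.evalRingHom (fun i => Matrix (Fin (d i)) (Fin (d i)) (D i)) i).comp e.toRingHom)
      (fun x => ⟨e.symm (Pi.single i x), by simp⟩) (e.symm (Pi.single i 1)) (fun x => ?_)
    constructor
    · intro h
      apply e.injective
      rw [map_mul, RingEquiv.apply_symm_apply, map_zero]
      have h' : e x i = 0 := h
      refine funext fun l => ?_
      by_cases hli : l = i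
      · subst hli; simp [h']
      · simp [Pi.single_eq_of_ne hli]
    · intro h
      have h' := congrArg e h
      rw [map_mul, RingEquiv.apply_symm_apply, map_zero] at h'
      have h'' := congrFun h' i
      simpa using h''
  have hcomm : ∀ i (x y : D i), x * y = y * x := fun i x y => by
    obtain ⟨h0D, 𝓕, h𝓕⟩ := hfD i
    exact comm_of_calc 𝓕 x y
  let hF : ∀ i, Field (D i) := fun i =>
    { (inferInstance : DivisionRing (D i)) with mul_comm := hcomm i }
  refine ⟨k, d, D, hF, e.toRingHom.comp (Ideal.Quotient.mk (Ring.jacobson R)), fun i =>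
    ⟨hd0 i, (hfD i).1, ?_⟩, ?_, 2 ^ n - 1, ?_⟩
  · obtain ⟨h0D, 𝓕, h𝓕⟩ := hfD i
    exact isAlgClosed_of_calc (K := D i) 𝓕
  · exact e.surjective.comp Ideal.Quotient.mk_surjective
  · intro x hx
    have hJ : ∀ i, x i ∈ Ring.jacobson R := fun i => by
      have h1 : e (Ideal.Quotient.mk (Ring.jacobson R) (x i)) = 0 := hx i
      rw [map_eq_zero_iff _ e.injective] at h1
      exact Ideal.Quotient.eq_zero_iff_mem.1 h1
    have hid : IsIdl (Ring.jacobson R : Set R) :=
      ⟨(Ring.jacobson R).zero_mem, fun a ha b hb => (Ring.jacobson R).add_mem ha hb,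
        fun r a ha => (Ring.jacobson R).mul_mem_left r ha,
        fun r a ha => (Ring.jacobson R).mul_mem_right r ha⟩
    have h0id : IsIdl ({0} : Set R) :=
      ⟨rfl, by rintro _ rfl _ rfl; simp, by rintro r _ rfl; simp, by rintro r _ rfl; simp⟩
    refine nagata_higman hQ hid n {0} h0id (fun r hr => ?_) (List.ofFn x) ?_ (by simp)
    · exact jac_nil n (fun r => ⟨_, (hn r).choose_spec.choose_spec.2⟩) r hr
    · intro r hr
      obtain ⟨i, rfl⟩ := List.mem_ofFn.1 hr
      exact hJ i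

end VCR
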