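import Pool.Agent.VCR.TreeA
import Pool.Agent.VCR.Adj

/-!
# VCR-RegA: reduced rings with a calculus are strongly regular

Otherwise the two maps `z ↦ r * z` and `z ↦ r * z + r` of `r * R` have disjoint ranges.
-/

open Set

namespace VCR

universe v

theorem exists_reg {R : Type v} [Ring R] (𝓓 : Calc R) [RC 𝓓] (hred : ∀ x : R, x * x = 0 → x = 0)
    (r : R) : ∃ x, r = r * r * x := by
  have hcomm : ∀ a b : R, a * b = 0 → b * a = 0 := by
    intro a b hab
    refine hred _ ?_
    have h1 : b * a * (b * a) = b * (a * b) * a := by noncomm_ring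
    rw [h1, hab]
    simp
  have hcan : ∀ u : R, r * r * u = 0 → r * u = 0 := by
    intro u hu
    have h1 : r * (r * u) = 0 := by rw [← mul_assoc]; exact hu
    have h2 : r * u * r = 0 := hcomm _ _ h1
    refine hred _ ?_
    have h3 : r * u * (r * u) = r * u * r * u := by noncomm_ring
    rw [h3, h2]
    simp
  by_contra hx
  obtain ⟨𝓔, hle, hr⟩ := exists_adj_one 𝓓 r
  have : RC 𝓔 := RC.mono hle
  have hinj : ∀ z ∈ {z : R | ∃ x, z = r * x}, ∀ w ∈ {z : R | ∃ x, z = r * x},
      r * z = r * w → z = w := by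
    rintro z ⟨x, rfl⟩ w ⟨y, rfl⟩ h
    have h1 : r * r * (x - y) = 0 := by
      rw [mul_sub, mul_assoc, mul_assoc, h, sub_self]
    have h2 := hcan _ h1
    rw [mul_sub] at h2
    exact sub_eq_zero.1 h2
  refine no_two_maps 𝓔 {z : R | ∃ x, z = r * x} ⟨r * 0, 0, rfl⟩ ?_ (fun z => r * z)
    (fun z => r * z + r) ?_ ?_ ?_ ?_ ?_ ?_ ?_
  · exact Dp.ex (Dp.eq (Df.var (some ())) (Df.mul (DE.app hr) (Df.var none)))
  · exact Df.mul (DE.app hr) (Df.var ())
  · exact Df.add (Df.mul (DE.app hr) (Df.var ())) (DE.app hr)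
  · intro z hz w hw h
    exact hinj z hz w hw h
  · intro z hz w hw h
    exact hinj z hz w hw (add_right_cancel h)
  · intro z hz
    exact ⟨z, rfl⟩
  · intro z hz
    exact ⟨z + 1, by simp [mul_add]⟩
  · rintro z ⟨x, rfl⟩ w ⟨y, rfl⟩ h
    refine hx ⟨x - y, ?_⟩
    have h1 : r * (r * x) = r * (r * y) + r := h
    rw [mul_sub, mul_assoc, mul_assoc, h1]
    abel

end VCR
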