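import Mathlib

/-!
# VCR-RegB: strongly regular reduced rings
-/

open Set

namespace VCR

universe v

theorem unit_of_reg {R : Type v} [Ring R] (hreg : ∀ r : R, ∃ x, r = r * r * x)
    (htf : ∀ (n : ℕ) (x : R), n ≠ 0 → n • x = 0 → x = 0) (n : ℕ) (hn : n ≠ 0) :
    IsUnit (n : R) := by
  obtain ⟨x, hx⟩ := hreg (n : R)
  have h1 : n • (1 - (n : R) * x) = 0 := by
    rw [nsmul_eq_mul, mul_sub, mul_one, ← mul_assoc, ← hx, sub_self]
  have h2 : (n : R) * x = 1 := (sub_eq_zero.1 (htf n _ hn h1)).symm
  have h3 : x * (n : R) = 1 := by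
    rw [← (Nat.cast_commute n x).eq, h2]
  exact ⟨⟨(n : R), x, h2, h3⟩, rfl⟩

theorem idem_central {R : Type v} [Ring R] (hred : ∀ x : R, x * x = 0 → x = 0) (e : R)
    (he : e * e = e) (r : R) : e * r = r * e := by
  have h1 : e * r * (1 - e) = 0 := by
    apply hred
    have h0 : (1 - e) * e = 0 := by
      rw [sub_mul, one_mul, he, sub_self]
    calc e * r * (1 - e) * (e * r * (1 - e)) = e * r * ((1 - e) * e) * (r * (1 - e)) := by
          simp only [mul_assoc]
      _ = 0 := by rw [h0, mul_zero, zero_mul]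
  have h2 : (1 - e) * r * e = 0 := by
    apply hred
    have h0 : e * (1 - e) = 0 := by
      rw [mul_sub, mul_one, he, sub_self]
    calc (1 - e) * r * e * ((1 - e) * r * e) = (1 - e) * r * (e * (1 - e)) * (r * e) := by
          simp only [mul_assoc]
      _ = 0 := by rw [h0, mul_zero, zero_mul]
  rw [mul_sub, mul_one, sub_eq_zero] at h1
  rw [sub_mul, one_mul, sub_mul, sub_eq_zero] at h2
  rw [h1, h2]

theorem reg_comm {R : Type v} [Ring R] (hred : ∀ x : R, x * x = 0 → x = 0)
    (hreg : ∀ r : R, ∃ x, r = r * r * x) (r : R) : ∃ x, r * x * r = r ∧ r * x = x * r := by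
  obtain ⟨x, hx⟩ := hreg r
  have h1 : r * (1 - r * x) = 0 := by
    rw [mul_sub, mul_one, ← mul_assoc, ← hx, sub_self]
  have h2 : (1 - r * x) * r = 0 := by
    apply hred
    calc (1 - r * x) * r * ((1 - r * x) * r) = (1 - r * x) * (r * (1 - r * x)) * r := by
          simp only [mul_assoc]
      _ = 0 := by rw [h1, mul_zero, zero_mul]
  have h3 : r * x * r = r := by
    rw [sub_mul, one_mul, sub_eq_zero] at h2
    exact h2.symm
  have he : (r * x) * (r * x) = r * x := by
    rw [← mul_assoc, h3]
  have hf : (x * r) * (x * r) = x * r := by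
    calc (x * r) * (x * r) = x * (r * x * r) := by simp only [mul_assoc]
      _ = x * r := by rw [h3]
  have ce := idem_central hred (r * x) he
  have cf := idem_central hred (x * r) hf
  refine ⟨x, h3, ?_⟩
  have h4 : r * x = (r * x) * (x * r) := by
    calc r * x = (r * x * r) * x := by rw [h3]
      _ = r * ((x * r) * x) := by simp only [mul_assoc]
      _ = r * (x * (x * r)) := by rw [cf x]
      _ = (r * x) * (x * r) := by simp only [mul_assoc]
  have h5 : x * r = (x * r) * (r * x) := by
    calc x * r = x * (r * x * r) := by rw [h3]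
      _ = x * (r * (r * x)) := by rw [ce r]
      _ = (x * r) * (r * x) := by simp only [mul_assoc]
  exact h4.trans ((ce (x * r)).trans h5.symm)

end VCR
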