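import Mathlib

/-!
# VCR-Spl: separating the commutative factors of a finite product of division rings
-/

open Set

namespace VCR

universe v

theorem exists_split {R : Type v} [Ring R] (N : ℕ) (D : Fin N → Type v)
    [∀ i, DivisionRing (D i)] (e : R ≃+* ∀ i, D i) :
    ∃ (n m : ℕ) (K : Fin n → Type v) (_ : ∀ i, Field (K i)) (E : Fin m → Type v)
      (_ : ∀ j, DivisionRing (E j)), (∀ j, ∃ a b : E j, a * b ≠ b * a) ∧
      Nonempty (R ≃+* (∀ i, K i) × (∀ j, E j)) := by
  classical
  let P : Fin N → Prop := fun i => ∀ a b : D i, a * b = b * a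
  let eA : Fin (Fintype.card {i // P i}) ≃ {i // P i} := (Fintype.equivFin _).symm
  let eB : Fin (Fintype.card {i // ¬ P i}) ≃ {i // ¬ P i} := (Fintype.equivFin _).symm
  refine ⟨Fintype.card {i // P i}, Fintype.card {i // ¬ P i}, fun i => D (eA i).1,
    fun i => { (inferInstance : DivisionRing (D (eA i).1)) with mul_comm := (eA i).2 },
    fun j => D (eB j).1, fun j => inferInstance, ?_, ?_⟩
  · intro j
    have h := (eB j).2
    by_contra hcon
    apply h
    intro a b
    by_contra hab
    exact hcon ⟨a, b, hab⟩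
  · let F : (∀ i, D i) ≃ (∀ i, D (eA i).1) × (∀ j, D (eB j).1) :=
      (Equiv.piEquivPiSubtypeProd P D).trans
        (Equiv.prodCongr (Equiv.piCongrLeft (fun a : {i // P i} => D a.1) eA).symm
          (Equiv.piCongrLeft (fun a : {i // ¬ P i} => D a.1) eB).symm)
    exact ⟨e.trans { F with
      map_mul' := fun _ _ => rfl
      map_add' := fun _ _ => rfl }⟩

end VCR
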