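import Pool.Agent.VCR.DivB
import Pool.Agent.VCR.RegA
import Pool.Agent.VCR.RegB
import Pool.Agent.VCR.Idm
import Pool.Agent.VCR.Dec
import Pool.Agent.VCR.Spl

/-!
# VCR-Fin: reduced torsion-free rings with a calculus
-/

open Set

namespace VCR

universe v w

theorem exists_calc_factor {R : Type v} {S : Type w} [Ring R] [Ring S] (𝓓 : Calc R) [RC 𝓓]
    (f : R →+* S) (hf : Function.Surjective f) (c : R) (hc : ∀ x, f x = 0 ↔ x * c = 0) :
    ∃ 𝓔 : Calc S, RC 𝓔 := by
  obtain ⟨𝓔, hle, hcE⟩ := exists_adj_one 𝓓 c
  haveI : RC 𝓔 := RC.mono hle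
  refine exists_calc_surj 𝓔 f hf ?_
  have : {x | f x = 0} = {x | x * c = 0} := by ext x; exact hc x
  rw [this]
  ((try unfold DS); (try unfold DF₁); (try unfold DF₂); (try unfold DR₂); repeat' first | assumption | exact Df.var _ | exact Df.zero | exact Df.one | exact Df.natCast _ | (refine DE.app ?_; first | assumption | exact DE.natCast _) | refine Df.add ?_ ?_ | refine Df.mul ?_ ?_ | refine Df.subt ?_ ?_ | refine Df.neg ?_ | refine Df.pow ?_ _ | refine Df.sum _ (fun _ _ => ?_) | (refine DF₁.app (by assumption) ?_) | (refine DF₂.app (by assumption) ?_ ?_) | refine Dp.const _ | refine Dp.not ?_ | refine Dp.eq ?_ ?_ | refine Dp.ne ?_ ?_ | refine Dp.and ?_ ?_ | refine Dp.or ?_ ?_ | refine Dp.iff ?_ ?_ | refine Dp.imp ?_ ?_ | (refine DS.app (by assumption) ?_) | (refine DR₂.app (by assumption) ?_ ?_) | refine Dp.isUnit ?_ | refine Dp.ball _ (fun _ _ => ?_) | refine Dp.ex ?_ | refine Dp.all ?_ | refine Dp.allfin (fun _ => ?_) | refine Dp.exfin (fun _ => ?_))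

theorem decomp_of_calc {R : Type v} [Ring R] (𝓓 : Calc R) [RC 𝓓]
    (hred : ∀ x : R, x * x = 0 → x = 0)
    (htf : ∀ (n : ℕ) (x : R), n ≠ 0 → n • x = 0 → x = 0) :
    ∃ (n m : ℕ) (K : Fin n → Type v) (_ : ∀ i, Field (K i)) (E : Fin m → Type v)
      (_ : ∀ j, DivisionRing (E j)), (∀ i, CharZero (K i) ∧ IsAlgClosed (K i)) ∧
      (∀ j, CharZero (E j) ∧ CohnType (E j)) ∧
      Nonempty (R ≃+* (∀ i, K i) × (∀ j, E j)) := by
  classical
  have hreg := exists_reg 𝓓 hred
  have hcen := idem_central hred
  obtain ⟨N, hN⟩ := exists_bound 𝓓 (unit_of_reg hreg htf) (fun e he r => hcen e he r)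
  obtain ⟨n₀, D, _, ⟨e₀⟩⟩ := exists_decomp (fun e he r => hcen e he r) (reg_comm hred hreg) N hN
  obtain ⟨n, m, K, hK, E, hE, hnc, ⟨e⟩⟩ := exists_split n₀ D e₀
  have h0K : ∀ i, CharZero (K i) := fun i => by
    refine charZero_of_inj_zero fun k hk => ?_
    by_contra hk0
    have h1 := htf k (e.symm (Pi.single i 1, 0)) hk0 (by
      rw [← map_nsmul, Prod.smul_mk, smul_zero, ← Pi.single_smul, nsmul_eq_mul, hk, zero_mul,
        Pi.single_zero]
      simp)
    have h2 := congrArg e h1
    simp only [RingEquiv.apply_symm_apply, map_zero, Prod.mk_eq_zero, and_true] at h2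
    have h3 := congrFun h2 i
    simp at h3
  have h0E : ∀ j, CharZero (E j) := fun j => by
    refine charZero_of_inj_zero fun k hk => ?_
    by_contra hk0
    have h1 := htf k (e.symm (0, Pi.single j 1)) hk0 (by
      rw [← map_nsmul, Prod.smul_mk, smul_zero, ← Pi.single_smul, nsmul_eq_mul, hk, zero_mul,
        Pi.single_zero]
      simp)
    have h2 := congrArg e h1
    simp only [RingEquiv.apply_symm_apply, map_zero, Prod.mk_eq_zero, true_and] at h2
    have h3 := congrFun h2 j
    simp at h3
  refine ⟨n, m, K, hK, E, hE, fun i => ⟨h0K i, ?_⟩, fun j => ⟨h0E j, ?_⟩, ⟨e⟩⟩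
  · obtain ⟨𝓔, h𝓔⟩ := exists_calc_factor 𝓓
      (((Pi.evalRingHom K i).comp (RingHom.fst (∀ i, K i) (∀ j, E j))).comp e.toRingHom)
      (fun x => ⟨e.symm (Pi.single i x, 0), by simp⟩) (e.symm (Pi.single i 1, 0)) (fun x => by
        constructor
        · intro h
          apply e.injective
          rw [map_mul, RingEquiv.apply_symm_apply, map_zero]
          have h' : (e x).1 i = 0 := h
          ext k
          · by_cases hki : k = i
            · subst hki; simp [h']
            · simp [Pi.single_eq_of_ne hki]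
          · simp
        · intro h
          have h' := congrArg e h
          rw [map_mul, RingEquiv.apply_symm_apply, map_zero] at h'
          have h'' := congrFun (congrArg Prod.fst h') i
          simpa using h'')
    haveI := h0K i
    exact isAlgClosed_of_calc 𝓔
  · obtain ⟨𝓔, h𝓔⟩ := exists_calc_factor 𝓓
      (((Pi.evalRingHom E j).comp (RingHom.snd (∀ i, K i) (∀ j, E j))).comp e.toRingHom)
      (fun x => ⟨e.symm (0, Pi.single j x), by simp⟩) (e.symm (0, Pi.single j 1)) (fun x => by
        constructor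
        · intro h
          apply e.injective
          rw [map_mul, RingEquiv.apply_symm_apply, map_zero]
          have h' : (e x).2 j = 0 := h
          ext k
          · simp
          · by_cases hki : k = j
            · subst hki; simp [h']
            · simp [Pi.single_eq_of_ne hki]
        · intro h
          have h' := congrArg e h
          rw [map_mul, RingEquiv.apply_symm_apply, map_zero] at h'
          have h'' := congrFun (congrArg Prod.snd h') j
          simpa using h'')
    haveI := h0E j
    exact cohnType_of_calc 𝓔 (hnc j)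

end VCR
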