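import Pool.Agent.VCR.TreeB
import Pool.Agent.VCR.Adj

/-!
# VCR-Fit: Fitting lemma for definable additive endomorphisms
-/

open Set

namespace VCR

universe v

/-- the ranges of the iterates -/
private def rg {R : Type v} [Ring R] (T : R →+ R) : ℕ → AddSubgroup R
  | 0 => ⊤
  | n + 1 => (rg T n).map T

private theorem mem_rg {R : Type v} [Ring R] (T : R →+ R) (n : ℕ) :
    ∀ x : R, x ∈ rg T n ↔ ∃ y, T^[n] y = x := by
  induction n with
  | zero =>
    intro x
    constructor
    · intro _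
      exact ⟨x, rfl⟩
    · intro _
      exact AddSubgroup.mem_top x
  | succ n ih =>
    intro x
    show x ∈ (rg T n).map T ↔ _
    rw [AddSubgroup.mem_map]
    constructor
    · rintro ⟨y, hy, rfl⟩
      obtain ⟨w, rfl⟩ := (ih y).1 hy
      exact ⟨w, Function.iterate_succ_apply' _ _ _⟩
    · rintro ⟨w, rfl⟩
      exact ⟨T^[n] w, (ih _).2 ⟨w, rfl⟩, (Function.iterate_succ_apply' _ _ _).symm⟩

private theorem rg_le {R : Type v} [Ring R] (T : R →+ R) (n : ℕ) : rg T (n + 1) ≤ rg T n := by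
  induction n with
  | zero => exact le_top
  | succ n ih => exact AddSubgroup.map_mono ih

theorem exists_fit {R : Type v} [Ring R] (𝓓 : Calc R) [RC 𝓓] (T : R →+ R) (hT : DF₁ 𝓓 T) (z : R) :
    ∃ (w u : R) (n : ℕ), z = T w + u ∧ T^[n] u = 0 := by
  obtain ⟨𝓔, h, hz⟩ := exists_adj_one 𝓓 z
  have : RC 𝓔 := RC.mono h
  have hT' : DF₁ 𝓔 T := DF₁.mono h hT
  by_contra hcon
  push Not at hcon
  have hV : ∀ n, DS 𝓔 (rg T n : Set R) := by
    intro n
    induction n with
    | zero =>
      exact Dp.congr (fun f => ⟨fun _ => AddSubgroup.mem_top _, fun _ => trivial⟩)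
        (Dp.true (𝓓 := 𝓔) (α := Unit))
    | succ n ih =>
      have h1 : Dp 𝓔 (fun f : Unit → R => ∃ y ∈ (rg T n : Set R), T y = f ()) := by
        refine DS.exs ih (Q := fun y (f : Unit → R) => T y = f ()) ?_
        exact Dp.eq (DF₁.app hT' (Df.var none)) (Df.var (some ()))
      refine Dp.congr (fun f => ?_) h1
      show _ ↔ f () ∈ (rg T n).map T
      rw [AddSubgroup.mem_map]
      rfl
  have hb : ∀ n, DE 𝓔 (T^[n] z) := by
    intro n
    induction n with
    | zero => exact hz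
    | succ n ih =>
      have h1 : Df 𝓔 (fun _ : Empty → R => T (T^[n] z)) := DF₁.app hT' ih
      rw [Function.iterate_succ_apply']
      exact h1
  refine no_add_chain 𝓔 (rg T) hV (rg_le T) (fun n => T^[n] z) hb
    (fun n => (mem_rg T n _).2 ⟨z, rfl⟩) (fun n hn => ?_)
  obtain ⟨w, hw⟩ := (mem_rg T (n + 1) _).1 hn
  rw [Function.iterate_succ_apply] at hw
  refine hcon w (z - T w) n (by abel) ?_
  rw [iterate_map_sub, hw, sub_self]

theorem surj_of_inj {R : Type v} [Ring R] (𝓓 : Calc R) [RC 𝓓] (T : R →+ R) (hT : DF₁ 𝓓 T)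
    (hi : Function.Injective T) : Function.Surjective T := by
  intro z
  obtain ⟨w, u, n, hz, hu⟩ := exists_fit 𝓓 T hT z
  have h0 : T^[n] (0 : R) = 0 := iterate_map_zero T n
  have hu0 : u = 0 := (hi.iterate n) (by rw [hu, h0])
  exact ⟨w, by rw [hz, hu0, add_zero]⟩

end VCR
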