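import Pool.Agent.VCR.Calc

/-!
# VCR-Fo: first order API for calculi
-/

namespace VCR

universe u v w

variable {X : Type v} {𝓓 𝓔 : Calc X} {α β : Type}

theorem Dp.mono [Finite α] (h : 𝓓 ≤ 𝓔) {Q : (α → X) → Prop} (hQ : Dp 𝓓 Q) : Dp 𝓔 Q := h _ hQ
theorem Df.mono [Finite α] (h : 𝓓 ≤ 𝓔) {t : (α → X) → X} (ht : Df 𝓓 t) : Df 𝓔 t := h _ ht
theorem DS.mono (h : 𝓓 ≤ 𝓔) {V : Set X} (hV : DS 𝓓 V) : DS 𝓔 V := h _ hV
theorem DE.mono (h : 𝓓 ≤ 𝓔) {x : X} (hx : DE 𝓓 x) : DE 𝓔 x := h _ hx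
theorem DF₁.mono (h : 𝓓 ≤ 𝓔) {T : X → X} (hT : DF₁ 𝓓 T) : DF₁ 𝓔 T := h _ hT
theorem DF₂.mono (h : 𝓓 ≤ 𝓔) {T : X → X → X} (hT : DF₂ 𝓓 T) : DF₂ 𝓔 T := h _ hT
theorem DR₂.mono (h : 𝓓 ≤ 𝓔) {Q : X → X → Prop} (hQ : DR₂ 𝓓 Q) : DR₂ 𝓔 Q := h _ hQ
theorem Calc.le_refl (𝓓 : Calc X) : 𝓓 ≤ 𝓓 := fun _ _ _ h => h
theorem Calc.le_trans {𝓓 𝓔 𝓕 : Calc X} (h : 𝓓 ≤ 𝓔) (h' : 𝓔 ≤ 𝓕) : 𝓓 ≤ 𝓕 :=
  fun _ _ _ hS => h' _ (h _ hS)
theorem RC.mono {R : Type v} [Ring R] {𝓓 𝓔 : Calc R} (h : 𝓓 ≤ 𝓔) [RC 𝓓] : RC 𝓔 :=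
  ⟨DF₂.mono h RC.add, DF₂.mono h RC.mul⟩

theorem Dp.congr {Q Q' : (α → X) → Prop} (h : ∀ f, Q f ↔ Q' f) (hQ : Dp 𝓓 Q) : Dp 𝓓 Q' := by
  have : Q = Q' := funext fun f => propext (h f)
  rwa [← this]

theorem Df.congr {t t' : (α → X) → X} (h : ∀ f, t f = t' f) (ht : Df 𝓓 t) : Df 𝓓 t' := by
  have : t = t' := funext h
  rwa [← this]

theorem Dp.and [Finite α] {Q Q' : (α → X) → Prop} (h : Dp 𝓓 Q) (h' : Dp 𝓓 Q') :
    Dp 𝓓 (fun f => Q f ∧ Q' f) := 𝓓.inter h h'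

theorem Dp.not [Finite α] {Q : (α → X) → Prop} (h : Dp 𝓓 Q) : Dp 𝓓 (fun f => ¬ Q f) :=
  𝓓.compl h

theorem Dp.true [Finite α] : Dp 𝓓 (fun _ : α → X => True) := 𝓓.univ

theorem Dp.or [Finite α] {Q Q' : (α → X) → Prop} (h : Dp 𝓓 Q) (h' : Dp 𝓓 Q') :
    Dp 𝓓 (fun f => Q f ∨ Q' f) :=
  Dp.congr (fun f => by tauto) (h.not.and h'.not).not

theorem Dp.imp [Finite α] {Q Q' : (α → X) → Prop} (h : Dp 𝓓 Q) (h' : Dp 𝓓 Q') :
    Dp 𝓓 (fun f => Q f → Q' f) :=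
  Dp.congr (fun f => by tauto) (h.and h'.not).not

theorem Dp.iff [Finite α] {Q Q' : (α → X) → Prop} (h : Dp 𝓓 Q) (h' : Dp 𝓓 Q') :
    Dp 𝓓 (fun f => Q f ↔ Q' f) :=
  Dp.congr (fun f => by tauto) ((h.imp h').and (h'.imp h))

theorem Dp.const [Finite α] (p : Prop) : Dp 𝓓 (fun _ : α → X => p) := by
  by_cases hp : p
  · exact Dp.congr (fun _ => by simp [hp]) (Dp.true (𝓓 := 𝓓) (α := α))
  · exact Dp.congr (fun _ => by simp [hp]) (Dp.true (𝓓 := 𝓓) (α := α)).not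

theorem Dp.preim [Finite α] [Finite β] (σ : α → β) {Q : (α → X) → Prop} (h : Dp 𝓓 Q) :
    Dp 𝓓 (fun f : β → X => Q (f ∘ σ)) := 𝓓.preim σ h

theorem Dp.im [Finite α] [Finite β] (σ : α → β) {Q : (β → X) → Prop} (h : Dp 𝓓 Q) :
    Dp 𝓓 (fun f : α → X => ∃ g, Q g ∧ g ∘ σ = f) := 𝓓.im σ h

theorem Dp.eqv [Finite α] (a b : α) : Dp 𝓓 (fun f : α → X => f a = f b) :=
  Dp.congr (fun f => by simp) (Dp.preim (fun i : Bool => cond i b a) 𝓓.eq)

/-- quantification over one variable -/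
theorem Dp.ex [Finite α] {Q : X → (α → X) → Prop}
    (h : Dp 𝓓 (fun f : Option α → X => Q (f none) (f ∘ some))) :
    Dp 𝓓 (fun f : α → X => ∃ x, Q x f) :=
  Dp.congr (fun f => ⟨fun ⟨g, hg, hgf⟩ => ⟨g none, hgf ▸ hg⟩,
    fun ⟨x, hx⟩ => ⟨fun o => o.elim x f, hx, rfl⟩⟩) (Dp.im some h)

theorem Dp.all [Finite α] {Q : X → (α → X) → Prop}
    (h : Dp 𝓓 (fun f : Option α → X => Q (f none) (f ∘ some))) :
    Dp 𝓓 (fun f : α → X => ∀ x, Q x f) :=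
  Dp.congr (fun f => by simp) (Dp.ex (Q := fun x f => ¬ Q x f) h.not).not

theorem Dp.ball {ι : Type*} [Finite α] (s : Finset ι) {Q : ι → (α → X) → Prop}
    (h : ∀ i ∈ s, Dp 𝓓 (Q i)) : Dp 𝓓 (fun f : α → X => ∀ i ∈ s, Q i f) := by
  classical
  induction s using Finset.induction_on with
  | empty => exact Dp.congr (fun _ => by simp) Dp.true
  | insert a s ha ih =>
    refine Dp.congr (fun f => ?_) ((h a (by simp)).and (ih fun i hi => h i (by simp [hi])))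
    simp

theorem Dp.allfin {ι : Type*} [Finite ι] [Finite α] {Q : ι → (α → X) → Prop}
    (h : ∀ i, Dp 𝓓 (Q i)) : Dp 𝓓 (fun f : α → X => ∀ i, Q i f) := by
  classical
  cases nonempty_fintype ι
  exact Dp.congr (fun f => by simp) (Dp.ball Finset.univ fun i _ => h i)

theorem Dp.exfin {ι : Type*} [Finite ι] [Finite α] {Q : ι → (α → X) → Prop}
    (h : ∀ i, Dp 𝓓 (Q i)) : Dp 𝓓 (fun f : α → X => ∃ i, Q i f) :=
  Dp.congr (fun f => by simp) (Dp.allfin fun i => (h i).not).not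

/-- substitution of definable functions in a definable predicate -/
theorem Dp.sub [Finite α] [Finite β] {Q : (β → X) → Prop} (hQ : Dp 𝓓 Q) {t : β → (α → X) → X}
    (ht : ∀ b, Df 𝓓 (t b)) : Dp 𝓓 (fun f : α → X => Q (fun b => t b f)) := by
  have h1 : Dp 𝓓 (fun g : α ⊕ β → X => (∀ b, g (Sum.inr b) = t b (g ∘ Sum.inl)) ∧
      Q (g ∘ Sum.inr)) := by
    refine Dp.and (Dp.allfin fun b => ?_) (Dp.preim Sum.inr hQ)
    exact Dp.preim (fun o : Option α => o.elim (Sum.inr b) Sum.inl) (ht b)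
  refine Dp.congr (fun f => ⟨?_, fun h => ⟨Sum.elim f (fun b => t b f), ⟨fun b => ?_, ?_⟩, ?_⟩⟩)
    (Dp.im (Sum.inl : α → α ⊕ β) h1)
  · rintro ⟨g, ⟨hg, hQg⟩, rfl⟩
    have : (fun b => t b (g ∘ Sum.inl)) = g ∘ Sum.inr := funext fun b => (hg b).symm
    show Q (fun b => t b (g ∘ Sum.inl))
    rwa [this]
  · simp
  · simpa using h
  · simp

theorem Df.var [Finite α] (a : α) : Df 𝓓 (fun f : α → X => f a) :=
  Dp.eqv (none : Option α) (some a)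

/-- weakening -/
theorem Df.wk [Finite α] [Finite β] (σ : α → β) {t : (α → X) → X} (ht : Df 𝓓 t) :
    Df 𝓓 (fun f : β → X => t (f ∘ σ)) :=
  Dp.preim (fun o : Option α => o.map σ) ht

theorem Df.sub [Finite α] [Finite β] {r : (β → X) → X} (hr : Df 𝓓 r) {t : β → (α → X) → X}
    (ht : ∀ b, Df 𝓓 (t b)) : Df 𝓓 (fun f : α → X => r (fun b => t b f)) := by
  have h1 := Dp.sub (𝓓 := 𝓓) (α := Option α) (β := Option β)
    (Q := fun f : Option β → X => f none = r (f ∘ some)) hr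
    (t := fun o f => o.elim (f none) (fun b => t b (f ∘ some))) (by
      rintro (_ | b)
      · exact Df.var none
      · exact Df.wk some (ht b))
  exact h1

theorem DE.app [Finite α] {x : X} (hx : DE 𝓓 x) : Df 𝓓 (fun _ : α → X => x) :=
  Df.wk (fun e : Empty => e.elim) hx

theorem DF₁.app [Finite α] {T : X → X} (hT : DF₁ 𝓓 T) {t : (α → X) → X} (ht : Df 𝓓 t) :
    Df 𝓓 (fun f : α → X => T (t f)) :=
  Df.sub hT (fun _ => ht)

theorem DF₂.app [Finite α] {T : X → X → X} (hT : DF₂ 𝓓 T) {t t' : (α → X) → X} (ht : Df 𝓓 t)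
    (ht' : Df 𝓓 t') : Df 𝓓 (fun f : α → X => T (t f) (t' f)) :=
  Df.sub (r := fun f : Bool → X => T (f false) (f true)) hT
    (t := fun b => cond b t' t) (by rintro (_ | _) <;> assumption)

theorem DS.app [Finite α] {V : Set X} (hV : DS 𝓓 V) {t : (α → X) → X} (ht : Df 𝓓 t) :
    Dp 𝓓 (fun f : α → X => t f ∈ V) :=
  Dp.sub hV (fun _ => ht)

theorem DR₂.app [Finite α] {Q : X → X → Prop} (hQ : DR₂ 𝓓 Q) {t t' : (α → X) → X} (ht : Df 𝓓 t)
    (ht' : Df 𝓓 t') : Dp 𝓓 (fun f : α → X => Q (t f) (t' f)) :=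
  Dp.sub (Q := fun f : Bool → X => Q (f false) (f true)) hQ
    (t := fun b => cond b t' t) (by rintro (_ | _) <;> assumption)

theorem Dp.eq [Finite α] {t t' : (α → X) → X} (ht : Df 𝓓 t) (ht' : Df 𝓓 t') :
    Dp 𝓓 (fun f : α → X => t f = t' f) :=
  DR₂.app (Q := fun a b => a = b) 𝓓.eq ht ht'

theorem Dp.ne [Finite α] {t t' : (α → X) → X} (ht : Df 𝓓 t) (ht' : Df 𝓓 t') :
    Dp 𝓓 (fun f : α → X => t f ≠ t' f) := (Dp.eq ht ht').not

/-- a function whose graph is definable -/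
theorem Df.of [Finite α] {t : (α → X) → X} {Q : X → (α → X) → Prop}
    (hQ : ∀ f x, Q x f ↔ x = t f) (h : Dp 𝓓 (fun f : Option α → X => Q (f none) (f ∘ some))) :
    Df 𝓓 t := Dp.congr (fun f => hQ _ _) h

theorem DS.exs [Finite α] {V : Set X} (hV : DS 𝓓 V) {Q : X → (α → X) → Prop}
    (h : Dp 𝓓 (fun f : Option α → X => Q (f none) (f ∘ some))) :
    Dp 𝓓 (fun f : α → X => ∃ x ∈ V, Q x f) :=
  Dp.ex (Q := fun x f => x ∈ V ∧ Q x f) ((hV.app (Df.var none)).and h)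

theorem DS.alls [Finite α] {V : Set X} (hV : DS 𝓓 V) {Q : X → (α → X) → Prop}
    (h : Dp 𝓓 (fun f : Option α → X => Q (f none) (f ∘ some))) :
    Dp 𝓓 (fun f : α → X => ∀ x ∈ V, Q x f) :=
  Dp.all (Q := fun x f => x ∈ V → Q x f) ((hV.app (Df.var none)).imp h)

section ring

variable {R : Type v} [Ring R] {𝓓 : Calc R} [RC 𝓓]

theorem Df.add [Finite α] {t t' : (α → R) → R} (ht : Df 𝓓 t) (ht' : Df 𝓓 t') :
    Df 𝓓 (fun f => t f + t' f) := DF₂.app (T := fun a b : R => a + b) RC.add ht ht'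

theorem Df.mul [Finite α] {t t' : (α → R) → R} (ht : Df 𝓓 t) (ht' : Df 𝓓 t') :
    Df 𝓓 (fun f => t f * t' f) := DF₂.app (T := fun a b : R => a * b) RC.mul ht ht'

theorem Df.zero [Finite α] : Df 𝓓 (fun _ : α → R => (0 : R)) :=
  Df.of (Q := fun x _ => x + x = x) (fun _ x => by simp)
    (Dp.eq ((Df.var none).add (Df.var none)) (Df.var none))

theorem Df.one [Finite α] : Df 𝓓 (fun _ : α → R => (1 : R)) :=
  Df.of (Q := fun x _ => ∀ y, x * y = y)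
    (fun _ x => ⟨fun h => by simpa using h 1, fun h => by simp [h]⟩)
    (Dp.all (Dp.eq ((Df.var (some none)).mul (Df.var none)) (Df.var none)))

theorem Df.neg [Finite α] {t : (α → R) → R} (ht : Df 𝓓 t) : Df 𝓓 (fun f => - t f) :=
  Df.of (Q := fun x f => x + t f = 0) (fun _ x => eq_neg_iff_add_eq_zero.symm)
    (Dp.eq ((Df.var none).add (Df.wk some ht)) Df.zero)

theorem Df.subt [Finite α] {t t' : (α → R) → R} (ht : Df 𝓓 t) (ht' : Df 𝓓 t') :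
    Df 𝓓 (fun f => t f - t' f) :=
  Df.congr (fun f => (sub_eq_add_neg _ _).symm) (ht.add ht'.neg)

theorem Df.pow [Finite α] {t : (α → R) → R} (ht : Df 𝓓 t) (n : ℕ) :
    Df 𝓓 (fun f => t f ^ n) := by
  induction n with
  | zero => exact Df.congr (fun f => (pow_zero _).symm) Df.one
  | succ n ih => exact Df.congr (fun f => (pow_succ _ _).symm) (ih.mul ht)

theorem Df.natCast [Finite α] (n : ℕ) : Df 𝓓 (fun _ : α → R => (n : R)) := by
  induction n with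
  | zero => exact Df.congr (fun f => by simp) Df.zero
  | succ n ih => exact Df.congr (fun f => by simp) (ih.add Df.one)

theorem Df.sum {ι : Type*} [Finite α] (s : Finset ι) {t : ι → (α → R) → R}
    (ht : ∀ i ∈ s, Df 𝓓 (t i)) : Df 𝓓 (fun f => ∑ i ∈ s, t i f) := by
  classical
  induction s using Finset.induction_on with
  | empty => exact Df.congr (fun f => by simp) Df.zero
  | insert a s ha ih =>
    exact Df.congr (fun f => (Finset.sum_insert ha).symm)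
      ((ht a (by simp)).add (ih fun i hi => ht i (by simp [hi])))

theorem Dp.isUnit [Finite α] {t : (α → R) → R} (ht : Df 𝓓 t) :
    Dp 𝓓 (fun f => IsUnit (t f)) := by
  have h : Dp 𝓓 (fun f => ∃ y, t f * y = 1 ∧ y * t f = 1) := by
    refine Dp.ex (Dp.and (Dp.eq ?_ Df.one) (Dp.eq ?_ Df.one))
    · exact Df.mul (Df.wk some ht) (Df.var none)
    · exact Df.mul (Df.var none) (Df.wk some ht)
  refine Dp.congr (fun f => ?_) h
  exact ⟨fun ⟨y, h1, h2⟩ => ⟨⟨t f, y, h1, h2⟩, rfl⟩,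
    fun ⟨u, hu⟩ => ⟨↑u⁻¹, by rw [← hu]; simp, by rw [← hu]; simp⟩⟩

theorem DE.zero : DE 𝓓 (0 : R) := Df.zero
theorem DE.one : DE 𝓓 (1 : R) := Df.one
theorem DE.natCast (n : ℕ) : DE 𝓓 (n : R) := Df.natCast n
theorem DE.add {x y : R} (hx : DE 𝓓 x) (hy : DE 𝓓 y) : DE 𝓓 (x + y) := Df.add hx hy
theorem DE.mul {x y : R} (hx : DE 𝓓 x) (hy : DE 𝓓 y) : DE 𝓓 (x * y) := Df.mul hx hy
theorem DE.neg {x : R} (hx : DE 𝓓 x) : DE 𝓓 (-x) := Df.neg hx
theorem DE.sub {x y : R} (hx : DE 𝓓 x) (hy : DE 𝓓 y) : DE 𝓓 (x - y) := Df.subt hx hy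
theorem DE.pow {x : R} (hx : DE 𝓓 x) (n : ℕ) : DE 𝓓 (x ^ n) := Df.pow hx n

end ring

section divisionRing

variable {D : Type v} [DivisionRing D] {𝓓 : Calc D} [RC 𝓓]

theorem Df.inv [Finite α] {t : (α → D) → D} (ht : Df 𝓓 t) : Df 𝓓 (fun f => (t f)⁻¹) := by
  refine Df.of (Q := fun x f => (t f = 0 ∧ x = 0) ∨ (x * t f = 1)) (fun f x => ?_) ?_
  · by_cases h : t f = 0
    · simp [h]
    · simp only [h, false_and, false_or]
      exact ⟨fun hx => eq_inv_of_mul_eq_one_left hx, fun hx => by rw [hx, inv_mul_cancel₀ h]⟩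
  · exact Dp.or (Dp.and (Dp.eq (Df.wk some ht) Df.zero) (Dp.eq (Df.var none) Df.zero))
      (Dp.eq (Df.mul (Df.var none) (Df.wk some ht)) Df.one)

theorem DE.inv {x : D} (hx : DE 𝓓 x) : DE 𝓓 x⁻¹ := Df.inv hx
theorem DE.div {D : Type v} [Field D] {𝓓 : Calc D} [RC 𝓓] {x y : D} (hx : DE 𝓓 x)
    (hy : DE 𝓓 y) : DE 𝓓 (x / y) := by
  rw [div_eq_mul_inv]
  exact DE.mul hx (DE.inv hy)

end divisionRing

section test

variable {R : Type v} [Ring R] {𝓓 : Calc R} [RC 𝓓]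

example (r s : R) (hr : DE 𝓓 r) (hs : DE 𝓓 s) : DS 𝓓 {z | ∃ x, z = r * x - x * s + 1} := by
  ((try unfold DS); (try unfold DF₁); (try unfold DF₂); (try unfold DR₂); repeat' first | assumption | exact Df.var _ | exact Df.zero | exact Df.one | exact Df.natCast _ | (refine DE.app ?_; first | assumption | exact DE.natCast _) | refine Df.add ?_ ?_ | refine Df.mul ?_ ?_ | refine Df.subt ?_ ?_ | refine Df.neg ?_ | refine Df.pow ?_ _ | refine Df.sum _ (fun _ _ => ?_) | (refine DF₁.app (by assumption) ?_) | (refine DF₂.app (by assumption) ?_ ?_) | refine Dp.const _ | refine Dp.not ?_ | refine Dp.eq ?_ ?_ | refine Dp.ne ?_ ?_ | refine Dp.and ?_ ?_ | refine Dp.or ?_ ?_ | refine Dp.iff ?_ ?_ | refine Dp.imp ?_ ?_ | (refine DS.app (by assumption) ?_) | (refine DR₂.app (by assumption) ?_ ?_) | refine Dp.isUnit ?_ | refine Dp.ball _ (fun _ _ => ?_) | refine Dp.ex ?_ | refine Dp.all ?_ | refine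 Dp.allfin (fun _ => ?_) | refine Dp.exfin (fun _ => ?_))

example (r s : R) (hr : DE 𝓓 r) (hs : DE 𝓓 s) (T : R → R) (hT : DF₁ 𝓓 T) (V : Set R)
    (hV : DS 𝓓 V) :
    DS 𝓓 {z | ∃ x, (∀ y, x * y = y * r → T y = 0 ∨ y = 1) ∧ z = r * x - T (x * s + 1) ∧ T x ∈ V} := by
  ((try unfold DS); (try unfold DF₁); (try unfold DF₂); (try unfold DR₂); repeat' first | assumption | exact Df.var _ | exact Df.zero | exact Df.one | exact Df.natCast _ | (refine DE.app ?_; first | assumption | exact DE.natCast _) | refine Df.add ?_ ?_ | refine Df.mul ?_ ?_ | refine Df.subt ?_ ?_ | refine Df.neg ?_ | refine Df.pow ?_ _ | refine Df.sum _ (fun _ _ => ?_) | (refine DF₁.app (by assumption) ?_) | (refine DF₂.app (by assumption) ?_ ?_) | refine Dp.const _ | refine Dp.not ?_ | refine Dp.eq ?_ ?_ | refine Dp.ne ?_ ?_ | refine Dp.and ?_ ?_ | refine Dp.or ?_ ?_ | refine Dp.iff ?_ ?_ | refine Dp.imp ?_ ?_ | (refine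 DS.app (by assumption) ?_) | (refine DR₂.app (by assumption) ?_ ?_) | refine Dp.isUnit ?_ | refine Dp.ball _ (fun _ _ => ?_) | refine Dp.ex ?_ | refine Dp.all ?_ | refine Dp.allfin (fun _ => ?_) | refine Dp.exfin (fun _ => ?_))

example (r s : R) (hr : DE 𝓓 r) (hs : DE 𝓓 s) (T : R → R) (hT : DF₁ 𝓓 T) (V : Set R)
    (hV : DS 𝓓 V) :
    DS 𝓓 {z | ∃ x ∈ V, (∀ y ∈ V, x * y = y * r → T y = 0 ∨ y = 1) ∧ z = r * x - T (x * s + 1)} := by
  ((try unfold DS); (try unfold DF₁); (try unfold DF₂); (try unfold DR₂); repeat' first | assumption | exact Df.var _ | exact Df.zero | exact Df.one | exact Df.natCast _ | (refine DE.app ?_; first | assumption | exact DE.natCast _) | refine Df.add ?_ ?_ | refine Df.mul ?_ ?_ | refine Df.subt ?_ ?_ | refine Df.neg ?_ | refine Df.pow ?_ _ | refine Df.sum _ (fun _ _ => ?_) | (refine DF₁.app (by assumption) ?_) | (refine DF₂.app (by assumption) ?_ ?_) |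 refine Dp.const _ | refine Dp.not ?_ | refine Dp.eq ?_ ?_ | refine Dp.ne ?_ ?_ | refine Dp.and ?_ ?_ | refine Dp.or ?_ ?_ | refine Dp.iff ?_ ?_ | refine Dp.imp ?_ ?_ | (refine DS.app (by assumption) ?_) | (refine DR₂.app (by assumption) ?_ ?_) | refine Dp.isUnit ?_ | refine Dp.ball _ (fun _ _ => ?_) | refine Dp.ex ?_ | refine Dp.all ?_ | refine Dp.allfin (fun _ => ?_) | refine Dp.exfin (fun _ => ?_))

end test

end VCR
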