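import Pool.Agent.VCR.Calc

/-!
# VCR-Fus: fusion, a subtree deciding countably many sets
-/

open Set

namespace VCR

universe v

private def fzDense {Z : Type v} (T : List Bool → Set Z) (W : Set Z) (r : List Bool) : Prop :=
  ∀ r', r <:+ r' → (W ∩ T r').Nonempty

private theorem fz_sub {Z : Type v} {T : List Bool → Set Z} (hT : IsTree T) {r r' : List Bool}
    (h : r <:+ r') : T r' ⊆ T r := by
  obtain ⟨l, rfl⟩ := h
  induction l with
  | nil => exact subset_rfl
  | cons a l ih => exact (hT.sub a (l ++ r)).trans ih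

private theorem fz_dec {Z : Type v} {T : List Bool → Set Z} (hT : IsTree T) {W : Set Z}
    {r : List Bool} (h : fzDense T W r) (S : Set Z) :
    ∃ q : Set Z × List Bool, r <:+ q.2 ∧ q.1 ⊆ W ∧ (q.1 ⊆ S ∨ Disjoint q.1 S) ∧
      fzDense T q.1 q.2 := by
  by_cases hd : fzDense T (W ∩ S) r
  · exact ⟨(W ∩ S, r), List.suffix_refl r, inter_subset_left, Or.inl inter_subset_right, hd⟩
  · unfold fzDense at hd
    push Not at hd
    obtain ⟨r₁, h1, h2⟩ := hd
    refine ⟨(W \ S, r₁), h1, sdiff_subset, Or.inr disjoint_sdiff_left, ?_⟩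
    intro r' hr'
    obtain ⟨x, hx1, hx2⟩ := h r' (h1.trans hr')
    refine ⟨x, ⟨hx1, fun hxS => ?_⟩, hx2⟩
    have h3 : x ∈ W ∩ S ∩ T r₁ := ⟨⟨hx1, hxS⟩, fz_sub hT hr' hx2⟩
    rw [h2] at h3
    exact h3

theorem exists_fusion {Z : Type v} (T : List Bool → Set Z) (hT : IsTree T) (B : ℕ → Set Z) :
    ∃ (r : List Bool → List Bool) (W : List Bool → Set Z), IsTree W ∧
      (∀ s, W s ⊆ T (r s)) ∧
      (∀ s, Disjoint (T (r (false :: s))) (T (r (true :: s)))) ∧
      (∀ i s, T (r (i :: s)) ⊆ T (r s)) ∧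
      ∀ i s, W (i :: s) ⊆ B s.length ∨ Disjoint (W (i :: s)) (B s.length) := by
  have hdec : ∀ p : {p : Set Z × List Bool // fzDense T p.1 p.2 ∧ p.1 ⊆ T p.2}, ∀ S : Set Z,
      ∃ q : Set Z × List Bool, p.1.2 <:+ q.2 ∧ q.1 ⊆ p.1.1 ∧ (q.1 ⊆ S ∨ Disjoint q.1 S) ∧
        fzDense T q.1 q.2 := fun p S => fz_dec hT p.2.1 S
  choose D d1 d2 d3 d4 using hdec
  have hroot : fzDense T (T []) [] := by
    intro r' hr'
    obtain ⟨x, hx⟩ := hT.ne r'
    exact ⟨x, fz_sub hT hr' hx, hx⟩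
  have hstep : ∀ (p : {p : Set Z × List Bool // fzDense T p.1 p.2 ∧ p.1 ⊆ T p.2}) (k : ℕ)
      (i : Bool), fzDense T ((D p (B k)).1 ∩ T (i :: (D p (B k)).2)) (i :: (D p (B k)).2) := by
    intro p k i r' hr'
    obtain ⟨x, hx1, hx2⟩ := d4 p (B k) r' ((List.suffix_cons i _).trans hr')
    exact ⟨x, ⟨hx1, fz_sub hT hr' hx2⟩, hx2⟩
  obtain ⟨F, hF⟩ : ∃ F : List Bool → {p : Set Z × List Bool // fzDense T p.1 p.2 ∧ p.1 ⊆ T p.2},
      ∀ i s, (F (i :: s)).1 = ((D (F s) (B s.length)).1 ∩ T (i :: (D (F s) (B s.length)).2),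
        i :: (D (F s) (B s.length)).2) :=
    ⟨fun s => List.rec ⟨(T [], []), hroot, subset_rfl⟩
      (fun i s ih => ⟨((D ih (B s.length)).1 ∩ T (i :: (D ih (B s.length)).2),
        i :: (D ih (B s.length)).2), hstep ih s.length i, inter_subset_right⟩) s,
      fun _ _ => rfl⟩
  have hF1 : ∀ i s, (F (i :: s)).1.1 =
      (D (F s) (B s.length)).1 ∩ T (i :: (D (F s) (B s.length)).2) := fun i s => by rw [hF]
  have hF2 : ∀ i s, (F (i :: s)).1.2 = i :: (D (F s) (B s.length)).2 := fun i s => by rw [hF]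
  refine ⟨fun s => (F s).1.2, fun s => (F s).1.1, ⟨?_, ?_, ?_⟩, ?_, ?_, ?_, ?_⟩
  · intro s
    exact ((F s).2.1 _ (List.suffix_refl _)).mono inter_subset_left
  · intro i s
    show (F (i :: s)).1.1 ⊆ (F s).1.1
    rw [hF1]
    exact inter_subset_left.trans (d2 _ _)
  · intro s
    show Disjoint (F (false :: s)).1.1 (F (true :: s)).1.1
    rw [hF1, hF1]
    exact (hT.disj _).mono inter_subset_right inter_subset_right
  · intro s
    exact (F s).2.2
  · intro s
    show Disjoint (T (F (false :: s)).1.2) (T (F (true :: s)).1.2)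
    rw [hF2, hF2]
    exact hT.disj _
  · intro i s
    show T (F (i :: s)).1.2 ⊆ T (F s).1.2
    rw [hF2]
    exact fz_sub hT ((d1 _ _).trans (List.suffix_cons i _))
  · intro i s
    show (F (i :: s)).1.1 ⊆ B s.length ∨ Disjoint (F (i :: s)).1.1 (B s.length)
    rw [hF1]
    rcases d3 (F s) (B s.length) with h | h
    · exact Or.inl (inter_subset_left.trans h)
    · exact Or.inr (h.mono_left inter_subset_left)

end VCR
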