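import Pool.Agent.VCR.Calc

/-!
# VCR-IdlA: maximal invariant ideals of a superatomic algebra of sets have finite quotient

`B` is an algebra of subsets of `Z` without trees, `Γ` a group of permutations of `Z` preserving `B`.

PLAN.
* Zorn (`zorn_subset_nonempty` or `zorn_le_nonempty₀`) on the sets `J` with `InvIdeal B Γ J`,
  ordered by inclusion, above `J₀`: the union of a nonempty chain is an invariant ideal (proper
  since each member is). Let `J ⊇ J₀` be maximal.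
* There is an ATOM: `A ∈ B`, `A ∉ J`, such that for all `A' ∈ B` with `A' ⊆ A`: `A' ∈ J` or
  `A \ A' ∈ J`. Otherwise every `V ∈ B \ J` contains two disjoint `V₀ V₁ ∈ B \ J`; starting with
  `univ ∈ B \ J` build a tree of members of `B \ J` by recursion on the list (they are nonempty as
  `∅ ∈ J`), contradiction with `hBs`.
* `J' := {S ∈ B | ∃ (s : Finset (Equiv.Perm Z)) (N ∈ J), ↑s ⊆ Γ ∧ S ⊆ N ∪ ⋃ γ ∈ s, γ ⁻¹' A}` contains
  `J` and `A`, is closed under the ideal operations and under `Γ` (`δ ⁻¹' (γ ⁻¹' A) = (γ * δ) ⁻¹' A`),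
  and is different from `J`; by maximality it is not proper: `univ ∈ J'`. So
  `univ = N ∪ ⋃ γ ∈ s, γ ⁻¹' A` with `N ∈ J`.
* For `S ∈ B` and `γ ∈ s`: `S ∩ γ ⁻¹' A ∈ J` or `γ ⁻¹' A \ S ∈ J` (apply `γ⁻¹`: `A' :=
  γ⁻¹ ⁻¹' (S ∩ γ ⁻¹' A) ⊆ A` is in `B`; transport back with `inv`). Let
  `code S : s → Prop := fun γ => S ∩ γ ⁻¹' A ∈ J`. If `code S = code S'` then `symmDiff S S' ∈ J`:
  it is covered by `N` and the sets `symmDiff S S' ∩ γ ⁻¹' A`, which are in `J`: if the code is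
  true both `S ∩ γ ⁻¹' A`, `S' ∩ γ ⁻¹' A` are in `J`; if false both `γ ⁻¹' A \ S`, `γ ⁻¹' A \ S'` are.
* `N := 2 ^ s.card`: pigeonhole on `code ∘ S : Fin (N+1) → (s → Prop)`
  (`Fintype.exists_ne_map_eq_of_card_lt`).
-/

open Set

namespace VCR

universe v

/-- `J` is a proper ideal of the algebra `B` of subsets of `Z`, invariant under `Γ`. -/
structure InvIdeal {Z : Type v} (B : Set (Set Z)) (Γ : Subgroup (Equiv.Perm Z)) (J : Set (Set Z)) :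
    Prop where
  sub : J ⊆ B
  empty : ∅ ∈ J
  down : ∀ S ∈ J, ∀ S' ∈ B, S' ⊆ S → S' ∈ J
  union : ∀ S ∈ J, ∀ S' ∈ J, S ∪ S' ∈ J
  inv : ∀ γ ∈ Γ, ∀ S ∈ J, (γ : Z → Z) ⁻¹' S ∈ J
  proper : univ ∉ J

private theorem il_chain {Z : Type v} (B : Set (Set Z)) (Γ : Subgroup (Equiv.Perm Z)) (c : Set (Set (Set Z)))
    (hc : c ⊆ {J | InvIdeal B Γ J}) (hch : IsChain (· ⊆ ·) c) (hne : c.Nonempty) :
    InvIdeal B Γ (⋃₀ c) where
  sub := sUnion_subset fun J hJ => (hc hJ).sub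
  empty := by
    obtain ⟨J, hJ⟩ := hne
    exact ⟨J, hJ, (hc hJ).empty⟩
  down := by
    rintro S ⟨J, hJ, hS⟩ S' hS' h
    exact ⟨J, hJ, (hc hJ).down S hS S' hS' h⟩
  union := by
    rintro S ⟨J, hJ, hS⟩ S' ⟨J', hJ', hS'⟩
    rcases hch.total hJ hJ' with h | h
    · exact ⟨J', hJ', (hc hJ').union S (h hS) S' hS'⟩
    · exact ⟨J, hJ, (hc hJ).union S hS S' (h hS')⟩
  inv := by
    rintro γ hγ S ⟨J, hJ, hS⟩
    exact ⟨J, hJ, (hc hJ).inv γ hγ S hS⟩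
  proper := by
    rintro ⟨J, hJ, hS⟩
    exact (hc hJ).proper hS

private theorem il_sdiff {Z : Type v} {B : Set (Set Z)} (hBi : ∀ S ∈ B, ∀ S' ∈ B, S ∩ S' ∈ B)
    (hBc : ∀ S ∈ B, Sᶜ ∈ B) {S S' : Set Z} (h : S ∈ B) (h' : S' ∈ B) : S \ S' ∈ B := by
  rw [diff_eq]
  exact hBi S h _ (hBc S' h')

private theorem il_union {Z : Type v} {B : Set (Set Z)} (hBi : ∀ S ∈ B, ∀ S' ∈ B, S ∩ S' ∈ B)
    (hBc : ∀ S ∈ B, Sᶜ ∈ B) {S S' : Set Z} (h : S ∈ B) (h' : S' ∈ B) : S ∪ S' ∈ B := by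
  have h1 := hBc _ (hBi _ (hBc S h) _ (hBc S' h'))
  rw [← compl_union, compl_compl] at h1
  exact h1

/-- there is an atom -/
private theorem il_atom {Z : Type v} (B : Set (Set Z)) (hBu : univ ∈ B)
    (hBi : ∀ S ∈ B, ∀ S' ∈ B, S ∩ S' ∈ B) (hBc : ∀ S ∈ B, Sᶜ ∈ B)
    (hBs : ∀ T : List Bool → Set Z, IsTree T → ¬ ∀ s, T s ∈ B)
    (Γ : Subgroup (Equiv.Perm Z)) (J : Set (Set Z)) (hJ : InvIdeal B Γ J) :
    ∃ A ∈ B, A ∉ J ∧ ∀ A' ∈ B, A' ⊆ A → A' ∈ J ∨ A \ A' ∈ J := by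
  by_contra hcon
  push Not at hcon
  have h1 : ∀ A : {A : Set Z // A ∈ B ∧ A ∉ J}, ∃ A' : Set Z, A' ∈ B ∧ A' ⊆ A.1 ∧ A' ∉ J ∧ A.1 \ A' ∉ J :=
    fun A => by
      obtain ⟨A', h1, h2, h3, h4⟩ := hcon A.1 A.2.1 A.2.2
      exact ⟨A', h1, h2, h3, h4⟩
  choose f hf using h1
  let T : List Bool → {A : Set Z // A ∈ B ∧ A ∉ J} := fun s =>
    s.rec ⟨univ, hBu, hJ.proper⟩ fun i _ A =>
      bif i then ⟨f A, (hf A).1, (hf A).2.2.1⟩
      else ⟨A.1 \ f A, il_sdiff hBi hBc A.2.1 (hf A).1, (hf A).2.2.2⟩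
  have hT1 : ∀ s, (T (true :: s)).1 = f (T s) := fun s => rfl
  have hT0 : ∀ s, (T (false :: s)).1 = (T s).1 \ f (T s) := fun s => rfl
  refine hBs (fun s => (T s).1) ⟨?_, ?_, ?_⟩ fun s => (T s).2.1
  · intro s
    rw [nonempty_iff_ne_empty]
    intro h
    have h2 := (T s).2.2
    rw [h] at h2
    exact h2 hJ.empty
  · intro i s
    cases i
    · show (T (false :: s)).1 ⊆ (T s).1
      rw [hT0]
      exact diff_subset
    · show (T (true :: s)).1 ⊆ (T s).1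
      rw [hT1]
      exact (hf (T s)).2.1
  · intro s
    show Disjoint (T (false :: s)).1 (T (true :: s)).1
    rw [hT0, hT1]
    exact disjoint_sdiff_left

open scoped Classical in
/-- the translates of `A` cover everything modulo `J` -/
private theorem il_cover {Z : Type v} (B : Set (Set Z)) (hBu : univ ∈ B)
    (hBi : ∀ S ∈ B, ∀ S' ∈ B, S ∩ S' ∈ B) (hBc : ∀ S ∈ B, Sᶜ ∈ B)
    (Γ : Subgroup (Equiv.Perm Z)) (hΓ : ∀ γ ∈ Γ, ∀ S ∈ B, (γ : Z → Z) ⁻¹' S ∈ B)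
    (J : Set (Set Z)) (hJ : InvIdeal B Γ J) (hmax : ∀ J', InvIdeal B Γ J' → J ⊆ J' → J' ⊆ J)
    (A : Set Z) (hA : A ∈ B) (hAJ : A ∉ J) :
    ∃ (s : Finset (Equiv.Perm Z)) (N : Set Z), N ∈ J ∧ (∀ γ ∈ s, γ ∈ Γ) ∧
      ∀ z : Z, z ∈ N ∨ ∃ γ ∈ s, γ z ∈ A := by
  set J' : Set (Set Z) := {S | S ∈ B ∧ ∃ (s : Finset (Equiv.Perm Z)) (N : Set Z), N ∈ J ∧
    (∀ γ ∈ s, γ ∈ Γ) ∧ ∀ z ∈ S, z ∈ N ∨ ∃ γ ∈ s, γ z ∈ A} with hJ'
  have h1 : J ⊆ J' := fun S hS => ⟨hJ.sub hS, ∅, S, hS, by simp, fun z hz => Or.inl hz⟩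
  have h2 : A ∈ J' := ⟨hA, {1}, ∅, hJ.empty, by
    intro γ hγ
    rw [Finset.mem_singleton] at hγ
    rw [hγ]
    exact Γ.one_mem, fun z hz => Or.inr ⟨1, by simp, hz⟩⟩
  by_cases h3 : univ ∈ J'
  · obtain ⟨_, s, N, hN, hs, h4⟩ := h3
    exact ⟨s, N, hN, hs, fun z => h4 z (mem_univ z)⟩
  · exfalso
    refine hAJ (hmax J' ⟨?_, h1 hJ.empty, ?_, ?_, ?_, h3⟩ h1 h2)
    · exact fun S hS => hS.1
    · rintro S ⟨hS, s, N, hN, hs, h4⟩ S' hS' hsub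
      exact ⟨hS', s, N, hN, hs, fun z hz => h4 z (hsub hz)⟩
    · rintro S ⟨hS, s, N, hN, hs, h4⟩ S' ⟨hS', s', N', hN', hs', h4'⟩
      refine ⟨il_union hBi hBc hS hS', s ∪ s', N ∪ N', hJ.union N hN N' hN', ?_, ?_⟩
      · intro γ hγ
        rcases Finset.mem_union.1 hγ with h | h
        · exact hs γ h
        · exact hs' γ h
      · rintro z (hz | hz)
        · rcases h4 z hz with h | ⟨γ, h, h'⟩
          · exact Or.inl (Or.inl h)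
          · exact Or.inr ⟨γ, Finset.mem_union_left _ h, h'⟩
        · rcases h4' z hz with h | ⟨γ, h, h'⟩
          · exact Or.inl (Or.inr h)
          · exact Or.inr ⟨γ, Finset.mem_union_right _ h, h'⟩
    · rintro δ hδ S ⟨hS, s, N, hN, hs, h4⟩
      refine ⟨hΓ δ hδ S hS, s.image (fun γ => γ * δ), (δ : Z → Z) ⁻¹' N, hJ.inv δ hδ N hN, ?_, ?_⟩
      · intro γ hγ
        obtain ⟨γ', h, rfl⟩ := Finset.mem_image.1 hγ
        exact Γ.mul_mem (hs γ' h) hδ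
      · intro z hz
        rcases h4 (δ z) hz with h | ⟨γ, h, h'⟩
        · exact Or.inl h
        · exact Or.inr ⟨γ * δ, Finset.mem_image_of_mem _ h, h'⟩

private theorem il_bUnion {Z : Type v} {B : Set (Set Z)} {Γ : Subgroup (Equiv.Perm Z)} {J : Set (Set Z)}
    (hJ : InvIdeal B Γ J) {ι : Type v} (s : Finset ι) (F : ι → Set Z) (hF : ∀ i ∈ s, F i ∈ J) :
    (⋃ i ∈ s, F i) ∈ J := by
  classical
  induction s using Finset.induction_on with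
  | empty =>
    have h : (⋃ i ∈ (∅ : Finset ι), F i) = ∅ := by simp
    rw [h]
    exact hJ.empty
  | insert a s _ ih =>
    rw [Finset.set_biUnion_insert]
    exact hJ.union _ (hF a (Finset.mem_insert_self a s)) _
      (ih fun i hi => hF i (Finset.mem_insert_of_mem hi))

theorem exists_inv_ideal {Z : Type v} (B : Set (Set Z)) (hBu : univ ∈ B)
    (hBi : ∀ S ∈ B, ∀ S' ∈ B, S ∩ S' ∈ B) (hBc : ∀ S ∈ B, Sᶜ ∈ B)
    (hBs : ∀ T : List Bool → Set Z, IsTree T → ¬ ∀ s, T s ∈ B)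
    (Γ : Subgroup (Equiv.Perm Z)) (hΓ : ∀ γ ∈ Γ, ∀ S ∈ B, (γ : Z → Z) ⁻¹' S ∈ B)
    (J₀ : Set (Set Z)) (hJ₀ : InvIdeal B Γ J₀) :
    ∃ J : Set (Set Z), J₀ ⊆ J ∧ InvIdeal B Γ J ∧
      ∃ N : ℕ, ∀ S : Fin (N + 1) → Set Z, (∀ i, S i ∈ B) →
        ∃ i j, i < j ∧ symmDiff (S i) (S j) ∈ J := by
  classical
  obtain ⟨J, hJ0, hmax⟩ := zorn_subset_nonempty {J | InvIdeal B Γ J}
    (fun c hc hch hne => ⟨⋃₀ c, il_chain B Γ c hc hch hne, fun J hJ => subset_sUnion_of_mem hJ⟩) J₀ hJ₀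
  have hJ : InvIdeal B Γ J := hmax.prop
  have hmax' : ∀ J', InvIdeal B Γ J' → J ⊆ J' → J' ⊆ J := fun J' h h' => hmax.le_of_ge h h'
  refine ⟨J, hJ0, hJ, ?_⟩
  obtain ⟨A, hA, hAJ, hat⟩ := il_atom B hBu hBi hBc hBs Γ J hJ
  obtain ⟨s, N, hN, hs, hcov⟩ := il_cover B hBu hBi hBc Γ hΓ J hJ hmax' A hA hAJ
  have hdich : ∀ S ∈ B, ∀ γ ∈ s, S ∩ (γ : Z → Z) ⁻¹' A ∈ J ∨ (γ : Z → Z) ⁻¹' A \ S ∈ J := by
    intro S hS γ hγ
    have hγΓ := hs γ hγ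
    have hinv : ∀ z : Z, (γ⁻¹ : Equiv.Perm Z) (γ z) = z := fun z => γ.symm_apply_apply z
    have h1 : (γ⁻¹ : Equiv.Perm Z) ⁻¹' S ∩ A ∈ B := hBi _ (hΓ _ (Γ.inv_mem hγΓ) S hS) _ hA
    rcases hat _ h1 inter_subset_right with h2 | h2
    · left
      have h3 := hJ.inv γ hγΓ _ h2
      have h4 : (γ : Z → Z) ⁻¹' ((γ⁻¹ : Equiv.Perm Z) ⁻¹' S ∩ A) = S ∩ (γ : Z → Z) ⁻¹' A := by
        ext z
        simp only [mem_preimage, mem_inter_iff, hinv]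
      rw [h4] at h3
      exact h3
    · right
      have h3 := hJ.inv γ hγΓ _ h2
      have h4 : (γ : Z → Z) ⁻¹' (A \ ((γ⁻¹ : Equiv.Perm Z) ⁻¹' S ∩ A)) = (γ : Z → Z) ⁻¹' A \ S := by
        ext z
        simp only [mem_preimage, mem_inter_iff, hinv, mem_sdiff]
        tauto
      rw [h4] at h3
      exact h3
  refine ⟨2 ^ s.card, fun S hS => ?_⟩
  have hpig : ∃ i ∈ (Finset.univ : Finset (Fin (2 ^ s.card + 1))), ∃ j ∈ Finset.univ, i ≠ j ∧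
      s.filter (fun γ : Equiv.Perm Z => S i ∩ (γ : Z → Z) ⁻¹' A ∈ J) = s.filter (fun γ : Equiv.Perm Z => S j ∩ (γ : Z → Z) ⁻¹' A ∈ J) := by
    refine Finset.exists_ne_map_eq_of_card_lt_of_maps_to (t := s.powerset) ?_ ?_
    · rw [Finset.card_powerset, Finset.card_univ, Fintype.card_fin]
      exact Nat.lt_succ_self _
    · intro i _
      exact Finset.mem_powerset.2 (Finset.filter_subset _ _)
  have hsym : ∀ i j, s.filter (fun γ : Equiv.Perm Z => S i ∩ (γ : Z → Z) ⁻¹' A ∈ J) =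
      s.filter (fun γ : Equiv.Perm Z => S j ∩ (γ : Z → Z) ⁻¹' A ∈ J) → symmDiff (S i) (S j) ∈ J := by
    intro i j hij
    have hB : symmDiff (S i) (S j) ∈ B := by
      rw [Set.symmDiff_def]
      exact il_union hBi hBc (il_sdiff hBi hBc (hS i) (hS j)) (il_sdiff hBi hBc (hS j) (hS i))
    have hB' : ∀ γ ∈ s, symmDiff (S i) (S j) ∩ (γ : Z → Z) ⁻¹' A ∈ J := by
      intro γ hγ
      have hBγ : symmDiff (S i) (S j) ∩ (γ : Z → Z) ⁻¹' A ∈ B := hBi _ hB _ (hΓ γ (hs γ hγ) A hA)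
      by_cases hc : S i ∩ (γ : Z → Z) ⁻¹' A ∈ J
      · have h1 : γ ∈ s.filter (fun γ : Equiv.Perm Z => S i ∩ (γ : Z → Z) ⁻¹' A ∈ J) := Finset.mem_filter.2 ⟨hγ, hc⟩
        rw [hij] at h1
        refine hJ.down _ (hJ.union _ hc _ (Finset.mem_filter.1 h1).2) _ hBγ ?_
        rintro z ⟨hz, hz'⟩
        rcases hz with hz | hz
        · exact Or.inl ⟨hz.1, hz'⟩
        · exact Or.inr ⟨hz.1, hz'⟩
      · have h1 : γ ∉ s.filter (fun γ : Equiv.Perm Z => S j ∩ (γ : Z → Z) ⁻¹' A ∈ J) := by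
          rw [← hij]
          exact fun h => hc (Finset.mem_filter.1 h).2
        have hc' : ¬ S j ∩ (γ : Z → Z) ⁻¹' A ∈ J := fun h => h1 (Finset.mem_filter.2 ⟨hγ, h⟩)
        have h2 := (hdich (S i) (hS i) γ hγ).resolve_left hc
        have h3 := (hdich (S j) (hS j) γ hγ).resolve_left hc'
        refine hJ.down _ (hJ.union _ h2 _ h3) _ hBγ ?_
        rintro z ⟨hz, hz'⟩
        rcases hz with hz | hz
        · exact Or.inr ⟨hz', hz.2⟩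
        · exact Or.inl ⟨hz', hz.2⟩
    refine hJ.down _ (hJ.union N hN _ (il_bUnion hJ s _ hB')) _ hB ?_
    intro z hz
    rcases hcov z with h | ⟨γ, h, h'⟩
    · exact Or.inl h
    · right
      rw [mem_iUnion₂]
      exact ⟨γ, h, hz, h'⟩
  obtain ⟨i, -, j, -, hne, heq⟩ := hpig
  rcases lt_or_gt_of_ne hne with h | h
  · exact ⟨i, j, h, hsym i j heq⟩
  · exact ⟨j, i, h, hsym j i heq.symm⟩

end VCR
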