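import Pool.Agent.VCR.IdlA

/-!
# VCR-IdlB: a divisible one parameter group acts trivially on a finite quotient algebra

Two translates by multiples of a small step coincide modulo the ideal; iterate.
-/

open Set

namespace VCR

universe v

theorem act_trivial {Z : Type v} (B : Set (Set Z)) (hBu : univ ∈ B)
    (hBi : ∀ S ∈ B, ∀ S' ∈ B, S ∩ S' ∈ B) (hBc : ∀ S ∈ B, Sᶜ ∈ B)
    (Γ : Subgroup (Equiv.Perm Z)) (hΓ : ∀ γ ∈ Γ, ∀ S ∈ B, (γ : Z → Z) ⁻¹' S ∈ B)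
    (J : Set (Set Z)) (hJ : InvIdeal B Γ J) (N : ℕ)
    (hN : ∀ S : Fin (N + 1) → Set Z, (∀ i, S i ∈ B) → ∃ i j, i < j ∧ symmDiff (S i) (S j) ∈ J)
    (u : ℚ → Equiv.Perm Z) (hu : ∀ a b, u (a + b) = u a * u b) (huΓ : ∀ a, u a ∈ Γ)
    (S : Set Z) (hS : S ∈ B) (a : ℚ) : symmDiff S ((u a : Z → Z) ⁻¹' S) ∈ J := by
  have hdf : ∀ S S' : Set Z, S ∈ B → S' ∈ B → S \ S' ∈ B := by
    intro S S' h h'
    rw [sdiff_eq]
    exact hBi S h _ (hBc S' h')
  have hun : ∀ S S' : Set Z, S ∈ B → S' ∈ B → S ∪ S' ∈ B := by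
    intro S S' h h'
    have h1 := hBc _ (hBi _ (hBc S h) _ (hBc S' h'))
    rw [← compl_union, compl_compl] at h1
    exact h1
  have hsd : ∀ S S' : Set Z, S ∈ B → S' ∈ B → symmDiff S S' ∈ B := by
    intro S S' h h'
    exact hun _ _ (hdf _ _ h h') (hdf _ _ h' h)
  have htr : ∀ S S' S'' : Set Z, S ∈ B → S' ∈ B → S'' ∈ B → symmDiff S S' ∈ J →
      symmDiff S' S'' ∈ J → symmDiff S S'' ∈ J := by
    intro S S' S'' h h' h'' h1 h2
    exact hJ.down _ (hJ.union _ h1 _ h2) _ (hsd _ _ h h'') (symmDiff_triangle S S' S'')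
  have hpre : ∀ (x : ℚ) (S S' : Set Z), symmDiff S S' ∈ J →
      symmDiff ((u x : Z → Z) ⁻¹' S) ((u x : Z → Z) ⁻¹' S') ∈ J := by
    intro x S S' h
    exact hJ.inv (u x) (huΓ x) _ h
  have hadd : ∀ (x y : ℚ) (S : Set Z),
      (u y : Z → Z) ⁻¹' ((u x : Z → Z) ⁻¹' S) = (u (x + y) : Z → Z) ⁻¹' S := by
    intro x y S
    rw [hu x y]
    rfl
  have h0 : u 0 = 1 := by
    have h1 := hu 0 0
    rw [add_zero] at h1
    exact (left_eq_mul.1 h1)
  have h0' : ∀ S : Set Z, (u 0 : Z → Z) ⁻¹' S = S := by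
    intro S
    rw [h0]
    rfl
  have hF : ((N + 1).factorial : ℚ) ≠ 0 := by
    exact_mod_cast (Nat.factorial_pos (N + 1)).ne'
  set h := a / ((N + 1).factorial : ℚ) with hh
  obtain ⟨i, j, hij, hJij⟩ := hN (fun k => (u ((k : ℕ) * h) : Z → Z) ⁻¹' S)
    (fun k => hΓ _ (huΓ _) _ hS)
  have hij' : (i : ℕ) < (j : ℕ) := hij
  obtain ⟨d, hd⟩ : ∃ d : ℕ, (j : ℕ) = i + d := ⟨j - i, by omega⟩
  have hd0 : 0 < d := by omega
  have hdN : d ≤ N + 1 := by
    have := j.2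
    omega
  have hstep : symmDiff S ((u (d * h) : Z → Z) ⁻¹' S) ∈ J := by
    have h1 := hpre (-((i : ℕ) * h)) _ _ hJij
    rw [hadd, hadd, add_neg_cancel, h0'] at h1
    have h2 : ((j : ℕ) : ℚ) * h + -(((i : ℕ) : ℚ) * h) = d * h := by
      rw [hd]
      push_cast
      ring
    rw [h2] at h1
    exact h1
  have hiter : ∀ m : ℕ, symmDiff S ((u (m * (d * h)) : Z → Z) ⁻¹' S) ∈ J := by
    intro m
    induction m with
    | zero =>
      rw [Nat.cast_zero, zero_mul, h0', symmDiff_self]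
      exact hJ.empty
    | succ m ih =>
      have h1 := hpre (d * h) _ _ ih
      rw [hadd] at h1
      have h2 : ((m + 1 : ℕ) : ℚ) * (d * h) = m * (d * h) + d * h := by
        push_cast
        ring
      rw [h2]
      exact htr _ _ _ hS (hΓ _ (huΓ _) _ hS) (hΓ _ (huΓ _) _ hS) hstep h1
  obtain ⟨m, hm⟩ := Nat.dvd_factorial hd0 hdN
  have h3 := hiter m
  have h4 : (m : ℚ) * (d * h) = a := by
    have h5 : ((N + 1).factorial : ℚ) = d * m := by exact_mod_cast hm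
    rw [hh, ← mul_assoc, mul_comm (m : ℚ) d, ← h5, mul_div_cancel₀ _ hF]
  rw [h4] at h3
  exact h3

end VCR
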