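import Pool.Agent.VCR.Fo

/-!
# VCR-Itp: the calculus of an interpreted set
-/

open Set

namespace VCR

universe v w

/-- tuples of representatives of the tuples in `S` -/
def Pull {X : Type v} {Y : Type w} {κ : Type} (dom : Set (κ → X)) (val : (κ → X) → Y)
    {α : Type} (S : Set (α → Y)) : Set (α × κ → X) :=
  {x | (∀ a, (fun i => x (a, i)) ∈ dom) ∧ (fun a => val (fun i => x (a, i))) ∈ S}

theorem exists_interp {X : Type v} {Y : Type w} (𝓓 : Calc X) {κ : Type} [Finite κ]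
    (dom : Set (κ → X)) (val : (κ → X) → Y) (surj : ∀ y, ∃ u ∈ dom, val u = y)
    (hdom : dom ∈ 𝓓.D κ)
    (heq : Pull dom val {f : Bool → Y | f false = f true} ∈ 𝓓.D (Bool × κ)) :
    ∃ 𝓔 : Calc Y, ∀ (α : Type) [Finite α] (S : Set (α → Y)),
      S ∈ 𝓔.D α ↔ Pull dom val S ∈ 𝓓.D (α × κ) := by
  classical
  have hD : ∀ (α : Type) [Finite α],
      Dp 𝓓 (fun x : α × κ → X => ∀ a, (fun i => x (a, i)) ∈ dom) := fun α _ =>
    Dp.allfin fun a => Dp.preim (fun i : κ => (a, i)) (Q := fun u : κ → X => u ∈ dom) hdom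
  refine ⟨{ D := fun α => {S | Pull dom val S ∈ 𝓓.D (α × κ)}
            univ := ?_
            inter := ?_
            compl := ?_
            preim := ?_
            im := ?_
            eq := heq
            small := ?_ }, fun α _ S => Iff.rfl⟩
  · intro α _
    have h : Dp 𝓓 (fun x : α × κ → X => (∀ a, (fun i => x (a, i)) ∈ dom) ∧
        (fun a => val (fun i => x (a, i))) ∈ (Set.univ : Set (α → Y))) :=
      Dp.congr (fun x => ⟨fun h => ⟨h, Set.mem_univ _⟩, fun h => h.1⟩) (hD α)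
    exact h
  · intro α _ S S' hS hS'
    have h1 : Dp 𝓓 (fun x : α × κ → X => (∀ a, (fun i => x (a, i)) ∈ dom) ∧
        (fun a => val (fun i => x (a, i))) ∈ S) := hS
    have h2 : Dp 𝓓 (fun x : α × κ → X => (∀ a, (fun i => x (a, i)) ∈ dom) ∧
        (fun a => val (fun i => x (a, i))) ∈ S') := hS'
    have h : Dp 𝓓 (fun x : α × κ → X => (∀ a, (fun i => x (a, i)) ∈ dom) ∧
        (fun a => val (fun i => x (a, i))) ∈ S ∩ S') :=
      Dp.congr (fun x => ⟨fun h => ⟨h.1.1, h.1.2, h.2.2⟩, fun h => ⟨⟨h.1, h.2.1⟩, h.1, h.2.2⟩⟩)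
        (h1.and h2)
    exact h
  · intro α _ S hS
    have h1 : Dp 𝓓 (fun x : α × κ → X => (∀ a, (fun i => x (a, i)) ∈ dom) ∧
        (fun a => val (fun i => x (a, i))) ∈ S) := hS
    have h : Dp 𝓓 (fun x : α × κ → X => (∀ a, (fun i => x (a, i)) ∈ dom) ∧
        (fun a => val (fun i => x (a, i))) ∈ Sᶜ) :=
      Dp.congr (fun x => ⟨fun h => ⟨h.1, fun h' => h.2 ⟨h.1, h'⟩⟩,
        fun h => ⟨h.1, fun h' => h.2 h'.2⟩⟩) ((hD α).and h1.not)
    exact h
  · intro α β _ _ σ S hS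
    have h1 : Dp 𝓓 (fun x : α × κ → X => (∀ a, (fun i => x (a, i)) ∈ dom) ∧
        (fun a => val (fun i => x (a, i))) ∈ S) := hS
    have h : Dp 𝓓 (fun x : β × κ → X => (∀ a, (fun i => x (a, i)) ∈ dom) ∧
        (fun a => val (fun i => x (a, i))) ∈ {f : β → Y | f ∘ σ ∈ S}) :=
      Dp.congr (fun x => ⟨fun h => ⟨h.1, h.2.2⟩, fun h => ⟨h.1, fun a => h.1 (σ a), h.2⟩⟩)
        ((hD β).and (Dp.preim (fun p : α × κ => (σ p.1, p.2)) h1))
    exact h
  · intro α β _ _ σ S hS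
    have h1 : Dp 𝓓 (fun x : β × κ → X => (∀ a, (fun i => x (a, i)) ∈ dom) ∧
        (fun a => val (fun i => x (a, i))) ∈ S) := hS
    have h2 : Dp 𝓓 (fun x : Bool × κ → X => (∀ a, (fun i => x (a, i)) ∈ dom) ∧
        val (fun i => x (false, i)) = val (fun i => x (true, i))) := heq
    have h3 := (Dp.preim (Sum.inr : β × κ → (α × κ) ⊕ (β × κ)) h1).and
      ((Dp.preim (Sum.inl : α × κ → (α × κ) ⊕ (β × κ)) (hD α)).and
        (Dp.allfin fun a : α => Dp.preim (fun p : Bool × κ =>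
          (cond p.1 (Sum.inr (σ a, p.2)) (Sum.inl (a, p.2)) : (α × κ) ⊕ (β × κ))) h2))
    have h4 := Dp.im (Sum.inl : α × κ → (α × κ) ⊕ (β × κ)) h3
    have h : Dp 𝓓 (fun x : α × κ → X => (∀ a, (fun i => x (a, i)) ∈ dom) ∧
        (fun a => val (fun i => x (a, i))) ∈ {f : α → Y | ∃ g ∈ S, g ∘ σ = f}) := by
      refine Dp.congr (fun w => ⟨?_, ?_⟩) h4
      · rintro ⟨g, ⟨⟨hA, hB⟩, hC, hE⟩, rfl⟩
        exact ⟨hC, fun b => val (fun i => g (Sum.inr (b, i))), hB, funext fun a => (hE a).2.symm⟩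
      · rintro ⟨hw, g, hg, hgσ⟩
        choose u hu1 hu2 using fun b => surj (g b)
        have hug : (fun b => val (u b)) = g := funext hu2
        refine ⟨Sum.elim w (fun p => u p.1 p.2), ⟨⟨hu1, ?_⟩, hw, fun a =>
          ⟨Bool.forall_bool.2 ⟨hw a, hu1 (σ a)⟩, (congrFun hgσ a).symm.trans (hu2 (σ a)).symm⟩⟩,
          rfl⟩
        show (fun b => val (u b)) ∈ S
        rw [hug]
        exact hg
    exact h
  · intro α _ T hT h
    have hlift : ∀ g : α → Y, ∃ x : α × κ → X, (∀ a, (fun i => x (a, i)) ∈ dom) ∧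
        (fun a => val (fun i => x (a, i))) = g := by
      intro g
      choose u hu1 hu2 using fun a => surj (g a)
      exact ⟨fun p => u p.1 p.2, fun a => hu1 a, funext fun a => hu2 a⟩
    refine 𝓓.small (fun s => Pull dom val (T s)) ⟨?_, ?_, ?_⟩ h
    · intro s
      obtain ⟨g, hg⟩ := hT.ne s
      obtain ⟨x, hx1, hx2⟩ := hlift g
      refine ⟨x, hx1, ?_⟩
      rw [hx2]
      exact hg
    · intro i s x hx
      exact ⟨hx.1, hT.sub i s hx.2⟩
    · intro s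
      rw [Set.disjoint_left]
      intro x hx hx'
      exact Set.disjoint_left.1 (hT.disj s) hx.2 hx'.2

theorem exists_calc_one {X : Type v} {Y : Type w} (𝓓 : Calc X) (dom : Set X) (val : X → Y)
    (surj : ∀ y, ∃ u ∈ dom, val u = y) (hdom : DS 𝓓 dom)
    (heq : DR₂ 𝓓 (fun a b => a ∈ dom ∧ b ∈ dom ∧ val a = val b)) :
    ∃ 𝓔 : Calc Y, ∀ (α : Type) [Finite α] (Q : (α → Y) → Prop),
      Dp 𝓔 Q ↔ Dp 𝓓 (fun f : α → X => (∀ a, f a ∈ dom) ∧ Q (fun a => val (f a))) := by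
  obtain ⟨𝓔, h𝓔⟩ := exists_interp 𝓓 (κ := Unit) {u : Unit → X | u () ∈ dom}
    (fun u => val (u ())) (fun y => by
      obtain ⟨u, hu1, hu2⟩ := surj y
      exact ⟨fun _ => u, hu1, hu2⟩) hdom (by
      have h1 := Dp.preim (fun b : Bool => (b, ())) heq
      have h2 : Dp 𝓓 (fun x : Bool × Unit → X => (∀ a, x (a, ()) ∈ dom) ∧
          val (x (false, ())) = val (x (true, ()))) :=
        Dp.congr (fun x => ⟨fun h => ⟨Bool.forall_bool.2 ⟨h.1, h.2.1⟩, h.2.2⟩,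
          fun h => ⟨h.1 false, h.1 true, h.2⟩⟩) h1
      exact h2)
  refine ⟨𝓔, fun α _ Q => ?_⟩
  have h0 : Dp 𝓔 Q ↔ Dp 𝓓 (fun x : α × Unit → X => (∀ a, x (a, ()) ∈ dom) ∧
      Q (fun a => val (x (a, ())))) := h𝓔 α {f | Q f}
  rw [h0]
  constructor
  · intro h
    exact Dp.preim (Prod.fst : α × Unit → α) h
  · intro h
    exact Dp.preim (fun a : α => (a, ())) h

end VCR
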