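import Pool.Agent.VCR.Cmod
import Pool.Agent.VCR.Adj
import Pool.Agent.VCR.Itp

/-!
# VCR-IntC: a ring interpreted in a model of a theory without perfectly many countable models
-/

open Set FirstOrder

namespace VCR

universe u v

theorem mem_of_definable {L : FirstOrder.Language.{0, 0}} {M : Type u} [L.Structure M]
    (𝓓 𝓔 : Calc M) (h𝓓 : ∀ (α : Type) [Finite α] (S : Set (α → M)),
      (∅ : Set M).Definable L S → S ∈ 𝓓.D α) (hle : 𝓓 ≤ 𝓔) (A : Finset M)
    (hA : ∀ x ∈ A, DE 𝓔 x) (α : Type) [Finite α] (S : Set (α → M))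
    (hS : (A : Set M).Definable L S) : S ∈ 𝓔.D α := by
  classical
  rw [Set.definable_iff_exists_formula_sum] at hS
  obtain ⟨φ, hφ⟩ := hS
  let e : Fin A.card ≃ (A : Set M) := A.equivFin.symm
  have h1 : {h : Fin A.card ⊕ α → M | φ.Realize (h ∘ Sum.map e.symm id)} ∈
      𝓓.D (Fin A.card ⊕ α) := by
    apply h𝓓
    rw [Set.empty_definable_iff]
    refine ⟨φ.relabel (Sum.map e.symm id), ?_⟩
    ext h
    simp only [Set.mem_ofPred_eq]
    rw [show (FirstOrder.Language.Formula.relabel (Sum.map e.symm id) φ).Realize h ↔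
      φ.Realize (h ∘ Sum.map e.symm id) from FirstOrder.Language.Formula.realize_relabel]
  have h2 : Dp 𝓔 (fun h : Fin A.card ⊕ α → M => φ.Realize (h ∘ Sum.map e.symm id)) := hle _ h1
  have h3 := Dp.sub (α := α) h2 (t := fun o v => Sum.elim (fun i => (e i : M)) v o) (by
    rintro (i | a)
    · exact DE.app (hA _ (e i).2)
    · exact Df.var a)
  rw [hφ]
  refine Dp.congr (fun v => ?_) h3
  have : (fun o => Sum.elim (fun i => (e i : M)) v o) ∘ Sum.map e.symm id =
      Sum.elim (fun x : (A : Set M) => (x : M)) v := by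
    funext o
    rcases o with o | o <;> simp
  rw [this]

theorem exists_calc_of_interp {L : FirstOrder.Language.{0, 0}} [Countable L.Symbols]
    (T : L.Theory) {M : Type u} [L.Structure M] [Nonempty M] (hM : M ⊨ T) (hP : ¬ PerfectMany T)
    {R : Type v} [Ring R] [Infinite R] (hI : Interpretable L M R) :
    ∃ 𝓓 : Calc R, RC 𝓓 := by
  classical
  obtain ⟨k, dom, val, surj, hdom, heq, hadd, hmul⟩ := hI
  have hMinf : Infinite M := by
    rw [← not_finite_iff_infinite]
    intro hf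
    have : Finite R := Finite.of_surjective val fun r => by
      obtain ⟨u, _, hu⟩ := surj r
      exact ⟨u, hu⟩
    exact not_finite R
  rw [Set.definable_iff_finitely_definable] at hdom heq hadd hmul
  obtain ⟨A₁, -, h₁⟩ := hdom
  obtain ⟨A₂, -, h₂⟩ := heq
  obtain ⟨A₃, -, h₃⟩ := hadd
  obtain ⟨A₄, -, h₄⟩ := hmul
  obtain ⟨𝓓, h𝓓⟩ := exists_calc_model T hM hP
  obtain ⟨𝓔, hle, hA⟩ := exists_adj_finset 𝓓 (A₁ ∪ A₂ ∪ A₃ ∪ A₄)
  have key : ∀ (α : Type) [Finite α] (S : Set (α → M)) (B : Finset M),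
      B ⊆ A₁ ∪ A₂ ∪ A₃ ∪ A₄ → (B : Set M).Definable L S → S ∈ 𝓔.D α := by
    intro α _ S B hB hS
    exact mem_of_definable 𝓓 𝓔 h𝓓 hle _ hA α S (hS.mono (by exact_mod_cast hB))
  have k₁ := key _ _ A₁ (fun x hx => by simp [hx]) h₁
  have k₂ := key _ _ A₂ (fun x hx => by simp [hx]) h₂
  have k₃ := key _ _ A₃ (fun x hx => by simp [hx]) h₃
  have k₄ := key _ _ A₄ (fun x hx => by simp [hx]) h₄
  obtain ⟨𝓕, h𝓕⟩ := exists_interp 𝓔 dom val surj k₁ (by
    have := 𝓔.preim (fun p : Fin 2 × Fin k => (decide (p.1 = 1), p.2)) k₂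
    convert this using 1
    ext w
    simp only [Pull, Set.mem_ofPred_eq, Function.comp_def, Fin.forall_fin_two, Bool.forall_bool]
    simp)
  refine ⟨𝓕, ⟨?_, ?_⟩⟩
  · show _ ∈ 𝓕.D _
    rw [h𝓕]
    have := 𝓔.preim (fun p : Fin 3 × Fin k =>
      ((![some false, some true, none] p.1 : Option Bool), p.2)) k₃
    convert this using 1
    ext w
    simp only [Pull, Set.mem_ofPred_eq, Function.comp_def, Fin.forall_fin_succ, Option.forall,
      Bool.forall_bool]
    simp
    rw [eq_comm (a := val fun i => w (none, i))]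
    tauto
  · show _ ∈ 𝓕.D _
    rw [h𝓕]
    have := 𝓔.preim (fun p : Fin 3 × Fin k =>
      ((![some false, some true, none] p.1 : Option Bool), p.2)) k₄
    convert this using 1
    ext w
    simp only [Pull, Set.mem_ofPred_eq, Function.comp_def, Fin.forall_fin_succ, Option.forall,
      Bool.forall_bool]
    simp
    rw [eq_comm (a := val fun i => w (none, i))]
    tauto

end VCR
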