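import Mathlib

/-!
# VCR-MacA: prime degree Galois extensions inside finite Galois extensions

`BadPrime K q`: some finite extension `F` of `K` has a Galois extension of degree `q`.
-/

open Set

namespace VCR

universe v

/-- some finite extension of `K` has a Galois extension of degree `q` -/
def BadPrime (K : Type v) [Field K] (q : ℕ) : Prop :=
  ∃ (F : Type v) (_ : Field F) (_ : Algebra K F) (N : Type v) (_ : Field N) (_ : Algebra F N),
    FiniteDimensional K F ∧ FiniteDimensional F N ∧ IsGalois F N ∧ Module.finrank F N = q

theorem bad_of_galois {K F N : Type v} [Field K] [Field F] [Algebra K F] [FiniteDimensional K F]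
    [Field N] [Algebra F N] [FiniteDimensional F N] [IsGalois F N] (p : ℕ) (hp : p.Prime)
    (hdvd : p ∣ Module.finrank F N) : BadPrime K p := by
  haveI : Fact p.Prime := ⟨hp⟩
  have h1 : p ∣ Nat.card (N ≃ₐ[F] N) := by
    rw [IsGalois.card_aut_eq_finrank]
    exact hdvd
  obtain ⟨g, hg⟩ := exists_prime_orderOf_dvd_card' p h1
  let H : Subgroup (N ≃ₐ[F] N) := Subgroup.zpowers g
  let F' : IntermediateField F N := IntermediateField.fixedField H
  have h2 : Module.finrank F' N = p := by
    rw [IntermediateField.finrank_fixedField_eq_card, Nat.card_zpowers, hg]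
  letI : Algebra K F' := ((algebraMap F F').comp (algebraMap K F)).toAlgebra
  haveI : IsScalarTower K F F' := IsScalarTower.of_algebraMap_eq' rfl
  haveI : FiniteDimensional K F' := FiniteDimensional.trans K F F'
  exact ⟨F', inferInstance, inferInstance, N, inferInstance, inferInstance, inferInstance,
    inferInstance, inferInstance, h2⟩

end VCR
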