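import Pool.Agent.VCR.MacA

/-!
# VCR-MacB: no bad primes if all elements of all finite extensions have all prime roots

Strong induction on the prime: Kummer theory if there is a primitive root of unity, otherwise the
cyclotomic extension has degree smaller than the prime and different from one.
-/

open Set

namespace VCR

universe v

/-- Kummer theory: no Galois extension of prime degree `q` if there is a primitive `q`-th root of
unity and all elements are `q`-th powers -/
theorem no_kummer {F N : Type v} [Field F] [Field N] [Algebra F N] [FiniteDimensional F N]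
    [IsGalois F N] (q : ℕ) (hq : q.Prime) (hfin : Module.finrank F N = q)
    (hroot : ∀ x : F, ∃ y, y ^ q = x) (z : F) (hz : IsPrimitiveRoot z q) : False := by
  haveI : Fact q.Prime := ⟨hq⟩
  have hcard : Nat.card (N ≃ₐ[F] N) = q := (IsGalois.card_aut_eq_finrank F N).trans hfin
  haveI : IsCyclic (N ≃ₐ[F] N) := isCyclic_of_prime_card hcard
  have hK : (primitiveRoots (Module.finrank F N) F).Nonempty := by
    refine ⟨z, ?_⟩
    rw [hfin, mem_primitiveRoots hq.pos]
    exact hz
  obtain ⟨α, ⟨a, ha⟩, hα⟩ := exists_root_adjoin_eq_top_of_isCyclic F N hK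
  rw [hfin] at ha
  obtain ⟨b, hb⟩ := hroot a
  have hαmem : α ∈ (⊥ : IntermediateField F N) := by
    by_cases hb0 : b = 0
    · have hα0 : α = 0 := by
        rw [← hb, hb0, zero_pow hq.ne_zero, map_zero] at ha
        exact pow_eq_zero_iff hq.ne_zero |>.mp ha.symm
      rw [hα0]
      exact zero_mem _
    · have hb1 : algebraMap F N b ≠ 0 := by
        rw [Ne, map_eq_zero]
        exact hb0
      have hpow : (α / algebraMap F N b) ^ q = 1 := by
        rw [div_pow, ← ha, ← map_pow, hb]
        refine div_self ?_
        rw [← hb, map_pow]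
        exact pow_ne_zero _ hb1
      have hz' : IsPrimitiveRoot (algebraMap F N z) q :=
        hz.map_of_injective (algebraMap F N).injective
      obtain ⟨i, _, hi⟩ := hz'.eq_pow_of_pow_eq_one hpow
      have hα' : α = algebraMap F N (z ^ i * b) := by
        rw [map_mul, map_pow, hi, div_mul_cancel₀ _ hb1]
      rw [hα']
      exact IntermediateField.algebraMap_mem _ _
  have htop : (⊤ : IntermediateField F N) = ⊥ := by
    rw [← hα, IntermediateField.adjoin_simple_eq_bot_iff]
    exact hαmem
  have h1 : Module.finrank F N = 1 := by
    rw [← IntermediateField.finrank_top', htop, IntermediateField.finrank_bot]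
  rw [hfin] at h1
  exact hq.one_lt.ne' h1

/-- the cyclotomic extension of prime level `q` has degree less than `q` -/
theorem cyclotomic_finrank_lt {F C : Type v} [Field F] [CharZero F] [Field C] [Algebra F C]
    (q : ℕ) (hq : q.Prime) [NeZero q] [IsCyclotomicExtension {q} F C] :
    Module.finrank F C < q := by
  have hz := IsCyclotomicExtension.zeta_spec q F C
  haveI : CharZero C := charZero_of_injective_algebraMap (algebraMap F C).injective
  haveI : NeZero ((q : ℕ) : C) := ⟨Nat.cast_ne_zero.mpr hq.ne_zero⟩
  rw [(hz.powerBasis F).finrank, ← PowerBasis.natDegree_minpoly]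
  have hdvd : minpoly F (hz.powerBasis F).gen ∣ Polynomial.cyclotomic q F := by
    apply minpoly.dvd
    rw [IsPrimitiveRoot.powerBasis_gen]
    exact IsCyclotomicExtension.aeval_zeta q F C
  have hle := Polynomial.natDegree_le_of_dvd hdvd (Polynomial.cyclotomic_ne_zero q F)
  rw [Polynomial.natDegree_cyclotomic, Nat.totient_prime hq] at hle
  have := hq.pos
  omega

theorem not_bad {K : Type v} [Field K] [CharZero K]
    (h : ∀ (L : Type v) [Field L] [Algebra K L] [FiniteDimensional K L] (q : ℕ), q.Prime →
      ∀ x : L, ∃ y, y ^ q = x) (q : ℕ) (hq : q.Prime) : ¬ BadPrime K q := by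
  induction q using Nat.strong_induction_on with
  | _ q ih =>
    rintro ⟨F, _, _, N, _, _, hKF, hFN, hgal, hfin⟩
    haveI := hKF
    haveI := hFN
    haveI := hgal
    haveI : CharZero F := charZero_of_injective_algebraMap (algebraMap K F).injective
    by_cases hz : ∃ z : F, IsPrimitiveRoot z q
    · obtain ⟨z, hz⟩ := hz
      exact no_kummer q hq hfin (h F q hq) z hz
    · haveI : NeZero q := ⟨hq.ne_zero⟩
      haveI : NeZero ((q : ℕ) : F) := ⟨Nat.cast_ne_zero.mpr hq.ne_zero⟩
      let C : Type v := CyclotomicField q F
      haveI : IsCyclotomicExtension {q} F C := CyclotomicField.isCyclotomicExtension q F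
      haveI : FiniteDimensional F C := IsCyclotomicExtension.finiteDimensional {q} F C
      haveI : IsGalois F C := IsCyclotomicExtension.isGalois {q} F C
      have hlt := cyclotomic_finrank_lt (F := F) (C := C) q hq
      have hne : Module.finrank F C ≠ 1 := by
        intro h1
        have hbot : (⊥ : Subalgebra F C) = ⊤ := Subalgebra.bot_eq_top_of_finrank_eq_one h1
        have hmem : IsCyclotomicExtension.zeta q F C ∈ (⊥ : Subalgebra F C) := by
          rw [hbot]
          exact Algebra.mem_top
        obtain ⟨z, hz'⟩ := Algebra.mem_bot.mp hmem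
        have hzs := IsCyclotomicExtension.zeta_spec q F C
        rw [← hz'] at hzs
        exact hz ⟨z, hzs.of_map_of_injective (algebraMap F C).injective⟩
      obtain ⟨p, hp, hpd⟩ := Nat.exists_prime_and_dvd hne
      have hpos : 0 < Module.finrank F C := Module.finrank_pos
      have hple : p ≤ Module.finrank F C := Nat.le_of_dvd hpos hpd
      exact ih p (lt_of_le_of_lt hple hlt) hp (bad_of_galois p hp hpd)

end VCR
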