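import Pool.Agent.VCR.Defs

/-!
# VCR-RInt: a coded ring is interpretable in its code
-/

open Set FirstOrder

namespace VCR

theorem interpretable_self {s : Str FirstOrder.Language.ring} {R : Type} [Ring R]
    (h : IsRingStr s R) : @Interpretable FirstOrder.Language.ring ℕ (toStructure s) R _ := by
  letI := toStructure s
  obtain ⟨e, hadd, hmul, -, -, -⟩ := h
  refine ⟨1, Set.univ, fun u => e (u 0), fun r => ⟨fun _ => e.symm r, trivial, e.apply_symm_apply r⟩,
    Set.definable_univ, ?_, ?_, ?_⟩
  · refine Set.Definable.mono (A := ∅) ?_ (Set.empty_subset _)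
    rw [Set.empty_definable_iff]
    refine ⟨(Language.var (((0 : Fin 2), (0 : Fin 1)) : Fin 2 × Fin 1)).equal
      (Language.var (((1 : Fin 2), (0 : Fin 1)) : Fin 2 × Fin 1)), ?_⟩
    ext w
    rw [mem_ofPred_eq, mem_ofPred_eq, Language.Formula.realize_equal]
    constructor
    · rintro ⟨-, h1⟩
      exact e.injective h1
    · intro h1
      exact ⟨fun _ => trivial, congrArg e h1⟩
  · refine Set.Definable.mono (A := ∅) ?_ (Set.empty_subset _)
    rw [Set.empty_definable_iff]
    refine ⟨(Language.Functions.apply₂ Ring.addFunc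
      (Language.var (((0 : Fin 3), (0 : Fin 1)) : Fin 3 × Fin 1))
      (Language.var (((1 : Fin 3), (0 : Fin 1)) : Fin 3 × Fin 1))).equal
      (Language.var (((2 : Fin 3), (0 : Fin 1)) : Fin 3 × Fin 1)), ?_⟩
    ext w
    rw [mem_ofPred_eq, mem_ofPred_eq, Language.Formula.realize_equal,
      Language.Term.realize_functions_apply₂]
    have h2 := hadd ![w (0, 0), w (1, 0)]
    constructor
    · rintro ⟨-, h1⟩
      apply e.injective
      exact h2.trans h1
    · intro h1
      exact ⟨fun _ => trivial, h2.symm.trans (congrArg e h1)⟩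
  · refine Set.Definable.mono (A := ∅) ?_ (Set.empty_subset _)
    rw [Set.empty_definable_iff]
    refine ⟨(Language.Functions.apply₂ Ring.mulFunc
      (Language.var (((0 : Fin 3), (0 : Fin 1)) : Fin 3 × Fin 1))
      (Language.var (((1 : Fin 3), (0 : Fin 1)) : Fin 3 × Fin 1))).equal
      (Language.var (((2 : Fin 3), (0 : Fin 1)) : Fin 3 × Fin 1)), ?_⟩
    ext w
    rw [mem_ofPred_eq, mem_ofPred_eq, Language.Formula.realize_equal,
      Language.Term.realize_functions_apply₂]
    have h2 := hmul ![w (0, 0), w (1, 0)]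
    constructor
    · rintro ⟨-, h1⟩
      apply e.injective
      exact h2.trans h1
    · intro h1
      exact ⟨fun _ => trivial, h2.symm.trans (congrArg e h1)⟩

end VCR
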