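import Pool.Agent.VCR.Fin
import Pool.Agent.VCR.IntC
import Pool.Agent.VCR.ClsA
import Pool.Agent.VCR.ClsB
import Pool.Agent.VCR.RInt

/-!
# VCR-Main: assembly
-/

open Set FirstOrder

namespace VCR

universe u v

/-- `R` is a finite product of algebraically closed fields of characteristic `0` and of division
rings of characteristic `0` of Cohn type. -/
def IsCohnProduct (R : Type v) [Ring R] : Prop :=
  ∃ (n m : ℕ) (K : Fin n → Type v) (_ : ∀ i, Field (K i)) (E : Fin m → Type v)
    (_ : ∀ j, DivisionRing (E j)), (∀ i, CharZero (K i) ∧ IsAlgClosed (K i)) ∧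
    (∀ j, CharZero (E j) ∧ CohnType (E j)) ∧ Nonempty (R ≃+* (∀ i, K i) × (∀ j, E j))

theorem part_one {L : FirstOrder.Language.{0, 0}} [Countable L.Symbols] (T : L.Theory)
    {M : Type u} [L.Structure M] (hM : M ⊨ T) (R : Type v) [Ring R]
    (hI : Interpretable L M R) (hred : IsReduced R)
    (htf : ∀ (n : ℕ) (x : R), n ≠ 0 → n • x = 0 → x = 0) :
    IsCohnProduct R ∨ PerfectMany T := by
  by_cases hP : PerfectMany T
  · exact Or.inr hP
  refine Or.inl ?_
  have hred' : ∀ x : R, x * x = 0 → x = 0 := fun x hx => by
    refine hred.eq_zero x ⟨2, ?_⟩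
    rw [pow_two]; exact hx
  rcases subsingleton_or_nontrivial R with hs | hn
  · refine ⟨0, 0, fun _ => PUnit, fun i => i.elim0, fun _ => PUnit, fun i => i.elim0,
      fun i => i.elim0, fun i => i.elim0, ⟨?_⟩⟩
    letI : ∀ i : Fin 0, Field ((fun _ => PUnit : Fin 0 → Type v) i) := fun i => i.elim0
    letI : ∀ i : Fin 0, DivisionRing ((fun _ => PUnit : Fin 0 → Type v) i) := fun i => i.elim0
    refine
      { toFun := fun _ => (fun i => i.elim0, fun i => i.elim0)
        invFun := fun _ => 0
        left_inv := fun x => Subsingleton.elim _ _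
        right_inv := fun x => Subsingleton.elim _ _
        map_mul' := fun x y => Subsingleton.elim _ _
        map_add' := fun x y => Subsingleton.elim _ _ }
  · haveI : Infinite R := by
      refine Infinite.of_injective (fun n : ℕ => (n : R)) ?_
      haveI : CharZero R := by
        refine charZero_of_inj_zero fun n hn' => ?_
        by_contra h0
        refine one_ne_zero (htf n (1 : R) h0 ?_)
        rw [nsmul_eq_mul, hn', zero_mul]
      exact Nat.cast_injective
    haveI : Nonempty M := by
      by_contra hne
      rw [not_nonempty_iff] at hne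
      obtain ⟨k, dom, val, hs, -⟩ := hI
      haveI : Finite (Fin k → M) := inferInstance
      exact not_finite_iff_infinite.2 (inferInstance : Infinite R)
        (Finite.of_surjective val fun r => (hs r).imp fun u hu => hu.2)
    obtain ⟨𝓓, h𝓓⟩ := exists_calc_of_interp T hM hP hI
    exact decomp_of_calc 𝓓 hred' htf

theorem part_two (T : FirstOrder.Language.ring.Theory)
    (hT : ∀ s ∈ Mod T, ∃ (R : Type) (_ : Ring R), IsRingStr s R ∧ IsReduced R ∧
      (∀ (n : ℕ) (x : R), n ≠ 0 → n • x = 0 → x = 0) ∧
      ∀ (D : Type) (_ : DivisionRing D) (f : R →+* D), Function.Surjective f → ¬ CohnType D) :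
    VC2 T := by
  classical
  by_cases hP : PerfectMany T
  · exact Or.inr hP
  refine Or.inl ?_
  have key : ∀ s ∈ Mod T, ∃ (R : Type) (_ : Ring R) (n : ℕ) (K : Fin n → Type)
      (_ : ∀ i, Field (K i)), IsRingStr s R ∧ (∀ i, CharZero (K i) ∧ IsAlgClosed (K i) ∧
        Countable (K i)) ∧ Nonempty (R ≃+* ∀ i, K i) := by
    intro s hs
    obtain ⟨R, _, hR, hred, htf, hno⟩ := hT s hs
    letI := toStructure s
    haveI : Countable (FirstOrder.Language.ring).Symbols := by
      haveI : Countable (Σ l, FirstOrder.Language.ring.Functions l) := by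
        have : ∀ l, Countable (FirstOrder.Language.ring.Functions l) := fun l => by
          change Countable (FirstOrder.ringFunc l)
          refine Function.Injective.countable (f := fun x : FirstOrder.ringFunc l =>
            (match x with
              | .add => 0
              | .mul => 1
              | .neg => 2
              | .zero => 3
              | .one => 4 : ℕ)) ?_
          intro a b h
          cases a <;> cases b <;> simp_all
        infer_instance
      haveI : Countable (Σ l, FirstOrder.Language.ring.Relations l) := by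
        have : IsEmpty (Σ l, FirstOrder.Language.ring.Relations l) := ⟨fun x => by
          obtain ⟨l, x⟩ := x
          exact (inferInstance : IsEmpty (FirstOrder.Language.ring.Relations l)).elim x⟩
        infer_instance
      exact inferInstanceAs (Countable ((Σ l, FirstOrder.Language.ring.Functions l) ⊕
        (Σ l, FirstOrder.Language.ring.Relations l)))
    rcases part_one T (M := ℕ) hs R (interpretable_self hR) hred htf with h | h
    · obtain ⟨n, m, K, hK, E, hE, h1, h2, ⟨e⟩⟩ := h
      have hm : m = 0 := by
        by_contra hm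
        have j : Fin m := ⟨0, Nat.pos_of_ne_zero hm⟩
        refine hno (E j) (hE j)
          (((Pi.evalRingHom E j).comp (RingHom.snd (∀ i, K i) (∀ j, E j))).comp e.toRingHom)
          (fun x => ⟨e.symm (0, Pi.single j x), by simp⟩) (h2 j).2
      subst hm
      have hc : ∀ i, Countable (K i) := fun i => by
        obtain ⟨g, _⟩ := hR
        haveI : Countable R := g.symm.injective.countable
        refine Function.Surjective.countable
          (f := fun x : R => (e x).1 i) (fun x => ⟨e.symm (Pi.single i x, 0), by simp⟩)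
      refine ⟨R, inferInstance, n, K, hK, hR, fun i => ⟨(h1 i).1, (h1 i).2, hc i⟩, ⟨?_⟩⟩
      exact e.trans
        { toFun := fun x => x.1
          invFun := fun x => (x, fun j => j.elim0)
          left_inv := fun x => by
            ext j
            · rfl
            · exact j.elim0
          right_inv := fun x => rfl
          map_mul' := fun x y => rfl
          map_add' := fun x y => rfl }
    · exact absurd h hP
  -- classification by the transcendence degrees
  have key2 : ∀ s : Str FirstOrder.Language.ring, ∃ c : Σ n : ℕ, Fin n → ℕ∞, s ∈ Mod T →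
      ∃ (R : Type) (_ : Ring R) (K : Fin c.1 → Type) (_ : ∀ i, Field (K i)),
        IsRingStr s R ∧ (∀ i, CharZero (K i) ∧ IsAlgClosed (K i) ∧ Countable (K i)) ∧
        (∀ i, ∀ (_ : CharZero (K i)), Cardinal.toENat (Algebra.trdeg ℚ (K i)) = c.2 i) ∧
        Nonempty (R ≃+* ∀ i, K i) := by
    intro s
    by_cases hs : s ∈ Mod T
    · obtain ⟨R, hRing, n, K, hK, hR, hKi, hiso⟩ := key s hs
      haveI : ∀ i, CharZero (K i) := fun i => (hKi i).1
      exact ⟨⟨n, fun i => Cardinal.toENat (Algebra.trdeg ℚ (K i))⟩, fun _ =>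
        ⟨R, hRing, K, hK, hR, hKi, fun i _ => rfl, hiso⟩⟩
    · exact ⟨⟨0, fun i => 0⟩, fun h => absurd h hs⟩
  choose c hc using key2
  refine countable_classes (Mod T) c fun s hs t ht hst => ?_
  obtain ⟨R, hRing, K, hK, hR, hKi, hinv, ⟨e⟩⟩ := hc s hs
  obtain ⟨R', hRing', K', hK', hR', hKi', hinv', ⟨e'⟩⟩ := hc t ht
  have hcast : ∀ (a b : Σ n : ℕ, Fin n → ℕ∞) (_ : a = b) (K : Fin a.1 → Type)
      (hK : ∀ i, Field (K i)) (K' : Fin b.1 → Type) (hK' : ∀ i, Field (K' i))
      (hKi : ∀ i, CharZero (K i) ∧ IsAlgClosed (K i) ∧ Countable (K i))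
      (hKi' : ∀ i, CharZero (K' i) ∧ IsAlgClosed (K' i) ∧ Countable (K' i))
      (hinv : ∀ i, ∀ (_ : CharZero (K i)), Cardinal.toENat (Algebra.trdeg ℚ (K i)) = a.2 i)
      (hinv' : ∀ i, ∀ (_ : CharZero (K' i)), Cardinal.toENat (Algebra.trdeg ℚ (K' i)) = b.2 i),
      Nonempty ((∀ i, K i) ≃+* (∀ i, K' i)) := by
    rintro a b rfl K hK K' hK' hKi hKi' hinv hinv'
    have hi : ∀ i, Nonempty (K i ≃+* K' i) := fun i => by
      haveI := (hKi i).1
      haveI := (hKi i).2.1
      haveI := (hKi i).2.2
      haveI := (hKi' i).1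
      haveI := (hKi' i).2.1
      haveI := (hKi' i).2.2
      exact ringEquiv_of_trdeg ((hinv i inferInstance).trans (hinv' i inferInstance).symm)
    exact ⟨RingEquiv.piCongrRight fun i => (hi i).some⟩
  obtain ⟨g⟩ := hcast _ _ hst K hK K' hK' hKi hKi' hinv hinv'
  exact iso_of_ringEquiv hR hR' ((e.trans g).trans e'.symm)

end VCR
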