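import Mathlib

/-!
# VCR-Smp: nilpotent kernels in semiprime rings

PLAN. Let `K := {x | f x = 0}`, closed under multiplication by elements of `R` on both sides. Suppose
`x ∈ K`, `x ≠ 0`. Let `N` be least such that all products of `N` elements of `K` vanish (exists by `hN`,
`Nat.find`). `N ≠ 0`, since the empty product is `1 ≠ 0` (`x ≠ 0`, so `R` is nontrivial). `N ≠ 1` since
`x ≠ 0` is a product of one element. So `N = k + 2` and there is `z : Fin (k+1) → R` in `K` with
`p := (List.ofFn z).prod ≠ 0`. For every `y`: `p * y * p` is the product of the `2 (k+1) ≥ k + 2`
elements `z 0, ..., z k * y, z 0, ..., z k` of `K`, so it vanishes (write the list of length `2(k+1)` as a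
list of length `k + 2` times further factors: in a longer list the product of the first `N` is already
`0`; it is convenient to prove first: for every LIST `l` of elements of `K` with `N ≤ l.length`,
`l.prod = 0`, by `List.take`/`List.drop`, `List.prod_take_mul_prod_drop`, `List.ofFn_getElem`-like lemmas).
So `p = 0` by `hs`, contradiction.
-/

open Set

namespace VCR

universe v w

theorem ker_eq_zero_of_semiprime {R : Type v} {S : Type w} [Ring R] [Ring S] (f : R →+* S)
    (hs : ∀ x : R, (∀ y, x * y * x = 0) → x = 0) (N : ℕ)
    (hN : ∀ x : Fin N → R, (∀ i, f (x i) = 0) → (List.ofFn x).prod = 0) (x : R) (hx : f x = 0) :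
    x = 0 := by
  classical
  -- induct: all products of N kernel elements vanish implies kernel is zero
  induction N using Nat.strong_induction_on generalizing x with
  | _ N ih =>
    rcases N with _ | N
    · have h1 : (1 : R) = 0 := by simpa using hN (fun i => i.elim0) (fun i => i.elim0)
      rw [← mul_one x, h1, mul_zero]
    rcases N with _ | N
    · have := hN (fun _ => x) (fun _ => hx)
      simpa using this
    · -- products of N+1 elements vanish
      refine ih (N + 1) (by omega) (fun z hz => ?_) x hx
      apply hs
      intro y
      have hlist : ∀ l : List R, (∀ a ∈ l, f a = 0) → l.length = N + 1 + 1 → l.prod = 0 := by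
        intro l hl hlen
        have := hN (fun i => l.get (i.cast hlen.symm)) (fun i => hl _ (List.get_mem _ _))
        have h2 : List.ofFn (fun i : Fin (N + 1 + 1) => l.get (i.cast hlen.symm)) = l := by
          refine List.ext_getElem (by rw [List.length_ofFn, hlen]) fun k h1 h2 => ?_
          rw [List.getElem_ofFn]
          rfl
        rwa [h2] at this
      have hmem : ∀ a ∈ List.ofFn z, f a = 0 := by
        intro a ha
        obtain ⟨i, rfl⟩ := List.mem_ofFn.1 ha
        exact hz i
      obtain ⟨p, hp⟩ : ∃ p, p = (List.ofFn z).prod := ⟨_, rfl⟩
      have hfp : f p = 0 := by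
        rw [hp, List.ofFn_succ, List.prod_cons, map_mul, hz 0, zero_mul]
      have h3 := hlist (List.ofFn z ++ [y * p]) (by
        intro a ha
        rcases List.mem_append.1 ha with h | h
        · exact hmem a h
        · rw [List.mem_singleton.1 h, map_mul, hfp, mul_zero]) (by simp)
      rw [List.prod_append, ← hp] at h3
      simpa [mul_assoc, hp] using h3

end VCR
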