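import Pool.Agent.VCR.Fim
import Pool.Agent.VCR.Main
import Pool.Agent.VCR.Smp

/-!
# VCR-Maim: assembly of part 2
-/

open Set FirstOrder

namespace VCR

universe u v

theorem part_three {L : FirstOrder.Language.{0, 0}} [Countable L.Symbols] (T : L.Theory)
    {M : Type u} [L.Structure M] (hM : M ⊨ T) (R : Type v) [Ring R]
    (hI : Interpretable L M R)
    (htf : ∀ (n : ℕ) (x : R), n ≠ 0 → n • x = 0 → x = 0) :
    IsCohnSemiprimary R ∨ PerfectMany T := by
  by_cases hP : PerfectMany T
  · exact Or.inr hP
  refine Or.inl ?_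
  rcases subsingleton_or_nontrivial R with hs | hn
  · letI : ∀ i : Fin 0, Field ((fun _ => PUnit : Fin 0 → Type v) i) := fun i => i.elim0
    letI : ∀ i : Fin 0, DivisionRing ((fun _ => PUnit : Fin 0 → Type v) i) := fun i => i.elim0
    refine ⟨0, 0, fun _ => 1, fun _ => PUnit, inferInstance, fun _ => 1, fun _ => PUnit,
      inferInstance, ?_, fun i => i.elim0, fun i => i.elim0, ?_, 1, ?_⟩
    · exact
        { toFun := fun _ => (fun i => i.elim0, fun i => i.elim0)
          map_one' := Subsingleton.elim _ _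
          map_mul' := fun x y => Subsingleton.elim _ _
          map_zero' := Subsingleton.elim _ _
          map_add' := fun x y => Subsingleton.elim _ _ }
    · intro y
      exact ⟨0, Subsingleton.elim _ _⟩
    · intro x _
      exact Subsingleton.elim _ _
  · haveI : Infinite R := by
      refine Infinite.of_injective (fun n : ℕ => (n : R)) ?_
      haveI : CharZero R := by
        refine charZero_of_inj_zero fun n hn' => ?_
        by_contra h0
        refine one_ne_zero (htf n (1 : R) h0 ?_)
        rw [nsmul_eq_mul, hn', zero_mul]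
      exact Nat.cast_injective
    haveI : Nonempty M := by
      by_contra hne
      rw [not_nonempty_iff] at hne
      obtain ⟨k, dom, val, hs, -⟩ := hI
      haveI : Finite (Fin k → M) := inferInstance
      exact not_finite_iff_infinite.2 (inferInstance : Infinite R)
        (Finite.of_surjective val fun r => (hs r).imp fun u hu => hu.2)
    obtain ⟨𝓓, h𝓓⟩ := exists_calc_of_interp T hM hP hI
    exact decomp_semiprimary 𝓓 htf

/-- every ring interpretable in a model of a theory without perfectly many countable models is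
uniformly strongly pi-regular -/
theorem part_five {L : FirstOrder.Language.{0, 0}} [Countable L.Symbols] (T : L.Theory)
    {M : Type u} [L.Structure M] (hM : M ⊨ T) (R : Type v) [Ring R]
    (hI : Interpretable L M R) :
    (∃ n : ℕ, ∀ r : R, ∃ x y, r ^ n = r ^ (n + 1) * x ∧ r ^ n = y * r ^ (n + 1)) ∨
      PerfectMany T := by
  by_cases hP : PerfectMany T
  · exact Or.inr hP
  refine Or.inl ?_
  rcases finite_or_infinite R with hf | hinf
  · haveI := Fintype.ofFinite R
    refine ⟨Fintype.card R, fun r => ?_⟩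
    obtain ⟨i, j, hij, h⟩ := Fintype.exists_ne_map_eq_of_card_lt
      (fun k : Fin (Fintype.card R + 1) => r ^ (k : ℕ)) (by simp)
    wlog hlt : i < j generalizing i j
    · exact this j i hij.symm h.symm (lt_of_le_of_ne (not_lt.1 hlt) hij.symm)
    have hi : (i : ℕ) ≤ Fintype.card R := Nat.lt_succ_iff.1 i.2
    have h1 : r ^ (i : ℕ) = r ^ ((i : ℕ) + 1) * r ^ ((j : ℕ) - i - 1) := by
      rw [← pow_add]
      have : (i : ℕ) + 1 + ((j : ℕ) - i - 1) = j := by
        have := Fin.lt_def.1 hlt
        omega
      rw [this]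
      exact h
    refine ⟨r ^ ((j : ℕ) - i - 1), r ^ ((j : ℕ) - i - 1), ?_, ?_⟩
    · have h2 : Fintype.card R = (Fintype.card R - i) + i := by omega
      calc r ^ (Fintype.card R) = r ^ (Fintype.card R - i) * r ^ (i : ℕ) := by
            rw [← pow_add, ← h2]
        _ = r ^ (Fintype.card R - i) * (r ^ ((i : ℕ) + 1) * r ^ ((j : ℕ) - i - 1)) := by
            rw [← h1]
        _ = r ^ (Fintype.card R + 1) * r ^ ((j : ℕ) - i - 1) := by
            rw [← mul_assoc, ← pow_add]
            congr 2
            omega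
    · have h2 : Fintype.card R = i + (Fintype.card R - i) := by omega
      have h3 : r ^ (i : ℕ) = r ^ ((j : ℕ) - i - 1) * r ^ ((i : ℕ) + 1) := by
        rw [← pow_add]
        conv_lhs => rw [h1, ← pow_add]
        congr 1
        omega
      calc r ^ (Fintype.card R) = r ^ (i : ℕ) * r ^ (Fintype.card R - i) := by
            rw [← pow_add, ← h2]
        _ = (r ^ ((j : ℕ) - i - 1) * r ^ ((i : ℕ) + 1)) * r ^ (Fintype.card R - i) := by
            rw [← h3]
        _ = r ^ ((j : ℕ) - i - 1) * r ^ (Fintype.card R + 1) := by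
            rw [mul_assoc, ← pow_add]
            congr 2
            omega
  · haveI : Nonempty M := by
      by_contra hne
      rw [not_nonempty_iff] at hne
      obtain ⟨k, dom, val, hs, -⟩ := hI
      haveI : Finite (Fin k → M) := inferInstance
      exact not_finite_iff_infinite.2 hinf
        (Finite.of_surjective val fun r => (hs r).imp fun u hu => hu.2)
    obtain ⟨𝓓, h𝓓⟩ := exists_calc_of_interp T hM hP hI
    exact exists_pireg 𝓓

theorem countable_ring_symbols : Countable (FirstOrder.Language.ring).Symbols := by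
  haveI : Countable (Σ l, FirstOrder.Language.ring.Functions l) := by
    have : ∀ l, Countable (FirstOrder.Language.ring.Functions l) := fun l => by
      change Countable (FirstOrder.ringFunc l)
      refine Function.Injective.countable (f := fun x : FirstOrder.ringFunc l =>
        (match x with
          | .add => 0
          | .mul => 1
          | .neg => 2
          | .zero => 3
          | .one => 4 : ℕ)) ?_
      intro a b h
      cases a <;> cases b <;> simp_all
    infer_instance
  haveI : Countable (Σ l, FirstOrder.Language.ring.Relations l) := by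
    have : IsEmpty (Σ l, FirstOrder.Language.ring.Relations l) := ⟨fun x => by
      obtain ⟨l, x⟩ := x
      exact (inferInstance : IsEmpty (FirstOrder.Language.ring.Relations l)).elim x⟩
    infer_instance
  exact inferInstanceAs (Countable ((Σ l, FirstOrder.Language.ring.Functions l) ⊕
    (Σ l, FirstOrder.Language.ring.Relations l)))

/-- the last factor of a product of the given form splits off -/
theorem exists_factor {R : Type v} [Ring R] {n m : ℕ} (A : Fin n → Type v) [∀ i, Ring (A i)]
    (B : Fin m → Type v) [∀ j, Ring (B j)] (e : R ≃+* (∀ i, A i) × (∀ j, B j)) (j : Fin m) :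
    ∃ (R' : Type v) (_ : Ring R'), Nonempty (R ≃+* R' × B j) := by
  classical
  refine ⟨(∀ i, A i) × (∀ k : {k // k ≠ j}, B k), inferInstance, ⟨e.trans ?_⟩⟩
  refine
    { toFun := fun x => ((x.1, fun k => x.2 k), x.2 j)
      invFun := fun x => (x.1.1, fun k => if h : k = j then h ▸ x.2 else x.1.2 ⟨k, h⟩)
      left_inv := fun x => ?_
      right_inv := fun x => ?_
      map_mul' := fun x y => rfl
      map_add' := fun x y => rfl }
  · refine Prod.ext rfl (funext fun k => ?_)
    by_cases h : k = j
    · subst h; simp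
    · simp [h]
  · refine Prod.ext (Prod.ext rfl (funext fun k => ?_)) ?_
    · have hk : (k : Fin m) ≠ j := k.2
      simp [hk]
    · simp

theorem part_four (T : FirstOrder.Language.ring.Theory)
    (hT : ∀ s ∈ VCR.Mod T, ∃ (R : Type) (_ : Ring R), IsRingStr s R ∧
      (∀ (n : ℕ) (x : R), n ≠ 0 → n • x = 0 → x = 0) ∧
      (∀ x : R, (∀ y, x * y * x = 0) → x = 0) ∧
      ∀ (R' D : Type) (_ : Ring R') (_ : DivisionRing D) (n : ℕ), 0 < n → CohnType D →
        IsEmpty (R ≃+* R' × Matrix (Fin n) (Fin n) D)) :
    VC2 T := by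
  classical
  by_cases hP : PerfectMany T
  · exact Or.inr hP
  refine Or.inl ?_
  have key : ∀ s ∈ VCR.Mod T, ∃ (R : Type) (_ : Ring R) (n : ℕ) (a : Fin n → ℕ) (K : Fin n → Type)
      (_ : ∀ i, Field (K i)), IsRingStr s R ∧ (∀ i, CharZero (K i) ∧ IsAlgClosed (K i) ∧
        Countable (K i)) ∧ Nonempty (R ≃+* ∀ i, Matrix (Fin (a i)) (Fin (a i)) (K i)) := by
    intro s hs
    obtain ⟨R, _, hR, htf, hsp, hno⟩ := hT s hs
    letI := toStructure s
    haveI := countable_ring_symbols
    rcases part_three T (M := ℕ) hs R (interpretable_self hR) htf with h | h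
    · obtain ⟨n, m, a, K, hK, b, E, hE, f, h1, h2, hf, N, hN⟩ := h
      have hinj : Function.Injective f := by
        rw [injective_iff_map_eq_zero]
        exact fun x hx => ker_eq_zero_of_semiprime f hsp N hN x hx
      let e : R ≃+* (∀ i, Matrix (Fin (a i)) (Fin (a i)) (K i)) ×
        (∀ j, Matrix (Fin (b j)) (Fin (b j)) (E j)) := RingEquiv.ofBijective f ⟨hinj, hf⟩
      have hm : m = 0 := by
        by_contra hm
        have j : Fin m := ⟨0, Nat.pos_of_ne_zero hm⟩
        obtain ⟨R', _, ⟨g⟩⟩ := exists_factor (fun i => Matrix (Fin (a i)) (Fin (a i)) (K i))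
          (fun j => Matrix (Fin (b j)) (Fin (b j)) (E j)) e j
        exact (hno R' (E j) inferInstance (hE j) (b j) (h2 j).1 (h2 j).2.2).false g
      subst hm
      have hc : ∀ i, Countable (K i) := fun i => by
        obtain ⟨g, _⟩ := hR
        haveI : Countable R := g.symm.injective.countable
        have hpos := (h1 i).1
        refine Function.Surjective.countable
          (f := fun x : R => (e x).1 i ⟨0, hpos⟩ ⟨0, hpos⟩)
          (fun x => ⟨e.symm (Pi.single i (Matrix.diagonal fun _ => x), 0), by simp⟩)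
      refine ⟨R, inferInstance, n, a, K, hK, hR,
        fun i => ⟨(h1 i).2.1, (h1 i).2.2, hc i⟩, ⟨?_⟩⟩
      exact e.trans
        { toFun := fun x => x.1
          invFun := fun x => (x, fun j => j.elim0)
          left_inv := fun x => by
            refine Prod.ext rfl (funext fun j => j.elim0)
          right_inv := fun x => rfl
          map_mul' := fun x y => rfl
          map_add' := fun x y => rfl }
    · exact absurd h hP
  have key2 : ∀ s : Str FirstOrder.Language.ring, ∃ c : Σ n : ℕ, Fin n → ℕ × ℕ∞,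
      s ∈ VCR.Mod T →
      ∃ (R : Type) (_ : Ring R) (K : Fin c.1 → Type) (_ : ∀ i, Field (K i)),
        IsRingStr s R ∧ (∀ i, CharZero (K i) ∧ IsAlgClosed (K i) ∧ Countable (K i)) ∧
        (∀ i, ∀ (_ : CharZero (K i)), Cardinal.toENat (Algebra.trdeg ℚ (K i)) = (c.2 i).2) ∧
        Nonempty (R ≃+* ∀ i, Matrix (Fin (c.2 i).1) (Fin (c.2 i).1) (K i)) := by
    intro s
    by_cases hs : s ∈ VCR.Mod T
    · obtain ⟨R, hRing, n, a, K, hK, hR, hKi, hiso⟩ := key s hs
      haveI : ∀ i, CharZero (K i) := fun i => (hKi i).1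
      exact ⟨⟨n, fun i => (a i, Cardinal.toENat (Algebra.trdeg ℚ (K i)))⟩, fun _ =>
        ⟨R, hRing, K, hK, hR, hKi, fun i _ => rfl, hiso⟩⟩
    · exact ⟨⟨0, fun i => 0⟩, fun h => absurd h hs⟩
  choose c hc using key2
  refine countable_classes (VCR.Mod T) c fun s hs t ht hst => ?_
  obtain ⟨R, hRing, K, hK, hR, hKi, hinv, ⟨e⟩⟩ := hc s hs
  obtain ⟨R', hRing', K', hK', hR', hKi', hinv', ⟨e'⟩⟩ := hc t ht
  have hcast : ∀ (a b : Σ n : ℕ, Fin n → ℕ × ℕ∞) (_ : a = b) (K : Fin a.1 → Type)
      (hK : ∀ i, Field (K i)) (K' : Fin b.1 → Type) (hK' : ∀ i, Field (K' i))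
      (hKi : ∀ i, CharZero (K i) ∧ IsAlgClosed (K i) ∧ Countable (K i))
      (hKi' : ∀ i, CharZero (K' i) ∧ IsAlgClosed (K' i) ∧ Countable (K' i))
      (hinv : ∀ i, ∀ (_ : CharZero (K i)),
        Cardinal.toENat (Algebra.trdeg ℚ (K i)) = (a.2 i).2)
      (hinv' : ∀ i, ∀ (_ : CharZero (K' i)),
        Cardinal.toENat (Algebra.trdeg ℚ (K' i)) = (b.2 i).2),
      Nonempty ((∀ i, Matrix (Fin (a.2 i).1) (Fin (a.2 i).1) (K i)) ≃+*
        (∀ i, Matrix (Fin (b.2 i).1) (Fin (b.2 i).1) (K' i))) := by
    rintro a b rfl K hK K' hK' hKi hKi' hinv hinv'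
    have hi : ∀ i, Nonempty (K i ≃+* K' i) := fun i => by
      haveI := (hKi i).1
      haveI := (hKi i).2.1
      haveI := (hKi i).2.2
      haveI := (hKi' i).1
      haveI := (hKi' i).2.1
      haveI := (hKi' i).2.2
      exact ringEquiv_of_trdeg ((hinv i inferInstance).trans (hinv' i inferInstance).symm)
    exact ⟨RingEquiv.piCongrRight fun i => (hi i).some.mapMatrix⟩
  obtain ⟨g⟩ := hcast _ _ hst K hK K' hK' hKi hKi' hinv hinv'
  exact iso_of_ringEquiv hR hR' ((e.trans g).trans e'.symm)

end VCR
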