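import Pool.Agent.VCR.FimB
import Pool.Agent.VCR.Maim
import Pool.Agent.VCR.Few

/-!
# VCR-MaimB: assembly of part 3 (no Cohn type division rings)
-/

open Set FirstOrder

namespace VCR

universe u v

theorem infinite_of_torsionFree (R : Type v) [Ring R] [Nontrivial R]
    (htf : ∀ (n : ℕ) (x : R), n ≠ 0 → n • x = 0 → x = 0) : Infinite R := by
  refine Infinite.of_injective (fun n : ℕ => (n : R)) ?_
  have : CharZero R := by
    refine charZero_of_inj_zero fun n hn' => ?_
    by_contra h0
    refine one_ne_zero (htf n (1 : R) h0 ?_)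
    rw [nsmul_eq_mul, hn', zero_mul]
  exact Nat.cast_injective

theorem nonempty_of_interp {L : FirstOrder.Language.{0, 0}} {M : Type u} [L.Structure M] (R : Type v)
    [Ring R] [Infinite R] (hI : Interpretable L M R) : Nonempty M := by
  by_contra hne
  rw [not_nonempty_iff] at hne
  obtain ⟨k, dom, val, hs, -⟩ := hI
  have : Finite (Fin k → M) := inferInstance
  exact not_finite_iff_infinite.2 (inferInstance : Infinite R)
    (Finite.of_surjective val fun r => (hs r).imp fun u hu => hu.2)

theorem calc_of_not_perfect {L : FirstOrder.Language.{0, 0}} [Countable L.Symbols] (T : L.Theory)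
    {M : Type u} [L.Structure M] (hM : M ⊨ T) (R : Type v) [Ring R] [Nontrivial R]
    (hI : Interpretable L M R) (htf : ∀ (n : ℕ) (x : R), n ≠ 0 → n • x = 0 → x = 0)
    (hP : ¬ PerfectMany T) : ∃ 𝓓 : Calc R, RC 𝓓 := by
  have : Infinite R := infinite_of_torsionFree R htf
  have : Nonempty M := nonempty_of_interp R hI
  exact exists_calc_of_interp T hM hP hI

theorem acf_of_subsingleton (R : Type v) [Ring R] [Subsingleton R] : IsAcfSemiprimary R := by
  let F : ∀ i : Fin 0, Field ((fun _ => PUnit : Fin 0 → Type v) i) := fun i => i.elim0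
  refine ⟨0, fun _ => 1, fun _ => PUnit, F, ?_, fun i => i.elim0, ?_, 1, ?_⟩
  · exact
      { toFun := fun _ i => i.elim0
        map_one' := Subsingleton.elim _ _
        map_mul' := fun x y => Subsingleton.elim _ _
        map_zero' := Subsingleton.elim _ _
        map_add' := fun x y => Subsingleton.elim _ _ }
  · intro y
    exact ⟨0, Subsingleton.elim _ _⟩
  · intro x _
    exact Subsingleton.elim _ _

/-- every torsion-free ring interpretable in a model of a theory without perfectly many countable models is
semiprimary with algebraically closed coefficient fields -/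
theorem part_six {L : FirstOrder.Language.{0, 0}} [Countable L.Symbols] (T : L.Theory)
    {M : Type u} [L.Structure M] (hM : M ⊨ T) (R : Type v) [Ring R]
    (hI : Interpretable L M R)
    (htf : ∀ (n : ℕ) (x : R), n ≠ 0 → n • x = 0 → x = 0) :
    IsAcfSemiprimary R ∨ PerfectMany T := by
  by_cases hP : PerfectMany T
  · exact Or.inr hP
  refine Or.inl ?_
  rcases subsingleton_or_nontrivial R with hs | hn
  · exact acf_of_subsingleton R
  · obtain ⟨𝓓, h𝓓⟩ := calc_of_not_perfect T hM R hI htf hP
    exact decomp_acf 𝓓 htf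

/-- every torsion-free ring interpretable in a structure with small theory is semiprimary with algebraically
closed coefficient fields -/
theorem part_six_small {L : FirstOrder.Language.{0, 0}} {M : Type u} [L.Structure M]
    (hS : SmallTheory L M) (R : Type v) [Ring R] (hI : Interpretable L M R)
    (htf : ∀ (n : ℕ) (x : R), n ≠ 0 → n • x = 0 → x = 0) : IsAcfSemiprimary R := by
  rcases subsingleton_or_nontrivial R with hs | hn
  · exact acf_of_subsingleton R
  · have : Infinite R := infinite_of_torsionFree R htf
    have : Nonempty M := nonempty_of_interp R hI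
    obtain ⟨𝓓, h𝓓⟩ := exists_calc_of_few hS hI
    exact decomp_acf 𝓓 htf

theorem part_eight {L : FirstOrder.Language.{0, 0}} [Countable L.Symbols] (T : L.Theory)
    {M : Type u} [L.Structure M] (hM : M ⊨ T) (R : Type v) [Ring R]
    (hI : Interpretable L M R)
    (htf : ∀ (n : ℕ) (x : R), n ≠ 0 → n • x = 0 → x = 0) :
    IsAcfSemiprimary R ∨ (¬ SmallTheory L M ∧ PerfectMany T) := by
  by_cases hA : IsAcfSemiprimary R
  · exact Or.inl hA
  · exact Or.inr ⟨fun hS => hA (part_six_small hS R hI htf), (part_six T hM R hI htf).resolve_left hA⟩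

/-- VC2 for theories of torsion-free semiprime rings -/
theorem part_seven (T : FirstOrder.Language.ring.Theory)
    (hT : ∀ s ∈ VCR.Mod T, ∃ (R : Type) (_ : Ring R), IsRingStr s R ∧
      (∀ (n : ℕ) (x : R), n ≠ 0 → n • x = 0 → x = 0) ∧
      (∀ x : R, (∀ y, x * y * x = 0) → x = 0)) :
    VC2 T := by
  classical
  by_cases hP : PerfectMany T
  · exact Or.inr hP
  refine part_four T fun s hs => ?_
  obtain ⟨R, _, hR, htf, hsp⟩ := hT s hs
  refine ⟨R, inferInstance, hR, htf, hsp, fun R' D _ _ k hk hD => ⟨fun e => ?_⟩⟩
  letI := toStructure s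
  have := countable_ring_symbols
  have : Nonempty (Fin k) := ⟨⟨0, hk⟩⟩
  have : Nontrivial R := by
    have : Nontrivial (R' × Matrix (Fin k) (Fin k) D) :=
      ⟨0, (0, 1), fun h => zero_ne_one (congrArg Prod.snd h)⟩
    exact e.toEquiv.nontrivial
  obtain ⟨𝓓, h𝓓⟩ := calc_of_not_perfect T (M := ℕ) hs R (interpretable_self hR) htf hP
  obtain ⟨n, hn⟩ := exists_pireg 𝓓
  have hQ := unit_of_pireg n (fun r => (hn r).imp fun x hx => hx.choose_spec.1) htf
  obtain ⟨h0, 𝓕, h𝓕⟩ := factor_facts 𝓓 hQ hk
    ((RingHom.snd R' (Matrix (Fin k) (Fin k) D)).comp e.toRingHom)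
    (fun x => ⟨e.symm (0, x), by simp⟩) (e.symm (0, 1)) (fun x => by
      constructor
      · intro h
        apply e.injective
        rw [map_mul, RingEquiv.apply_symm_apply, map_zero]
        have h' : (e x).2 = 0 := h
        refine Prod.ext ?_ ?_
        · simp
        · simp [h']
      · intro h
        have h' := congrArg e h
        rw [map_mul, RingEquiv.apply_symm_apply, map_zero] at h'
        have h'' := congrArg Prod.snd h'
        simpa using h'')
  obtain ⟨⟨x, y, hxy⟩, -⟩ := hD
  exact hxy (comm_of_calc 𝓕 x y)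

end VCR
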