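import Mathlib

/-!
# VCR-MycA: shrinking finitely many cylinders to avoid closed relations with small sections

`cyl l` is the set of points of the Cantor space beginning with the list `l`, read with the LAST
digit at the head (`PiNat.res`). So `cyl l' ⊆ cyl l` when `l <:+ l'` (`l` is a suffix of `l'`).

One pair of cylinders and one closed relation are treated at a time.
-/

open Set

namespace VCR

/-- The points of the Cantor space which begin with `l` (last digit at the head). -/
def cyl (l : List Bool) : Set (ℕ → Bool) := {x | PiNat.res x l.length = l}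

private theorem cyl_ne (l : List Bool) : ∃ x, x ∈ cyl l := by
  induction l with
  | nil => exact ⟨fun _ => false, rfl⟩
  | cons b l ih =>
    obtain ⟨x, hx⟩ := ih
    refine ⟨Function.update x l.length b, ?_⟩
    show PiNat.res (Function.update x l.length b) (l.length + 1) = b :: l
    rw [PiNat.res_succ, Function.update_self]
    have h1 : PiNat.res (Function.update x l.length b) l.length = PiNat.res x l.length := by
      rw [PiNat.res_eq_res]
      intro m hm
      exact Function.update_of_ne hm.ne _ _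
    rw [h1, show PiNat.res x l.length = l from hx]

private theorem suffix_res {x : ℕ → Bool} {l : List Bool} (hx : x ∈ cyl l) {n : ℕ}
    (hn : l.length ≤ n) : l <:+ PiNat.res x n := by
  induction n, hn using Nat.le_induction with
  | base => rw [show PiNat.res x l.length = l from hx]
  | succ n _ ih =>
    rw [PiNat.res_succ]
    exact ih.trans (List.suffix_cons _ _)

private theorem cyl_cons {b : Bool} {l : List Bool} : cyl (b :: l) ⊆ cyl l := by
  intro x hx
  have h1 : PiNat.res x (l.length + 1) = b :: l := hx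
  rw [PiNat.res_succ, List.cons.injEq] at h1
  exact h1.2

private theorem cyl_mono {l l' : List Bool} (h : l <:+ l') : cyl l' ⊆ cyl l := by
  obtain ⟨t, rfl⟩ := h
  induction t with
  | nil => exact subset_rfl
  | cons b t ih => exact cyl_cons.trans ih

private theorem cyl_res (x : ℕ → Bool) (n : ℕ) :
    cyl (PiNat.res x n) = PiNat.cylinder (E := fun _ => Bool) x n := by
  rw [PiNat.cylinder_eq_res]
  unfold cyl
  rw [PiNat.res_length]

private theorem cyl_nhds {x : ℕ → Bool} {U : Set (ℕ → Bool)} (hU : U ∈ nhds x) :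
    ∃ N, ∀ n ≥ N, cyl (PiNat.res x n) ⊆ U := by
  obtain ⟨t, ht, hxt, htU⟩ :=
    (PiNat.isTopologicalBasis_cylinders (fun _ : ℕ => Bool)).mem_nhds_iff.1 hU
  obtain ⟨y, N, rfl⟩ := ht
  refine ⟨N, fun n hn => ?_⟩
  rw [cyl_res]
  rw [PiNat.mem_cylinder_iff_eq] at hxt
  exact ((PiNat.cylinder_anti x hn).trans hxt.subset).trans htU

private theorem avoid_one (C : Set ((ℕ → Bool) × (ℕ → Bool))) (hC : IsClosed C)
    (h1 : ∀ x y y', (x, y) ∈ C → (x, y') ∈ C → y = y') (a b : List Bool) :
    ∃ a' b', a <:+ a' ∧ b <:+ b' ∧ ∀ x ∈ cyl a', ∀ y ∈ cyl b', (x, y) ∉ C := by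
  obtain ⟨x₀, hx₀⟩ := cyl_ne a
  obtain ⟨y₀, hy₀, hxy⟩ : ∃ y₀ ∈ cyl b, (x₀, y₀) ∉ C := by
    by_contra hcon
    push Not at hcon
    obtain ⟨y₁, hy₁⟩ := cyl_ne (false :: b)
    obtain ⟨y₂, hy₂⟩ := cyl_ne (true :: b)
    have h2 := h1 x₀ y₁ y₂ (hcon y₁ (cyl_cons hy₁)) (hcon y₂ (cyl_cons hy₂))
    have h3 : PiNat.res y₁ (b.length + 1) = false :: b := hy₁
    have h4 : PiNat.res y₂ (b.length + 1) = true :: b := hy₂
    rw [h2, h4, List.cons.injEq] at h3
    exact Bool.noConfusion h3.1
  have hop : Cᶜ ∈ nhds (x₀, y₀) := hC.isOpen_compl.mem_nhds hxy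
  obtain ⟨u, hu, v, hv, huv⟩ := mem_nhds_prod_iff.1 hop
  obtain ⟨N₁, hN₁⟩ := cyl_nhds hu
  obtain ⟨N₂, hN₂⟩ := cyl_nhds hv
  refine ⟨PiNat.res x₀ (N₁ + N₂ + a.length + b.length),
    PiNat.res y₀ (N₁ + N₂ + a.length + b.length), suffix_res hx₀ (by omega),
    suffix_res hy₀ (by omega), ?_⟩
  intro x hx y hy hc
  exact huv (Set.mk_mem_prod (hN₁ _ (by omega) hx) (hN₂ _ (by omega) hy)) hc

private theorem avoid_fin {ι : Type} (C : ℕ → Set ((ℕ → Bool) × (ℕ → Bool)))
    (hC : ∀ m, IsClosed (C m))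
    (h1 : ∀ m x y y', (x, y) ∈ C m → (x, y') ∈ C m → y = y')
    (s : Finset (ι × ι × ℕ)) (l : ι → List Bool) :
    ∃ l' : ι → List Bool, (∀ i, l i <:+ l' i) ∧
      ∀ t ∈ s, t.1 ≠ t.2.1 → ∀ x ∈ cyl (l' t.1), ∀ y ∈ cyl (l' t.2.1), (x, y) ∉ C t.2.2 := by
  classical
  induction s using Finset.induction_on with
  | empty => exact ⟨l, fun i => List.suffix_refl _, fun t ht => absurd ht (Finset.notMem_empty t)⟩
  | insert t s _ ih =>
    obtain ⟨l', h2, h3⟩ := ih
    by_cases ht : t.1 = t.2.1
    · refine ⟨l', h2, fun t' ht' hne => ?_⟩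
      rcases Finset.mem_insert.1 ht' with rfl | ht'
      · exact absurd ht hne
      · exact h3 t' ht' hne
    · obtain ⟨a', b', ha, hb, hab⟩ := avoid_one (C t.2.2) (hC _) (h1 _) (l' t.1) (l' t.2.1)
      have h4 : ∀ i, l' i <:+ Function.update (Function.update l' t.1 a') t.2.1 b' i := by
        intro i
        by_cases hi : i = t.2.1
        · subst hi
          rw [Function.update_self]
          exact hb
        · rw [Function.update_of_ne hi]
          by_cases hi' : i = t.1
          · subst hi'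
            rw [Function.update_self]
            exact ha
          · rw [Function.update_of_ne hi']
      refine ⟨Function.update (Function.update l' t.1 a') t.2.1 b', fun i => (h2 i).trans (h4 i),
        fun t' ht' hne x hx y hy => ?_⟩
      rcases Finset.mem_insert.1 ht' with rfl | ht'
      · rw [Function.update_of_ne hne, Function.update_self] at hx
        rw [Function.update_self] at hy
        exact hab x hx y hy
      · exact h3 t' ht' hne x (cyl_mono (h4 _) hx) y (cyl_mono (h4 _) hy)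

theorem exists_avoid {ι : Type} [Finite ι] (C : ℕ → Set ((ℕ → Bool) × (ℕ → Bool)))
    (hC : ∀ m, IsClosed (C m))
    (h1 : ∀ m x y y', (x, y) ∈ C m → (x, y') ∈ C m → y = y')
    (l : ι → List Bool) (n : ℕ) :
    ∃ l' : ι → List Bool, (∀ i, l i <:+ l' i) ∧
      ∀ i j, i ≠ j → ∀ m ≤ n, ∀ x ∈ cyl (l' i), ∀ y ∈ cyl (l' j), (x, y) ∉ C m := by
  have : Fintype ι := Fintype.ofFinite ι
  obtain ⟨l', h2, h3⟩ := avoid_fin C hC h1
    (Finset.univ ×ˢ Finset.univ ×ˢ Finset.range (n + 1)) l
  refine ⟨l', h2, fun i j hij m hm => ?_⟩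
  exact h3 (i, j, m) (Finset.mem_product.2 ⟨Finset.mem_univ _, Finset.mem_product.2
    ⟨Finset.mem_univ _, Finset.mem_range.2 (Nat.lt_succ_of_le hm)⟩⟩) hij

end VCR
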