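import Mathlib

/-!
# VCR-NHA: linearization and the identity of Higman

`IsIdl I`: `I` is a two-sided ideal of `R`, as a set. `Sk x y n k`: the sum of all words of length `n` with `k` letters
`y`, the others `x`. The expansion of `(x + l • y) ^ n` for `l = 0, ..., n` and the Vandermonde matrix give `linearize`.
-/

open Set

namespace VCR

universe v

/-- a two-sided ideal as a set -/
structure IsIdl {R : Type v} [Ring R] (I : Set R) : Prop where
  zero : (0 : R) ∈ I
  add : ∀ a ∈ I, ∀ b ∈ I, a + b ∈ I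
  left : ∀ r, ∀ a ∈ I, r * a ∈ I
  right : ∀ r, ∀ a ∈ I, a * r ∈ I

/-- the sum of all words of length `n` with `k` letters `y`, the others `x` -/
private def Sk {R : Type v} [Ring R] (x y : R) : ℕ → ℕ → R
  | 0, 0 => 1
  | 0, _ + 1 => 0
  | n + 1, 0 => Sk x y n 0 * x
  | n + 1, k + 1 => Sk x y n (k + 1) * x + Sk x y n k * y

private theorem Sk_big {R : Type v} [Ring R] (x y : R) (n : ℕ) : ∀ k, n < k → Sk x y n k = 0 := by
  induction n with
  | zero =>
    intro k hk
    obtain ⟨j, rfl⟩ : ∃ j, k = j + 1 := ⟨k - 1, by omega⟩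
    rfl
  | succ n ih =>
    intro k hk
    obtain ⟨j, rfl⟩ : ∃ j, k = j + 1 := ⟨k - 1, by omega⟩
    rw [Sk, ih (j + 1) (by omega), ih j (by omega), zero_mul, zero_mul, add_zero]

private theorem Sk_zero {R : Type v} [Ring R] (x y : R) (n : ℕ) : Sk x y n 0 = x ^ n := by
  induction n with
  | zero => rw [Sk, pow_zero]
  | succ n ih => rw [Sk, ih, pow_succ]

private theorem Sk_one {R : Type v} [Ring R] (x y : R) (n : ℕ) :
    Sk x y n 1 = ∑ i ∈ Finset.range n, x ^ i * y * x ^ (n - 1 - i) := by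
  induction n with
  | zero => rfl
  | succ n ih =>
    rw [Sk, ih, Sk_zero, Finset.sum_range_succ, Finset.sum_mul, Nat.add_sub_cancel, Nat.sub_self, pow_zero,
      mul_one]
    congr 1
    refine Finset.sum_congr rfl fun i hi => ?_
    rw [Finset.mem_range] at hi
    rw [mul_assoc, ← pow_succ]
    congr 2
    omega

private theorem Sk_exp {R : Type v} [Ring R] (x y : R) (l : ℤ) (n : ℕ) :
    (x + l • y) ^ n = ∑ k ∈ Finset.range (n + 1), l ^ k • Sk x y n k := by
  induction n with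
  | zero => simp [Sk]
  | succ n ih =>
    rw [pow_succ, ih, Finset.sum_range_succ' _ (n + 1), mul_add, Finset.sum_mul, Finset.sum_mul]
    have h1 : ∑ k ∈ Finset.range (n + 1), l ^ k • Sk x y n k * x =
        ∑ k ∈ Finset.range (n + 1), l ^ (k + 1) • (Sk x y n (k + 1) * x) + Sk x y n 0 * x := by
      rw [Finset.sum_range_succ' _ n, Finset.sum_range_succ _ n, Sk_big x y n (n + 1) (Nat.lt_succ_self n)]
      simp only [smul_mul_assoc, zero_mul, smul_zero, add_zero, pow_zero, one_smul]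
    have h2 : ∑ k ∈ Finset.range (n + 1), l ^ k • Sk x y n k * l • y =
        ∑ k ∈ Finset.range (n + 1), l ^ (k + 1) • (Sk x y n k * y) := by
      refine Finset.sum_congr rfl fun k _ => ?_
      rw [smul_mul_smul_comm, ← pow_succ]
    rw [h1, h2]
    have h3 : ∑ k ∈ Finset.range (n + 1), l ^ (k + 1) • Sk x y (n + 1) (k + 1) =
        ∑ k ∈ Finset.range (n + 1), l ^ (k + 1) • (Sk x y n (k + 1) * x) +
          ∑ k ∈ Finset.range (n + 1), l ^ (k + 1) • (Sk x y n k * y) := by
      rw [← Finset.sum_add_distrib]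
      refine Finset.sum_congr rfl fun k _ => ?_
      rw [← smul_add]
      rfl
    rw [h3, pow_zero, one_smul]
    have h4 : Sk x y (n + 1) 0 = Sk x y n 0 * x := rfl
    rw [h4]
    abel

private theorem idl_zsmul {R : Type v} [Ring R] {I : Set R} (hI : IsIdl I) (m : ℤ) {a : R} (ha : a ∈ I) :
    m • a ∈ I := by
  rw [zsmul_eq_mul]
  exact hI.left _ a ha

private theorem idl_sum {R : Type v} [Ring R] {I : Set R} (hI : IsIdl I) {ι : Type} (s : Finset ι) (f : ι → R)
    (h : ∀ i ∈ s, f i ∈ I) : ∑ i ∈ s, f i ∈ I := by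
  classical
  induction s using Finset.induction_on with
  | empty => exact hI.zero
  | insert a s ha ih =>
    rw [Finset.sum_insert ha]
    exact hI.add _ (h a (Finset.mem_insert_self a s)) _ (ih fun i hi => h i (Finset.mem_insert_of_mem hi))

private theorem int_unit {R : Type v} [Ring R] (hQ : ∀ m : ℕ, m ≠ 0 → IsUnit (m : R)) (d : ℤ) (hd : d ≠ 0) :
    IsUnit (d : R) := by
  have h1 := hQ d.natAbs (Int.natAbs_ne_zero.2 hd)
  rcases Int.natAbs_eq d with h | h
  · rw [h, Int.cast_natCast]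
    exact h1
  · rw [h, Int.cast_neg, Int.cast_natCast]
    exact h1.neg

theorem linearize {R : Type v} [Ring R] (hQ : ∀ m : ℕ, m ≠ 0 → IsUnit (m : R)) {A I : Set R}
    (hA : IsIdl A) (hI : IsIdl I) (n : ℕ) (h : ∀ x ∈ A, x ^ n ∈ I) (x y : R) (hx : x ∈ A)
    (hy : y ∈ A) : ∑ i ∈ Finset.range n, x ^ i * y * x ^ (n - 1 - i) ∈ I := by
  rcases Nat.eq_zero_or_pos n with hn | hn
  · subst hn
    exact hI.zero
  · rw [← Sk_one]
    let V : Matrix (Fin (n + 1)) (Fin (n + 1)) ℤ := Matrix.vandermonde fun l : Fin (n + 1) => ((l : ℕ) : ℤ)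
    have hV : V.det ≠ 0 := by
      refine Matrix.det_vandermonde_ne_zero_iff.2 fun a b hab => ?_
      exact Fin.ext (by exact_mod_cast hab)
    have hw : ∀ l : Fin (n + 1), ∑ m : Fin (n + 1), V l m • Sk x y n m = (x + ((l : ℕ) : ℤ) • y) ^ n := by
      intro l
      rw [Sk_exp, ← Fin.sum_univ_eq_sum_range (fun k => (((l : ℕ) : ℤ)) ^ k • Sk x y n k)]
      rfl
    have hk : ∀ k : Fin (n + 1), V.det • Sk x y n k =
        ∑ l : Fin (n + 1), V.adjugate k l • (x + ((l : ℕ) : ℤ) • y) ^ n := by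
      intro k
      have h1 : ∑ l : Fin (n + 1), V.adjugate k l • (x + ((l : ℕ) : ℤ) • y) ^ n =
          ∑ m : Fin (n + 1), (V.adjugate * V) k m • Sk x y n m := by
        simp only [Matrix.mul_apply, Finset.sum_smul, ← hw, Finset.smul_sum, smul_smul]
        exact Finset.sum_comm
      rw [h1, Matrix.adjugate_mul]
      rw [Finset.sum_eq_single k]
      · rw [Matrix.smul_apply, Matrix.one_apply_eq, smul_eq_mul, mul_one]
      · intro m _ hm
        rw [Matrix.smul_apply, Matrix.one_apply_ne hm.symm, smul_zero, zero_smul]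
      · intro hk
        exact absurd (Finset.mem_univ k) hk
    have h1 : V.det • Sk x y n 1 ∈ I := by
      have h2 := hk ⟨1, by omega⟩
      rw [h2]
      refine idl_sum hI _ _ fun l _ => idl_zsmul hI _ (h _ ?_)
      exact hA.add _ hx _ (idl_zsmul hA _ hy)
    obtain ⟨u, hu⟩ := int_unit hQ V.det hV
    have h2 : Sk x y n 1 = ((u⁻¹ : Rˣ) : R) * (V.det • Sk x y n 1) := by
      rw [zsmul_eq_mul, ← hu, Units.inv_mul_cancel_left]
    rw [h2]
    exact hI.left _ _ h1

theorem higman {R : Type v} [Ring R] (hQ : ∀ m : ℕ, m ≠ 0 → IsUnit (m : R)) {A I : Set R}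
    (hA : IsIdl A) (hI : IsIdl I) (n : ℕ) (h : ∀ x ∈ A, x ^ (n + 1) ∈ I) (x z y : R) (hx : x ∈ A)
    (hz : z ∈ A) (hy : y ∈ A) : x ^ n * z * y ^ n ∈ I := by
  have hneg : ∀ a ∈ I, -a ∈ I := fun a ha => by
    have := hI.left (-1) a ha
    rwa [neg_one_mul] at this
  have h1 : ∑ i ∈ Finset.range (n + 1), ∑ j ∈ Finset.range (n + 1),
      x ^ (n - i) * z * y ^ j * x ^ i * y ^ (n - j) ∈ I := by
    rw [Finset.sum_comm]
    refine idl_sum hI _ _ fun j _ => ?_
    have h2 := linearize hQ hA hI (n + 1) h x (z * y ^ j) hx (hA.right _ z hz)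
    rw [← Finset.sum_range_reflect] at h2
    have h3 := hI.right (y ^ (n - j)) _ h2
    rw [Finset.sum_mul] at h3
    refine Eq.mp (congrArg (· ∈ I) (Finset.sum_congr rfl fun i hi => ?_)) h3
    rw [Finset.mem_range] at hi
    have e1 : n + 1 - 1 - i = n - i := by omega
    have e2 : n + 1 - 1 - (n - i) = i := by omega
    rw [e1, e2]
    simp only [mul_assoc]
  have h2 : ∑ i ∈ Finset.range n, ∑ j ∈ Finset.range (n + 1),
      x ^ (n - (i + 1)) * z * y ^ j * x ^ (i + 1) * y ^ (n - j) ∈ I := by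
    refine idl_sum hI _ _ fun i _ => ?_
    have hxi : x ^ (i + 1) ∈ A := by
      rw [pow_succ]
      exact hA.left _ x hx
    have h3 := hI.left (x ^ (n - (i + 1)) * z) _ (linearize hQ hA hI (n + 1) h y (x ^ (i + 1)) hy hxi)
    rw [Finset.mul_sum] at h3
    refine Eq.mp (congrArg (· ∈ I) (Finset.sum_congr rfl fun j _ => ?_)) h3
    rw [Nat.add_sub_cancel]
    simp only [mul_assoc]
  rw [Finset.sum_range_succ'] at h1
  have h3 := hI.add _ h1 _ (hneg _ h2)
  rw [add_comm, ← add_assoc, neg_add_cancel, zero_add] at h3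
  have h4 : ∑ j ∈ Finset.range (n + 1), x ^ (n - 0) * z * y ^ j * x ^ 0 * y ^ (n - j) =
      ((n + 1 : ℕ) : R) * (x ^ n * z * y ^ n) := by
    rw [← nsmul_eq_mul]
    have : ∀ j ∈ Finset.range (n + 1), x ^ (n - 0) * z * y ^ j * x ^ 0 * y ^ (n - j) = x ^ n * z * y ^ n := by
      intro j hj
      rw [Finset.mem_range] at hj
      rw [pow_zero, mul_one, mul_assoc, ← pow_add, Nat.sub_zero]
      congr 2
      omega
    rw [Finset.sum_congr rfl this, Finset.sum_const, Finset.card_range]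
  rw [h4] at h3
  obtain ⟨u, hu⟩ := hQ (n + 1) (Nat.succ_ne_zero n)
  have h5 := hI.left ((u⁻¹ : Rˣ) : R) _ h3
  rwa [← hu, Units.inv_mul_cancel_left] at h5

end VCR
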