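import Pool.Agent.VCR.Fit

/-!
# VCR-Proj: if `1` is not a value of `ad y` then `D = C(y) ⊕ ad y (D)` with a definable projection

PLAN. `δ : D →+ D`, `δ z = y * z - z * y` (`AddMonoidHom.mk'`), `DF₁ 𝓓 δ` (`dp`). Write `c ∈ C` for
`y * c = c * y`. `δ (c * z) = c * δ z`, `δ (z * c) = δ z * c` for `c ∈ C`; `δ c = 0 ↔ c ∈ C`.
* (a) `δ (δ u) = 0 → δ u = 0`: put `c := δ u ∈ C`; if `c ≠ 0` then `c⁻¹ ∈ C` and
  `δ (c⁻¹ * u) = c⁻¹ * c = 1`, against `h1`. So `δ^[n] u = 0 → δ u = 0` for all `n` (induction on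
  `n`, `Function.iterate_succ_apply'`).
* (b) `exists_fit 𝓓 δ _ z`: `z = δ w + u` with `δ^[n] u = 0`, so `u ∈ C`.
* (c) uniqueness: `δ w + u = δ w' + u'` with `u u' ∈ C` gives `δ (w - w') = u' - u ∈ C`, so
  `δ (δ (w - w')) = 0`, so `δ (w - w') = 0` and `u = u'`.
* `π z := ` the `u` of (b) (`Classical.choose`), characterized by:
  `x = π z ↔ (y * x = x * y ∧ ∃ w, z = (y * w - w * y) + x)`. Additivity, `π (c * z) = c * π z`,
  `π (z * c) = π z * c`, `π 1 = 1` (`1 = δ 0 + 1`) by this characterization.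
* definable: `Df.of` with the characterization, then `dp`.
-/

open Set

namespace VCR

universe v

theorem exists_proj {D : Type v} [DivisionRing D] (𝓓 : Calc D) [RC 𝓓] (y : D) (hy : DE 𝓓 y)
    (h1 : ∀ z, y * z - z * y ≠ 1) :
    ∃ π : D →+ D, DF₁ 𝓓 π ∧ (∀ z, y * π z = π z * y) ∧
      (∀ c z, y * c = c * y → π (c * z) = c * π z) ∧
      (∀ c z, y * c = c * y → π (z * c) = π z * c) ∧ π 1 = 1 := by
  classical
  obtain ⟨δ, hδ⟩ : ∃ δ : D →+ D, ∀ z, δ z = y * z - z * y :=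
    ⟨AddMonoidHom.mk' (fun z => y * z - z * y) (fun a b => by noncomm_ring), fun _ => rfl⟩
  have hδd : DF₁ 𝓓 δ := by
    have h : DF₁ 𝓓 (fun z => y * z - z * y) := by ((try unfold DS); (try unfold DF₁); (try unfold DF₂); (try unfold DR₂); repeat' first | assumption | exact Df.var _ | exact Df.zero | exact Df.one | exact Df.natCast _ | (refine DE.app ?_; first | assumption | exact DE.natCast _) | refine Df.add ?_ ?_ | refine Df.mul ?_ ?_ | refine Df.subt ?_ ?_ | refine Df.neg ?_ | refine Df.pow ?_ _ | refine Df.sum _ (fun _ _ => ?_) | (refine DF₁.app (by assumption) ?_) | (refine DF₂.app (by assumption) ?_ ?_) | refine Dp.const _ | refine Dp.not ?_ | refine Dp.eq ?_ ?_ | refine Dp.ne ?_ ?_ | refine Dp.and ?_ ?_ | refine Dp.or ?_ ?_ | refine Dp.iff ?_ ?_ | refine Dp.imp ?_ ?_ | (refine DS.app (by assumption) ?_) | (refine DR₂.app (by assumption) ?_ ?_) | refine Dp.isUnit ?_ | refine Dp.ball _ (fun _ _ => ?_) | refine Dp.ex ?_ | refine Dp.all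 ?_ | refine Dp.allfin (fun _ => ?_) | refine Dp.exfin (fun _ => ?_))
    have h' : (fun z => y * z - z * y) = δ := funext fun z => (hδ z).symm
    rwa [← h']
  have hδ0 : ∀ z, δ z = 0 ↔ y * z = z * y := fun z => by rw [hδ, sub_eq_zero]
  have hl : ∀ c z, y * c = c * y → δ (c * z) = c * δ z := by
    intro c z hc
    rw [hδ, hδ, ← mul_assoc y c z, hc]
    noncomm_ring
  have hr : ∀ c z, y * c = c * y → δ (z * c) = δ z * c := by
    intro c z hc
    rw [hδ, hδ, mul_assoc z c y, ← hc]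
    noncomm_ring
  have ha : ∀ u, δ (δ u) = 0 → δ u = 0 := by
    intro u hu
    by_contra hc
    have hC : y * δ u = δ u * y := (hδ0 _).1 hu
    have hC' : y * (δ u)⁻¹ = (δ u)⁻¹ * y :=
      (Commute.inv_right₀ (show Commute y (δ u) from hC)).eq
    refine h1 ((δ u)⁻¹ * u) ?_
    rw [← hδ, hl _ _ hC', inv_mul_cancel₀ hc]
  have hn : ∀ (n : ℕ) (u : D), δ^[n] u = 0 → δ u = 0 := by
    intro n
    induction n with
    | zero =>
      intro u hu
      have hu' : u = 0 := hu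
      rw [hu', map_zero]
    | succ n ih =>
      intro u hu
      rw [Function.iterate_succ_apply] at hu
      exact ha u (ih _ hu)
  have hb : ∀ z, ∃ u, y * u = u * y ∧ ∃ w, z = (y * w - w * y) + u := by
    intro z
    obtain ⟨w, u, n, h, h'⟩ := exists_fit 𝓓 δ hδd z
    exact ⟨u, (hδ0 u).1 (hn n u h'), w, by rw [← hδ]; exact h⟩
  have huniq : ∀ z u u', (y * u = u * y ∧ ∃ w, z = (y * w - w * y) + u) →
      (y * u' = u' * y ∧ ∃ w, z = (y * w - w * y) + u') → u = u' := by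
    rintro z u u' ⟨hu, w, hw⟩ ⟨hu', w', hw'⟩
    have e : δ (w - w') = u' - u := by
      rw [map_sub, hδ, hδ, sub_eq_sub_iff_add_eq_add, hw.symm.trans hw', add_comm]
    have e2 : δ (δ (w - w')) = 0 := by
      rw [e, map_sub, (hδ0 _).2 hu, (hδ0 _).2 hu', sub_zero]
    have e3 := ha _ e2
    rw [e] at e3
    exact (sub_eq_zero.1 e3).symm
  choose p hp1 hp2 using hb
  have hp : ∀ z x, (y * x = x * y ∧ ∃ w, z = (y * w - w * y) + x) → x = p z :=
    fun z x h => huniq z _ _ h ⟨hp1 z, hp2 z⟩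
  have hadd : ∀ a b, p (a + b) = p a + p b := by
    intro a b
    obtain ⟨w, hw⟩ := hp2 a
    obtain ⟨w', hw'⟩ := hp2 b
    refine (hp (a + b) (p a + p b) ⟨by rw [mul_add, add_mul, hp1, hp1], w + w', ?_⟩).symm
    have h : a + b = (y * w - w * y + p a) + (y * w' - w' * y + p b) := congrArg₂ (· + ·) hw hw'
    exact h.trans (by noncomm_ring)
  refine ⟨AddMonoidHom.mk' p hadd, ?_, hp1, ?_, ?_, ?_⟩
  · refine Df.of (Q := fun x f => y * x = x * y ∧ ∃ w, f () = (y * w - w * y) + x)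
      (fun f x => ⟨fun h => hp _ _ h, fun h => ?_⟩) (by ((try unfold DS); (try unfold DF₁); (try unfold DF₂); (try unfold DR₂); repeat' first | assumption | exact Df.var _ | exact Df.zero | exact Df.one | exact Df.natCast _ | (refine DE.app ?_; first | assumption | exact DE.natCast _) | refine Df.add ?_ ?_ | refine Df.mul ?_ ?_ | refine Df.subt ?_ ?_ | refine Df.neg ?_ | refine Df.pow ?_ _ | refine Df.sum _ (fun _ _ => ?_) | (refine DF₁.app (by assumption) ?_) | (refine DF₂.app (by assumption) ?_ ?_) | refine Dp.const _ | refine Dp.not ?_ | refine Dp.eq ?_ ?_ | refine Dp.ne ?_ ?_ | refine Dp.and ?_ ?_ | refine Dp.or ?_ ?_ | refine Dp.iff ?_ ?_ | refine Dp.imp ?_ ?_ | (refine DS.app (by assumption) ?_) | (refine DR₂.app (by assumption) ?_ ?_) | refine Dp.isUnit ?_ | refine Dp.ball _ (fun _ _ => ?_) | refine Dp.ex ?_ | refine Dp.all ?_ | refine Dp.allfin (fun _ => ?_) | refine Dp.exfin (fun _ => ?_)))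
    have h' : x = p (f ()) := h
    rw [h']
    exact ⟨hp1 _, hp2 _⟩
  · intro c z hc
    obtain ⟨w, hw⟩ := hp2 z
    refine (hp (c * z) (c * p z) ⟨by rw [← mul_assoc, hc, mul_assoc, hp1, mul_assoc], c * w,
      ?_⟩).symm
    have h : c * z = c * ((y * w - w * y) + p z) := congrArg (c * ·) hw
    exact h.trans (by rw [mul_add, ← hδ w, ← hl c w hc, hδ])
  · intro c z hc
    obtain ⟨w, hw⟩ := hp2 z
    refine (hp (z * c) (p z * c) ⟨by rw [← mul_assoc, hp1, mul_assoc, mul_assoc, hc], w * c,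
      ?_⟩).symm
    have h : z * c = ((y * w - w * y) + p z) * c := congrArg (· * c) hw
    exact h.trans (by rw [add_mul, ← hδ w, ← hr c w hc, hδ])
  · exact (hp 1 1 ⟨by rw [mul_one, one_mul], 0, by simp⟩).symm

end VCR
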