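import Pool.Agent.VCR.IdlB
import Pool.Agent.VCR.Adj

/-!
# VCR-RootB: the ideal of small definable subsets of the plane

`Z := Bool → K` (vectors `(f false, f true) = (x, y)`), `B := 𝓔.D Bool`, where `𝓔 ≥ 𝓓` has all
elements of `G` (and their inverses, `DE.inv`) definable.

PLAN of `exists_ideal` (all the structure, no arithmetic).
* permutations of `Z`: shears `sh₁ a : (x, y) ↦ (x + a y, y)`, `sh₂ a : (x, y) ↦ (x, y + a x)`, `a : ℚ`
  (cast to `K`), and `dg g : (x, y) ↦ (x, g y)` for `g : Kˣ`; `sh₁ (a + b) = sh₁ a * sh₁ b` etc.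
* `Γ := {γ | γ 0 = 0 ∧ (∀ S ∈ B, γ ⁻¹' S ∈ B) ∧ (∀ S ∈ B, γ.symm ⁻¹' S ∈ B)}`, a
  subgroup of `Equiv.Perm Z`. It contains the shears (rational constants are definable:
  `(a : K) = (a.num : K) / (a.den : K)`, `DE.div`, `DE.natCast`, `DE.neg`) and `dg g` for
  `g ∈ G`: `{f | γ f ∈ S}` is `Dp.sub` of `S` by the two coordinate functions of `γ` (for `S` seen as
  the predicate `fun f => f ∈ S`, `t b f := if b then .. else ..`).
* `J₀ := {S ∈ B | S ⊆ {0}}` is an invariant ideal (proper since `0 ≠ 1`; invariant since `γ 0 = 0`).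
  `{0} ∈ B` by `Dp.allfin`, `Df.zero`.
* `exists_inv_ideal` (with `hBs := 𝓔.small`) gives `J` and `N`; `act_trivial` for `sh₁`, `sh₂`.
-/

open Set

namespace VCR

universe v

private theorem rb_rat {K : Type v} [Field K] {𝓔 : Calc K} [RC 𝓔] (a : ℚ) : DE 𝓔 (a : K) := by
  rw [Rat.cast_def]
  refine DE.div ?_ (DE.natCast _)
  rcases Int.eq_nat_or_neg a.num with ⟨n, h | h⟩
  · rw [h, Int.cast_natCast]
    exact DE.natCast n
  · rw [h, Int.cast_neg, Int.cast_natCast]
    exact DE.neg (DE.natCast n)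

/-- the shears -/
private def rb_sh1 (K : Type v) [Field K] [CharZero K] (a : ℚ) : Equiv.Perm (Bool → K) where
  toFun f := fun b => if b then f true else f false + (a : K) * f true
  invFun f := fun b => if b then f true else f false + ((-a : ℚ) : K) * f true
  left_inv f := by
    funext b
    cases b
    · simp
    · simp
  right_inv f := by
    funext b
    cases b
    · simp
    · simp

/-- the shears -/
private def rb_sh2 (K : Type v) [Field K] [CharZero K] (a : ℚ) : Equiv.Perm (Bool → K) where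
  toFun f := fun b => if b then f true + (a : K) * f false else f false
  invFun f := fun b => if b then f true + ((-a : ℚ) : K) * f false else f false
  left_inv f := by
    funext b
    cases b
    · simp
    · simp
  right_inv f := by
    funext b
    cases b
    · simp
    · simp

/-- the dilatations -/
private def rb_dg {K : Type v} [Field K] (g : K) (hg : g ≠ 0) : Equiv.Perm (Bool → K) where
  toFun f := fun b => if b then g * f true else f false
  invFun f := fun b => if b then g⁻¹ * f true else f false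
  left_inv f := by
    funext b
    cases b
    · simp
    · show g⁻¹ * (g * f true) = f true
      rw [← mul_assoc, inv_mul_cancel₀ hg, one_mul]
  right_inv f := by
    funext b
    cases b
    · simp
    · show g * (g⁻¹ * f true) = f true
      rw [← mul_assoc, mul_inv_cancel₀ hg, one_mul]

/-- the group -/
private def rb_G {Z : Type v} (z : Z) (B : Set (Set Z)) : Subgroup (Equiv.Perm Z) where
  carrier := {γ | γ z = z ∧ (∀ S ∈ B, (γ : Z → Z) ⁻¹' S ∈ B) ∧ ∀ S ∈ B, (γ.symm : Z → Z) ⁻¹' S ∈ B}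
  one_mem' := ⟨rfl, fun S hS => hS, fun S hS => hS⟩
  mul_mem' := by
    rintro γ δ ⟨h1, h2, h3⟩ ⟨k1, k2, k3⟩
    refine ⟨?_, fun S hS => k2 _ (h2 S hS), fun S hS => h3 _ (k3 S hS)⟩
    show γ (δ z) = z
    rw [k1, h1]
  inv_mem' := by
    rintro γ ⟨h1, h2, h3⟩
    refine ⟨?_, fun S hS => h3 S hS, fun S hS => h2 S hS⟩
    show γ.symm z = z
    rw [Equiv.symm_apply_eq, h1]

private theorem rb_sub {K : Type v} (𝓔 : Calc K) (t : Bool → (Bool → K) → K) (ht : ∀ b, Df 𝓔 (t b))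
    (S : Set (Bool → K)) (hS : S ∈ 𝓔.D Bool) : {f : Bool → K | (fun b => t b f) ∈ S} ∈ 𝓔.D Bool :=
  Dp.sub (𝓓 := 𝓔) (Q := fun f : Bool → K => f ∈ S) hS ht

private theorem rb_d1 {K : Type v} [Field K] (𝓔 : Calc K) [RC 𝓔] (a : ℚ) (S : Set (Bool → K)) (hS : S ∈ 𝓔.D Bool) :
    {f : Bool → K | (fun b : Bool => if b then f true else f false + (a : K) * f true) ∈ S} ∈ 𝓔.D Bool := by
  refine rb_sub 𝓔 (fun b f => if b then f true else f false + (a : K) * f true) ?_ S hS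
  intro b
  cases b
  · have h : Df 𝓔 (fun f : Bool → K => f false + (a : K) * f true) :=
      Df.add (Df.var false) (Df.mul (DE.app (rb_rat a)) (Df.var true))
    exact Df.congr (fun f => by simp) h
  · exact Df.congr (fun f => by simp) (Df.var (𝓓 := 𝓔) true)

private theorem rb_d2 {K : Type v} [Field K] (𝓔 : Calc K) [RC 𝓔] (a : ℚ) (S : Set (Bool → K)) (hS : S ∈ 𝓔.D Bool) :
    {f : Bool → K | (fun b : Bool => if b then f true + (a : K) * f false else f false) ∈ S} ∈ 𝓔.D Bool := by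
  refine rb_sub 𝓔 (fun b f => if b then f true + (a : K) * f false else f false) ?_ S hS
  intro b
  cases b
  · exact Df.congr (fun f => by simp) (Df.var (𝓓 := 𝓔) false)
  · have h : Df 𝓔 (fun f : Bool → K => f true + (a : K) * f false) :=
      Df.add (Df.var true) (Df.mul (DE.app (rb_rat a)) (Df.var false))
    exact Df.congr (fun f => by simp) h

private theorem rb_d3 {K : Type v} [Field K] (𝓔 : Calc K) [RC 𝓔] (g : K) (hg : DE 𝓔 g) (S : Set (Bool → K))
    (hS : S ∈ 𝓔.D Bool) :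
    {f : Bool → K | (fun b : Bool => if b then g * f true else f false) ∈ S} ∈ 𝓔.D Bool := by
  refine rb_sub 𝓔 (fun b f => if b then g * f true else f false) ?_ S hS
  intro b
  cases b
  · exact Df.congr (fun f => by simp) (Df.var (𝓓 := 𝓔) false)
  · have h : Df 𝓔 (fun f : Bool → K => g * f true) := Df.mul (DE.app hg) (Df.var true)
    exact Df.congr (fun f => by simp) h

theorem exists_ideal {K : Type v} [Field K] [CharZero K] (𝓓 : Calc K) [RC 𝓓] (G : Finset K)
    (hG0 : ∀ g ∈ G, g ≠ 0) :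
    ∃ (𝓔 : Calc K) (J : Set (Set (Bool → K))), RC 𝓔 ∧ (∀ g ∈ G, DE 𝓔 g) ∧
      J ⊆ 𝓔.D Bool ∧ (∀ S ∈ J, ∀ S' ∈ 𝓔.D Bool, S' ⊆ S → S' ∈ J) ∧
      (∀ S ∈ J, ∀ S' ∈ J, S ∪ S' ∈ J) ∧ univ ∉ J ∧ {0} ∈ J ∧
      (∀ g ∈ G, ∀ S ∈ J, {f : Bool → K | (fun b => if b then g * f true else f false) ∈ S} ∈ J) ∧
      (∀ (a : ℚ), ∀ S ∈ 𝓔.D Bool, symmDiff S {f : Bool → K |
        (fun b => if b then f true else f false + (a : K) * f true) ∈ S} ∈ J) ∧
      (∀ (a : ℚ), ∀ S ∈ 𝓔.D Bool, symmDiff S {f : Bool → K |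
        (fun b => if b then f true + (a : K) * f false else f false) ∈ S} ∈ J) := by
  obtain ⟨𝓔, hle, hG⟩ := exists_adj_finset 𝓓 G
  have hRC : RC 𝓔 := RC.mono hle
  have hsdm : ∀ S ∈ 𝓔.D Bool, Sᶜ ∈ 𝓔.D Bool := fun S hS => 𝓔.compl hS
  have hint : ∀ S ∈ 𝓔.D Bool, ∀ S' ∈ 𝓔.D Bool, S ∩ S' ∈ 𝓔.D Bool := fun S hS S' hS' => 𝓔.inter hS hS'
  have hsm : ∀ T : List Bool → Set (Bool → K), IsTree T → ¬ ∀ s, T s ∈ 𝓔.D Bool := fun T hT => 𝓔.small T hT
  have hz : ({0} : Set (Bool → K)) ∈ 𝓔.D Bool := by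
    have h1 : Dp 𝓔 (fun f : Bool → K => ∀ b, f b = 0) := Dp.allfin fun b => Dp.eq (Df.var b) Df.zero
    have h2 : ({0} : Set (Bool → K)) = {f : Bool → K | ∀ b, f b = 0} := by
      ext f
      exact ⟨fun h b => congrFun h b, fun h => funext h⟩
    rw [h2]
    exact h1
  set Γ := rb_G (0 : Bool → K) (𝓔.D Bool) with hΓ
  have hΓB : ∀ γ ∈ Γ, ∀ S ∈ 𝓔.D Bool, (γ : (Bool → K) → (Bool → K)) ⁻¹' S ∈ 𝓔.D Bool := fun γ hγ => hγ.2.1
  have hJ0 : InvIdeal (𝓔.D Bool) Γ {S | S ∈ 𝓔.D Bool ∧ S ⊆ {0}} := by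
    refine ⟨fun S hS => hS.1, ⟨?_, empty_subset _⟩, ?_, ?_, ?_, ?_⟩
    · have h1 := 𝓔.compl (𝓔.univ (α := Bool))
      rw [compl_univ] at h1
      exact h1
    · exact fun S hS S' hS' h => ⟨hS', h.trans hS.2⟩
    · rintro S ⟨hS, h⟩ S' ⟨hS', h'⟩
      refine ⟨?_, union_subset h h'⟩
      have h1 := 𝓔.compl (𝓔.inter (𝓔.compl hS) (𝓔.compl hS'))
      rw [← compl_union, compl_compl] at h1
      exact h1
    · rintro γ hγ S ⟨hS, h⟩
      refine ⟨hΓB γ hγ S hS, fun z hz => ?_⟩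
      have h1 : γ z = 0 := h hz
      have h2 : γ z = γ 0 := h1.trans hγ.1.symm
      exact γ.injective h2
    · rintro ⟨-, h⟩
      have h1 : (fun _ => 1 : Bool → K) = 0 := h (mem_univ _)
      exact one_ne_zero (congrFun h1 true)
  obtain ⟨J, hJ0J, hJ, N, hN⟩ := exists_inv_ideal (𝓔.D Bool) 𝓔.univ hint hsdm hsm Γ hΓB _ hJ0
  have hu1 : ∀ a, rb_sh1 K a ∈ Γ := by
    intro a
    refine ⟨?_, fun S hS => rb_d1 𝓔 a S hS, fun S hS => rb_d1 𝓔 (-a) S hS⟩
    funext b
    cases b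
    · show (0 : K) + (a : K) * 0 = 0
      rw [mul_zero, add_zero]
    · rfl
  have hu2 : ∀ a, rb_sh2 K a ∈ Γ := by
    intro a
    refine ⟨?_, fun S hS => rb_d2 𝓔 a S hS, fun S hS => rb_d2 𝓔 (-a) S hS⟩
    funext b
    cases b
    · rfl
    · show (0 : K) + (a : K) * 0 = 0
      rw [mul_zero, add_zero]
  have ha1 : ∀ a b, rb_sh1 K (a + b) = rb_sh1 K a * rb_sh1 K b := by
    intro a b
    apply Equiv.ext
    intro f
    funext c
    cases c
    · show f false + ((a + b : ℚ) : K) * f true = f false + (b : K) * f true + (a : K) * f true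
      rw [Rat.cast_add]
      ring
    · rfl
  have ha2 : ∀ a b, rb_sh2 K (a + b) = rb_sh2 K a * rb_sh2 K b := by
    intro a b
    apply Equiv.ext
    intro f
    funext c
    cases c
    · rfl
    · show f true + ((a + b : ℚ) : K) * f false = f true + (b : K) * f false + (a : K) * f false
      rw [Rat.cast_add]
      ring
  refine ⟨𝓔, J, hRC, hG, hJ.sub, hJ.down, hJ.union, hJ.proper, hJ0J ⟨hz, subset_rfl⟩, ?_, ?_, ?_⟩
  · intro g hg S hS
    have hdg : rb_dg g (hG0 g hg) ∈ Γ := by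
      refine ⟨?_, fun S hS => rb_d3 𝓔 g (hG g hg) S hS, fun S hS => rb_d3 𝓔 g⁻¹ (DE.inv (hG g hg)) S hS⟩
      funext b
      cases b
      · rfl
      · show g * 0 = 0
        rw [mul_zero]
    exact hJ.inv _ hdg S hS
  · intro a S hS
    exact act_trivial (𝓔.D Bool) 𝓔.univ hint hsdm Γ hΓB J hJ N hN (rb_sh1 K) ha1 hu1 S hS a
  · intro a S hS
    exact act_trivial (𝓔.D Bool) 𝓔.univ hint hsdm Γ hΓB J hJ N hN (rb_sh2 K) ha2 hu2 S hS a

end VCR
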