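import Pool.Agent.VCR.Fo

/-!
# VCR-TreeB: no strictly decreasing chains of definable subgroups with uniformly definable witnesses
-/

open Set

namespace VCR

universe v

/-- partial sums -/
private def bet {R : Type v} [Ring R] (b : ℕ → R) : List Bool → R
  | [] => 0
  | i :: s => bet b s + (if i then b s.length else 0)

private theorem bet_de {R : Type v} [Ring R] (𝓓 : Calc R) [RC 𝓓] (b : ℕ → R)
    (hb : ∀ n, DE 𝓓 (b n)) (s : List Bool) : DE 𝓓 (bet b s) := by
  induction s with
  | nil => exact DE.zero
  | cons i s ih =>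
    cases i
    · exact DE.add ih DE.zero
    · exact DE.add ih (hb _)

theorem no_add_chain {R : Type v} [Ring R] (𝓓 : Calc R) [RC 𝓓] (V : ℕ → AddSubgroup R)
    (hV : ∀ n, DS 𝓓 (V n : Set R)) (hle : ∀ n, V (n + 1) ≤ V n) (b : ℕ → R)
    (hb : ∀ n, DE 𝓓 (b n)) (hbV : ∀ n, b n ∈ V n) (hbn : ∀ n, b n ∉ V (n + 1)) : False := by
  refine 𝓓.small (fun s => {f : Unit → R | f () - bet b s ∈ V s.length}) ?_ fun s => ?_
  · refine ⟨fun s => ⟨fun _ => bet b s, ?_⟩, fun i s f hf => ?_, fun s => ?_⟩
    · show bet b s - bet b s ∈ V s.length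
      rw [sub_self]
      exact (V s.length).zero_mem
    · have h1 : f () - bet b (i :: s) ∈ V (s.length + 1) := hf
      have h2 := hle _ h1
      show f () - bet b s ∈ V s.length
      have h3 : f () - bet b s = (f () - bet b (i :: s)) + (if i then b s.length else 0) := by
        show f () - bet b s = (f () - (bet b s + (if i then b s.length else 0))) +
          (if i then b s.length else 0)
        abel
      rw [h3]
      refine (V s.length).add_mem h2 ?_
      cases i
      · exact (V s.length).zero_mem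
      · exact hbV _
    · rw [Set.disjoint_left]
      intro f h1 h2
      have h3 : f () - (bet b s + 0) ∈ V (s.length + 1) := h1
      have h4 : f () - (bet b s + b s.length) ∈ V (s.length + 1) := h2
      have h5 := (V (s.length + 1)).sub_mem h3 h4
      have h6 : f () - (bet b s + 0) - (f () - (bet b s + b s.length)) = b s.length := by abel
      rw [h6] at h5
      exact hbn _ h5
  · exact DS.app (hV s.length) (Df.subt (Df.var ()) (DE.app (bet_de 𝓓 b hb s)))

/-- partial products -/
private def mbet {K : Type v} [Field K] (b : ℕ → Kˣ) : List Bool → Kˣ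
  | [] => 1
  | i :: s => mbet b s * (if i then b s.length else 1)

private theorem mbet_de {K : Type v} [Field K] (𝓓 : Calc K) [RC 𝓓] (b : ℕ → Kˣ)
    (hb : ∀ n, DE 𝓓 (b n : K)) (s : List Bool) : DE 𝓓 (mbet b s : K) := by
  induction s with
  | nil => exact DE.one
  | cons i s ih =>
    have h : ((mbet b (i :: s) : Kˣ) : K) = (mbet b s : K) * ((if i then b s.length else 1 : Kˣ) : K) :=
      Units.val_mul _ _
    rw [h]
    cases i
    · exact DE.mul ih DE.one
    · exact DE.mul ih (hb _)

theorem no_mul_chain {K : Type v} [Field K] (𝓓 : Calc K) [RC 𝓓] (V : ℕ → Subgroup Kˣ)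
    (hV : ∀ n, DS 𝓓 {x : K | ∃ u ∈ V n, (u : K) = x}) (hle : ∀ n, V (n + 1) ≤ V n)
    (b : ℕ → Kˣ) (hb : ∀ n, DE 𝓓 (b n : K)) (hbV : ∀ n, b n ∈ V n) (hbn : ∀ n, b n ∉ V (n + 1)) :
    False := by
  refine 𝓓.small (fun s => {f : Unit → K | ∃ u ∈ V s.length, f () = (mbet b s : K) * (u : K)}) ?_
    fun s => ?_
  · refine ⟨fun s => ⟨fun _ => (mbet b s : K), 1, (V s.length).one_mem, ?_⟩, fun i s f hf => ?_,
      fun s => ?_⟩
    · simp
    · obtain ⟨u, hu, hf⟩ := hf
      have hu' : u ∈ V (s.length + 1) := hu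
      refine ⟨(if i then b s.length else 1) * u, (V s.length).mul_mem ?_ (hle _ hu'), ?_⟩
      · cases i
        · exact (V s.length).one_mem
        · exact hbV _
      · rw [hf]
        show ((mbet b s * (if i then b s.length else 1) : Kˣ) : K) * (u : K) = _
        push_cast
        ring
    · rw [Set.disjoint_left]
      rintro f ⟨u, hu, hf⟩ ⟨u', hu', hf'⟩
      have h1 : f () = ((mbet b s * 1 : Kˣ) : K) * (u : K) := hf
      have h2 : f () = ((mbet b s * b s.length : Kˣ) : K) * (u' : K) := hf'
      have h3 : mbet b s * 1 * u = mbet b s * b s.length * u' := by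
        apply Units.ext
        rw [Units.val_mul, Units.val_mul _ u', ← h1, ← h2]
      have h4 : u = b s.length * u' := by
        rw [mul_one, mul_assoc] at h3
        exact mul_left_cancel h3
      have h5 : b s.length = u * u'⁻¹ := by
        rw [h4, mul_inv_cancel_right]
      apply hbn s.length
      rw [h5]
      exact (V (s.length + 1)).mul_mem hu ((V (s.length + 1)).inv_mem hu')
  · have h1 : Dp 𝓓 (fun f : Unit → K => (mbet b s : K)⁻¹ * f () ∈ {x : K | ∃ u ∈ V s.length, (u : K) = x}) :=
      DS.app (hV s.length) (Df.mul (DE.app (DE.inv (mbet_de 𝓓 b hb s))) (Df.var ()))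
    refine Dp.congr (fun f => ?_) h1
    have h0 : (mbet b s : K) ≠ 0 := Units.ne_zero _
    constructor
    · rintro ⟨u, hu, h⟩
      refine ⟨u, hu, ?_⟩
      rw [h, mul_inv_cancel_left₀ h0]
    · rintro ⟨u, hu, h⟩
      refine ⟨u, hu, ?_⟩
      rw [h, inv_mul_cancel_left₀ h0]

end VCR
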