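import Pool.Agent.VCR.Perf
import Pool.Agent.VCR.MycB
import Pool.Agent.VCR.FamB

/-!
# VCR-TreeL: a tree of definable sets gives perfectly many countable models

`tree_lemma`: the family of `exists_family` is thinned out by `exists_mycielski` such that no two of its members are
isomorphic: an isomorphism `s x ≃ s y` gives a tuple in `s x` which realizes the branch `y`, and every tuple realizes
at most one branch.
-/

open Set FirstOrder

namespace VCR

universe u

private theorem realize_symm {L : FirstOrder.Language.{0, 0}} {A B : Type} [L.Structure A] [L.Structure B]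
    (e : A ≃[L] B) {α : Type} (φ : L.Formula α) (j : α → B) (h : φ.Realize j) :
    φ.Realize (fun a => e.symm (j a)) :=
  (FirstOrder.Language.StrongHomClass.realize_formula e.symm φ).2 h

theorem tree_lemma {L : FirstOrder.Language.{0, 0}} [Countable L.Symbols] (T : L.Theory)
    {M : Type u} [L.Structure M] [Infinite M] (hM : M ⊨ T) (k : ℕ)
    (S : List Bool → Set (Fin k → M)) (hS : IsTree S)
    (hdef : ∀ t, (∅ : Set M).Definable L (S t)) : PerfectMany T := by
  obtain ⟨φ, hφ⟩ : ∃ φ : List Bool → L.Formula (Fin k), ∀ t u, u ∈ S t ↔ (φ t).Realize u := by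
    have h1 : ∀ t, ∃ φ : L.Formula (Fin k), ∀ u, u ∈ S t ↔ φ.Realize u := by
      intro t
      obtain ⟨φ, h⟩ := Set.empty_definable_iff.1 (hdef t)
      refine ⟨φ, fun u => ?_⟩
      rw [h]
      exact Iff.rfl
    choose φ h using h1
    exact ⟨φ, h⟩
  obtain ⟨r, s, U, G, hs, hU, hdis, hsub, hlos, hclop, hcoord⟩ := exists_family (L := L) k S hS
  have hsat : ∀ x t (j : Fin k → ℕ), Sat (s x) (φ (r t)) j ↔
      ∀ᶠ u in (U x : Filter (Fin k → M)), (fun a => G x (j a) u) ∈ S (r t) := by
    intro x t j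
    rw [hlos]
    exact Filter.eventually_congr (Filter.Eventually.of_forall fun u => (hφ _ _).symm)
  have hmod : ∀ x, s x ∈ Mod T := by
    intro x
    refine @FirstOrder.Language.Theory.Model.mk L ℕ (toStructure (s x)) T ?_
    intro σ hσ
    have h1 : ∀ v : Empty → ℕ, Sat (s x) (σ : L.Formula Empty) v := by
      intro v
      rw [hlos]
      refine Filter.Eventually.of_forall fun u => ?_
      have h2 : (fun a : Empty => G x (v a) u) = default := Subsingleton.elim _ _
      rw [h2]
      exact FirstOrder.Language.Theory.realize_sentence_of_mem T hσ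
    exact h1 _
  have hreal : ∀ x, ∃ j : Fin k → ℕ, ∀ n, Sat (s x) (φ (r (PiNat.res x n))) j := by
    intro x
    choose j hj using hcoord x
    refine ⟨j, fun n => ?_⟩
    rw [hsat]
    have h1 : ∀ᶠ u in (U x : Filter (Fin k → M)), ∀ l, G x (j l) u = u l := Filter.eventually_all.2 hj
    have h2 : ∀ᶠ u in (U x : Filter (Fin k → M)), u ∈ S (r (PiNat.res x n)) := hU x n
    filter_upwards [h1, h2] with u h3 h4
    have h5 : (fun a => G x (j a) u) = u := funext h3
    rw [h5]
    exact h4
  obtain ⟨C, hC⟩ : ∃ C : (Fin k → ℕ) → Set ((ℕ → Bool) × (ℕ → Bool)), ∀ j x y,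
      (x, y) ∈ C j ↔ ∀ n, Sat (s x) (φ (r (PiNat.res y n))) j :=
    ⟨fun j => {p | ∀ n, Sat (s p.1) (φ (r (PiNat.res p.2 n))) j}, fun _ _ _ => Iff.rfl⟩
  have hCcl : ∀ j, IsClosed (C j) := by
    intro j
    rw [← isOpen_compl_iff, isOpen_iff_mem_nhds]
    rintro ⟨x, y⟩ hp
    obtain ⟨n, hn⟩ : ∃ n, ¬ Sat (s x) (φ (r (PiNat.res y n))) j := by
      by_contra hcon
      push Not at hcon
      exact hp ((hC j x y).2 hcon)
    have h1 : {x' | Sat (s x') (φ (r (PiNat.res y n))) j}ᶜ ∈ nhds x :=
      ((hclop k (φ (r (PiNat.res y n))) j).1.isOpen_compl).mem_nhds hn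
    have h2 : PiNat.cylinder y n ∈ nhds y :=
      (PiNat.isOpen_cylinder (fun _ => Bool) y n).mem_nhds (PiNat.self_mem_cylinder y n)
    filter_upwards [prod_mem_nhds h1 h2] with q hq
    obtain ⟨x', y'⟩ := q
    obtain ⟨h3, h4⟩ := hq
    intro hq2
    rw [hC] at hq2
    apply h3
    have h5 : PiNat.res y' n = PiNat.res y n := PiNat.res_eq_res.2 (fun m hm => h4 m hm)
    have h6 := hq2 n
    rw [h5] at h6
    exact h6
  have hC1 : ∀ j x y y', (x, y) ∈ C j → (x, y') ∈ C j → y = y' := by
    intro j x y y' hy hy'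
    rw [hC] at hy hy'
    by_contra hne
    have h1 : ∃ n, y n ≠ y' n := Function.ne_iff.1 hne
    obtain ⟨n, hn, hmin⟩ : ∃ n, y n ≠ y' n ∧ ∀ m, m < n → y m = y' m := by
      classical
      exact ⟨Nat.find h1, Nat.find_spec h1, fun m hm => not_not.1 (Nat.find_min h1 hm)⟩
    have h2 : PiNat.res y n = PiNat.res y' n := PiNat.res_eq_res.2 (fun m hm => hmin m hm)
    have h3 := (hsat x _ j).1 (hy (n + 1))
    have h4 := (hsat x _ j).1 (hy' (n + 1))
    rw [PiNat.res_succ] at h3 h4
    rw [← h2] at h4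
    obtain ⟨u, h5, h6⟩ := (h3.and h4).exists
    have h7 := Set.disjoint_left.1 (hdis (PiNat.res y n))
    cases hb : y n with
    | false =>
      cases hb' : y' n with
      | false => exact hn (by rw [hb, hb'])
      | true =>
        rw [hb] at h5
        rw [hb'] at h6
        exact h7 h5 h6
    | true =>
      cases hb' : y' n with
      | true => exact hn (by rw [hb, hb'])
      | false =>
        rw [hb] at h5
        rw [hb'] at h6
        exact h7 h6 h5
  have hiso : ∀ x y, Iso (s x) (s y) → ∃ j, (x, y) ∈ C j := by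
    rintro x y ⟨e⟩
    obtain ⟨j', hj'⟩ := hreal y
    refine ⟨fun a => (@FirstOrder.Language.Equiv.symm L ℕ ℕ (toStructure (s x)) (toStructure (s y)) e) (j' a), ?_⟩
    rw [hC]
    intro n
    exact @realize_symm L ℕ ℕ (toStructure (s x)) (toStructure (s y)) e _ _ j' (hj' n)
  obtain ⟨h, hcont, hinj, hav⟩ := exists_mycielski C hCcl hC1
  refine perfectMany_of_cantor T (fun x => s (h x)) (hs.comp hcont) (fun x => hmod _) ?_
  intro x y hxy hI
  obtain ⟨j, hj⟩ := hiso _ _ hI
  exact hav x y hxy j hj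

end VCR
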