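import Mathlib

/-!
# VCR-WeylA: algebra for the logarithmic derivatives of a Weyl pair
-/

open Set Polynomial

namespace VCR

universe v

/-- a group closed under division by integers as a rational vector space -/
def ratSub {K : Type v} [Field K] [CharZero K] (L : AddSubgroup K)
    (hQ : ∀ n : ℕ, n ≠ 0 → ∀ v ∈ L, (n : K)⁻¹ * v ∈ L) : Submodule ℚ K where
  carrier := L
  add_mem' := L.add_mem
  zero_mem' := L.zero_mem
  smul_mem' := fun q v hv => by
    have h1 : (q • v : K) = ((q.den : ℕ) : K)⁻¹ * (q.num • v) := by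
      rw [Rat.smul_def, zsmul_eq_mul, ← mul_assoc]
      congr 1
      conv_lhs => rw [← Rat.num_div_den q]
      push_cast
      rw [div_eq_mul_inv, mul_comm]
    rw [h1]
    exact hQ _ q.den_ne_zero _ (L.zsmul_mem hv _)

theorem mem_ratSub {K : Type v} [Field K] [CharZero K] {L : AddSubgroup K}
    {hQ : ∀ n : ℕ, n ≠ 0 → ∀ v ∈ L, (n : K)⁻¹ * v ∈ L} {v : K} : v ∈ ratSub L hQ ↔ v ∈ L := Iff.rfl

theorem aeval_mem {K : Type v} [Field K] (L : AddSubgroup K) (a v : K) (m : ℕ)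
    (hv : ∀ j < m, v * a ^ j ∈ L) (P : ℤ[X]) (hP : P.degree < m) : v * aeval a P ∈ L := by
  by_cases hP0 : P = 0
  · rw [hP0, map_zero, mul_zero]
    exact L.zero_mem
  rw [aeval_eq_sum_range' ((natDegree_lt_iff_degree_lt hP0).2 hP)]
  rw [Finset.mul_sum]
  refine L.sum_mem fun j hj => ?_
  rw [mul_smul_comm]
  exact L.zsmul_mem (hv j (Finset.mem_range.1 hj)) _

/-- division with remainder by `X - t` -/
theorem aeval_div {K : Type v} [Field K] (a : K) (t : ℤ) (P : ℤ[X]) :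
    aeval a P = (a - t) * aeval a (P /ₘ (X - C t)) + ((P.eval t : ℤ) : K) := by
  have h := congrArg (aeval a) (modByMonic_add_div P (X - C t))
  rw [modByMonic_X_sub_C_eq_C_eval, map_add, map_mul, map_sub, aeval_X] at h
  rw [← h]
  simp only [aeval_C, algebraMap_int_eq, Int.coe_castRingHom]
  ring

theorem degree_div_lt {P : ℤ[X]} {m : ℕ} (t : ℤ) (hP : P.degree < ((m + 1 : ℕ) : WithBot ℕ)) :
    (P /ₘ (X - C t)).degree < (m : WithBot ℕ) := by
  by_cases hP0 : P = 0
  · rw [hP0, zero_divByMonic, degree_zero]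
    exact WithBot.bot_lt_coe m
  have h1 := degree_divByMonic_lt P (X - C t) hP0 (by rw [degree_X_sub_C]; exact zero_lt_one)
  refine lt_of_lt_of_le h1 ?_
  rw [degree_eq_natDegree hP0] at hP ⊢
  norm_cast at hP ⊢
  omega

/-- partial fractions -/
theorem frac_mem {K : Type v} [Field K] [CharZero K] (L : AddSubgroup K)
    (hQ : ∀ n : ℕ, n ≠ 0 → ∀ v ∈ L, (n : K)⁻¹ * v ∈ L) (a : K) (ha : ∀ n : ℕ, a ≠ n)
    (hi : ∀ n : ℕ, (a - n)⁻¹ ∈ L) (k : ℕ) :
    ∀ l : ℕ, ∏ i ∈ Finset.range (k + 1), (a - ((l + i : ℕ) : K))⁻¹ ∈ L := by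
  induction k with
  | zero =>
    intro l
    simpa using hi l
  | succ k ih =>
    intro l
    have h2 := hQ (k + 1) (Nat.succ_ne_zero k) _ (L.sub_mem (ih (l + 1)) (ih l))
    obtain ⟨F, hF⟩ : ∃ F, F = ∏ i ∈ Finset.range (k + 1 + 1), (a - ((l + i : ℕ) : K))⁻¹ := ⟨_, rfl⟩
    have e0 : ∏ i ∈ Finset.range (k + 1), (a - ((l + i : ℕ) : K))⁻¹ =
        F * (a - ((l + (k + 1) : ℕ) : K)) := by
      rw [hF, Finset.prod_range_succ _ (k + 1), inv_mul_cancel_right₀ (sub_ne_zero.2 (ha _))]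
    have e1 : ∏ i ∈ Finset.range (k + 1), (a - ((l + 1 + i : ℕ) : K))⁻¹ = F * (a - (l : K)) := by
      rw [hF, Finset.prod_range_succ' _ (k + 1)]
      simp only [Nat.add_zero]
      rw [inv_mul_cancel_right₀ (sub_ne_zero.2 (ha _))]
      refine Finset.prod_congr rfl fun i _ => ?_
      rw [show l + 1 + i = l + (i + 1) by ring]
    rw [e0, e1] at h2
    have h3 : (((k + 1 : ℕ) : K))⁻¹ * (F * (a - (l : K)) - F * (a - ((l + (k + 1) : ℕ) : K))) = F := by
      have h4 : ((k + 1 : ℕ) : K) ≠ 0 := Nat.cast_ne_zero.2 (Nat.succ_ne_zero k)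
      rw [inv_mul_eq_iff_eq_mul₀ h4]
      push_cast
      ring
    rw [h3, hF] at h2
    exact h2

theorem frac_poly {K : Type v} [Field K] [CharZero K] (L : AddSubgroup K)
    (hQ : ∀ n : ℕ, n ≠ 0 → ∀ v ∈ L, (n : K)⁻¹ * v ∈ L) (a : K) (ha : ∀ n : ℕ, a ≠ n)
    (hi : ∀ n : ℕ, (a - n)⁻¹ ∈ L) (k : ℕ) : ∀ P : ℤ[X], P.degree < ((k + 1 : ℕ) : WithBot ℕ) →
      (∏ i ∈ Finset.range (k + 1), (a - (i : K))⁻¹) * aeval a P ∈ L := by
  induction k with
  | zero =>
    intro P hP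
    have h0 : P = C (P.coeff 0) := eq_C_of_degree_le_zero (by
      by_cases hP0 : P = 0
      · rw [hP0, degree_zero]
        exact bot_le
      · rw [degree_eq_natDegree hP0] at hP ⊢
        norm_cast at hP ⊢
        omega)
    rw [h0, aeval_C, zero_add, Finset.prod_range_one, mul_comm, algebraMap_int_eq, Int.coe_castRingHom,
      ← zsmul_eq_mul]
    exact L.zsmul_mem (hi 0) _
  | succ k ih =>
    intro P hP
    have h1 := ih _ (degree_div_lt ((k + 1 : ℕ) : ℤ) hP)
    have h2 := frac_mem L hQ a ha hi (k + 1) 0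
    simp only [Nat.zero_add] at h2
    have h3 := L.add_mem h1 (L.zsmul_mem h2 (P.eval ((k + 1 : ℕ) : ℤ)))
    have h4 := aeval_div a ((k + 1 : ℕ) : ℤ) P
    rw [h4, mul_add]
    have h5 : (∏ i ∈ Finset.range (k + 1 + 1), (a - (i : K))⁻¹) *
        ((a - (((k + 1 : ℕ) : ℤ) : K)) * aeval a (P /ₘ (X - C ((k + 1 : ℕ) : ℤ)))) =
        (∏ i ∈ Finset.range (k + 1), (a - (i : K))⁻¹) * aeval a (P /ₘ (X - C ((k + 1 : ℕ) : ℤ))) := by
      rw [Finset.prod_range_succ _ (k + 1), Int.cast_natCast]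
      have := sub_ne_zero.2 (ha (k + 1))
      rw [mul_assoc, inv_mul_cancel_left₀ this]
    rw [h5, mul_comm _ (((P.eval ((k + 1 : ℕ) : ℤ)) : ℤ) : K), ← zsmul_eq_mul]
    exact h3

/-- Let `L` be a rational subspace which contains all `(a - n)⁻¹`. If the subspaces `(a - n) * L` are not independent, and
the elements `v` with `v`, `v * a`, ... , `v * a ^ (m - 1)` in `L` form a group `V` with `(a - t) * V = V` as soon as `V` is
contained in `(a - t) * V`, then `a` is in `L`. -/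
theorem lam_core {K : Type v} [Field K] [CharZero K] (L : AddSubgroup K)
    (hQ : ∀ n : ℕ, n ≠ 0 → ∀ v ∈ L, (n : K)⁻¹ * v ∈ L) (a : K) (ha : ∀ n : ℕ, a ≠ n)
    (hi : ∀ n : ℕ, (a - n)⁻¹ ∈ L) (n : ℕ) (ε : ℕ → Bool)
    (hε : ∀ x, ∃ i < n, ¬ ((a - i)⁻¹ * x ∈ L ↔ ε i = true))
    (hE : ∀ m t : ℕ, (∀ v, (∀ j < m, v * a ^ j ∈ L) → ∀ j < m, (a - t)⁻¹ * v * a ^ j ∈ L) →
      ∀ v, (∀ j < m, v * a ^ j ∈ L) → ∀ j < m, (a - t) * v * a ^ j ∈ L) : a ∈ L := by
  classical
  have hat : ∀ n : ℕ, a - n ≠ 0 := fun n => sub_ne_zero.2 (ha n)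
  -- the intersection of the positive subspaces is contained in one of the others
  let S : Finset ℕ := (Finset.range n).filter fun i => ε i = true
  obtain ⟨W, hW⟩ : ∃ W : Submodule ℚ K, ∀ z, z ∈ W ↔ ∀ s ∈ S, (a - (s : K))⁻¹ * z ∈ L := by
    refine ⟨⨅ s ∈ S, (ratSub L hQ).comap (LinearMap.mulLeft ℚ ((a - (s : K))⁻¹)), fun z => ?_⟩
    simp only [Submodule.mem_iInf, Submodule.mem_comap, LinearMap.mulLeft_apply, mem_ratSub]
  obtain ⟨t, htn, htε, ht⟩ : ∃ t, t < n ∧ ε t = false ∧ ∀ z ∈ W, (a - (t : K))⁻¹ * z ∈ L := by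
    have : Finite {t : ℕ // t < n ∧ ε t = false} :=
      Finite.of_injective (fun t => (⟨t.1, t.2.1⟩ : Fin n)) fun x y hxy => by
        have := congrArg Fin.val hxy
        exact Subtype.ext this
    obtain ⟨⟨t, ht1, ht2⟩, ht⟩ := Subspace.exists_eq_top_of_iUnion_eq_univ
      (ι := {t : ℕ // t < n ∧ ε t = false}) (k := ℚ) (E := W)
      (p := fun t => ((ratSub L hQ).comap (LinearMap.mulLeft ℚ ((a - ((t : ℕ) : K))⁻¹))).comap W.subtype)
      (by
        rw [Set.eq_univ_iff_forall]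
        intro z
        obtain ⟨i, hin, hi⟩ := hε z
        rw [Set.mem_iUnion]
        have hεi : ε i = false := by
          by_contra hcon
          rw [Bool.not_eq_false] at hcon
          apply hi
          exact ⟨fun _ => hcon, fun _ => (hW z).1 z.2 i (Finset.mem_filter.2 ⟨Finset.mem_range.2 hin, hcon⟩)⟩
        refine ⟨⟨i, hin, hεi⟩, ?_⟩
        by_contra hcon
        apply hi
        refine ⟨fun h => absurd h hcon, fun h => ?_⟩
        rw [hεi] at h
        cases h)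
    refine ⟨t, ht1, ht2, fun z hz => ?_⟩
    have h1 : (⟨z, hz⟩ : W) ∈ ((ratSub L hQ).comap (LinearMap.mulLeft ℚ ((a - ((t : ℕ) : K))⁻¹))).comap
        W.subtype := by
      rw [ht]
      exact Submodule.mem_top
    exact h1
  have htS : t ∉ S := fun h => by
    rw [Finset.mem_filter, htε] at h
    exact Bool.false_ne_true h.2
  obtain ⟨m, hm⟩ : ∃ m, m = S.card := ⟨_, rfl⟩
  -- `v ∈ V_m` implies `v / (a - t) ∈ V_{m+1}`
  have key : ∀ v, (∀ j < m, v * a ^ j ∈ L) → ∀ j < m + 1, (a - (t : K))⁻¹ * v * a ^ j ∈ L := by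
    intro v hv
    -- `Q = ∏ (X - s)`
    obtain ⟨Q, hQd⟩ : ∃ Q : ℤ[X], Q = ∏ s ∈ S, (X - C (s : ℤ)) := ⟨_, rfl⟩
    have hQa : aeval a Q = ∏ s ∈ S, (a - (s : K)) := by
      rw [hQd, map_prod]
      refine Finset.prod_congr rfl fun s _ => ?_
      simp
    have hQdeg : Q.degree < ((m + 1 : ℕ) : WithBot ℕ) := by
      rw [hQd, degree_prod]
      simp only [degree_X_sub_C, Finset.sum_const, nsmul_eq_mul, mul_one]
      rw [hm]
      exact_mod_cast Nat.lt_succ_self _
    have h1 : v * ∏ s ∈ S, (a - (s : K)) ∈ W := by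
      rw [hW]
      intro s hs
      have h2 : (a - (s : K))⁻¹ * (v * ∏ s ∈ S, (a - (s : K))) =
          v * aeval a (∏ s ∈ S.erase s, (X - C (s : ℤ)) : ℤ[X]) := by
        rw [← Finset.mul_prod_erase S _ hs, map_prod]
        have h3 : ∏ x ∈ S.erase s, (aeval a) (X - C (x : ℤ)) = ∏ x ∈ S.erase s, (a - (x : K)) := by
          refine Finset.prod_congr rfl fun s _ => ?_
          simp
        rw [h3]
        field_simp [hat s]
      rw [h2]
      refine aeval_mem L a v m hv _ ?_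
      rw [degree_prod]
      simp only [degree_X_sub_C, Finset.sum_const, nsmul_eq_mul, mul_one]
      rw [Finset.card_erase_of_mem hs, hm]
      have : 0 < S.card := Finset.card_pos.2 ⟨s, hs⟩
      exact_mod_cast Nat.sub_lt this Nat.one_pos
    have h2 := ht _ h1
    have hw : (a - (t : K))⁻¹ * v ∈ L := by
      rw [← hQa, aeval_div a (t : ℤ) Q] at h2
      have h3 : v * aeval a (Q /ₘ (X - C (t : ℤ))) ∈ L :=
        aeval_mem L a v m hv _ (degree_div_lt (t : ℤ) hQdeg)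
      obtain ⟨ρ, hρ⟩ : ∃ ρ : ℤ, ρ = Q.eval (t : ℤ) := ⟨_, rfl⟩
      have hρ0 : ρ ≠ 0 := by
        rw [hρ, hQd, eval_prod, Finset.prod_ne_zero_iff]
        intro s hs
        rw [eval_sub, eval_X, eval_C, sub_ne_zero]
        intro h
        have : t = s := by exact_mod_cast h
        rw [this] at htS
        exact htS hs
      have h4 := L.sub_mem h2 h3
      rw [← hρ] at h4
      have h5 : (a - (t : K))⁻¹ * (v * ((a - ((t : ℤ) : K)) * aeval a (Q /ₘ (X - C (t : ℤ))) + (ρ : K))) -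
          v * aeval a (Q /ₘ (X - C (t : ℤ))) = (ρ : K) * ((a - (t : K))⁻¹ * v) := by
        have := hat t
        push_cast
        field_simp
        ring
      rw [h5] at h4
      have h6 := hQ ρ.natAbs (Int.natAbs_ne_zero.2 hρ0) _ h4
      have hρK : (ρ : K) ≠ 0 := Int.cast_ne_zero.2 hρ0
      rw [Nat.cast_natAbs] at h6
      rcases abs_choice ρ with h7 | h7
      · rw [h7, inv_mul_cancel_left₀ hρK] at h6
        exact h6
      · rw [h7, Int.cast_neg, inv_neg, neg_mul, inv_mul_cancel_left₀ hρK] at h6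
        have h9 := L.neg_mem h6
        rwa [neg_neg] at h9
    intro j hj
    have h3 : (a - (t : K))⁻¹ * v * a ^ j = v * aeval a ((X ^ j : ℤ[X]) /ₘ (X - C (t : ℤ))) +
        (t ^ j : ℤ) • ((a - (t : K))⁻¹ * v) := by
      have h4 := aeval_div a (t : ℤ) (X ^ j : ℤ[X])
      rw [map_pow, aeval_X, eval_pow, eval_X] at h4
      rw [h4, zsmul_eq_mul]
      have := hat t
      push_cast
      field_simp
    rw [h3]
    refine L.add_mem (aeval_mem L a v m hv _ (degree_div_lt (t : ℤ) ?_)) (L.zsmul_mem hw _)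
    rw [degree_X_pow]
    exact_mod_cast hj
  -- `V_m` is stable under `a - t`, and `V_m = V_{m+1}`
  have hst := hE m t fun v hv j hj => key v hv j (Nat.lt_succ_of_lt hj)
  have hup : ∀ v, (∀ j < m, v * a ^ j ∈ L) → ∀ j < m + 1, v * a ^ j ∈ L := by
    intro v hv j hj
    have h1 := key _ (hst v hv) j hj
    rwa [← mul_assoc, inv_mul_cancel₀ (hat t), one_mul] at h1
  have hast : ∀ v, (∀ j < m, v * a ^ j ∈ L) → ∀ j < m, (a * v) * a ^ j ∈ L := by
    intro v hv j hj
    have h1 := L.add_mem (hst v hv j hj) (L.zsmul_mem (hv j hj) (t : ℤ))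
    have h2 : (a - (t : K)) * v * a ^ j + (t : ℤ) • (v * a ^ j) = a * v * a ^ j := by
      rw [zsmul_eq_mul]
      push_cast
      ring
    rwa [h2] at h1
  have hast' : ∀ (i : ℕ) v, (∀ j < m, v * a ^ j ∈ L) → ∀ j < m, ((a - (i : K)) * v) * a ^ j ∈ L := by
    intro i v hv j hj
    have h1 := L.sub_mem (hast v hv j hj) (L.zsmul_mem (hv j hj) (i : ℤ))
    have h2 : a * v * a ^ j - (i : ℤ) • (v * a ^ j) = (a - (i : K)) * v * a ^ j := by
      rw [zsmul_eq_mul]
      push_cast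
      ring
    rwa [h2] at h1
  -- partial fractions
  have hv0 : ∀ k, k ≤ m + 1 → ∀ j < m, (∏ i ∈ Finset.range (m + 1 - k), (a - (i : K))⁻¹) * a ^ j ∈ L := by
    intro k
    induction k with
    | zero =>
      intro _ j hj
      have h1 := frac_poly L hQ a ha hi m (X ^ j : ℤ[X]) (by
        rw [degree_X_pow]
        exact_mod_cast Nat.lt_succ_of_lt hj)
      rw [map_pow, aeval_X] at h1
      exact h1
    | succ k ih =>
      intro hk j hj
      have h1 := hast' (m - k) _ (ih (by omega)) j hj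
      have h2 : m + 1 - k = (m + 1 - (k + 1)) + 1 := by omega
      have h3 : m + 1 - (k + 1) = m - k := by omega
      rw [h2, Finset.prod_range_succ, h3, mul_comm (∏ i ∈ Finset.range (m - k), (a - (i : K))⁻¹),
        mul_inv_cancel_left₀ (hat (m - k))] at h1
      rw [h3]
      exact h1
  have h1 : ∀ j < m, (1 : K) * a ^ j ∈ L := by
    intro j hj
    have h2 := hv0 (m + 1) le_rfl j hj
    rwa [Nat.sub_self, Finset.prod_range_zero] at h2
  have h2 := hup _ (hast 1 h1) 0 (Nat.succ_pos m)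
  rwa [mul_one, pow_zero, mul_one] at h2

end VCR
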