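import Pool.Agent.VCR.WeylA
import Pool.Agent.VCR.DivB

/-!
# VCR-WeylB: logarithmic derivatives in a field with a calculus; the end of the argument
-/

open Set

namespace VCR

universe v

/-- multiplication by a nonzero element which maps a definable additive group into itself maps it onto itself -/
theorem inv_mul_mem {D : Type v} [DivisionRing D] (𝓓 : Calc D) [RC 𝓓] (V : AddSubgroup D)
    (hV : DS 𝓓 (V : Set D)) (c : D) (hc : c ≠ 0) (h : ∀ v ∈ V, c * v ∈ V) (v : D) (hv : v ∈ V) :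
    c⁻¹ * v ∈ V := by
  obtain ⟨𝓔, hle, hc', hv'⟩ := exists_adj_two 𝓓 c v
  have : RC 𝓔 := RC.mono hle
  by_contra hcon
  let W : ℕ → AddSubgroup D := fun n => V.comap (AddMonoidHom.mulLeft ((c⁻¹) ^ n))
  have hW : ∀ n z, z ∈ W n ↔ (c⁻¹) ^ n * z ∈ V := fun n z => Iff.rfl
  refine no_add_chain 𝓔 W (fun n => ?_) (fun n z hz => ?_) (fun n => c ^ n * v) (fun n => ?_)
    (fun n => ?_) (fun n hn => ?_)
  · exact DS.app (DS.mono hle hV) (Df.mul (DE.app (DE.pow (DE.inv hc') n)) (Df.var ()))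
  · rw [hW] at hz ⊢
    have h1 := h _ hz
    rwa [← mul_assoc, pow_succ', ← mul_assoc, mul_inv_cancel₀ hc, one_mul] at h1
  · exact DE.mul (DE.pow hc' n) hv'
  · show c ^ n * v ∈ W n
    rw [hW, ← mul_assoc, inv_pow, inv_mul_cancel₀ (pow_ne_zero n hc), one_mul]
    exact hv
  · rw [hW, pow_succ', mul_assoc, ← mul_assoc ((c⁻¹) ^ n), inv_pow,
      inv_mul_cancel₀ (pow_ne_zero n hc), one_mul] at hn
    exact hcon hn

/-- a definable additive subgroup of a field of characteristic `0` with a calculus which contains all `(a - n)⁻¹`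
contains `a` -/
theorem lam_mem {K : Type v} [Field K] [CharZero K] (𝓓 : Calc K) [RC 𝓓] (L : AddSubgroup K)
    (hL : DS 𝓓 (L : Set K)) (a : K) (ha : ∀ n : ℕ, a ≠ n) (hi : ∀ n : ℕ, (a - n)⁻¹ ∈ L) : a ∈ L := by
  obtain ⟨𝓔, hle, haE⟩ := exists_adj_one 𝓓 a
  have : RC 𝓔 := RC.mono hle
  have hLE : DS 𝓔 (L : Set K) := DS.mono hle hL
  have hQ : ∀ n : ℕ, n ≠ 0 → ∀ v ∈ L, (n : K)⁻¹ * v ∈ L := fun n hn v hv =>
    inv_mul_mem 𝓔 L hLE n (Nat.cast_ne_zero.2 hn) (fun v hv => by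
      rw [← nsmul_eq_mul]
      exact L.nsmul_mem hv n) v hv
  have hno : ∃ (n : ℕ) (ε : ℕ → Bool), ∀ x, ∃ i < n, ¬ ((a - (i : K))⁻¹ * x ∈ L ↔ ε i = true) := by
    by_contra hcon
    push Not at hcon
    refine no_indep 𝓔 (fun n => {z | (a - (n : K))⁻¹ * z ∈ L}) (fun n => ?_) fun n ε => ?_
    · exact DS.app hLE (Df.mul (DE.app (DE.inv (DE.sub haE (DE.natCast n)))) (Df.var ()))
    · obtain ⟨x, hx⟩ := hcon n ε
      exact ⟨x, hx⟩
  obtain ⟨n, ε, hε⟩ := hno
  refine lam_core L hQ a ha hi n ε hε fun m t hmt v hv j hj => ?_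
  let V : AddSubgroup K :=
    { carrier := {v | ∀ j < m, v * a ^ j ∈ L}
      add_mem' := fun {v w} hv hw j hj => by
        rw [add_mul]
        exact L.add_mem (hv j hj) (hw j hj)
      zero_mem' := fun j hj => by
        rw [zero_mul]
        exact L.zero_mem
      neg_mem' := fun {v} hv j hj => by
        rw [neg_mul]
        exact L.neg_mem (hv j hj) }
  have hVd : DS 𝓔 (V : Set K) := by
    have h1 : Dp 𝓔 (fun f : Unit → K => ∀ j ∈ Finset.range m, f () * a ^ j ∈ (L : Set K)) :=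
      Dp.ball _ fun j _ => DS.app hLE (Df.mul (Df.var ()) (DE.app (DE.pow haE j)))
    refine Dp.congr (fun f => ?_) h1
    simp only [Finset.mem_range]
    rfl
  have h1 := inv_mul_mem 𝓔 V hVd ((a - (t : K))⁻¹) (inv_ne_zero (sub_ne_zero.2 (ha t)))
    (fun v hv => hmt v hv) v hv j hj
  rwa [inv_inv] at h1

end VCR
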